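import Pool.Agent.Lib.MP_b60633_nt.W.A3

/-!
# MP_b60633_nt, A2: length and degree of the entries (helper11)
-/

set_option autoImplicit false

namespace Pool.Agent.MPb60633

namespace A2

open Polynomial

lemma len_C_mul_X_pow (m : ℤ) (d : ℕ) : len (C m * X ^ d) = |(m : ℝ)| := by
  rw [A3.len_eq _ (m := d + 1) (Nat.lt_succ_of_le (Polynomial.natDegree_C_mul_X_pow_le m d))]
  rw [Finset.sum_eq_single d]
  · rw [Polynomial.coeff_C_mul_X_pow, if_pos rfl]
  · intro i _ hi
    rw [Polynomial.coeff_C_mul_X_pow, if_neg hi]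
    simp
  · intro h
    simp at h

lemma len_sum {ι : Type*} (s : Finset ι) (f : ι → ℤ[X]) :
    len (∑ i ∈ s, f i) ≤ ∑ i ∈ s, len (f i) := by
  classical
  induction s using Finset.induction_on with
  | empty => simp [A3.len_zero]
  | insert a t ha ih =>
    rw [Finset.sum_insert ha, Finset.sum_insert ha]
    exact (A3.len_add _ _).trans (by linarith)

lemma toC1 (a b : ℤ) : ((⟨2 * a + 1, 2 * b⟩ : GaussianInt) : ℂ) = 2 * kap a b := by
  rw [GaussianInt.toComplex_def', kap]
  push_cast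
  ring

lemma toC2 (a b : ℤ) : ((⟨2 * a + 1, -(2 * b)⟩ : GaussianInt) : ℂ) = 2 * kap a (-b) := by
  rw [GaussianInt.toComplex_def', kap]
  push_cast
  ring

lemma kap_conj (a b : ℤ) : kap a (-b) = (starRingEnd ℂ) (kap a b) := by
  unfold kap
  simp only [map_add, map_mul, Complex.conj_I, map_div₀, map_one, map_intCast, Complex.conj_ofNat]
  push_cast
  ring

lemma gint_le (part : Fin 2) (a b : ℤ) (u v : ℕ) {S : ℝ} (hS : ‖2 * kap a b‖ ≤ S) :
    |(gint part a b u v : ℝ)| ≤ S ^ (u + v) := by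
  have hS2 : ‖2 * kap a (-b)‖ ≤ S := by
    rw [norm_mul, kap_conj, Complex.norm_conj, ← norm_mul]
    exact hS
  have hn : ‖(((⟨2 * a + 1, 2 * b⟩ : GaussianInt) ^ u * (⟨2 * a + 1, -(2 * b)⟩ : GaussianInt) ^ v :
      GaussianInt) : ℂ)‖ ≤ S ^ (u + v) := by
    rw [map_mul, map_pow, map_pow, norm_mul, norm_pow, norm_pow, toC1, toC2, pow_add]
    have h0 : 0 ≤ S := (norm_nonneg _).trans hS
    exact mul_le_mul (pow_le_pow_left₀ (norm_nonneg _) hS _)
      (pow_le_pow_left₀ (norm_nonneg _) hS2 _) (by positivity) (by positivity)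
  unfold gint
  split_ifs
  · rw [GaussianInt.intCast_re]
    exact (Complex.abs_re_le_norm _).trans hn
  · rw [GaussianInt.intCast_im]
    exact (Complex.abs_im_le_norm _).trans hn

end A2

open A2 in
/-- Length and degree of the entries. -/
theorem t_A2 (h8 : S_S8) (h10 : S_S10) : S_A2 := by
  intro l n T p q a b t part c S hq hp ht hS hk
  obtain ⟨i, j, k, e⟩ := c
  simp only []
  have hq1 : (1 : ℝ) ≤ q := by exact_mod_cast hq
  constructor
  · unfold Epol
    apply Polynomial.natDegree_sum_le_of_forall_le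
    intro a' ha'
    apply Polynomial.natDegree_sum_le_of_forall_le
    intro b' hb'
    rw [Finset.mem_range] at ha' hb'
    refine (Polynomial.natDegree_C_mul_X_pow_le _ _).trans ?_
    simp only [] at ha' hb' ⊢
    omega
  · have hcz : ∀ a' b' : ℕ, a' ≤ i → b' ≤ j → |(cz l T a' b' k e t : ℝ)| ≤ Den l T * (2 ^ n * 4 ^ T) := by
      intro a' b' ha hb
      have h1 := h8 l T a' b' k e t (by
        have := i.2
        have := j.2
        omega) ht
      have h2 : (cz l T a' b' k e t : ℝ) = (Den l T : ℝ) * (cf a' b' k e t : ℝ) := by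
        have := congrArg (fun x : ℚ => (x : ℝ)) h1
        simpa using this
      rw [h2, abs_mul, Nat.abs_cast]
      apply mul_le_mul_of_nonneg_left _ (Nat.cast_nonneg _)
      refine (h10.1 a' b' k e t).trans ?_
      have hk' : (k : ℕ) ≤ n := k.2.le
      gcongr
      · norm_num
      · norm_num
    unfold Epol
    refine (len_sum _ _).trans ?_
    have hbound : ∀ a' ∈ Finset.range ((i : ℕ) + 1), ∀ b' ∈ Finset.range ((j : ℕ) + 1),
        len (Polynomial.C (((i : ℕ).choose a' : ℤ) * ((j : ℕ).choose b' : ℤ) *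
          gint part a b (i - a') (j - b') * p ^ (4 * ((j : ℕ) - b')) * 2 ^ a' *
          (16 * q ^ 4) ^ b' * cz l T a' b' k e t) * Polynomial.X ^ ((i : ℕ) - a' + 3 * b')) ≤
        ((2 : ℝ) ^ a' * S ^ ((i : ℕ) - a') * ((i : ℕ).choose a' : ℝ)) *
          ((16 * (q : ℝ) ^ 4) ^ b' * (256 * S * (q : ℝ) ^ 4) ^ ((j : ℕ) - b') * ((j : ℕ).choose b' : ℝ)) *
          (Den l T * (2 ^ n * 4 ^ T)) := by
      intro a' ha' b' hb'
      rw [Finset.mem_range] at ha' hb'
      rw [len_C_mul_X_pow]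
      push_cast
      rw [abs_mul, abs_mul, abs_mul, abs_mul, abs_mul, abs_mul, Nat.abs_cast, Nat.abs_cast, abs_pow,
        abs_pow, abs_pow, abs_mul, abs_pow, abs_of_pos (by norm_num : (0 : ℝ) < 2),
        abs_of_pos (by norm_num : (0 : ℝ) < 16), abs_of_pos (by linarith : (0 : ℝ) < q)]
      have g1 := gint_le part a b ((i : ℕ) - a') ((j : ℕ) - b') hk
      have g2 := hcz a' b' (by omega) (by omega)
      have g3 : |(p : ℝ)| ^ (4 * ((j : ℕ) - b')) ≤ (256 * (q : ℝ) ^ 4) ^ ((j : ℕ) - b') := by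
        rw [pow_mul]
        apply pow_le_pow_left₀ (by positivity)
        calc |(p : ℝ)| ^ 4 ≤ (4 * q) ^ 4 := pow_le_pow_left₀ (abs_nonneg _) hp 4
          _ = 256 * (q : ℝ) ^ 4 := by ring
      calc ((i : ℕ).choose a' : ℝ) * ((j : ℕ).choose b' : ℝ) * |(gint part a b (i - a') (j - b') : ℝ)| *
            |(p : ℝ)| ^ (4 * ((j : ℕ) - b')) * 2 ^ a' * (16 * (q : ℝ) ^ 4) ^ b' *
            |(cz l T a' b' k e t : ℝ)|
          ≤ ((i : ℕ).choose a' : ℝ) * ((j : ℕ).choose b' : ℝ) * S ^ ((i : ℕ) - a' + ((j : ℕ) - b')) *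
            (256 * (q : ℝ) ^ 4) ^ ((j : ℕ) - b') * 2 ^ a' * (16 * (q : ℝ) ^ 4) ^ b' *
            (Den l T * (2 ^ n * 4 ^ T)) := by gcongr
        _ = _ := by
          rw [pow_add, show 256 * S * (q : ℝ) ^ 4 = S * (256 * (q : ℝ) ^ 4) from by ring, mul_pow S]
          ring
    have hS0 : 0 < S := by linarith
    calc ∑ a' ∈ Finset.range ((i : ℕ) + 1), len (∑ b' ∈ Finset.range ((j : ℕ) + 1),
          Polynomial.C (((i : ℕ).choose a' : ℤ) * ((j : ℕ).choose b' : ℤ) *
          gint part a b (i - a') (j - b') * p ^ (4 * ((j : ℕ) - b')) * 2 ^ a' *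
          (16 * q ^ 4) ^ b' * cz l T a' b' k e t) * Polynomial.X ^ ((i : ℕ) - a' + 3 * b'))
        ≤ ∑ a' ∈ Finset.range ((i : ℕ) + 1), ∑ b' ∈ Finset.range ((j : ℕ) + 1),
          ((2 : ℝ) ^ a' * S ^ ((i : ℕ) - a') * ((i : ℕ).choose a' : ℝ)) *
          ((16 * (q : ℝ) ^ 4) ^ b' * (256 * S * (q : ℝ) ^ 4) ^ ((j : ℕ) - b') * ((j : ℕ).choose b' : ℝ)) *
          (Den l T * (2 ^ n * 4 ^ T)) := by
          apply Finset.sum_le_sum
          intro a' ha'
          refine (len_sum _ _).trans (Finset.sum_le_sum ?_)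
          intro b' hb'
          exact hbound a' ha' b' hb'
      _ = (2 + S) ^ (i : ℕ) * (16 * (q : ℝ) ^ 4 + 256 * S * (q : ℝ) ^ 4) ^ (j : ℕ) *
          (Den l T * (2 ^ n * 4 ^ T)) := by
          rw [add_pow, add_pow, Finset.sum_mul_sum, Finset.sum_mul]
          apply Finset.sum_congr rfl
          intro a' _
          rw [Finset.sum_mul]
      _ ≤ (272 * (S + 2)) ^ l * ((272 * (S + 2)) ^ l * (q : ℝ) ^ (4 * (j : ℕ))) *
          (Den l T * (2 ^ n * 4 ^ T)) := by
          have hi : (i : ℕ) ≤ l := by have := i.2; omega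
          have hj : (j : ℕ) ≤ l := by have := j.2; omega
          have k1 : (2 + S) ^ (i : ℕ) ≤ (272 * (S + 2)) ^ l :=
            (pow_le_pow_left₀ (by linarith) (by linarith : 2 + S ≤ 272 * (S + 2)) _).trans
              (pow_le_pow_right₀ (by linarith) hi)
          have k2 : (16 * (q : ℝ) ^ 4 + 256 * S * (q : ℝ) ^ 4) ^ (j : ℕ) ≤
              (272 * (S + 2)) ^ l * (q : ℝ) ^ (4 * (j : ℕ)) := by
            rw [show 16 * (q : ℝ) ^ 4 + 256 * S * (q : ℝ) ^ 4 = (16 + 256 * S) * (q : ℝ) ^ 4 from by ring,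
              mul_pow, ← pow_mul]
            apply mul_le_mul_of_nonneg_right _ (by positivity)
            exact (pow_le_pow_left₀ (by linarith) (by linarith : 16 + 256 * S ≤ 272 * (S + 2)) _).trans
              (pow_le_pow_right₀ (by linarith) hj)
          exact mul_le_mul_of_nonneg_right (mul_le_mul k1 k2 (by positivity) (by positivity))
            (by positivity)
      _ = (272 * (S + 2)) ^ (2 * l) * (q : ℝ) ^ (4 * (j : ℕ)) * Den l T * 2 ^ n * 4 ^ T := by
          rw [two_mul l, pow_add]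
          ring

end Pool.Agent.MPb60633
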