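import Pool.Agent.Lib.MP_b60633_nt.SpecD

/-!
# MP_b60633_nt, A3: length and degree of a determinant (helper11)
-/

set_option autoImplicit false

namespace Pool.Agent.MPb60633

namespace A3

open Polynomial

/-- The length with any sufficiently large range. -/
lemma len_eq (f : ℤ[X]) {m : ℕ} (hm : f.natDegree < m) :
    len f = ∑ i ∈ Finset.range m, |(f.coeff i : ℝ)| := by
  unfold len
  apply Finset.sum_subset
  · intro i hi
    rw [Finset.mem_range] at hi ⊢
    omega
  · intro i _ hi
    rw [Finset.mem_range] at hi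
    rw [Polynomial.coeff_eq_zero_of_natDegree_lt (by omega)]
    simp

lemma len_nonneg (f : ℤ[X]) : 0 ≤ len f := by
  unfold len
  positivity

lemma len_add (f g : ℤ[X]) : len (f + g) ≤ len f + len g := by
  set m := max (max f.natDegree g.natDegree) (f + g).natDegree + 1 with hm
  rw [len_eq f (m := m) (by omega), len_eq g (m := m) (by omega), len_eq (f + g) (m := m) (by omega),
    ← Finset.sum_add_distrib]
  apply Finset.sum_le_sum
  intro i _
  rw [Polynomial.coeff_add]
  push_cast
  exact abs_add_le _ _

lemma len_neg (f : ℤ[X]) : len (-f) = len f := by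
  unfold len
  rw [Polynomial.natDegree_neg]
  apply Finset.sum_congr rfl
  intro i _
  rw [Polynomial.coeff_neg]
  push_cast
  exact abs_neg _

lemma len_zero : len (0 : ℤ[X]) = 0 := by
  simp [len]

lemma len_one : len (1 : ℤ[X]) = 1 := by
  simp [len]

lemma len_mul (f g : ℤ[X]) : len (f * g) ≤ len f * len g := by
  set m := f.natDegree + g.natDegree + 1 with hm
  rw [len_eq (f * g) (m := m) (by
    have := Polynomial.natDegree_mul_le (p := f) (q := g)
    omega)]
  have h1 : ∀ i ∈ Finset.range m, |((f * g).coeff i : ℝ)| ≤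
      ∑ ab ∈ Finset.HasAntidiagonal.antidiagonal i, |(f.coeff ab.1 : ℝ)| * |(g.coeff ab.2 : ℝ)| := by
    intro i _
    rw [Polynomial.coeff_mul]
    push_cast
    refine (Finset.abs_sum_le_sum_abs _ _).trans (Finset.sum_le_sum ?_)
    intro ab _
    rw [abs_mul]
  refine (Finset.sum_le_sum h1).trans ?_
  rw [Finset.sum_sigma']
  unfold len
  rw [Finset.sum_mul_sum, ← Finset.sum_product']
  set T := Finset.range (f.natDegree + 1) ×ˢ Finset.range (g.natDegree + 1) with hT
  -- discard the vanishing terms
  have h2 : ∑ x ∈ (Finset.range m).sigma fun i => Finset.HasAntidiagonal.antidiagonal i,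
      |(f.coeff x.2.1 : ℝ)| * |(g.coeff x.2.2 : ℝ)| =
      ∑ x ∈ ((Finset.range m).sigma fun i => Finset.HasAntidiagonal.antidiagonal i).filter
        (fun x => x.2 ∈ T), |(f.coeff x.2.1 : ℝ)| * |(g.coeff x.2.2 : ℝ)| := by
    rw [Finset.sum_filter]
    apply Finset.sum_congr rfl
    intro x _
    split_ifs with h
    · rfl
    · rw [hT, Finset.mem_product, Finset.mem_range, Finset.mem_range, not_and_or] at h
      rcases h with h | h
      · rw [Polynomial.coeff_eq_zero_of_natDegree_lt (by omega : f.natDegree < x.2.1)]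
        simp
      · rw [Polynomial.coeff_eq_zero_of_natDegree_lt (by omega : g.natDegree < x.2.2)]
        simp
  rw [h2]
  apply le_of_eq
  apply Finset.sum_bij (fun x _ => x.2)
  · intro x hx
    exact (Finset.mem_filter.mp hx).2
  · rintro ⟨i, a⟩ hx ⟨j, b⟩ hy hab
    simp only at hab
    subst hab
    have h3 := (Finset.mem_sigma.mp (Finset.mem_filter.mp hx).1).2
    have h4 := (Finset.mem_sigma.mp (Finset.mem_filter.mp hy).1).2
    dsimp only at h3 h4
    rw [Finset.HasAntidiagonal.mem_antidiagonal] at h3 h4
    have h5 : i = j := h3.symm.trans h4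
    subst h5
    rfl
  · intro ab hab
    refine ⟨⟨ab.1 + ab.2, ab⟩, ?_, rfl⟩
    rw [Finset.mem_filter, Finset.mem_sigma]
    refine ⟨⟨?_, ?_⟩, hab⟩
    · rw [hT, Finset.mem_product, Finset.mem_range, Finset.mem_range] at hab
      simp only [Finset.mem_range]
      omega
    · simp
  · intro x _
    rfl

lemma len_sum {ι : Type*} (s : Finset ι) (f : ι → ℤ[X]) : len (∑ i ∈ s, f i) ≤ ∑ i ∈ s, len (f i) := by
  classical
  induction s using Finset.induction_on with
  | empty => simp [len_zero]
  | insert a s ha ih =>
    rw [Finset.sum_insert ha, Finset.sum_insert ha]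
    exact (len_add _ _).trans (by linarith)

lemma len_prod {ι : Type*} (s : Finset ι) (f : ι → ℤ[X]) : len (∏ i ∈ s, f i) ≤ ∏ i ∈ s, len (f i) := by
  classical
  induction s using Finset.induction_on with
  | empty => simp [len_one]
  | insert a s ha ih =>
    rw [Finset.prod_insert ha, Finset.prod_insert ha]
    exact (len_mul _ _).trans (mul_le_mul_of_nonneg_left ih (len_nonneg _))

end A3

open A3 in
/-- Length and degree of a determinant. -/
theorem t_A3 : S_A3 := by
  intro ι _ _ A B dg hlen hdeg
  constructor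
  · rw [Matrix.det_apply]
    refine (len_sum _ _).trans ?_
    have h1 : ∀ σ ∈ (Finset.univ : Finset (Equiv.Perm ι)),
        len (Equiv.Perm.sign σ • ∏ i, A (σ i) i) ≤ ∏ c, B c := by
      intro σ _
      have h2 : len (Equiv.Perm.sign σ • ∏ i, A (σ i) i) = len (∏ i, A (σ i) i) := by
        rcases Int.units_eq_one_or (Equiv.Perm.sign σ) with h | h
        · rw [h, one_smul]
        · rw [h, Units.neg_smul, one_smul, len_neg]
      rw [h2]
      exact (len_prod _ _).trans (Finset.prod_le_prod (fun i _ => len_nonneg _)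
        (fun i _ => hlen _ _))
    refine (Finset.sum_le_card_nsmul _ _ _ h1).trans (le_of_eq ?_)
    rw [Finset.card_univ, Fintype.card_perm, nsmul_eq_mul]
  · rw [Matrix.det_apply]
    apply Polynomial.natDegree_sum_le_of_forall_le
    intro σ _
    have h2 : (Equiv.Perm.sign σ • ∏ i, A (σ i) i).natDegree = (∏ i, A (σ i) i).natDegree := by
      rcases Int.units_eq_one_or (Equiv.Perm.sign σ) with h | h
      · rw [h, one_smul]
      · rw [h, Units.neg_smul, one_smul, Polynomial.natDegree_neg]
    rw [h2]
    refine (Polynomial.natDegree_prod_le _ _).trans (Finset.sum_le_sum ?_)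
    intro i _
    exact hdeg _ _

end Pool.Agent.MPb60633
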