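import Pool.Agent.Lib.MP_b60633_nt.SpecD

/-!
# MP_b60633_nt, A4: Liouville's inequality (helper11)
-/

set_option autoImplicit false

namespace Pool.Agent.MPb60633

namespace A4

lemma one_le_mah' {P : Polynomial ℤ} (hP : P ≠ 0) : 1 ≤ mah P := by
  unfold mah
  apply Polynomial.one_le_mahlerMeasure_of_one_le_norm_leadingCoeff
  rw [Polynomial.leadingCoeff_map_of_injective (RingHom.injective_int _)]
  have h1 : P.leadingCoeff ≠ 0 := Polynomial.leadingCoeff_ne_zero.mpr hP
  rw [eq_intCast, Complex.norm_intCast]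
  have h2 : (1 : ℤ) ≤ |P.leadingCoeff| := Int.one_le_abs h1
  exact_mod_cast h2

/-- Values of an integer polynomial. -/
lemma norm_aeval_le (G : Polynomial ℤ) (N : ℕ) (hN : G.natDegree ≤ N) (x : ℂ) :
    ‖Polynomial.aeval x G‖ ≤ len G * max 1 ‖x‖ ^ N := by
  rw [Polynomial.aeval_eq_sum_range, len, Finset.sum_mul]
  refine (norm_sum_le _ _).trans (Finset.sum_le_sum ?_)
  intro i hi
  rw [Finset.mem_range] at hi
  rw [zsmul_eq_mul, norm_mul, Complex.norm_intCast, norm_pow]
  apply mul_le_mul_of_nonneg_left _ (abs_nonneg _)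
  calc ‖x‖ ^ i ≤ max 1 ‖x‖ ^ i := pow_le_pow_left₀ (norm_nonneg _) (le_max_right _ _) i
    _ ≤ max 1 ‖x‖ ^ N := pow_le_pow_right₀ (le_max_left _ _) (by omega)

/-- A common root of an irreducible polynomial and `G` forces all roots to be common. -/
lemma root_transfer {Q G : Polynomial ℤ} (hQ : Irreducible Q) (hd : 1 ≤ Q.natDegree) {x y : ℂ}
    (hx : Polynomial.aeval x Q = 0) (hy : Polynomial.aeval y Q = 0)
    (hG : Polynomial.aeval x G = 0) : Polynomial.aeval y G = 0 := by
  have hprim : Q.IsPrimitive := hQ.isPrimitive (by omega)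
  have hQQ : Irreducible (Q.map (Int.castRingHom ℚ)) :=
    (Polynomial.IsPrimitive.Int.irreducible_iff_irreducible_map_cast hprim).mp hQ
  have hmap : ∀ (z : ℂ) (R : Polynomial ℤ), Polynomial.aeval z (R.map (Int.castRingHom ℚ)) =
      Polynomial.aeval z R := by
    intro z R
    have : Int.castRingHom ℚ = algebraMap ℤ ℚ := rfl
    rw [this, Polynomial.aeval_map_algebraMap]
  have hdvd : Q.map (Int.castRingHom ℚ) ∣ G.map (Int.castRingHom ℚ) := by
    have h1 := minpoly.dvd ℚ x (p := G.map (Int.castRingHom ℚ)) (by rw [hmap]; exact hG)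
    have h2 : Associated (minpoly ℚ x) (Q.map (Int.castRingHom ℚ)) := by
      have hint : IsIntegral ℚ x := by
        rw [← isAlgebraic_iff_isIntegral]
        exact ⟨Q.map (Int.castRingHom ℚ), hQQ.ne_zero, by rw [hmap]; exact hx⟩
      have h3 := minpoly.dvd ℚ x (p := Q.map (Int.castRingHom ℚ)) (by rw [hmap]; exact hx)
      exact (minpoly.irreducible hint).associated_of_dvd hQQ h3
    exact h2.symm.dvd.trans h1
  obtain ⟨R, hR⟩ := hdvd
  rw [← hmap, hR, map_mul, hmap, hy, zero_mul]

end A4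

open A4 in
/-- Liouville's inequality. -/
theorem t_A4 : S_A4 := by
  classical
  intro Q G α N hQ hd hα hG hN
  set QC := Q.map (Int.castRingHom ℂ) with hQC
  set GC := G.map (Int.castRingHom ℂ) with hGC
  have hinj : Function.Injective (Int.castRingHom ℂ) := RingHom.injective_int _
  have hQ0 : Q ≠ 0 := hQ.ne_zero
  have hQC0 : QC ≠ 0 := (Polynomial.map_ne_zero_iff hinj).mpr hQ0
  have hdeg : QC.natDegree = Q.natDegree := Polynomial.natDegree_map_eq_of_injective hinj _
  have hdegG : GC.natDegree ≤ N := Polynomial.natDegree_map_le.trans hN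
  have hsplit : QC.Splits := IsAlgClosed.splits QC
  have hres := Polynomial.resultant_eq_prod_eval QC GC N hdegG hsplit
  have hresmap : QC.resultant GC QC.natDegree N =
      ((Q.resultant G Q.natDegree N : ℤ) : ℂ) := by
    rw [hdeg, hQC, hGC, Polynomial.resultant_map_map]
    rfl
  have hevG : ∀ x : ℂ, GC.eval x = Polynomial.aeval x G := by
    intro x
    rw [hGC, Polynomial.eval_map, Polynomial.aeval_def]
    rfl
  have hevQ : ∀ x : ℂ, QC.eval x = Polynomial.aeval x Q := by
    intro x
    rw [hQC, Polynomial.eval_map, Polynomial.aeval_def]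
    rfl
  have hroot : ∀ x ∈ QC.roots, Polynomial.aeval x Q = 0 := by
    intro x hx
    rw [← hevQ]
    exact (Polynomial.mem_roots hQC0).mp hx
  have hne : ∀ x ∈ QC.roots, GC.eval x ≠ 0 := by
    intro x hx h0
    rw [hevG] at h0
    exact hG (root_transfer hQ hd (hroot x hx) hα h0)
  have hlc : QC.leadingCoeff ≠ 0 := Polynomial.leadingCoeff_ne_zero.mpr hQC0
  have hres0 : QC.resultant GC QC.natDegree N ≠ 0 := by
    rw [hres]
    apply mul_ne_zero (pow_ne_zero _ hlc)
    apply Multiset.prod_ne_zero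
    intro hy
    obtain ⟨x, hx, h0⟩ := Multiset.mem_map.mp hy
    exact hne x hx h0
  have hres1 : 1 ≤ ‖QC.resultant GC QC.natDegree N‖ := by
    rw [hresmap] at hres0 ⊢
    rw [Complex.norm_intCast]
    have h1 : (Q.resultant G Q.natDegree N : ℤ) ≠ 0 := by exact_mod_cast hres0
    exact_mod_cast Int.one_le_abs h1
  -- separate the root `α`
  have hαroot : α ∈ QC.roots := by
    rw [Polynomial.mem_roots hQC0, Polynomial.IsRoot, hevQ]
    exact hα
  obtain ⟨s, hs⟩ := Multiset.exists_cons_of_mem hαroot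
  have hcard : s.card = Q.natDegree - 1 := by
    have h1 : QC.roots.card = QC.natDegree := hsplit.natDegree_eq_card_roots.symm
    rw [hs, Multiset.card_cons, hdeg] at h1
    omega
  have hlen0 : 0 ≤ len G := by unfold len; positivity
  have hprod : ∀ t : Multiset ℂ, ‖(t.map GC.eval).prod‖ ≤
      len G ^ t.card * (t.map (fun a => max 1 ‖a‖)).prod ^ N := by
    intro t
    induction t using Multiset.induction_on with
    | empty => simp
    | cons a t ih =>
      rw [Multiset.map_cons, Multiset.prod_cons, norm_mul, Multiset.card_cons, Multiset.map_cons,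
        Multiset.prod_cons, hevG]
      have h1 := norm_aeval_le G N hN a
      have h2 : 0 ≤ (t.map (fun a => max 1 ‖a‖)).prod := by
        apply Multiset.prod_nonneg
        intro y hy
        obtain ⟨x, _, rfl⟩ := Multiset.mem_map.mp hy
        positivity
      calc ‖Polynomial.aeval a G‖ * ‖(t.map GC.eval).prod‖
          ≤ (len G * max 1 ‖a‖ ^ N) * (len G ^ t.card * (t.map (fun a => max 1 ‖a‖)).prod ^ N) :=
            mul_le_mul h1 ih (norm_nonneg _) (by positivity)
        _ = len G ^ (t.card + 1) * (max 1 ‖a‖ * (t.map (fun a => max 1 ‖a‖)).prod) ^ N := by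
            ring
  have hmah : mah Q = ‖QC.leadingCoeff‖ * (QC.roots.map (fun a => max 1 ‖a‖)).prod := by
    unfold mah
    exact Polynomial.mahlerMeasure_eq_leadingCoeff_mul_prod_roots _
  have hnn : 0 ≤ (s.map (fun a => max 1 ‖a‖)).prod := by
    apply Multiset.prod_nonneg
    intro y hy
    obtain ⟨x, _, rfl⟩ := Multiset.mem_map.mp hy
    positivity
  have hle : ‖QC.leadingCoeff‖ * (s.map (fun a => max 1 ‖a‖)).prod ≤ mah Q := by
    rw [hmah, hs, Multiset.map_cons, Multiset.prod_cons]
    apply mul_le_mul_of_nonneg_left _ (norm_nonneg _)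
    calc (s.map (fun a => max 1 ‖a‖)).prod = 1 * (s.map (fun a => max 1 ‖a‖)).prod := by ring
      _ ≤ max 1 ‖α‖ * (s.map (fun a => max 1 ‖a‖)).prod :=
          mul_le_mul_of_nonneg_right (le_max_left _ _) hnn
  rw [hres, hs, Multiset.map_cons, Multiset.prod_cons, norm_mul, norm_mul, norm_pow, hevG] at hres1
  refine hres1.trans ?_
  have h1 := hprod s
  rw [hcard] at h1
  calc ‖QC.leadingCoeff‖ ^ N * (‖Polynomial.aeval α G‖ * ‖(s.map GC.eval).prod‖)
      ≤ ‖QC.leadingCoeff‖ ^ N * (‖Polynomial.aeval α G‖ *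
        (len G ^ (Q.natDegree - 1) * (s.map (fun a => max 1 ‖a‖)).prod ^ N)) := by gcongr
    _ = (‖QC.leadingCoeff‖ * (s.map (fun a => max 1 ‖a‖)).prod) ^ N *
        len G ^ (Q.natDegree - 1) * ‖Polynomial.aeval α G‖ := by ring
    _ ≤ mah Q ^ N * len G ^ (Q.natDegree - 1) * ‖Polynomial.aeval α G‖ := by
        gcongr

end Pool.Agent.MPb60633
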