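import Pool.Agent.Lib.MP_b60633_nt.SpecD

/-!
# MP_b60633_nt, A5: selection of rows (helper11)
-/

set_option autoImplicit false

namespace Pool.Agent.MPb60633

open Module

/-- Selection of rows. -/
theorem t_A5 : S_A5 := by
  classical
  intro ι R _ _ v hv
  have hspan : Submodule.span ℂ (Set.range v) = ⊤ := by
    by_contra hne
    obtain ⟨f, hf0, hf⟩ := Submodule.exists_le_ker_of_lt_top _ (lt_top_iff_ne_top.mpr hne)
    apply hf0
    set c : ι → ℂ := fun i => f (Pi.single i 1) with hc
    have hfx : ∀ x : ι → ℂ, f x = ∑ i, c i * x i := by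
      intro x
      conv_lhs => rw [← Finset.univ_sum_single x]
      rw [map_sum]
      apply Finset.sum_congr rfl
      intro i _
      have h1 : (Pi.single i (x i) : ι → ℂ) = x i • Pi.single i (1 : ℂ) := by
        rw [← Pi.single_smul, smul_eq_mul, mul_one]
      rw [h1, map_smul, smul_eq_mul, mul_comm]
    have hc0 : c = 0 := by
      apply hv
      intro r
      rw [← hfx]
      exact hf (Submodule.subset_span ⟨r, rfl⟩)
    apply LinearMap.ext
    intro x
    rw [hfx, hc0]
    simp
  obtain ⟨s, hsub, hs, hli⟩ := exists_linearIndependent ℂ (Set.range v)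
  rw [hspan] at hs
  let b : Basis s ℂ (ι → ℂ) := Basis.mk hli (by
    rw [Subtype.range_coe, hs])
  have : Fintype s := FiniteDimensional.fintypeBasisIndex b
  have hcard : Fintype.card s = Fintype.card ι := by
    rw [← finrank_eq_card_basis b, finrank_fintype_fun_eq_card]
  let e : ι ≃ s := Fintype.equivOfCardEq hcard.symm
  have hex : ∀ i : ι, ∃ r : R, v r = (e i : ι → ℂ) := fun i => hsub (e i).2
  choose r hr using hex
  refine ⟨r, ?_⟩
  have hli2 : LinearIndependent ℂ (fun i : ι => ((e i : s) : ι → ℂ)) :=
    hli.comp e e.injective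
  have hM : (Matrix.of fun i j => v (r i) j) = Matrix.of (fun i : ι => ((e i : s) : ι → ℂ)) := by
    ext i j
    rw [Matrix.of_apply, Matrix.of_apply, hr]
  rw [hM]
  have h1 : LinearIndependent ℂ (Matrix.of (fun i : ι => ((e i : s) : ι → ℂ))).row := hli2
  rw [Matrix.linearIndependent_rows_iff_isUnit] at h1
  exact ((Matrix.isUnit_iff_isUnit_det _).mp h1).ne_zero

end Pool.Agent.MPb60633
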