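import Pool.Agent.Lib.MP_b60633_nt.SpecD

/-!
# MP_b60633_nt, A6: nonvanishing determinant (helper11)
-/

set_option autoImplicit false

namespace Pool.Agent.MPb60633

open Complex Pool.Agent.Lib.Ribet4b482e Module

namespace A6

/-- The exponent of a column. -/
noncomputable def ex {l n : ℕ} (i : Col l n) : Fin 4 →₀ ℕ :=
  Finsupp.equivFunOnFinite.symm ![(i.1 : ℕ), (i.2.1 : ℕ), (i.2.2.1 : ℕ), (i.2.2.2 : ℕ)]

lemma ex0 {l n : ℕ} (i : Col l n) : ex i 0 = i.1 := rfl
lemma ex1 {l n : ℕ} (i : Col l n) : ex i 1 = i.2.1 := rfl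
lemma ex2 {l n : ℕ} (i : Col l n) : ex i 2 = i.2.2.1 := rfl
lemma ex3 {l n : ℕ} (i : Col l n) : ex i 3 = i.2.2.2 := rfl

lemma ex_injective (l n : ℕ) : Function.Injective (ex : Col l n → (Fin 4 →₀ ℕ)) := by
  intro i j hij
  have h0 := DFunLike.congr_fun hij 0
  have h1 := DFunLike.congr_fun hij 1
  have h2 := DFunLike.congr_fun hij 2
  have h3 := DFunLike.congr_fun hij 3
  rw [ex0, ex0] at h0
  rw [ex1, ex1] at h1
  rw [ex2, ex2] at h2
  rw [ex3, ex3] at h3
  exact Prod.ext (Fin.ext h0) (Prod.ext (Fin.ext h1) (Prod.ext (Fin.ext h2) (Fin.ext h3)))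

/-- The polynomial with coefficients `c`. -/
noncomputable def FF {l n : ℕ} (c : Col l n → ℂ) : R4 := ∑ i, MvPolynomial.monomial (ex i) (c i)

lemma coeff_FF {l n : ℕ} (c : Col l n → ℂ) (i : Col l n) : (FF c).coeff (ex i) = c i := by
  classical
  unfold FF
  rw [MvPolynomial.coeff_sum, Finset.sum_eq_single i]
  · rw [MvPolynomial.coeff_monomial, if_pos rfl]
  · intro j _ hj
    rw [MvPolynomial.coeff_monomial, if_neg]
    exact fun h => hj (ex_injective l n h)
  · intro h
    exact absurd (Finset.mem_univ _) h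

lemma support_FF {l n : ℕ} (c : Col l n → ℂ) :
    (FF c).support ⊆ Finset.univ.image (ex : Col l n → (Fin 4 →₀ ℕ)) := by
  classical
  intro m hm
  by_contra hcon
  rw [MvPolynomial.mem_support_iff] at hm
  apply hm
  unfold FF
  rw [MvPolynomial.coeff_sum]
  apply Finset.sum_eq_zero
  intro j _
  rw [MvPolynomial.coeff_monomial, if_neg]
  intro h
  exact hcon (Finset.mem_image.mpr ⟨j, Finset.mem_univ _, h⟩)

lemma sum_FF {l n : ℕ} (c : Col l n → ℂ) (g : (Fin 4 →₀ ℕ) → ℂ) :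
    ∑ m ∈ (FF c).support, (FF c).coeff m * g m = ∑ i, c i * g (ex i) := by
  classical
  have h1 : ∑ m ∈ (FF c).support, (FF c).coeff m * g m =
      ∑ m ∈ Finset.univ.image (ex : Col l n → (Fin 4 →₀ ℕ)), (FF c).coeff m * g m := by
    apply Finset.sum_subset (support_FF c)
    intro m _ hm
    rw [MvPolynomial.notMem_support_iff.mp hm, zero_mul]
  rw [h1, Finset.sum_image (fun i _ j _ h => ex_injective l n h)]
  apply Finset.sum_congr rfl
  intro i _
  rw [coeff_FF]

lemma FF_mem {l n : ℕ} (c : Col l n → ℂ) : FF c ∈ Box l n := by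
  rw [Box, MvPolynomial.mem_restrictSupport_iff]
  intro m hm
  obtain ⟨i, _, rfl⟩ := Finset.mem_image.mp (support_FF c hm)
  have h1 := i.1.2
  have h2 := i.2.1.2
  have h3 := i.2.2.1.2
  have h4 := i.2.2.2.2
  exact ⟨by rw [ex0]; omega, by rw [ex1]; omega, by rw [ex2]; omega, by rw [ex3]; omega⟩

end A6

open A6 in
/-- Nonvanishing determinant. -/
theorem t_A6 (hZ14 : S_Z14) (hA5 : S_A5) : S_A6 := by
  classical
  intro L w hL l n h T α β hα hβ hM hT hlt
  have key := hA5 (Col l n) {x : ℤ × ℤ × ℕ × Fin 2 // |x.1| ≤ h ∧ |x.2.1| ≤ h ∧ x.2.2.1 < T}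
    (fun x c => entR α β x.1.1 x.1.2.1 x.1.2.2.1 x.1.2.2.2 c) (by
      intro c hc
      have hF := hZ14 L w hL l n (2 * h + 1) T α β (-(h : ℤ)) (-(h : ℤ)) hα hβ hM hT hlt (FF c)
        (FF_mem c) (by
          intro p hp q hq t ht
          have ha : |-(h : ℤ) + p| ≤ h := by rw [abs_le]; omega
          have hb : |-(h : ℤ) + q| ≤ h := by rw [abs_le]; omega
          rw [sum_FF c (fun m => ent (kap (-(h : ℤ) + p) (-(h : ℤ) + q) * α)
            (kap (-(h : ℤ) + p) (-(-(h : ℤ) + q)) * β) t (m 0) (m 1) (m 2) (m 3))]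
          have h0 := hc ⟨(-(h : ℤ) + p, -(h : ℤ) + q, t, 0), ha, hb, ht⟩
          have h1 := hc ⟨(-(h : ℤ) + p, -(h : ℤ) + q, t, 1), ha, hb, ht⟩
          simp only [entR, if_true, one_ne_zero, if_false] at h0 h1
          have h2 : ∀ i : Col l n, c i * ent (kap (-(h : ℤ) + p) (-(h : ℤ) + q) * α)
              (kap (-(h : ℤ) + p) (-(-(h : ℤ) + q)) * β) t (ex i 0) (ex i 1) (ex i 2) (ex i 3) =
              c i * ((entC α β (-(h : ℤ) + p) (-(h : ℤ) + q) t i +
                entC α β (-(h : ℤ) + p) (-(-(h : ℤ) + q)) t i) / 2) +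
              I * (c i * ((entC α β (-(h : ℤ) + p) (-(h : ℤ) + q) t i -
                entC α β (-(h : ℤ) + p) (-(-(h : ℤ) + q)) t i) / (2 * I))) := by
            intro i
            have e1 : ent (kap (-(h : ℤ) + p) (-(h : ℤ) + q) * α)
              (kap (-(h : ℤ) + p) (-(-(h : ℤ) + q)) * β) t (ex i 0) (ex i 1) (ex i 2) (ex i 3) =
              entC α β (-(h : ℤ) + p) (-(h : ℤ) + q) t i := rfl
            rw [e1]
            have hI : I ≠ 0 := I_ne_zero
            field_simp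
            ring
          rw [Finset.sum_congr rfl (fun i _ => h2 i), Finset.sum_add_distrib, ← Finset.mul_sum,
            h0, h1, mul_zero, add_zero])
      funext i
      rw [← coeff_FF c i, hF]
      simp)
  obtain ⟨r, hr⟩ := key
  exact ⟨fun c => (r c).1, fun c => (r c).2, hr⟩

end Pool.Agent.MPb60633
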