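import Pool.Agent.Lib.MP_b60633_nt.SpecD

/-!
# MP_b60633_nt, D1: a determinant estimate (helper11)
-/

set_option autoImplicit false

namespace Pool.Agent.MPb60633

open Module

namespace D1

/-- Values almost injective: the sum is large. -/
lemma sum_ge {ι : Type} [Fintype ι] (f : ι → ℕ) (hf : ∀ r, f r ≤ Fintype.card ι)
    (hinj : ∀ r r', f r = f r' → f r < Fintype.card ι → r = r') :
    Fintype.card ι * (Fintype.card ι - 1) ≤ 2 * ∑ r, f r := by
  classical
  set U := Fintype.card ι with hU
  have h1 : ∀ r, f r = ∑ k ∈ Finset.range U, if k < f r then 1 else 0 := by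
    intro r
    rw [← Finset.sum_filter, Finset.sum_const, smul_eq_mul, mul_one]
    have : Finset.filter (fun k => k < f r) (Finset.range U) = Finset.range (f r) := by
      ext k
      simp only [Finset.mem_filter, Finset.mem_range]
      have := hf r
      omega
    rw [this, Finset.card_range]
  have h2 : ∑ r, f r = ∑ k ∈ Finset.range U, (Finset.univ.filter (fun r => k < f r)).card := by
    rw [Finset.sum_congr rfl (fun r _ => h1 r), Finset.sum_comm]
    apply Finset.sum_congr rfl
    intro k _
    rw [← Finset.sum_filter, Finset.sum_const, smul_eq_mul, mul_one]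
  have h3 : ∀ k ∈ Finset.range U, U - (k + 1) ≤ (Finset.univ.filter (fun r => k < f r)).card := by
    intro k hk
    rw [Finset.mem_range] at hk
    have h4 : (Finset.univ.filter (fun r => ¬ k < f r)).card ≤ k + 1 := by
      have h5 : (Finset.univ.filter (fun r => ¬ k < f r)).card ≤ (Finset.range (k + 1)).card := by
        apply Finset.card_le_card_of_injOn f
        · intro r hr
          simp only [Finset.coe_filter, Finset.mem_univ, true_and, Set.mem_ofPred_eq] at hr
          simp only [Finset.coe_range, Set.mem_Iio]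
          omega
        · intro r hr r' hr' hrr
          simp only [Finset.coe_filter, Finset.mem_univ, true_and, Set.mem_ofPred_eq] at hr hr'
          exact hinj r r' hrr (by omega)
      rwa [Finset.card_range] at h5
    have h6 := Finset.card_filter_add_card_filter_not (s := (Finset.univ : Finset ι))
      (fun r => k < f r)
    rw [Finset.card_univ, ← hU] at h6
    omega
  have h7 : ∑ k ∈ Finset.range U, (U - (k + 1)) ≤ ∑ r, f r := by
    rw [h2]
    exact Finset.sum_le_sum h3
  have h8 : ∑ k ∈ Finset.range U, (U - (k + 1)) = ∑ k ∈ Finset.range U, k := by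
    have := Finset.sum_range_reflect (fun k => k) U
    rw [← this]
    apply Finset.sum_congr rfl
    intro k _
    omega
  rw [h8] at h7
  have h9 := Finset.sum_range_id_mul_two U
  omega

lemma det_le {ι : Type} [Fintype ι] [DecidableEq ι] (M : ι → ι → ℂ) (B : ι → ℝ)
    (hB : ∀ r c, ‖M r c‖ ≤ B r) :
    ‖Matrix.det (Matrix.of M)‖ ≤ (Fintype.card ι).factorial * ∏ r, B r := by
  rw [Matrix.det_apply]
  refine (norm_sum_le _ _).trans ?_
  have h1 : ∀ σ ∈ (Finset.univ : Finset (Equiv.Perm ι)),
      ‖Equiv.Perm.sign σ • ∏ i, Matrix.of M (σ i) i‖ ≤ ∏ r, B r := by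
    intro σ _
    have h2 : ‖Equiv.Perm.sign σ • ∏ i, Matrix.of M (σ i) i‖ = ‖∏ i, Matrix.of M (σ i) i‖ := by
      rcases Int.units_eq_one_or (Equiv.Perm.sign σ) with h | h
      · rw [h, one_smul]
      · rw [h, Units.neg_smul, one_smul, norm_neg]
    rw [h2, norm_prod]
    calc ∏ i, ‖Matrix.of M (σ i) i‖ ≤ ∏ i, B (σ i) :=
          Finset.prod_le_prod (fun i _ => norm_nonneg _) (fun i _ => hB _ _)
      _ = ∏ r, B r := Equiv.prod_comp σ B
  refine (Finset.sum_le_card_nsmul _ _ _ h1).trans (le_of_eq ?_)
  rw [Finset.card_univ, Fintype.card_perm, nsmul_eq_mul]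

end D1

open D1 in
/-- The determinant estimate. -/
theorem t_D1 : S_D1 := by
  classical
  intro ι _ _ A e x y K hK hA hxy he
  set U := Fintype.card ι with hU
  -- the summands
  let g : ι → Fin (U + 1) → (ι → ℂ) := fun r s =>
    if (s : ℕ) < U then fun c => x r s * y s c else e r
  have hgsum : ∀ r, A r = ∑ s, g r s := by
    intro r
    funext c
    rw [Fin.sum_univ_castSucc, Pi.add_apply, Finset.sum_apply, hA r c]
    have h1 : g r (Fin.last U) = e r := by simp [g]
    rw [h1]
    congr 1
    rw [Finset.sum_range]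
    apply Finset.sum_congr rfl
    intro s _
    simp [g]
  have hdet : Matrix.det (Matrix.of A) = ∑ f : ι → Fin (U + 1),
      Matrix.det (Matrix.of fun r => g r (f r)) := by
    have h1 : Matrix.of A = Matrix.of (fun r => ∑ s, g r s) := by
      congr 1
      funext r
      exact hgsum r
    rw [h1]
    exact (Matrix.detRowAlternating : (ι → ℂ) [⋀^ι]→ₗ[ℂ] ℂ).toMultilinearMap.map_sum
      (fun r s => g r s)
  set Z : ℝ := (U.factorial : ℝ) * K ^ U * Real.exp (-((U : ℝ) * ((U : ℝ) - 1) / 2)) with hZ
  have hterm : ∀ f : ι → Fin (U + 1), ‖Matrix.det (Matrix.of fun r => g r (f r))‖ ≤ Z := by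
    intro f
    by_cases hinj : ∀ r r', (f r : ℕ) = f r' → (f r : ℕ) < U → r = r'
    · -- almost injective
      have hB : ∀ r c, ‖g r (f r) c‖ ≤ K * Real.exp (-((f r : ℕ) : ℝ)) := by
        intro r c
        by_cases h : ((f r : Fin (U + 1)) : ℕ) < U
        · simp only [g, if_pos h]
          exact hxy r c _ h
        · have h2 : ((f r : Fin (U + 1)) : ℕ) = U := by
            have := (f r).2
            omega
          simp only [g, if_neg h]
          rw [h2]
          exact he r c
      refine (det_le (fun r => g r (f r)) _ hB).trans ?_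
      rw [Finset.prod_mul_distrib, Finset.prod_const, Finset.card_univ, ← hU, ← Real.exp_sum, hZ,
        ← mul_assoc]
      apply mul_le_mul_of_nonneg_left _ (by positivity)
      apply Real.exp_le_exp.mpr
      rw [Finset.sum_neg_distrib, neg_le_neg_iff]
      have h3 := sum_ge (fun r => (f r : ℕ)) (fun r => Nat.lt_succ_iff.mp (f r).2) hinj
      rw [← hU] at h3
      have h4 : (((U * (U - 1) : ℕ)) : ℝ) ≤ ((2 * ∑ r, (f r : ℕ) : ℕ) : ℝ) := by exact_mod_cast h3
      push_cast at h4
      have h5 : ((U : ℝ)) * ((U : ℝ) - 1) = (U : ℝ) * ((U - 1 : ℕ) : ℝ) := by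
        rcases Nat.eq_zero_or_pos U with h | h
        · rw [h]; simp
        · rw [Nat.cast_sub h, Nat.cast_one]
      rw [h5]
      linarith
    · -- two proportional rows
      push Not at hinj
      obtain ⟨r, r', h1, h2, h3⟩ := hinj
      let v : ι → ℂ := fun r => if ((f r : Fin (U + 1)) : ℕ) < U then x r (f r) else 1
      let B : Matrix ι ι ℂ := Matrix.of fun r => if ((f r : Fin (U + 1)) : ℕ) < U
        then y (f r) else e r
      have h4 : (Matrix.of fun r => g r (f r)) = Matrix.of fun i j => v i * B i j := by
        ext i j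
        simp only [Matrix.of_apply, g, v, B]
        by_cases h : ((f i : Fin (U + 1)) : ℕ) < U
        · simp only [if_pos h]
        · simp only [if_neg h, one_mul]
      have h5 : B.det = 0 := by
        apply Matrix.det_zero_of_row_eq h3
        funext j
        simp only [B, Matrix.of_apply]
        rw [← h1, if_pos h2, if_pos h2]
      rw [h4, Matrix.det_mul_column, h5, mul_zero, norm_zero]
      positivity
  rw [hdet]
  refine (norm_sum_le _ _).trans ((Finset.sum_le_card_nsmul _ _ _ (fun f _ => hterm f)).trans ?_)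
  rw [Finset.card_univ, Fintype.card_fun, Fintype.card_fin, ← hU, nsmul_eq_mul, hZ]
  push_cast
  apply le_of_eq
  ring

end Pool.Agent.MPb60633
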