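import Pool.Agent.Lib.MP_b60633_nt.SpecD

/-!
# MP_b60633_nt, D2: the true rows (helper11)
-/

set_option autoImplicit false

namespace Pool.Agent.MPb60633

open Complex Pool.Agent.Lib.Ribet4b482e Module

namespace D2

lemma evs_pow (hS2 : S_S2) (hS4 : S_S4) {r : ℝ} (hr : 0 < r) {f : PowerSeries ℂ} {A : ℝ}
    (hf : Bd f r A) {s : ℂ} (hs : ‖s‖ ≤ r) (k : ℕ) : evs (f ^ k) s = evs f s ^ k := by
  obtain ⟨-, -, hpow, hC, -, -, -⟩ := hS2 r hr.le
  obtain ⟨-, hmul, hconst, -, -⟩ := hS4 r hr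
  induction k with
  | zero =>
    rw [pow_zero, pow_zero]
    have h1 : (1 : PowerSeries ℂ) = PowerSeries.C 1 := (map_one _).symm
    rw [h1]
    exact (hconst 1 s).1
  | succ k ih =>
    rw [pow_succ, pow_succ, (hmul (f ^ k) f (A ^ k) A s (hpow f A k hf) hf hs).2, ih]

end D2

open D2 in
/-- The true rows. -/
theorem t_D2 (hS2 : S_S2) (hS3 : S_S3) (hS4 : S_S4) (hS5 : S_S5) (hS6 : S_S6) (hE12 : S_E12) :
    S_D2 := by
  intro L w hL a b t P i j k e hP
  have hw0 : (0 : ℝ) < w := by linarith [hL.two_le]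
  have hnw : ‖(w : ℂ)‖ = w := by
    rw [Complex.norm_real, Real.norm_eq_abs, abs_of_pos hw0]
  have hr : (0 : ℝ) < 1 / 4 := by norm_num
  obtain ⟨hadd, hmulB, hpowB, hCB, hXB, -, -⟩ := hS2 (1 / 4) hr.le
  obtain ⟨-, hev, hconst, -, hder⟩ := hS4 (1 / 4) hr
  obtain ⟨hZ, hPC, hpsi, hzet, -, -, -⟩ := hS3
  set x : ℂ := kap a b * w with hx
  set y : ℂ := kap a (-b) * (Real.pi / w : ℝ) with hy
  -- bounds for the factors
  have b1 : Bd (PowerSeries.C x + psiC) (1 / 4) (‖x‖ + 7 / 10) := hadd _ _ _ _ (hCB x) hpsi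
  have b2 : Bd (PowerSeries.C y + zetC) (1 / 4) (‖y‖ + 3 / 4) := hadd _ _ _ _ (hCB y) hzet
  have e3 : (1 + 2 * ZC : PowerSeries ℂ) = PowerSeries.C 1 + PowerSeries.C 2 * ZC := by
    rw [map_one, map_ofNat]
  have b3' : Bd (PowerSeries.C 2 * ZC) (1 / 4) (‖(2 : ℂ)‖ * (9 / 100)) := hmulB _ _ _ _ (hCB 2) hZ
  have b3 : Bd (1 + 2 * ZC : PowerSeries ℂ) (1 / 4) (‖(1 : ℂ)‖ + ‖(2 : ℂ)‖ * (9 / 100)) := by
    rw [e3]
    exact hadd _ _ _ _ (hCB 1) b3'
  have e4 : (4 * PowerSeries.X : PowerSeries ℂ) = PowerSeries.C 4 * PowerSeries.X := by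
    rw [map_ofNat]
  have b4 : Bd (4 * PowerSeries.X : PowerSeries ℂ) (1 / 4) (‖(4 : ℂ)‖ * (1 / 4)) := by
    rw [e4]
    exact hmulB _ _ _ _ (hCB 4) hXB
  have c1 := hpowB _ _ i b1
  have c2 := hpowB _ _ j b2
  have c3 := hpowB _ _ k b3
  have c4 := hpowB _ _ e b4
  have c12 := hmulB _ _ _ _ c1 c2
  have c123 := hmulB _ _ _ _ c12 c3
  have c1234 := hmulB _ _ _ _ c123 c4
  have hcoef := hS5 _ (1 / 4) _ (by norm_num) c1234 t
  -- the value on the circle
  have hval : ∀ s : ℂ, ‖s‖ ≤ 1 / 8 →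
      evs ((PowerSeries.C x + psiC) ^ i * (PowerSeries.C y + zetC) ^ j * (1 + 2 * ZC) ^ k *
        (4 * PowerSeries.X) ^ e) s =
      gfun L P i j k e (x + evs psiC s) / sigmaW L (x + evs psiC s) ^ P := by
    intro s hs
    have hs4 : ‖s‖ ≤ 1 / 4 := by linarith
    obtain ⟨hn, h℘, h℘', hζ, -, -⟩ := hS6 L w hL a b s hs
    have hσ := sigmaW_ne_zero L hn
    rw [(hev _ _ _ _ s c123 c4 hs4).2, (hev _ _ _ _ s c12 c3 hs4).2, (hev _ _ _ _ s c1 c2 hs4).2,
      evs_pow hS2 hS4 hr b1 hs4, evs_pow hS2 hS4 hr b2 hs4, evs_pow hS2 hS4 hr b3 hs4,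
      evs_pow hS2 hS4 hr b4 hs4]
    rw [(hev _ _ _ _ s (hCB x) hpsi hs4).1, (hev _ _ _ _ s (hCB y) hzet hs4).1, e3,
      (hev _ _ _ _ s (hCB 1) b3' hs4).1, (hev _ _ _ _ s (hCB 2) hZ hs4).2, e4,
      (hev _ _ _ _ s (hCB 4) hXB hs4).2, (hconst x s).1, (hconst y s).1, (hconst 1 s).1,
      (hconst 2 s).1, (hconst 4 s).1, (hconst 4 s).2]
    have hg := ((hE12 L w hL P i j k e).2 hP).1 (x + evs psiC s) hn
    rw [hg, eq_div_iff (pow_ne_zero P hσ), h℘, h℘', hζ, hy]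
    push_cast
    ring
  -- continuity
  have hψc : ∀ s : ℂ, ‖s‖ < 1 / 4 → ContinuousAt (evs psiC) s := fun s hs =>
    (hder psiC _ s hpsi hs).continuousAt
  have hcm : Continuous (fun θ : ℝ => circleMap 0 (1 / 8) θ) := continuous_circleMap 0 (1 / 8)
  have hcn : ∀ θ : ℝ, ‖circleMap 0 (1 / 8) θ‖ = 1 / 8 := by
    intro θ
    rw [norm_circleMap_zero]
    norm_num
  have hψθ : Continuous (fun θ : ℝ => evs psiC (circleMap 0 (1 / 8) θ)) := by
    rw [continuous_iff_continuousAt]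
    intro θ
    have h1 : ContinuousAt (evs psiC) (circleMap 0 (1 / 8) θ) :=
      hψc _ (by rw [hcn θ]; norm_num)
    exact ContinuousAt.comp (f := fun θ : ℝ => circleMap 0 (1 / 8) θ) h1 hcm.continuousAt
  set z : ℝ → ℂ := fun θ => x + evs psiC (circleMap 0 (1 / 8) θ) with hz
  have hzc : Continuous z := continuous_const.add hψθ
  have hzL : ∀ θ, z θ ∉ L.lattice := fun θ => (hS6 L w hL a b _ (hcn θ).le).1
  have hσc : Continuous (fun θ => sigmaW L (z θ) ^ P) :=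
    ((differentiable_sigmaW L).continuous.comp hzc).pow P
  have hσ0 : ∀ θ, sigmaW L (z θ) ^ P ≠ 0 := fun θ => pow_ne_zero P (sigmaW_ne_zero L (hzL θ))
  set G : ℝ → ℂ := fun θ => deriv (circleMap 0 (1 / 8)) θ *
    ((circleMap 0 (1 / 8) θ) ^ (-((t : ℤ) + 1)) / sigmaW L (z θ) ^ P) with hG
  have hcm0 : ∀ θ : ℝ, circleMap 0 (1 / 8) θ ≠ 0 := by
    intro θ h0
    have := hcn θ
    rw [h0, norm_zero] at this
    norm_num at this
  have hGc : Continuous G := by
    have h1 : Continuous (fun θ : ℝ => deriv (circleMap 0 (1 / 8)) θ) := by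
      have h2 : (fun θ : ℝ => deriv (circleMap 0 (1 / 8)) θ) =
          fun θ => circleMap 0 (1 / 8) θ * I := by
        funext θ
        rw [deriv_circleMap]
      rw [h2]
      exact hcm.mul continuous_const
    apply h1.mul
    apply Continuous.div _ hσc hσ0
    exact Continuous.zpow₀ hcm _ (fun θ => Or.inl (hcm0 θ))
  -- Taylor series
  have hTay : ∀ ζ : ℂ, HasSum (fun m : ℕ => yco L P i j k e m * ζ ^ m) (gfun L P i j k e ζ) := by
    intro ζ
    have h1 := Complex.hasSum_taylorSeries_of_entire (hE12 L w hL P i j k e).1 0 ζ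
    have h2 : (fun m : ℕ => yco L P i j k e m * ζ ^ m) = fun n : ℕ =>
        ((n.factorial : ℂ))⁻¹ • (ζ - 0) ^ n • iteratedDeriv n (gfun L P i j k e) 0 := by
      funext m
      simp only [yco, smul_eq_mul, sub_zero]
      ring
    rw [h2]
    exact h1
  set ρ : ℝ := ‖x‖ + 1 / 6 with hρ
  have hρ0 : 0 ≤ ρ := by positivity
  have hsum : Summable (fun m : ℕ => ‖yco L P i j k e m‖ * ρ ^ m) := by
    have h1 := (hTay (ρ : ℂ)).summable
    have h2 := h1.norm
    have h3 : (fun m : ℕ => ‖yco L P i j k e m * (ρ : ℂ) ^ m‖) =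
        fun m : ℕ => ‖yco L P i j k e m‖ * ρ ^ m := by
      funext m
      rw [norm_mul, norm_pow, Complex.norm_real, Real.norm_eq_abs, abs_of_nonneg hρ0]
    rw [h3] at h2
    exact h2
  have hzρ : ∀ θ, ‖z θ‖ ≤ ρ := by
    intro θ
    have h1 := (hS6 L w hL a b _ (hcn θ).le).2.2.2.2.1
    exact (norm_add_le _ _).trans (by linarith)
  have hdom := intervalIntegral.hasSum_integral_of_dominated_convergence
    (μ := MeasureTheory.volume) (a := 0) (b := 2 * Real.pi)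
    (F := fun (m : ℕ) θ => (G θ * z θ ^ m) * yco L P i j k e m)
    (f := fun θ => G θ * gfun L P i j k e (z θ))
    (fun (m : ℕ) θ => ‖G θ‖ * (‖yco L P i j k e m‖ * ρ ^ m))
    (fun m => ((hGc.mul (hzc.pow m)).mul continuous_const).aestronglyMeasurable)
    (fun m => Filter.Eventually.of_forall (fun θ _ => by
      rw [norm_mul, norm_mul, norm_pow]
      have h1 : ‖z θ‖ ^ m ≤ ρ ^ m := pow_le_pow_left₀ (norm_nonneg _) (hzρ θ) m
      calc ‖G θ‖ * ‖z θ‖ ^ m * ‖yco L P i j k e m‖ ≤ ‖G θ‖ * ρ ^ m * ‖yco L P i j k e m‖ := by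
            gcongr
        _ = ‖G θ‖ * (‖yco L P i j k e m‖ * ρ ^ m) := by ring))
    (Filter.Eventually.of_forall (fun θ _ => hsum.mul_left _))
    (by
      have h1 : (fun θ => ∑' m : ℕ, ‖G θ‖ * (‖yco L P i j k e m‖ * ρ ^ m)) =
          fun θ => ‖G θ‖ * ∑' m : ℕ, ‖yco L P i j k e m‖ * ρ ^ m := by
        funext θ
        rw [tsum_mul_left]
      rw [h1]
      exact (hGc.norm.mul continuous_const).intervalIntegrable _ _)
    (Filter.Eventually.of_forall (fun θ _ => by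
      have h1 := (hTay (z θ)).mul_left (G θ)
      have h2 : (fun m : ℕ => (G θ * z θ ^ m) * yco L P i j k e m) =
          fun m : ℕ => G θ * (yco L P i j k e m * z θ ^ m) := by
        funext m
        ring
      rw [h2]
      exact h1))
  have hfin := hdom.mul_left ((2 * Real.pi * I)⁻¹)
  have hlhs : (fun m : ℕ => (2 * Real.pi * I)⁻¹ *
      ∫ θ in (0 : ℝ)..2 * Real.pi, (G θ * z θ ^ m) * yco L P i j k e m) =
      fun m => xco L w a b t P m * yco L P i j k e m := by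
    funext m
    rw [intervalIntegral.integral_mul_const, xco, circleIntegral, ← mul_assoc]
    congr 2
    apply intervalIntegral.integral_congr
    intro θ _
    simp only [hG, hz, smul_eq_mul, hx]
    ring
  have hrhs : (2 * Real.pi * I)⁻¹ * ∫ θ in (0 : ℝ)..2 * Real.pi, G θ * gfun L P i j k e (z θ) =
      ent x y t i j k e := by
    rw [ent, hcoef, circleIntegral]
    congr 1
    apply intervalIntegral.integral_congr
    intro θ _
    simp only [smul_eq_mul]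
    rw [hval _ (hcn θ).le]
    simp only [hG, hz]
    ring
  rw [hlhs, hrhs] at hfin
  exact hfin

end Pool.Agent.MPb60633
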