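import Pool.Agent.Lib.MP_b60633_nt.SpecD

/-!
# MP_b60633_nt, D3: bounds for the terms (helper11)
-/

set_option autoImplicit false

namespace Pool.Agent.MPb60633

open Complex Pool.Agent.Lib.Ribet4b482e Module

namespace D3

lemma tail {f : ℕ → ℂ} {S : ℂ} {K : ℝ} (h : HasSum f S)
    (hf : ∀ m, ‖f m‖ ≤ K * Real.exp (-(m : ℝ))) (U : ℕ) :
    ‖S - ∑ m ∈ Finset.range U, f m‖ ≤ 2 * K * Real.exp (-(U : ℝ)) := by
  have hK : 0 ≤ K := by
    have := hf 0
    simp at this
    exact (norm_nonneg _).trans this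
  have h1 : HasSum (fun m => f (m + U)) (S - ∑ m ∈ Finset.range U, f m) :=
    (hasSum_nat_add_iff' U).mpr h
  have he : Real.exp (-1) ≤ 1 / 2 := by
    have h2 : (2 : ℝ) ≤ Real.exp 1 := by linarith [Real.exp_one_gt_d9]
    rw [Real.exp_neg, inv_eq_one_div]
    exact one_div_le_one_div_of_le (by norm_num) h2
  have he0 : 0 < Real.exp (-1) := Real.exp_pos _
  have h2 : HasSum (fun m : ℕ => K * Real.exp (-(U : ℝ)) * Real.exp (-1) ^ m)
      (K * Real.exp (-(U : ℝ)) * (1 - Real.exp (-1))⁻¹) :=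
    (hasSum_geometric_of_lt_one he0.le (by linarith)).mul_left _
  have h3 : ∀ m : ℕ, ‖f (m + U)‖ ≤ K * Real.exp (-(U : ℝ)) * Real.exp (-1) ^ m := by
    intro m
    refine (hf (m + U)).trans (le_of_eq ?_)
    rw [mul_assoc, ← Real.exp_nat_mul, ← Real.exp_add]
    push_cast
    ring_nf
  refine (HasSum.norm_le_of_bounded h1 h2 h3).trans ?_
  have h4 : (1 - Real.exp (-1))⁻¹ ≤ 2 := by
    rw [inv_le_comm₀ (by linarith) (by norm_num)]
    linarith
  calc K * Real.exp (-(U : ℝ)) * (1 - Real.exp (-1))⁻¹ ≤ K * Real.exp (-(U : ℝ)) * 2 := by gcongr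
    _ = 2 * K * Real.exp (-(U : ℝ)) := by ring

end D3

open D3 in
/-- Bounds for the terms. -/
theorem t_D3 (hD2 : S_D2) (hE12 : S_E12) (hE13 : S_E13) (_hS3 : S_S3) (hS6 : S_S6) : S_D3 := by
  intro L w hL a b t T P l i j k e ρ hP hi hj ht hkap
  have hw2 := hL.two_le
  have hw0 : (0 : ℝ) < w := by linarith
  have hnw : ‖(w : ℂ)‖ = w := by
    rw [Complex.norm_real, Real.norm_eq_abs, abs_of_pos hw0]
  have hρ0 : 0 < ρ := by
    have : 0 ≤ ‖kap a b‖ * w := by positivity
    linarith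
  set R : ℝ := Real.exp 1 * ρ with hR
  have hR0 : 0 < R := by positivity
  -- the functional
  have hx : ∀ m, ‖xco L w a b t P m‖ ≤ 8 ^ t * Real.exp (6 * P) * ρ ^ m := by
    intro m
    have h1 : ∀ s ∈ Metric.sphere (0 : ℂ) (1 / 8), ‖s ^ (-((t : ℤ) + 1)) *
        ((kap a b * w + evs psiC s) ^ m / sigmaW L (kap a b * w + evs psiC s) ^ P)‖ ≤
        8 ^ (t + 1) * (ρ ^ m * Real.exp (6 * P)) := by
      intro s hs
      have hs' : ‖s‖ = 1 / 8 := by simpa using hs
      have hψ := (hS6 L w hL a b s hs'.le).2.2.2.2.1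
      have hσ := (hE13 L w hL a b (evs psiC s) hψ).2
      have hz : ‖kap a b * w + evs psiC s‖ ≤ ρ := by
        refine (norm_add_le _ _).trans ?_
        rw [norm_mul, hnw]
        linarith
      rw [norm_mul, norm_zpow, hs', norm_div, norm_pow, norm_pow]
      have e1 : (1 / 8 : ℝ) ^ (-((t : ℤ) + 1)) = 8 ^ (t + 1) := by
        rw [one_div, inv_zpow', neg_neg]
        exact_mod_cast rfl
      rw [e1]
      apply mul_le_mul_of_nonneg_left _ (by positivity)
      rw [div_le_iff₀ (pow_pos (lt_of_lt_of_le (Real.exp_pos _) hσ) P)]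
      have h2 : ‖kap a b * w + evs psiC s‖ ^ m ≤ ρ ^ m :=
        pow_le_pow_left₀ (norm_nonneg _) hz m
      have h3 : 1 ≤ Real.exp (6 * P) * ‖sigmaW L (kap a b * w + evs psiC s)‖ ^ P := by
        have h4 : Real.exp (-6) ^ P ≤ ‖sigmaW L (kap a b * w + evs psiC s)‖ ^ P :=
          pow_le_pow_left₀ (Real.exp_pos _).le hσ P
        have h5 : Real.exp (6 * P) * Real.exp (-6) ^ P = 1 := by
          rw [← Real.exp_nat_mul, ← Real.exp_add]
          ring_nf
          exact Real.exp_zero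
        calc (1 : ℝ) = Real.exp (6 * P) * Real.exp (-6) ^ P := h5.symm
          _ ≤ _ := mul_le_mul_of_nonneg_left h4 (Real.exp_pos _).le
      calc ‖kap a b * w + evs psiC s‖ ^ m ≤ ρ ^ m * 1 := by rw [mul_one]; exact h2
        _ ≤ ρ ^ m * (Real.exp (6 * P) * ‖sigmaW L (kap a b * w + evs psiC s)‖ ^ P) := by
            gcongr
        _ = ρ ^ m * Real.exp (6 * P) * ‖sigmaW L (kap a b * w + evs psiC s)‖ ^ P := by ring
    have h2 := circleIntegral.norm_two_pi_i_inv_smul_integral_le_of_norm_le_const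
      (by norm_num : (0 : ℝ) ≤ 1 / 8) h1
    rw [smul_eq_mul] at h2
    refine h2.trans (le_of_eq ?_)
    rw [pow_succ]
    ring
  -- the Taylor coefficients
  set C : ℝ := (1 + R) ^ (2 * l) * Real.exp (P * (600 + Real.pi * R ^ 2 / (2 * w ^ 2))) with hC
  have hy : ∀ m, ‖yco L P i j k e m‖ ≤ C / R ^ m := by
    intro m
    have hg := hE12 L w hL P i j k e
    have h1 : ∀ z ∈ Metric.sphere (0 : ℂ) R, ‖gfun L P i j k e z‖ ≤ C := by
      intro z hz
      have hz' : ‖z‖ = R := by simpa using hz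
      have h2 := (hg.2 hP).2 z
      rw [Gs, hz'] at h2
      refine h2.trans ?_
      rw [hC]
      apply mul_le_mul_of_nonneg_right _ (Real.exp_pos _).le
      apply pow_le_pow_right₀ (by linarith) (by omega)
    have h2 := Complex.norm_iteratedDeriv_le_of_forall_mem_sphere_norm_le m hR0
      hg.1.diffContOnCl h1
    unfold yco
    rw [norm_div, Complex.norm_natCast, div_le_iff₀ (by positivity)]
    refine h2.trans (le_of_eq ?_)
    ring
  have hmain : ∀ m, ‖xco L w a b t P m * yco L P i j k e m‖ ≤ KK w l P T ρ * Real.exp (-(m : ℝ)) := by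
    intro m
    rw [norm_mul]
    have h1 : ‖xco L w a b t P m‖ * ‖yco L P i j k e m‖ ≤
        (8 ^ t * Real.exp (6 * P) * ρ ^ m) * (C / R ^ m) :=
      mul_le_mul (hx m) (hy m) (norm_nonneg _) (by positivity)
    refine h1.trans ?_
    have h2 : ρ ^ m / R ^ m = Real.exp (-(m : ℝ)) := by
      rw [hR, mul_pow, ← Real.exp_nat_mul, mul_one, Real.exp_neg]
      field_simp
    have h3 : (8 : ℝ) ^ t ≤ 8 ^ T := pow_le_pow_right₀ (by norm_num) ht
    calc (8 ^ t * Real.exp (6 * P) * ρ ^ m) * (C / R ^ m)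
        = 8 ^ t * Real.exp (6 * P) * C * (ρ ^ m / R ^ m) := by ring
      _ = 8 ^ t * Real.exp (6 * P) * C * Real.exp (-(m : ℝ)) := by rw [h2]
      _ ≤ 8 ^ T * Real.exp (6 * P) * C * Real.exp (-(m : ℝ)) := by
          gcongr
      _ = KK w l P T ρ * Real.exp (-(m : ℝ)) := by
          rw [hC, KK, ← hR]
          ring
  exact ⟨hmain, fun U => tail (hD2 L w hL a b t P i j k e hP) hmain U⟩

end Pool.Agent.MPb60633
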