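import Pool.Agent.Lib.MP_b60633_nt.SpecD

/-!
# MP_b60633_nt, D4: upper bound of the interpolation determinant (helper11)
-/

set_option autoImplicit false

namespace Pool.Agent.MPb60633

open Complex Pool.Agent.Lib.Ribet4b482e Module

namespace D4

lemma norm_kap_neg (a b : ℤ) : ‖kap a (-b)‖ = ‖kap a b‖ := by
  have h : kap a (-b) = (starRingEnd ℂ) (kap a b) := by
    simp only [kap, map_add, map_mul, conj_I, map_intCast, map_div₀, map_one]
    have : (starRingEnd ℂ) 2 = 2 := Complex.conj_ofNat 2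
    rw [this]
    push_cast
    ring
  rw [h, RCLike.norm_conj]

/-- Half sums and half differences. -/
noncomputable def hs (part : Fin 2) (u v : ℂ) : ℂ :=
  if part = 0 then (u + v) / 2 else (u - v) / (2 * I)

lemma hs_norm {part : Fin 2} {u v : ℂ} {B : ℝ} (hu : ‖u‖ ≤ B) (hv : ‖v‖ ≤ B) :
    ‖hs part u v‖ ≤ B := by
  unfold hs
  split_ifs
  · rw [norm_div]
    have h2 : ‖(2 : ℂ)‖ = 2 := by norm_num
    rw [h2, div_le_iff₀ (by norm_num)]
    calc ‖u + v‖ ≤ ‖u‖ + ‖v‖ := norm_add_le _ _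
      _ ≤ B * 2 := by linarith
  · rw [norm_div, norm_mul]
    have h2 : ‖(2 : ℂ)‖ = 2 := by norm_num
    rw [h2, Complex.norm_I, mul_one, div_le_iff₀ (by norm_num)]
    calc ‖u - v‖ ≤ ‖u‖ + ‖v‖ := norm_sub_le _ _
      _ ≤ B * 2 := by linarith

lemma hs_add (part : Fin 2) (u v u' v' : ℂ) :
    hs part (u + u') (v + v') = hs part u v + hs part u' v' := by
  unfold hs
  split_ifs <;> ring

lemma hs_mul (part : Fin 2) (u v y : ℂ) : hs part (u * y) (v * y) = hs part u v * y := by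
  unfold hs
  split_ifs <;> ring

lemma hs_sum (part : Fin 2) (u v : ℕ → ℂ) (N : ℕ) :
    hs part (∑ m ∈ Finset.range N, u m) (∑ m ∈ Finset.range N, v m) =
      ∑ m ∈ Finset.range N, hs part (u m) (v m) := by
  induction N with
  | zero => simp [hs]
  | succ N ih => rw [Finset.sum_range_succ, Finset.sum_range_succ, Finset.sum_range_succ, hs_add, ih]

lemma entR_eq {l n : ℕ} (α β : ℂ) (a b : ℤ) (t : ℕ) (part : Fin 2) (c : Col l n) :
    entR α β a b t part c = hs part (entC α β a b t c) (entC α β a (-b) t c) := rfl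

end D4

open D4 in
/-- The upper bound. -/
theorem t_D4 (hD1 : S_D1) (hD3 : S_D3) (hS10 : S_S10) : S_D4 := by
  classical
  intro L w hL l n T ρ ε α β r hn hρ hε0 hε1 hr hα hβ hcond
  have hw2 := hL.two_le
  have hwpi := hL.le_pi
  have hw0 : (0 : ℝ) < w := by linarith
  have hnw : ‖(w : ℂ)‖ = w := by
    rw [Complex.norm_real, Real.norm_eq_abs, abs_of_pos hw0]
  set P := 2 * n + 1 + l with hP
  set K := KK w l P T ρ with hK
  set U := Fintype.card (Col l n) with hU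
  have hK0 : 0 < K := by
    rw [hK]
    unfold KK
    positivity
  -- one complex row
  have hrow : ∀ (a b : ℤ) (t : ℕ) (c : Col l n), ‖kap a b‖ * w + 1 / 6 ≤ ρ → t ≤ T →
      (∀ m, ‖xco L w a b t P m * yco L P c.1 c.2.1 c.2.2.1 c.2.2.2 m‖ ≤ K * Real.exp (-(m : ℝ))) ∧
      ‖entC α β a b t c - ∑ m ∈ Finset.range U,
        xco L w a b t P m * yco L P c.1 c.2.1 c.2.2.1 c.2.2.2 m‖ ≤ 3 * K * Real.exp (-(U : ℝ)) := by
    intro a b t c hkap ht
    have hi : (c.1 : ℕ) ≤ l := Nat.lt_succ_iff.mp c.1.2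
    have hj : (c.2.1 : ℕ) ≤ l := Nat.lt_succ_iff.mp c.2.1.2
    have hk : (c.2.2.1 : ℕ) < n := c.2.2.1.2
    have he : (c.2.2.2 : ℕ) < 2 := c.2.2.2.2
    have hjke : (c.2.1 : ℕ) + 2 * c.2.2.1 + 3 * c.2.2.2 ≤ P := by omega
    obtain ⟨h1, h2⟩ := hD3 L w hL a b t T P l c.1 c.2.1 c.2.2.1 c.2.2.2 ρ hjke hi hj ht hkap
    refine ⟨h1, ?_⟩
    have h2U := h2 U
    have hκ : ‖kap a b‖ ≤ ρ / 2 := by
      have h3 : ‖kap a b‖ * 2 ≤ ‖kap a b‖ * w := mul_le_mul_of_nonneg_left hw2 (norm_nonneg _)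
      linarith
    have hκ0 : 0 ≤ ‖kap a b‖ := norm_nonneg _
    have hpiw : ‖((Real.pi / w : ℝ) : ℂ)‖ ≤ Real.pi / 2 := by
      rw [Complex.norm_real, Real.norm_eq_abs, abs_of_pos (div_pos Real.pi_pos hw0)]
      exact div_le_div_of_nonneg_left Real.pi_pos.le (by norm_num) hw2
    have hpi := Real.pi_lt_d2
    have hαn : ‖α‖ ≤ w + 1 := by
      calc ‖α‖ = ‖(α - w) + w‖ := by ring_nf
        _ ≤ ‖α - w‖ + ‖(w : ℂ)‖ := norm_add_le _ _
        _ ≤ w + 1 := by rw [hnw]; linarith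
    have hβn : ‖β‖ ≤ Real.pi / 2 + 1 := by
      calc ‖β‖ = ‖(β - (Real.pi / w : ℝ)) + (Real.pi / w : ℝ)‖ := by ring_nf
        _ ≤ ‖β - (Real.pi / w : ℝ)‖ + ‖((Real.pi / w : ℝ) : ℂ)‖ := norm_add_le _ _
        _ ≤ Real.pi / 2 + 1 := by linarith
    have hdiff := hS10.2 (kap a b * α) (kap a (-b) * β) (kap a b * w)
      (kap a (-b) * (Real.pi / w : ℝ)) (2 * ρ) (ρ * ε / 2) t c.1 c.2.1 c.2.2.1 c.2.2.2
      (by linarith) (by omega)
      (by
        rw [norm_mul]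
        have h3 : ‖kap a b‖ * ‖α‖ ≤ ‖kap a b‖ * (w + 1) := mul_le_mul_of_nonneg_left hαn hκ0
        linarith)
      (by
        rw [norm_mul, norm_kap_neg]
        have h3 : ‖kap a b‖ * ‖β‖ ≤ ρ / 2 * (Real.pi / 2 + 1) :=
          mul_le_mul hκ hβn (norm_nonneg _) (by linarith)
        nlinarith)
      (by
        rw [norm_mul, hnw]
        linarith)
      (by
        rw [norm_mul, norm_kap_neg]
        have h3 : ‖kap a b‖ * ‖((Real.pi / w : ℝ) : ℂ)‖ ≤ ρ / 2 * (Real.pi / 2) :=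
          mul_le_mul hκ hpiw (norm_nonneg _) (by linarith)
        nlinarith)
      (by
        rw [← mul_sub, norm_mul]
        calc ‖kap a b‖ * ‖α - w‖ ≤ ρ / 2 * ε := mul_le_mul hκ hα (norm_nonneg _) (by linarith)
          _ = ρ * ε / 2 := by ring)
      (by
        rw [← mul_sub, norm_mul, norm_kap_neg]
        calc ‖kap a b‖ * ‖β - (Real.pi / w : ℝ)‖ ≤ ρ / 2 * ε :=
              mul_le_mul hκ hβ (norm_nonneg _) (by linarith)
          _ = ρ * ε / 2 := by ring)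
    have hdiff2 : ‖ent (kap a b * α) (kap a (-b) * β) t c.1 c.2.1 c.2.2.1 c.2.2.2 -
        ent (kap a b * w) (kap a (-b) * (Real.pi / w : ℝ)) t c.1 c.2.1 c.2.2.1 c.2.2.2‖ ≤
        K * Real.exp (-(U : ℝ)) := by
      refine hdiff.trans (le_trans ?_ hcond)
      have hc1 : (((c.1 : ℕ) + (c.2.1 : ℕ) : ℕ) : ℝ) ≤ 2 * l := by
        have : (c.1 : ℕ) + (c.2.1 : ℕ) ≤ 2 * l := by omega
        exact_mod_cast this
      have hc2 : (2 * ρ) ^ ((c.1 : ℕ) + (c.2.1 : ℕ)) ≤ (2 * ρ) ^ (2 * l) :=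
        pow_le_pow_right₀ (by linarith) (by omega)
      have hc3 : (2 : ℝ) ^ (c.2.2.1 : ℕ) ≤ 2 ^ n := pow_le_pow_right₀ (by norm_num) hk.le
      have hc4 : (8 : ℝ) ^ t ≤ 8 ^ T := pow_le_pow_right₀ (by norm_num) ht
      calc (((c.1 : ℕ) + (c.2.1 : ℕ) : ℕ) : ℝ) * (ρ * ε / 2) *
            (2 * ρ) ^ ((c.1 : ℕ) + (c.2.1 : ℕ)) * 2 ^ (c.2.2.1 : ℕ) * 8 ^ t
          ≤ (2 * l) * (ρ * ε / 2) * (2 * ρ) ^ (2 * l) * 2 ^ n * 8 ^ T := by
            gcongr
        _ = ε * l * ρ * (2 * ρ) ^ (2 * l) * 2 ^ n * 8 ^ T := by ring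
    have hsplit : entC α β a b t c - ∑ m ∈ Finset.range U,
        xco L w a b t P m * yco L P c.1 c.2.1 c.2.2.1 c.2.2.2 m =
        (ent (kap a b * α) (kap a (-b) * β) t c.1 c.2.1 c.2.2.1 c.2.2.2 -
        ent (kap a b * w) (kap a (-b) * (Real.pi / w : ℝ)) t c.1 c.2.1 c.2.2.1 c.2.2.2) +
        (ent (kap a b * w) (kap a (-b) * (Real.pi / w : ℝ)) t c.1 c.2.1 c.2.2.1 c.2.2.2 -
        ∑ m ∈ Finset.range U, xco L w a b t P m * yco L P c.1 c.2.1 c.2.2.1 c.2.2.2 m) := by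
      rw [show entC α β a b t c =
        ent (kap a b * α) (kap a (-b) * β) t c.1 c.2.1 c.2.2.1 c.2.2.2 from rfl]
      ring
    rw [hsplit]
    refine (norm_add_le _ _).trans ?_
    linarith
  -- the decomposition of the real rows
  set x : Col l n → ℕ → ℂ := fun c' m => hs (r c').2.2.2
    (xco L w (r c').1 (r c').2.1 (r c').2.2.1 P m)
    (xco L w (r c').1 (-(r c').2.1) (r c').2.2.1 P m) with hx
  set y : ℕ → Col l n → ℂ := fun m c => yco L P c.1 c.2.1 c.2.2.1 c.2.2.2 m with hy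
  set A : Col l n → Col l n → ℂ := fun c' c =>
    entR α β (r c').1 (r c').2.1 (r c').2.2.1 (r c').2.2.2 c with hA
  set e : Col l n → Col l n → ℂ := fun c' c => hs (r c').2.2.2
    (entC α β (r c').1 (r c').2.1 (r c').2.2.1 c - ∑ m ∈ Finset.range U,
      xco L w (r c').1 (r c').2.1 (r c').2.2.1 P m * y m c)
    (entC α β (r c').1 (-(r c').2.1) (r c').2.2.1 c - ∑ m ∈ Finset.range U,
      xco L w (r c').1 (-(r c').2.1) (r c').2.2.1 P m * y m c) with he
  have hneg : ∀ c, ‖kap (r c).1 (-(r c).2.1)‖ * w + 1 / 6 ≤ ρ := by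
    intro c
    rw [norm_kap_neg]
    exact (hr c).1
  have hdec : ∀ c' c, A c' c = ∑ s ∈ Finset.range (Fintype.card (Col l n)), x c' s * y s c + e c' c := by
    intro c' c
    have h1 : ∑ s ∈ Finset.range (Fintype.card (Col l n)), x c' s * y s c =
        hs (r c').2.2.2
          (∑ m ∈ Finset.range U, xco L w (r c').1 (r c').2.1 (r c').2.2.1 P m * y m c)
          (∑ m ∈ Finset.range U, xco L w (r c').1 (-(r c').2.1) (r c').2.2.1 P m * y m c) := by
      rw [hs_sum]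
      apply Finset.sum_congr rfl
      intro m _
      rw [hs_mul]
    rw [h1, he, ← hs_add]
    simp only [add_sub_cancel]
    rfl
  have hb1 : ∀ c' c, ∀ s < Fintype.card (Col l n), ‖x c' s * y s c‖ ≤
      3 * K * Real.exp (-(s : ℝ)) := by
    intro c' c s _
    rw [hx]
    simp only
    rw [← hs_mul]
    have h1 := (hrow (r c').1 (r c').2.1 (r c').2.2.1 c (hr c').1 (hr c').2).1 s
    have h2 := (hrow (r c').1 (-(r c').2.1) (r c').2.2.1 c (hneg c') (hr c').2).1 s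
    have h3 : K * Real.exp (-(s : ℝ)) ≤ 3 * K * Real.exp (-(s : ℝ)) := by
      have : 0 ≤ K * Real.exp (-(s : ℝ)) := by positivity
      linarith
    exact (hs_norm h1 h2).trans h3
  have hb2 : ∀ c' c, ‖e c' c‖ ≤ 3 * K * Real.exp (-(Fintype.card (Col l n) : ℝ)) := by
    intro c' c
    exact hs_norm (hrow (r c').1 (r c').2.1 (r c').2.2.1 c (hr c').1 (hr c').2).2
      (hrow (r c').1 (-(r c').2.1) (r c').2.2.1 c (hneg c') (hr c').2).2
  exact hD1 (Col l n) A e x y (3 * K) (by positivity) hdec hb1 hb2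

end Pool.Agent.MPb60633
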