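import Pool.Agent.Lib.MP_b60633_nt.SpecD

/-!
# MP_b60633_nt, E10: the entire functions A1, A2, A3
-/

set_option autoImplicit false

noncomputable section

namespace Pool.Agent.MPb60633

open Complex Pool.Agent.Lib.Ribet4b482e

namespace E10

variable (L : PeriodPair)

lemma diff_it (n : ℕ) : Differentiable ℂ (iteratedDeriv n (sigmaW L)) :=
  ((differentiable_sigmaW L).contDiff (n := ((n + 1 : ℕ) : WithTop ℕ∞))).differentiable_iteratedDeriv
    n (by exact_mod_cast Nat.lt_succ_self n)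

lemma it1 : iteratedDeriv 1 (sigmaW L) = deriv (sigmaW L) := iteratedDeriv_one

lemma has0 (z : ℂ) : HasDerivAt (sigmaW L) (deriv (sigmaW L) z) z :=
  (differentiable_sigmaW L z).hasDerivAt

lemma has1 (z : ℂ) : HasDerivAt (deriv (sigmaW L)) (iteratedDeriv 2 (sigmaW L) z) z := by
  have h := (diff_it L 1 z).hasDerivAt
  rw [show (2 : ℕ) = 1 + 1 from rfl, iteratedDeriv_succ]
  rw [it1 L] at h ⊢
  exact h

lemma has2 (z : ℂ) :
    HasDerivAt (iteratedDeriv 2 (sigmaW L)) (iteratedDeriv 3 (sigmaW L) z) z := by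
  have h := (diff_it L 2 z).hasDerivAt
  have h3 : iteratedDeriv 3 (sigmaW L) z = deriv (iteratedDeriv 2 (sigmaW L)) z := by
    rw [show (3 : ℕ) = 2 + 1 from rfl]
    simp only [iteratedDeriv_succ]
  rw [h3]
  exact h

lemma off1 {z : ℂ} (hz : z ∉ L.lattice) :
    deriv (sigmaW L) z = zetaW L z * sigmaW L z := (hasDerivAt_sigmaW L hz).deriv

lemma off2 {z : ℂ} (hz : z ∉ L.lattice) :
    iteratedDeriv 2 (sigmaW L) z = (zetaW L z ^ 2 - L.weierstrassP z) * sigmaW L z := by
  have h1 : HasDerivAt (fun x => zetaW L x * sigmaW L x)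
      (-(L.weierstrassP z) * sigmaW L z + zetaW L z * (zetaW L z * sigmaW L z)) z :=
    (hasDerivAt_zetaW L hz).mul (hasDerivAt_sigmaW L hz)
  have h2 : deriv (sigmaW L) =ᶠ[nhds z] (fun x => zetaW L x * sigmaW L x) := by
    filter_upwards [compl_mem_nhds L hz] with x hx
    exact off1 L hx
  have h3 := (has1 L z).unique (h1.congr_of_eventuallyEq h2)
  rw [h3]
  ring

lemma off3 {z : ℂ} (hz : z ∉ L.lattice) :
    iteratedDeriv 3 (sigmaW L) z = (zetaW L z ^ 3 - 3 * zetaW L z * L.weierstrassP z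
      - L.derivWeierstrassP z) * sigmaW L z := by
  have h0 : HasDerivAt (fun x => zetaW L x ^ 2)
      (2 * zetaW L z * (-(L.weierstrassP z))) z := by
    refine ((hasDerivAt_zetaW L hz).pow 2).congr_deriv ?_
    norm_num
  have h1 : HasDerivAt (fun x => (zetaW L x ^ 2 - L.weierstrassP x) * sigmaW L x)
      ((2 * zetaW L z * (-(L.weierstrassP z)) - L.derivWeierstrassP z) * sigmaW L z
        + (zetaW L z ^ 2 - L.weierstrassP z) * (zetaW L z * sigmaW L z)) z :=
    (h0.sub (hasDerivAt_weierstrassP L hz)).mul (hasDerivAt_sigmaW L hz)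
  have h2 : iteratedDeriv 2 (sigmaW L) =ᶠ[nhds z]
      (fun x => (zetaW L x ^ 2 - L.weierstrassP x) * sigmaW L x) := by
    filter_upwards [compl_mem_nhds L hz] with x hx
    exact off2 L hx
  have h3 := (has2 L z).unique (h1.congr_of_eventuallyEq h2)
  rw [h3]
  ring

section
variable {L}
variable {l h C : ℂ} (hσ : ∀ z, sigmaW L (z + l) = C * Complex.exp (h * z) * sigmaW L z)
include hσ

omit hσ in
lemma hasE (z : ℂ) : HasDerivAt (fun z : ℂ => C * Complex.exp (h * z))
    (C * Complex.exp (h * z) * h) z := by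
  have h1 : HasDerivAt (fun z : ℂ => h * z) h z := by
    simpa using (hasDerivAt_id z).const_mul h
  refine (h1.cexp.const_mul C).congr_deriv ?_
  ring

lemma tr1 (z : ℂ) : deriv (sigmaW L) (z + l) =
    C * Complex.exp (h * z) * (deriv (sigmaW L) z + h * sigmaW L z) := by
  have h1 : HasDerivAt (fun z => sigmaW L (z + l)) (deriv (sigmaW L) (z + l)) z :=
    (has0 L (z + l)).comp_add_const z l
  have h2 := (hasE (h := h) (C := C) z).mul (has0 L z)
  rw [funext hσ] at h1
  have h3 := h1.unique h2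
  rw [h3]
  ring

lemma tr2 (z : ℂ) : iteratedDeriv 2 (sigmaW L) (z + l) =
    C * Complex.exp (h * z) * (iteratedDeriv 2 (sigmaW L) z + 2 * h * deriv (sigmaW L) z
      + h ^ 2 * sigmaW L z) := by
  have h1 : HasDerivAt (fun z => deriv (sigmaW L) (z + l)) (iteratedDeriv 2 (sigmaW L) (z + l)) z :=
    (has1 L (z + l)).comp_add_const z l
  have h2 := (hasE (h := h) (C := C) z).mul ((has1 L z).add ((has0 L z).const_mul h))
  rw [funext (tr1 hσ)] at h1
  have h3 := h1.unique h2
  rw [h3]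
  simp only [Pi.add_apply]
  ring

lemma tr3 (z : ℂ) : iteratedDeriv 3 (sigmaW L) (z + l) =
    C * Complex.exp (h * z) * (iteratedDeriv 3 (sigmaW L) z
      + 3 * h * iteratedDeriv 2 (sigmaW L) z + 3 * h ^ 2 * deriv (sigmaW L) z
      + h ^ 3 * sigmaW L z) := by
  have h1 : HasDerivAt (fun z => iteratedDeriv 2 (sigmaW L) (z + l))
      (iteratedDeriv 3 (sigmaW L) (z + l)) z :=
    (has2 L (z + l)).comp_add_const z l
  have h2 := (hasE (h := h) (C := C) z).mul (((has2 L z).add ((has1 L z).const_mul (2 * h))).add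
    ((has0 L z).const_mul (h ^ 2)))
  rw [funext (tr2 hσ)] at h1
  have h3 := h1.unique h2
  rw [h3]
  simp only [Pi.add_apply]
  ring

end

end E10

theorem t_E10 : S_E10 := by
  intro L
  have d0 := differentiable_sigmaW L
  have d1 : Differentiable ℂ (deriv (sigmaW L)) := fun z => (E10.has1 L z).differentiableAt
  have d2 := E10.diff_it L 2
  have d3 := E10.diff_it L 3
  refine ⟨⟨d1, ?_, ?_⟩, ?_, ?_⟩
  · unfold A2
    exact (d1.pow 2).sub (d0.mul d2)
  · unfold A3
    exact ((((d0.const_mul 3).mul d1).mul d2).sub ((d0.pow 2).mul d3)).sub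
      ((d1.pow 3).const_mul 2)
  · intro z hz
    refine ⟨E10.off1 L hz, ?_, ?_⟩
    · simp only [A2, E10.off1 L hz, E10.off2 L hz]
      ring
    · simp only [A3, E10.off1 L hz, E10.off2 L hz, E10.off3 L hz]
      ring
  · intro l h C hσ z
    refine ⟨E10.tr1 hσ z, ?_, ?_⟩
    · simp only [A2, hσ z, E10.tr1 hσ z, E10.tr2 hσ z]
      ring
    · simp only [A3, hσ z, E10.tr1 hσ z, E10.tr2 hσ z, E10.tr3 hσ z]
      ring

end Pool.Agent.MPb60633
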