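import Pool.Agent.Lib.MP_b60633_nt.SpecD

/-!
# MP_b60633_nt, E11: growth of sigma, A1, A2, A3
-/

set_option autoImplicit false

noncomputable section

namespace Pool.Agent.MPb60633

open Complex Pool.Agent.Lib.Ribet4b482e

namespace E11

lemma exists_red {L : PeriodPair} {w : ℝ} (hL : Sq L w) (z : ℂ) :
    ∃ z₀ l : ℂ, l ∈ L.lattice ∧ z = z₀ + l ∧ ‖z₀‖ ≤ 3 / 4 * w ∧
      ∃ a b : ℤ, l = ((a : ℂ) + b * I) * w := by
  have hw := hL.pos
  set a : ℤ := round (z.re / w) with ha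
  set b : ℤ := round (z.im / w) with hb
  refine ⟨z - ((a : ℂ) + b * I) * w, ((a : ℂ) + b * I) * w, ?_, by ring, ?_, a, b, rfl⟩
  · rw [PeriodPair.mem_lattice]
    refine ⟨a, b, ?_⟩
    rw [hL.one, hL.two]
    ring
  · have h1 : |z.re / w - a| ≤ 1 / 2 := abs_sub_round _
    have h2 : |z.im / w - b| ≤ 1 / 2 := abs_sub_round _
    have hre : (z - ((a : ℂ) + b * I) * w).re = (z.re / w - a) * w := by
      simp
      field_simp
    have him : (z - ((a : ℂ) + b * I) * w).im = (z.im / w - b) * w := by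
      simp
      field_simp
    apply le_of_sq_le_sq (h := ?_) (by positivity)
    rw [← Complex.normSq_eq_norm_sq, Complex.normSq_apply, hre, him]
    have h3 : (z.re / w - a) ^ 2 ≤ (1 / 2) ^ 2 := sq_le_sq' (by linarith [neg_abs_le (z.re / w - a)])
      (by linarith [le_abs_self (z.re / w - a)])
    have h4 : (z.im / w - b) ^ 2 ≤ (1 / 2) ^ 2 := sq_le_sq' (by linarith [neg_abs_le (z.im / w - b)])
      (by linarith [le_abs_self (z.im / w - b)])
    have hw2 : 0 < w ^ 2 := by positivity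
    nlinarith

end E11

theorem t_E11 (hE8 : S_E8) (hE9 : S_E9) (hE10 : S_E10) : S_E11 := by
  intro L w hL z
  have hS : Sq L w := hL.toLem.toSq
  have hw : 0 < w := hS.pos
  have hw2 : 2 ≤ w := hL.two_le
  have hwpi : w ≤ 3.15 := hL.le_pi.trans Real.pi_lt_d2.le
  obtain ⟨z₀, l, hl, hz, hz₀, a, b, hab⟩ := E11.exists_red hS z
  -- σ on the circle
  set e5 : ℝ := Real.exp 500 with he5
  have he5pos : 0 < e5 := Real.exp_pos _
  have hσ : ∀ s : ℂ, ‖s‖ ≤ 5 / 4 * w → ‖sigmaW L s‖ ≤ 4 * e5 := by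
    intro s hs
    refine ((hE8 L w hS).1 s).trans ?_
    have h1 : ‖s‖ / w ≤ 5 / 4 := by
      rw [div_le_iff₀ hw]
      exact hs
    have h2 : 256 * (‖s‖ / w) ^ 3 ≤ 500 := by
      calc 256 * (‖s‖ / w) ^ 3 ≤ 256 * (5 / 4) ^ 3 := by gcongr
        _ = 500 := by norm_num
    have h3 : ‖s‖ ≤ 4 := by linarith
    exact mul_le_mul h3 (Real.exp_le_exp.mpr h2) (Real.exp_pos _).le (by norm_num)
  have hCau : ∀ n : ℕ, ‖iteratedDeriv n (sigmaW L) z₀‖ ≤ n.factorial * (4 * e5) := by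
    intro n
    have h1 := Complex.norm_iteratedDeriv_le_of_forall_mem_sphere_norm_le (c := z₀) (R := w / 2)
      (C := 4 * e5) (f := sigmaW L) n (by linarith) (differentiable_sigmaW L).diffContOnCl ?_
    · refine h1.trans ?_
      apply div_le_self (by positivity)
      exact one_le_pow₀ (by linarith)
    · intro s hs
      apply hσ
      rw [mem_sphere_iff_norm] at hs
      calc ‖s‖ = ‖(s - z₀) + z₀‖ := by rw [sub_add_cancel]
        _ ≤ ‖s - z₀‖ + ‖z₀‖ := norm_add_le _ _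
        _ ≤ 5 / 4 * w := by rw [hs]; linarith
  have b0 : ‖sigmaW L z₀‖ ≤ 4 * e5 := hσ z₀ (by linarith)
  have b1 : ‖deriv (sigmaW L) z₀‖ ≤ 4 * e5 := by
    have := hCau 1
    rw [iteratedDeriv_one] at this
    simpa using this
  have b2 : ‖iteratedDeriv 2 (sigmaW L) z₀‖ ≤ 8 * e5 := by
    have := hCau 2
    have h2 : ((Nat.factorial 2 : ℕ) : ℝ) = 2 := by norm_num [Nat.factorial]
    rw [h2] at this
    linarith
  have b3 : ‖iteratedDeriv 3 (sigmaW L) z₀‖ ≤ 24 * e5 := by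
    have := hCau 3
    have h2 : ((Nat.factorial 3 : ℕ) : ℝ) = 6 := by norm_num [Nat.factorial]
    rw [h2] at this
    linarith
  have c2 : ‖A2 L z₀‖ ≤ 48 * e5 ^ 2 := by
    calc ‖A2 L z₀‖ ≤ ‖deriv (sigmaW L) z₀ ^ 2‖ + ‖sigmaW L z₀ * iteratedDeriv 2 (sigmaW L) z₀‖ :=
          norm_sub_le _ _
      _ = ‖deriv (sigmaW L) z₀‖ ^ 2 + ‖sigmaW L z₀‖ * ‖iteratedDeriv 2 (sigmaW L) z₀‖ := by
          rw [norm_pow, norm_mul]
      _ ≤ (4 * e5) ^ 2 + 4 * e5 * (8 * e5) := by gcongr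
      _ = 48 * e5 ^ 2 := by ring
  have c3 : ‖A3 L z₀‖ ≤ 896 * e5 ^ 3 := by
    calc ‖A3 L z₀‖ ≤ ‖3 * sigmaW L z₀ * deriv (sigmaW L) z₀ * iteratedDeriv 2 (sigmaW L) z₀‖
          + ‖sigmaW L z₀ ^ 2 * iteratedDeriv 3 (sigmaW L) z₀‖ + ‖2 * deriv (sigmaW L) z₀ ^ 3‖ :=
          (norm_sub_le _ _).trans (by gcongr; exact norm_sub_le _ _)
      _ = 3 * ‖sigmaW L z₀‖ * ‖deriv (sigmaW L) z₀‖ * ‖iteratedDeriv 2 (sigmaW L) z₀‖
          + ‖sigmaW L z₀‖ ^ 2 * ‖iteratedDeriv 3 (sigmaW L) z₀‖ + 2 * ‖deriv (sigmaW L) z₀‖ ^ 3 := by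
          rw [norm_mul, norm_mul, norm_mul, norm_mul, norm_pow, norm_mul, norm_pow]
          norm_num
      _ ≤ 3 * (4 * e5) * (4 * e5) * (8 * e5) + (4 * e5) ^ 2 * (24 * e5) + 2 * (4 * e5) ^ 3 := by
          gcongr
      _ = 896 * e5 ^ 3 := by ring
  -- quasi-periodicity
  obtain ⟨C, hC, hCl⟩ := (hE9 L w hL).2 l hl
  obtain ⟨-, -, htr⟩ := hE10 L
  obtain ⟨t1, t2, t3⟩ := htr l (etaW L l) C (fun z => (hCl z).1) z₀
  obtain ⟨t0, hE⟩ := hCl z₀
  set E : ℂ := C * Complex.exp (etaW L l * z₀) with hEdef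
  set G : ℝ := Gs w z with hG
  have hEle : ‖E‖ ≤ Real.exp G := by
    rw [hE, ← hz]
    apply Real.exp_le_exp.mpr
    have : 0 ≤ Gs w z₀ := by unfold Gs; positivity
    linarith
  have hη : ‖etaW L l‖ ≤ ‖z‖ + 3 := by
    have h1 : ‖etaW L l‖ = ‖l‖ * (Real.pi / w ^ 2) := by
      have h2 := (hE9 L w hL).1 a b
      rw [← hab] at h2
      rw [h2, hab]
      have h3 : ((a : ℂ) - b * I) = (starRingEnd ℂ) ((a : ℂ) + b * I) := by
        simp [sub_eq_add_neg]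
      rw [h3, norm_mul, norm_mul, Complex.norm_conj, norm_div, Complex.norm_real,
        Complex.norm_real, Real.norm_of_nonneg hw.le, Real.norm_of_nonneg Real.pi_pos.le]
      field_simp
    have h4 : Real.pi / w ^ 2 ≤ 1 := by
      rw [div_le_one (by positivity)]
      nlinarith [Real.pi_lt_d2]
    have h5 : ‖l‖ ≤ ‖z‖ + 3 := by
      have h6 : l = z - z₀ := by rw [hz]; ring
      calc ‖l‖ ≤ ‖z‖ + ‖z₀‖ := by rw [h6]; exact norm_sub_le _ _
        _ ≤ ‖z‖ + 3 := by linarith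
    rw [h1]
    calc ‖l‖ * (Real.pi / w ^ 2) ≤ ‖l‖ * 1 := by gcongr
      _ ≤ ‖z‖ + 3 := by linarith
  have hbig : (16 : ℝ) ≤ Real.exp 100 := by
    have := Real.add_one_le_exp (100 : ℝ)
    linarith
  have h500 : 16 * e5 ≤ Real.exp 600 := by
    calc 16 * e5 ≤ Real.exp 100 * e5 := by gcongr
      _ = Real.exp 600 := by
        rw [he5, ← Real.exp_add]
        norm_num
  have h6 : Real.exp (600 + G) = Real.exp 600 * Real.exp G := Real.exp_add _ _
  have hz0 : 0 ≤ ‖z‖ := norm_nonneg z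
  refine ⟨?_, ?_, ?_, ?_⟩
  · rw [hz, t0, norm_mul, h6]
    calc ‖E‖ * ‖sigmaW L z₀‖ ≤ Real.exp G * (4 * e5) := by gcongr
      _ ≤ Real.exp G * Real.exp 600 := by gcongr; linarith
      _ = Real.exp 600 * Real.exp G := by ring
  · have h7 : ‖A1 L z‖ ≤ ‖E‖ * (4 * e5 + (‖z‖ + 3) * (4 * e5)) := by
      rw [hz, t1, norm_mul, ← hz]
      gcongr
      calc ‖A1 L z₀ + etaW L l * sigmaW L z₀‖ ≤ ‖A1 L z₀‖ + ‖etaW L l * sigmaW L z₀‖ :=
            norm_add_le _ _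
        _ ≤ 4 * e5 + (‖z‖ + 3) * (4 * e5) := by
            rw [norm_mul]
            have : ‖A1 L z₀‖ ≤ 4 * e5 := b1
            gcongr
    refine h7.trans ?_
    rw [h6]
    calc ‖E‖ * (4 * e5 + (‖z‖ + 3) * (4 * e5)) ≤ Real.exp G * ((1 + ‖z‖) * (16 * e5)) := by
          gcongr
          nlinarith
      _ ≤ Real.exp G * ((1 + ‖z‖) * Real.exp 600) := by gcongr
      _ = (1 + ‖z‖) * (Real.exp 600 * Real.exp G) := by ring
  · have h7 : ‖A2 L z‖ = ‖E‖ ^ 2 * ‖A2 L z₀‖ := by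
      rw [hz, t2, norm_mul, norm_pow]
    rw [h7, two_mul, Real.exp_add, h6]
    calc ‖E‖ ^ 2 * ‖A2 L z₀‖ ≤ Real.exp G ^ 2 * (48 * e5 ^ 2) := by gcongr
      _ ≤ Real.exp G ^ 2 * (16 * e5) ^ 2 := by
          have : 0 ≤ e5 ^ 2 := by positivity
          have h8 : 48 * e5 ^ 2 ≤ (16 * e5) ^ 2 := by
            rw [mul_pow]
            linarith
          gcongr
      _ ≤ Real.exp G ^ 2 * Real.exp 600 ^ 2 := by gcongr
      _ = Real.exp 600 * Real.exp G * (Real.exp 600 * Real.exp G) := by ring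
  · have h7 : ‖A3 L z‖ = ‖E‖ ^ 3 * ‖A3 L z₀‖ := by
      rw [hz, t3, norm_mul, norm_pow]
    have h9 : Real.exp (3 * (600 + G)) = (Real.exp 600 * Real.exp G) ^ 3 := by
      rw [← h6, ← Real.exp_nat_mul]
      norm_num
    rw [h7, h9]
    calc ‖E‖ ^ 3 * ‖A3 L z₀‖ ≤ Real.exp G ^ 3 * (896 * e5 ^ 3) := by gcongr
      _ ≤ Real.exp G ^ 3 * (16 * e5) ^ 3 := by
          have : 0 ≤ e5 ^ 3 := by positivity
          have h8 : 896 * e5 ^ 3 ≤ (16 * e5) ^ 3 := by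
            rw [mul_pow]
            linarith
          gcongr
      _ ≤ Real.exp G ^ 3 * Real.exp 600 ^ 3 := by gcongr
      _ = (Real.exp 600 * Real.exp G) ^ 3 := by ring

end Pool.Agent.MPb60633
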