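import Pool.Agent.Lib.MP_b60633_nt.SpecD

/-!
# MP_b60633_nt, E13: lower bound for sigma near the points kappa w
-/

set_option autoImplicit false

noncomputable section

namespace Pool.Agent.MPb60633

open Complex Pool.Agent.Lib.Ribet4b482e

theorem t_E13 (hE8 : S_E8) (hE9 : S_E9) : S_E13 := by
  intro L w hL a b u hu
  have hS : Sq L w := hL.toLem.toSq
  have hw : 0 < w := hS.pos
  have hw2 : 2 ≤ w := hL.two_le
  set z₀ : ℂ := (w : ℂ) / 2 + u with hz₀
  set l : ℂ := ((a : ℂ) + b * I) * w with hl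
  have hz : kap a b * w + u = z₀ + l := by
    rw [hz₀, hl, kap]
    ring
  have hlm : l ∈ L.lattice := by
    rw [PeriodPair.mem_lattice]
    refine ⟨a, b, ?_⟩
    rw [hS.one, hS.two, hl]
    ring
  obtain ⟨C, hC, hCl⟩ := (hE9 L w hL).2 l hlm
  obtain ⟨h1, h2⟩ := hCl z₀
  have hn : ‖(w : ℂ) / 2‖ = w / 2 := by
    rw [norm_div, Complex.norm_real, Real.norm_of_nonneg hw.le]
    norm_num
  have hup : ‖z₀‖ ≤ 7 / 12 * w := by
    calc ‖z₀‖ ≤ ‖(w : ℂ) / 2‖ + ‖u‖ := norm_add_le _ _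
      _ ≤ 7 / 12 * w := by rw [hn]; linarith
  have hlo : 5 / 6 ≤ ‖z₀‖ := by
    have : ‖(w : ℂ) / 2‖ ≤ ‖z₀‖ + ‖u‖ := by
      have : (w : ℂ) / 2 = z₀ - u := by rw [hz₀]; ring
      rw [this]
      exact norm_sub_le _ _
    rw [hn] at this
    linarith
  have h3 := (hE8 L w hS).2 z₀ (by linarith)
  have hG0 : 0 ≤ Gs w (z₀ + l) := by
    unfold Gs
    positivity
  have hG1 : Gs w z₀ ≤ 27 / 50 := by
    have h4 : ‖z₀‖ ^ 2 ≤ (7 / 12 * w) ^ 2 := by gcongr
    have h5 : Gs w z₀ ≤ Real.pi * (7 / 12 * w) ^ 2 / (2 * w ^ 2) := by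
      unfold Gs
      gcongr
    have h6 : Real.pi * (7 / 12 * w) ^ 2 / (2 * w ^ 2) = Real.pi * (49 / 288) := by
      field_simp
      norm_num
    rw [h6] at h5
    have := Real.pi_lt_d2
    linarith
  have hkey : Real.exp (-6) ≤ ‖sigmaW L (z₀ + l)‖ := by
    rw [h1, norm_mul, h2]
    have h7 : 23 / 50 ≤ Real.exp (Gs w (z₀ + l) - Gs w z₀) := by
      have := Real.add_one_le_exp (Gs w (z₀ + l) - Gs w z₀)
      linarith
    have h8 : Real.exp (-1) ≤ 23 / 60 := by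
      rw [Real.exp_neg]
      have := Real.exp_one_gt_d9
      rw [inv_le_comm₀ (by positivity) (by norm_num)]
      norm_num
      linarith
    calc Real.exp (-6) = Real.exp (-1) * Real.exp (-5) := by
          rw [← Real.exp_add]
          norm_num
      _ ≤ 23 / 60 * Real.exp (-5) := by gcongr
      _ = 23 / 50 * (5 / 6 * Real.exp (-5)) := by ring
      _ ≤ Real.exp (Gs w (z₀ + l) - Gs w z₀) * (‖z₀‖ * Real.exp (-5)) := by gcongr
      _ ≤ Real.exp (Gs w (z₀ + l) - Gs w z₀) * ‖sigmaW L z₀‖ := by gcongr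
  rw [hz]
  refine ⟨fun hmem => ?_, hkey⟩
  rw [sigmaW_eq_zero_of_mem L hmem, norm_zero] at hkey
  linarith [Real.exp_pos (-6)]

end Pool.Agent.MPb60633
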