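import Pool.Agent.Lib.MP_b60633_nt.SpecD

/-!
# MP_b60633_nt, E2: existence of the lattice with g2 = 4
-/

set_option autoImplicit false

noncomputable section

namespace Pool.Agent.MPb60633

open Complex Pool.Agent.Lib.Ribet4b482e

theorem t_E2 (hE1 : S_E1) : S_E2 := by
  set L₁ : PeriodPair := squarePair 1 one_ne_zero with hL₁
  have hS : Sq L₁ 1 := ⟨by norm_num, by simp [hL₁, squarePair], by simp [hL₁, squarePair]⟩
  have hI : L₁.ω₂ = I * L₁.ω₁ := squarePair_I _ _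
  have hω₁ : L₁.ω₁ = 1 := rfl
  have h1 : (1 / 2 : ℂ) ∉ L₁.lattice := by
    have := L₁.ω₁_div_two_notMem_lattice
    rwa [hω₁] at this
  have hI1 : I * (1 / 2 : ℂ) ∉ L₁.lattice := fun h => h1 ((I_mul_mem_iff L₁ hI).mp h)
  set e : ℂ := L₁.weierstrassP (1 / 2) with he
  have hre : ((e.re : ℝ) : ℂ) = e := by
    have h2 := (hE1 L₁ 1 hS).2 (1 / 2)
    have h3 : (starRingEnd ℂ) (1 / 2 : ℂ) = 1 / 2 := by
      rw [show (1 / 2 : ℂ) = ((1 / 2 : ℝ) : ℂ) by push_cast; rfl, Complex.conj_ofReal]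
    rw [h3] at h2
    exact Complex.conj_eq_iff_re.mp h2
  have he0 : e ≠ 0 := by
    intro h
    have h2 : L₁.weierstrassP (I * (1 / 2)) = L₁.weierstrassP (1 / 2) := by
      rw [weierstrassP_I_mul L₁ hI, ← he, h, neg_zero]
    rw [weierstrassP_eq_iff L₁ hI1 h1] at h2
    have key : ∀ s : ℂ, s.re = 1 / 2 ∨ s.re = -(1 / 2) → s ∉ L₁.lattice := by
      intro s hs hmem
      rw [PeriodPair.mem_lattice] at hmem
      obtain ⟨m, n, hmn⟩ := hmem
      rw [hI, hω₁] at hmn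
      have h3 := congrArg Complex.re hmn
      simp at h3
      rcases hs with hs | hs
      · rw [hs] at h3
        have h4 : (2 * m : ℝ) = 1 := by rw [h3]; norm_num
        have h5 : (2 * m : ℤ) = 1 := by exact_mod_cast h4
        omega
      · rw [hs] at h3
        have h4 : (2 * m : ℝ) = -1 := by rw [h3]; norm_num
        have h5 : (2 * m : ℤ) = -1 := by exact_mod_cast h4
        omega
    rcases h2 with h2 | h2
    · exact key _ (Or.inl (by simp)) h2
    · exact key _ (Or.inr (by simp)) h2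
  have hg : L₁.g₂ = 4 * e ^ 2 := by
    have h2 : 2 * (1 / 2 : ℂ) ∈ L₁.lattice := by
      have := L₁.ω₁_mem_lattice
      rw [hω₁] at this
      simpa using this
    have h3 := L₁.derivWeierstrassP_sq (1 / 2) h1
    rw [derivWeierstrassP_eq_zero L₁ h2, g₃_eq_zero L₁ hI, ← he] at h3
    apply mul_right_cancel₀ he0
    linear_combination h3
  have her : e.re ≠ 0 := by
    intro h
    apply he0
    rw [← hre, h]
    simp
  set w : ℝ := Real.sqrt |e.re| with hw
  have hwpos : 0 < w := Real.sqrt_pos.mpr (abs_pos.mpr her)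
  have hw4 : w ^ 4 = e.re ^ 2 := by
    have h5 : w ^ 2 = |e.re| := Real.sq_sqrt (abs_nonneg _)
    calc w ^ 4 = (w ^ 2) ^ 2 := by ring
      _ = e.re ^ 2 := by rw [h5, sq_abs]
  have hwC : (w : ℂ) ≠ 0 := by exact_mod_cast hwpos.ne'
  refine ⟨squarePair w hwC, w, ⟨⟨hwpos, rfl, rfl⟩, ?_⟩⟩
  rw [squarePair_g₂, ← hL₁, hg, ← hre]
  have hw4C : (w : ℂ) ^ 4 = (e.re : ℂ) ^ 2 := by exact_mod_cast hw4
  have herC : (e.re : ℂ) ≠ 0 := by exact_mod_cast her
  rw [hw4C]
  field_simp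

end Pool.Agent.MPb60633
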