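import Pool.Agent.Lib.MP_b60633_nt.SpecD

set_option autoImplicit false

namespace Pool.Agent.MPb60633

open Complex Pool.Agent.Lib.Ribet4b482e Filter Topology

namespace E3

theorem notMem (L : PeriodPair) (w : ℝ) (hL : Sq L w) (x y : ℝ)
    (hxy : (∀ m : ℤ, (m : ℝ) ≠ x) ∨ (∀ n : ℤ, (n : ℝ) ≠ y)) (z : ℂ)
    (hz : z = ((x : ℂ) + (y : ℂ) * I) * w) : z ∉ L.lattice := by
  intro h
  obtain ⟨m, n, hmn⟩ := (L.mem_lattice).mp h
  rw [hL.one, hL.two, hz] at hmn
  have hre := congrArg Complex.re hmn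
  have him := congrArg Complex.im hmn
  simp at hre him
  have hw := hL.pos.ne'
  rcases hxy with h1 | h1
  · apply h1 m
    rcases hre with h2 | h2
    · exact h2
    · exact absurd h2 hw
  · apply h1 n
    rcases him with h2 | h2
    · exact h2
    · exact absurd h2 hw

theorem half (m : ℤ) : (m : ℝ) ≠ 1 / 2 := by
  intro h
  have h2 : (2 * m : ℝ) = 1 := by rw [h]; norm_num
  have h3 : (2 * m : ℤ) = 1 := by exact_mod_cast h2
  omega

theorem nhalf (m : ℤ) : (m : ℝ) ≠ -(1 / 2) := by
  intro h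
  have h2 : (2 * m : ℝ) = -1 := by rw [h]; norm_num
  have h3 : (2 * m : ℤ) = -1 := by exact_mod_cast h2
  omega

theorem cube (L : PeriodPair) (w : ℝ) (h : Lem L w) (h12 : L.ω₂ = I * L.ω₁) (z : ℂ)
    (hz : z ∉ L.lattice) (h2 : 2 * z ∈ L.lattice) :
    L.weierstrassP z ^ 3 = L.weierstrassP z := by
  have h1 := L.derivWeierstrassP_sq z hz
  rw [derivWeierstrassP_eq_zero L h2, h.g2, g₃_eq_zero L h12] at h1
  linear_combination (-1 / 4 : ℂ) * h1

end E3

theorem t_E3 (hE1 : S_E1) : S_E3 := by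
  intro L w h
  have hS := h.toSq
  have hw := hS.pos
  have h12 : L.ω₂ = I * L.ω₁ := by rw [hS.one, hS.two]
  obtain ⟨hc, hconj⟩ := hE1 L w hS
  -- the three points
  have m1 : ((w : ℂ) / 2) ∉ L.lattice :=
    E3.notMem L w hS (1 / 2) 0 (Or.inl E3.half) _ (by push_cast; ring)
  have m2 : (I * (w : ℂ) / 2) ∉ L.lattice :=
    E3.notMem L w hS 0 (1 / 2) (Or.inr E3.half) _ (by push_cast; ring)
  have m3 : ((1 + I) * (w : ℂ) / 2) ∉ L.lattice :=
    E3.notMem L w hS (1 / 2) (1 / 2) (Or.inr E3.half) _ (by push_cast; ring)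
  have d1 : 2 * ((w : ℂ) / 2) ∈ L.lattice := by
    rw [L.mem_lattice]; exact ⟨1, 0, by rw [hS.one]; push_cast; ring⟩
  have d3 : 2 * ((1 + I) * (w : ℂ) / 2) ∈ L.lattice := by
    rw [L.mem_lattice]; exact ⟨1, 1, by rw [hS.one, hS.two]; push_cast; ring⟩
  have c1 := E3.cube L w h h12 _ m1 d1
  have c3 := E3.cube L w h h12 _ m3 d3
  have hI : L.weierstrassP (I * (w : ℂ) / 2) = -L.weierstrassP ((w : ℂ) / 2) := by
    rw [← weierstrassP_I_mul L h12, mul_div_assoc]
  have n12 : L.weierstrassP (I * (w : ℂ) / 2) ≠ L.weierstrassP ((w : ℂ) / 2) := by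
    rw [Ne, weierstrassP_eq_iff L m2 m1]
    rintro (hh | hh)
    · exact E3.notMem L w hS (1 / 2) (1 / 2) (Or.inr E3.half) _ (by push_cast; ring) hh
    · exact E3.notMem L w hS (-(1 / 2)) (1 / 2) (Or.inr E3.half) _ (by push_cast; ring) hh
  have n13 : L.weierstrassP ((1 + I) * (w : ℂ) / 2) ≠ L.weierstrassP ((w : ℂ) / 2) := by
    rw [Ne, weierstrassP_eq_iff L m3 m1]
    rintro (hh | hh)
    · exact E3.notMem L w hS 1 (1 / 2) (Or.inr E3.half) _ (by push_cast; ring) hh
    · exact E3.notMem L w hS 0 (1 / 2) (Or.inr E3.half) _ (by push_cast; ring) hh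
  have n23 : L.weierstrassP ((1 + I) * (w : ℂ) / 2) ≠ L.weierstrassP (I * (w : ℂ) / 2) := by
    rw [Ne, weierstrassP_eq_iff L m3 m2]
    rintro (hh | hh)
    · exact E3.notMem L w hS (1 / 2) 1 (Or.inl E3.half) _ (by push_cast; ring) hh
    · exact E3.notMem L w hS (1 / 2) 0 (Or.inl E3.half) _ (by push_cast; ring) hh
  have he0 : L.weierstrassP ((w : ℂ) / 2) ≠ 0 := by
    intro h0
    apply n12
    rw [hI, h0, neg_zero]
  have he : L.weierstrassP ((w : ℂ) / 2) = 1 ∨ L.weierstrassP ((w : ℂ) / 2) = -1 := by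
    have h1 : (L.weierstrassP ((w : ℂ) / 2) - 1) * (L.weierstrassP ((w : ℂ) / 2) + 1) = 0 := by
      have h2 : L.weierstrassP ((w : ℂ) / 2) *
          ((L.weierstrassP ((w : ℂ) / 2) - 1) * (L.weierstrassP ((w : ℂ) / 2) + 1)) = 0 := by
        linear_combination c1
      exact (mul_eq_zero.mp h2).resolve_left he0
    rcases mul_eq_zero.mp h1 with h3 | h3
    · exact Or.inl (sub_eq_zero.mp h3)
    · exact Or.inr (eq_neg_of_add_eq_zero_left h3)
  have hv : L.weierstrassP ((1 + I) * (w : ℂ) / 2) = 0 := by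
    rw [hI] at n23
    have h2 : L.weierstrassP ((1 + I) * (w : ℂ) / 2) *
        ((L.weierstrassP ((1 + I) * (w : ℂ) / 2) - 1) *
          (L.weierstrassP ((1 + I) * (w : ℂ) / 2) + 1)) = 0 := by
      linear_combination c3
    rcases mul_eq_zero.mp h2 with h3 | h3
    · exact h3
    · exfalso
      rcases mul_eq_zero.mp h3 with h4 | h4
      · have h5 := sub_eq_zero.mp h4
        rcases he with h6 | h6
        · exact n13 (by rw [h5, h6])
        · exact n23 (by rw [h5, h6, neg_neg])
      · have h5 := eq_neg_of_add_eq_zero_left h4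
        rcases he with h6 | h6
        · exact n23 (by rw [h5, h6])
        · exact n13 (by rw [h5, h6])
  have hreal : ∀ t : ℝ, (L.weierstrassP (t : ℂ)).im = 0 := by
    intro t
    have h1 := hconj (t : ℂ)
    rw [Complex.conj_ofReal] at h1
    exact Complex.conj_eq_iff_im.mp h1
  have he1 : L.weierstrassP ((w : ℂ) / 2) = 1 := by
    rcases he with h1 | h1
    · exact h1
    exfalso
    -- a point where the real part is positive
    have hnm : ∀ t : ℝ, 0 < t → t ≤ w / 2 → (t : ℂ) ∉ L.lattice := by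
      intro t h0 h2
      apply E3.notMem L w hS (t / w) 0 (Or.inl ?_) _ ?_
      · intro m hm
        have ha : (0 : ℝ) < t / w := div_pos h0 hw
        have hb : t / w < 1 := by rw [div_lt_one hw]; linarith
        rw [← hm] at ha hb
        have ha' : (0 : ℤ) < m := by exact_mod_cast ha
        have hb' : m < (1 : ℤ) := by exact_mod_cast hb
        omega
      · push_cast
        have : (w : ℂ) ≠ 0 := by exact_mod_cast hw.ne'
        field_simp
        ring
    obtain ⟨t0, ht0, ht0w, hpos⟩ : ∃ t0 : ℝ, 0 < t0 ∧ t0 < w / 2 ∧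
        0 < (L.weierstrassP (t0 : ℂ)).re := by
      have hcont : ContinuousAt (fun t : ℝ => (L.weierstrassPExcept 0 (t : ℂ)).re) 0 := by
        have h2 : ContinuousAt (L.weierstrassPExcept 0) ((0 : ℝ) : ℂ) := by
          rw [Complex.ofReal_zero]
          exact (L.analyticAt_weierstrassPExcept 0).continuousAt
        exact Complex.continuous_re.continuousAt.comp
          (ContinuousAt.comp (f := fun t : ℝ => (t : ℂ)) h2 Complex.continuous_ofReal.continuousAt)
      set c := (L.weierstrassPExcept 0 ((0 : ℝ) : ℂ)).re with hcdef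
      have hev : ∀ᶠ t : ℝ in 𝓝 0, c - 1 < (L.weierstrassPExcept 0 (t : ℂ)).re :=
        hcont.eventually (lt_mem_nhds (by show c - 1 < c; linarith))
      obtain ⟨δ, hδ, hball⟩ := Metric.eventually_nhds_iff.mp hev
      set t0 := min (min (δ / 2) (w / 4)) (1 / (|c| + 2)) with ht0def
      have hp : 0 < t0 := by
        rw [ht0def]; positivity
      have hle1 : t0 ≤ δ / 2 := (min_le_left _ _).trans (min_le_left _ _)
      have hle2 : t0 ≤ w / 4 := (min_le_left _ _).trans (min_le_right _ _)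
      have hle3 : t0 ≤ 1 / (|c| + 2) := min_le_right _ _
      refine ⟨t0, hp, by linarith, ?_⟩
      have h3 : c - 1 < (L.weierstrassPExcept 0 (t0 : ℂ)).re := by
        apply hball
        rw [Real.dist_eq, sub_zero, abs_of_pos hp]
        linarith
      rw [weierstrassP_eq_add L, Complex.add_re]
      have h4 : (1 / (t0 : ℂ) ^ 2).re = 1 / t0 ^ 2 := by
        rw [← Complex.ofReal_pow, ← Complex.ofReal_one, ← Complex.ofReal_div, Complex.ofReal_re]
      rw [h4]
      have h5 : |c| + 2 ≤ 1 / t0 := by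
        rw [le_div_iff₀ hp]
        have := (le_div_iff₀ (by positivity : (0 : ℝ) < |c| + 2)).mp hle3
        linarith
      have h6 : (|c| + 2) * (|c| + 2) ≤ 1 / t0 ^ 2 := by
        calc (|c| + 2) * (|c| + 2) ≤ (1 / t0) * (1 / t0) :=
              mul_le_mul h5 h5 (by positivity) (by positivity)
          _ = 1 / t0 ^ 2 := by ring
      have h7 : -|c| ≤ c := neg_abs_le c
      nlinarith [abs_nonneg c]
    have hcon : ContinuousOn (fun t : ℝ => (L.weierstrassP (t : ℂ)).re) (Set.Icc t0 (w / 2)) := by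
      intro t ht
      have h2 := (hasDerivAt_weierstrassP L (hnm t (lt_of_lt_of_le ht0 ht.1) ht.2)).continuousAt
      exact (Complex.continuous_re.continuousAt.comp
        (ContinuousAt.comp (f := fun t : ℝ => (t : ℂ)) h2
          Complex.continuous_ofReal.continuousAt)).continuousWithinAt
    have hivt := intermediate_value_Icc' (le_of_lt ht0w) hcon
    have hmem : (0 : ℝ) ∈ Set.Icc ((L.weierstrassP ((w / 2 : ℝ) : ℂ)).re)
        ((L.weierstrassP (t0 : ℂ)).re) := by
      refine ⟨?_, hpos.le⟩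
      push_cast
      rw [h1]
      simp
    obtain ⟨t, ht, ht2⟩ := hivt hmem
    have hz : L.weierstrassP (t : ℂ) = 0 := by
      apply Complex.ext
      · exact ht2
      · rw [hreal t]; rfl
    have htn := hnm t (lt_of_lt_of_le ht0 ht.1) ht.2
    have heq : L.weierstrassP (t : ℂ) = L.weierstrassP ((1 + I) * (w : ℂ) / 2) := by rw [hz, hv]
    rw [weierstrassP_eq_iff L htn m3] at heq
    have hwc : (w : ℂ) ≠ 0 := by exact_mod_cast hw.ne'
    rcases heq with hh | hh
    · refine E3.notMem L w hS (t / w + 1 / 2) (1 / 2) (Or.inr E3.half) _ ?_ hh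
      push_cast
      field_simp
      ring
    · refine E3.notMem L w hS (t / w - 1 / 2) (-(1 / 2)) (Or.inr E3.nhalf) _ ?_ hh
      push_cast
      field_simp
      ring
  refine ⟨he1, ?_, hv⟩
  rw [hI, he1]

end Pool.Agent.MPb60633
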