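import Pool.Agent.Lib.MP_b60633_nt.SpecD

/-!
# MP_b60633_nt, E4: the periods are Beta integrals
-/

set_option autoImplicit false

noncomputable section

namespace Pool.Agent.MPb60633

open Complex Pool.Agent.Lib.Ribet4b482e MeasureTheory Set

namespace E4

lemma alg_aux {h p : ℝ} (h0 : 0 < h) (h1 : h < 1) (hp : 0 < p) (he : p ^ 2 = 4 * h * (1 - h ^ 2)) :
    p = 2 * (h ^ ((1 : ℝ) / 2) * (1 - h ^ 2) ^ ((1 : ℝ) / 2)) := by
  have h2 : 0 < 1 - h ^ 2 := by nlinarith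
  have h3 : 0 ≤ 2 * (h ^ ((1 : ℝ) / 2) * (1 - h ^ 2) ^ ((1 : ℝ) / 2)) := by positivity
  have h4 : (2 * (h ^ ((1 : ℝ) / 2) * (1 - h ^ 2) ^ ((1 : ℝ) / 2))) ^ 2 = 4 * h * (1 - h ^ 2) := by
    rw [mul_pow, mul_pow, ← Real.rpow_natCast (h ^ ((1 : ℝ) / 2)) 2, ← Real.rpow_mul h0.le,
      ← Real.rpow_natCast ((1 - h ^ 2) ^ ((1 : ℝ) / 2)) 2, ← Real.rpow_mul h2.le]
    norm_num
    ring
  exact (sq_eq_sq₀ hp.le h3).mp (by rw [he, h4])

lemma alg1 {g p : ℝ} (h0 : g < 0) (h1 : -1 < g) (hp : 0 < p) (he : p ^ 2 = 4 * g ^ 3 - 4 * g) :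
    |2 * g * p| * ((g ^ 2) ^ (-(3 : ℝ) / 4) * (1 - g ^ 2) ^ (-(1 : ℝ) / 2)) = 4 ∧
    |2 * g * p| * ((g ^ 2) ^ (-(1 : ℝ) / 4) * (1 - g ^ 2) ^ (-(1 : ℝ) / 2)) = -4 * g := by
  obtain ⟨h, rfl⟩ : ∃ h, g = -h := ⟨-g, by ring⟩
  have hh : 0 < h := by linarith
  have hh1 : h < 1 := by linarith
  have h2 : 0 < 1 - h ^ 2 := by nlinarith
  have hp' := alg_aux hh hh1 hp (by rw [he]; ring)
  have habs : |2 * -h * p| = 2 * h * p := by
    rw [show 2 * -h * p = -(2 * h * p) by ring, abs_neg, abs_of_pos (by positivity)]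
  rw [habs, neg_sq]
  have e1 : (1 - h ^ 2) ^ ((1 : ℝ) / 2) * (1 - h ^ 2) ^ (-(1 : ℝ) / 2) = 1 := by
    rw [← Real.rpow_add h2]
    norm_num
  have e2 : h * h ^ ((1 : ℝ) / 2) * (h ^ 2) ^ (-(3 : ℝ) / 4) = 1 := by
    rw [← Real.rpow_natCast h 2, ← Real.rpow_mul hh.le]
    nth_rewrite 1 [← Real.rpow_one h]
    rw [← Real.rpow_add hh, ← Real.rpow_add hh]
    norm_num
  have e3 : h * h ^ ((1 : ℝ) / 2) * (h ^ 2) ^ (-(1 : ℝ) / 4) = h := by
    rw [← Real.rpow_natCast h 2, ← Real.rpow_mul hh.le]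
    nth_rewrite 1 [← Real.rpow_one h]
    rw [← Real.rpow_add hh, ← Real.rpow_add hh]
    norm_num
  constructor
  · rw [hp']
    calc _ = 4 * (h * h ^ ((1 : ℝ) / 2) * (h ^ 2) ^ (-(3 : ℝ) / 4)) *
          ((1 - h ^ 2) ^ ((1 : ℝ) / 2) * (1 - h ^ 2) ^ (-(1 : ℝ) / 2)) := by ring
      _ = 4 := by rw [e1, e2]; ring
  · rw [hp']
    calc _ = 4 * (h * h ^ ((1 : ℝ) / 2) * (h ^ 2) ^ (-(1 : ℝ) / 4)) *
          ((1 - h ^ 2) ^ ((1 : ℝ) / 2) * (1 - h ^ 2) ^ (-(1 : ℝ) / 2)) := by ring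
      _ = -4 * -h := by rw [e1, e3]; ring

variable {L : PeriodPair} {w : ℝ}

/-- The point `I w / 2 + t`. -/
def zt (w t : ℝ) : ℂ := I * (w : ℂ) / 2 + t

lemma notMem_of_im (hL : Sq L w) {z : ℂ} (hz : z.im = w / 2) : z ∉ L.lattice := by
  intro h
  rw [PeriodPair.mem_lattice] at h
  obtain ⟨m, n, rfl⟩ := h
  rw [hL.one, hL.two] at hz
  simp at hz
  have hw := hL.pos
  have h2 : (2 * n : ℝ) = 1 := by
    have : (n : ℝ) * w = 1 / 2 * w := by linarith
    have := mul_right_cancel₀ hw.ne' this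
    linarith
  have h3 : (2 * n : ℤ) = 1 := by exact_mod_cast h2
  omega

lemma notMem_of_re (hL : Sq L w) {z : ℂ} (h1 : 0 < z.re) (h2 : z.re < w) : z ∉ L.lattice := by
  intro h
  rw [PeriodPair.mem_lattice] at h
  obtain ⟨m, n, rfl⟩ := h
  rw [hL.one, hL.two] at h1 h2
  simp at h1 h2
  have hw := hL.pos
  have h3 : 0 < m := by
    have : (0 : ℝ) < m := by
      by_contra hcon
      push Not at hcon
      nlinarith
    exact_mod_cast this
  have h4 : m < 1 := by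
    have : (m : ℝ) < 1 := by
      by_contra hcon
      push Not at hcon
      nlinarith
    exact_mod_cast this
  omega

lemma zt_notMem (hL : Sq L w) (t : ℝ) : zt w t ∉ L.lattice :=
  notMem_of_im hL (by simp [zt])

lemma real_P (hE1 : S_E1) (hL : Sq L w) (t : ℝ) : (L.weierstrassP (zt w t)).im = 0 := by
  have h1 := (hE1 L w hL).2 (zt w t)
  have h2 : I * (w : ℂ) ∈ L.lattice := by rw [← hL.two]; exact L.ω₂_mem_lattice
  have h3 : (starRingEnd ℂ) (zt w t) = zt w t - (⟨I * (w : ℂ), h2⟩ : L.lattice) := by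
    have hc2 : (starRingEnd ℂ) 2 = 2 := by
      rw [show (2 : ℂ) = ((2 : ℝ) : ℂ) by push_cast; rfl, Complex.conj_ofReal]
    simp only [zt, map_add, map_div₀, map_mul, conj_I, conj_ofReal, hc2]
    ring
  rw [h3, L.weierstrassP_sub_coe] at h1
  exact Complex.conj_eq_iff_im.mp h1

/-- `g(t) = ℘(I w / 2 + t)` as a real function. -/
def g (L : PeriodPair) (w t : ℝ) : ℝ := (L.weierstrassP (zt w t)).re

/-- Its derivative. -/
def gp (L : PeriodPair) (w t : ℝ) : ℝ := (L.derivWeierstrassP (zt w t)).re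

lemma g_coe (hE1 : S_E1) (hL : Sq L w) (t : ℝ) : ((g L w t : ℝ) : ℂ) = L.weierstrassP (zt w t) :=
  Complex.ext (by simp [g]) (by simp [real_P hE1 hL t])

lemma hasD (hL : Sq L w) (t : ℝ) :
    HasDerivAt (fun x : ℂ => L.weierstrassP (I * (w : ℂ) / 2 + x))
      (L.derivWeierstrassP (zt w t)) (t : ℂ) :=
  (hasDerivAt_weierstrassP L (zt_notMem hL t)).comp_const_add (I * (w : ℂ) / 2) (t : ℂ)

lemma hasD_g (hL : Sq L w) (t : ℝ) : HasDerivAt (g L w) (gp L w t) t :=
  (hasD hL t).real_of_complex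

lemma gp_coe (hE1 : S_E1) (hL : Sq L w) (t : ℝ) :
    ((gp L w t : ℝ) : ℂ) = L.derivWeierstrassP (zt w t) := by
  have h1 := ((hasD hL t).const_mul (-I)).real_of_complex
  have h2 : (fun x : ℝ => (-I * L.weierstrassP (I * (w : ℂ) / 2 + x)).re) = fun _ => (0 : ℝ) := by
    funext x
    have := real_P hE1 hL x
    rw [zt] at this
    simp [this]
  rw [h2] at h1
  have h3 := (hasDerivAt_const t (0 : ℝ)).unique h1
  refine Complex.ext (by simp [gp]) ?_
  simp at h3
  simp [← h3]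

lemma eqn (hE1 : S_E1) (hL : Lem L w) (t : ℝ) : gp L w t ^ 2 = 4 * g L w t ^ 3 - 4 * g L w t := by
  have hS : Sq L w := hL.toSq
  have h1 := L.derivWeierstrassP_sq (zt w t) (zt_notMem hS t)
  have hI : L.ω₂ = I * L.ω₁ := by rw [hS.one, hS.two]
  rw [hL.g2, g₃_eq_zero L hI, ← g_coe hE1 hS, ← gp_coe hE1 hS, sub_zero] at h1
  exact_mod_cast h1

end E4

theorem t_E4 (hE1 : S_E1) (hE3 : S_E3) : S_E4 := by
  intro L w hL
  have hS : Sq L w := hL.toSq
  have hw : 0 < w := hS.pos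
  have hw2 : 0 < w / 2 := by linarith
  obtain ⟨-, P2, P3⟩ := hE3 L w hL
  have g0 : E4.g L w 0 = -1 := by
    have h1 := E4.g_coe hE1 hS 0
    rw [show E4.zt w 0 = I * (w : ℂ) / 2 by simp [E4.zt], P2] at h1
    exact_mod_cast h1
  have g1 : E4.g L w (w / 2) = 0 := by
    have h1 := E4.g_coe hE1 hS (w / 2)
    rw [show E4.zt w (w / 2) = (1 + I) * (w : ℂ) / 2 by simp [E4.zt]; ring, P3] at h1
    exact_mod_cast h1
  have hne : ∀ t ∈ Ioo (0 : ℝ) (w / 2), E4.gp L w t ≠ 0 := by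
    intro t ht h
    have h1 := E4.gp_coe hE1 hS t
    rw [h] at h1
    refine derivWeierstrassP_ne_zero L (E4.zt_notMem hS t) ?_ (by rw [← h1]; simp)
    apply E4.notMem_of_re hS
    · simp [E4.zt]
      exact ht.1
    · simp [E4.zt]
      linarith [ht.2]
  have hcont : ContinuousOn (E4.g L w) (Icc 0 (w / 2)) := fun t _ =>
    (E4.hasD_g hS t).continuousAt.continuousWithinAt
  have hpos : ∀ t ∈ Ioo (0 : ℝ) (w / 2), 0 < E4.gp L w t := by
    rcases hasDerivWithinAt_forall_lt_or_forall_gt_of_forall_ne (convex_Ioo (0 : ℝ) (w / 2))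
      (fun t _ => (E4.hasD_g hS t).hasDerivWithinAt) hne with h | h
    · exfalso
      have h1 : StrictAntiOn (E4.g L w) (Icc 0 (w / 2)) := by
        refine strictAntiOn_of_deriv_neg (convex_Icc _ _) hcont ?_
        intro t ht
        rw [interior_Icc] at ht
        rw [(E4.hasD_g hS t).deriv]
        exact h t ht
      have h2 := h1 (left_mem_Icc.mpr hw2.le) (right_mem_Icc.mpr hw2.le) hw2
      rw [g0, g1] at h2
      linarith
    · exact h
  have hmono : StrictMonoOn (E4.g L w) (Icc 0 (w / 2)) := by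
    refine strictMonoOn_of_deriv_pos (convex_Icc _ _) hcont ?_
    intro t ht
    rw [interior_Icc] at ht
    rw [(E4.hasD_g hS t).deriv]
    exact hpos t ht
  have hrange : ∀ t ∈ Ioo (0 : ℝ) (w / 2), -1 < E4.g L w t ∧ E4.g L w t < 0 := by
    intro t ht
    have h1 := hmono (left_mem_Icc.mpr hw2.le) (Ioo_subset_Icc_self ht) ht.1
    have h2 := hmono (Ioo_subset_Icc_self ht) (right_mem_Icc.mpr hw2.le) ht.2
    rw [g0] at h1
    rw [g1] at h2
    exact ⟨h1, h2⟩
  have hinj : InjOn (fun t => E4.g L w t ^ 2) (Ioo (0 : ℝ) (w / 2)) := by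
    intro s hs t ht hst
    simp only at hst
    have h1 := hrange s hs
    have h2 := hrange t ht
    have h3 : E4.g L w s = E4.g L w t := by
      rcases sq_eq_sq_iff_eq_or_eq_neg.mp hst with h | h
      · exact h
      · linarith
    exact hmono.injOn (Ioo_subset_Icc_self hs) (Ioo_subset_Icc_self ht) h3
  have himg : (fun t => E4.g L w t ^ 2) '' Ioo (0 : ℝ) (w / 2) = Ioo 0 1 := by
    ext y
    constructor
    · rintro ⟨t, ht, rfl⟩
      have h1 := hrange t ht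
      simp only [mem_Ioo]
      constructor
      · have : E4.g L w t ≠ 0 := h1.2.ne
        positivity
      · nlinarith
    · intro hy
      have h1 : -Real.sqrt y ∈ Ioo (E4.g L w 0) (E4.g L w (w / 2)) := by
        rw [g0, g1]
        constructor
        · have : Real.sqrt y < 1 := by
            rw [Real.sqrt_lt' one_pos]
            simpa using hy.2
          linarith
        · have := Real.sqrt_pos.mpr hy.1
          linarith
      obtain ⟨t, ht, h2⟩ := intermediate_value_Ioo hw2.le hcont h1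
      refine ⟨t, ht, ?_⟩
      simp only
      rw [h2, neg_sq, Real.sq_sqrt hy.1.le]
  have hder : ∀ t ∈ Ioo (0 : ℝ) (w / 2), HasDerivWithinAt (fun t => E4.g L w t ^ 2)
      (2 * E4.g L w t * E4.gp L w t) (Ioo 0 (w / 2)) t := by
    intro t _
    have h1 : HasDerivAt (fun t => E4.g L w t ^ 2) (2 * E4.g L w t * E4.gp L w t) t := by
      refine ((E4.hasD_g hS t).pow 2).congr_deriv ?_
      norm_num
    exact h1.hasDerivWithinAt
  have hcv := fun F : ℝ → ℝ =>
    integral_image_eq_integral_abs_deriv_smul measurableSet_Ioo hder hinj F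
  simp only [himg] at hcv
  constructor
  · rw [hcv]
    have h1 : ∫ t in Ioo (0 : ℝ) (w / 2), |2 * E4.g L w t * E4.gp L w t| •
        ((E4.g L w t ^ 2) ^ (-(3 : ℝ) / 4) * (1 - E4.g L w t ^ 2) ^ (-(1 : ℝ) / 2)) =
        ∫ t in Ioo (0 : ℝ) (w / 2), (4 : ℝ) := by
      refine setIntegral_congr_fun measurableSet_Ioo fun t ht => ?_
      have h2 := hrange t ht
      simp only [smul_eq_mul]
      exact (E4.alg1 h2.2 h2.1 (hpos t ht) (E4.eqn hE1 hL t)).1
    rw [h1]
    simp [hw2.le]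
    ring
  · rw [hcv]
    have h1 : ∫ t in Ioo (0 : ℝ) (w / 2), |2 * E4.g L w t * E4.gp L w t| •
        ((E4.g L w t ^ 2) ^ (-(1 : ℝ) / 4) * (1 - E4.g L w t ^ 2) ^ (-(1 : ℝ) / 2)) =
        ∫ t in Ioo (0 : ℝ) (w / 2), -4 * E4.g L w t := by
      refine setIntegral_congr_fun measurableSet_Ioo fun t ht => ?_
      have h2 := hrange t ht
      simp only [smul_eq_mul]
      exact (E4.alg1 h2.2 h2.1 (hpos t ht) (E4.eqn hE1 hL t)).2
    rw [h1, integral_const_mul, ← integral_Ioc_eq_integral_Ioo,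
      ← intervalIntegral.integral_of_le hw2.le]
    have hζ : ∀ t : ℝ, HasDerivAt (fun t : ℝ => zetaW L (E4.zt w t)) (-(E4.g L w t : ℂ)) t := by
      intro t
      have h2 := ((hasDerivAt_zetaW L (E4.zt_notMem hS t)).comp_const_add
        (I * (w : ℂ) / 2) (t : ℂ)).comp_ofReal
      rw [← E4.g_coe hE1 hS] at h2
      exact h2
    have hgc : Continuous (E4.g L w) := by
      rw [continuous_iff_continuousAt]
      exact fun t => (E4.hasD_g hS t).continuousAt
    have h3 : ∫ t in (0 : ℝ)..(w / 2), (-(E4.g L w t : ℂ)) =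
        zetaW L (E4.zt w (w / 2)) - zetaW L (E4.zt w 0) :=
      intervalIntegral.integral_eq_sub_of_hasDerivAt (fun t _ => hζ t)
        (by
          apply Continuous.intervalIntegrable
          fun_prop)
    have hmem1 : (w : ℂ) ∈ L.lattice := by rw [← hS.one]; exact L.ω₁_mem_lattice
    have hmem2 : I * (w : ℂ) ∈ L.lattice := by rw [← hS.two]; exact L.ω₂_mem_lattice
    have hz0 : E4.zt w 0 = (I * (w : ℂ)) / 2 := by simp [E4.zt]
    have hz1 : E4.zt w (w / 2) = (w + I * (w : ℂ)) / 2 := by simp [E4.zt]; ring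
    have h4 : etaW L (I * (w : ℂ)) = 2 * zetaW L (E4.zt w 0) := by
      rw [hz0]
      exact etaW_eq_two_mul L hmem2 (by rw [← hz0]; exact E4.zt_notMem hS 0)
    have h5 : etaW L ((w : ℂ) + I * (w : ℂ)) = 2 * zetaW L (E4.zt w (w / 2)) := by
      rw [hz1]
      exact etaW_eq_two_mul L (add_mem hmem1 hmem2) (by rw [← hz1]; exact E4.zt_notMem hS _)
    rw [etaW_add L hmem1 hmem2, h4] at h5
    have h6 : ((∫ t in (0 : ℝ)..(w / 2), E4.g L w t : ℝ) : ℂ) =
        -(zetaW L (E4.zt w (w / 2)) - zetaW L (E4.zt w 0)) := by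
      rw [← h3, intervalIntegral.integral_neg, neg_neg, intervalIntegral.integral_ofReal]
    push_cast
    rw [h6]
    linear_combination h5

end Pool.Agent.MPb60633
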