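import Pool.Agent.Lib.MP_b60633_nt.SpecD

/-!
# MP_b60633_nt, E5: real Beta integrals
-/

set_option autoImplicit false

noncomputable section

namespace Pool.Agent.MPb60633

open Complex Pool.Agent.Lib.Ribet4b482e MeasureTheory Set

namespace E5

lemma beta_cast (a b : ℝ) {x : ℝ} (hx : x ∈ Ioo (0 : ℝ) 1) :
    (x : ℂ) ^ ((a : ℂ) - 1) * (1 - (x : ℂ)) ^ ((b : ℂ) - 1) =
      ((x ^ (a - 1) * (1 - x) ^ (b - 1) : ℝ) : ℂ) := by
  push_cast
  rw [Complex.ofReal_cpow hx.1.le, Complex.ofReal_cpow (by linarith [hx.2])]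
  push_cast
  rfl

lemma beta_int (a b : ℝ) (ha : 0 < a) (hb : 0 < b) :
    IntegrableOn (fun x : ℝ => x ^ (a - 1) * (1 - x) ^ (b - 1)) (Ioo 0 1) := by
  have h1 := Complex.betaIntegral_convergent (u := (a : ℂ)) (v := (b : ℂ)) (by simpa using ha)
    (by simpa using hb)
  rw [intervalIntegrable_iff_integrableOn_Ioc_of_le zero_le_one] at h1
  have h2 := h1.mono_set (Ioo_subset_Ioc_self : Ioo (0 : ℝ) 1 ⊆ Ioc 0 1)
  have h3 : IntegrableOn (fun x : ℝ => (((x ^ (a - 1) * (1 - x) ^ (b - 1) : ℝ)) : ℂ)) (Ioo 0 1) :=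
    h2.congr_fun (fun x hx => beta_cast a b hx) measurableSet_Ioo
  have h4 := h3.re
  simpa [IntegrableOn] using h4

lemma beta_val (a b : ℝ) (ha : 0 < a) (hb : 0 < b) :
    ∫ x in Ioo (0 : ℝ) 1, x ^ (a - 1) * (1 - x) ^ (b - 1) =
      Real.Gamma a * Real.Gamma b / Real.Gamma (a + b) := by
  have h1 := Complex.betaIntegral_eq_Gamma_mul_div (a : ℂ) (b : ℂ) (by simpa using ha)
    (by simpa using hb)
  rw [Complex.betaIntegral, intervalIntegral.integral_of_le zero_le_one,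
    integral_Ioc_eq_integral_Ioo, setIntegral_congr_fun measurableSet_Ioo
      (fun x hx => beta_cast a b hx), integral_complex_ofReal, ← Complex.ofReal_add,
    Complex.Gamma_ofReal, Complex.Gamma_ofReal, Complex.Gamma_ofReal] at h1
  exact_mod_cast h1

lemma gam54 : Real.Gamma (5 / 4) = Real.Gamma (1 / 4) / 4 := by
  have h := Real.Gamma_add_one (s := 1 / 4) (by norm_num)
  rw [show (1 / 4 : ℝ) + 1 = 5 / 4 by norm_num] at h
  rw [h]
  ring

lemma gam32 : Real.Gamma (3 / 2) = Real.Gamma (1 / 2) / 2 := by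
  have h := Real.Gamma_add_one (s := 1 / 2) (by norm_num)
  rw [show (1 / 2 : ℝ) + 1 = 3 / 2 by norm_num] at h
  rw [h]
  ring

end E5

theorem t_E5 : S_E5 := by
  have g14 : 0 < Real.Gamma (1 / 4) := Real.Gamma_pos_of_pos (by norm_num)
  have g34 : 0 < Real.Gamma (3 / 4) := Real.Gamma_pos_of_pos (by norm_num)
  have g12 : 0 < Real.Gamma (1 / 2) := Real.Gamma_pos_of_pos (by norm_num)
  have h12 : Real.Gamma (1 / 2) ^ 2 = Real.pi := by
    rw [Real.Gamma_one_half_eq, Real.sq_sqrt Real.pi_pos.le]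
  have hrefl : Real.Gamma (1 / 4) * Real.Gamma (3 / 4) = Real.pi * Real.sqrt 2 := by
    have h := Real.Gamma_mul_Gamma_one_sub (1 / 4)
    rw [show (1 - 1 / 4 : ℝ) = 3 / 4 by norm_num, show Real.pi * (1 / 4) = Real.pi / 4 by ring,
      Real.sin_pi_div_four] at h
    rw [h]
    have h2 : Real.sqrt 2 ^ 2 = 2 := Real.sq_sqrt (by norm_num)
    field_simp
    linear_combination -h2
  have e1 : (1 / 4 - 1 : ℝ) = -(3 : ℝ) / 4 := by norm_num
  have e2 : (3 / 4 - 1 : ℝ) = -(1 : ℝ) / 4 := by norm_num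
  have e3 : (1 / 2 - 1 : ℝ) = -(1 : ℝ) / 2 := by norm_num
  have B1 := E5.beta_val (1 / 4) (1 / 2) (by norm_num) (by norm_num)
  have B2 := E5.beta_val (3 / 4) (1 / 2) (by norm_num) (by norm_num)
  have B3 := E5.beta_val (1 / 4) 1 (by norm_num) (by norm_num)
  have B4 := E5.beta_val 1 (1 / 2) (by norm_num) (by norm_num)
  have I1 := E5.beta_int (1 / 4) (1 / 2) (by norm_num) (by norm_num)
  have I2 := E5.beta_int (3 / 4) (1 / 2) (by norm_num) (by norm_num)
  have I3 := E5.beta_int (1 / 4) 1 (by norm_num) (by norm_num)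
  have I4 := E5.beta_int 1 (1 / 2) (by norm_num) (by norm_num)
  rw [e1, e3] at B1 I1
  rw [e2, e3] at B2 I2
  rw [e1] at B3 I3
  rw [e3] at B4 I4
  rw [show (1 / 4 + 1 / 2 : ℝ) = 3 / 4 by norm_num] at B1
  rw [show (3 / 4 + 1 / 2 : ℝ) = 5 / 4 by norm_num, E5.gam54] at B2
  rw [show (1 / 4 + 1 : ℝ) = 5 / 4 by norm_num, E5.gam54, Real.Gamma_one] at B3
  rw [show (1 + 1 / 2 : ℝ) = 3 / 2 by norm_num, E5.gam32, Real.Gamma_one] at B4
  refine ⟨?_, ?_, ?_, ?_⟩
  · rw [B1]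
    have h2 : Real.sqrt 2 ^ 2 = 2 := Real.sq_sqrt (by norm_num)
    have h3 : Real.Gamma (1 / 4) ^ 2 * Real.Gamma (3 / 4) ^ 2 = Real.pi ^ 2 * 2 := by
      rw [← mul_pow, hrefl, mul_pow, h2]
    rw [div_pow, div_pow, mul_pow, h12, div_div, div_eq_div_iff (by positivity) (by positivity)]
    linear_combination (-4 * Real.Gamma (1 / 4) ^ 2) * h3
  · rw [B1, B2]
    field_simp
    linear_combination h12
  · have h4 : (4 : ℝ) = ∫ x in Ioo (0 : ℝ) 1, x ^ (-(3 : ℝ) / 4) * (1 - x) ^ (1 - 1 : ℝ) := by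
      rw [B3]
      field_simp
    refine h4.le.trans ?_
    refine setIntegral_mono_on I3 I1 measurableSet_Ioo ?_
    intro x hx
    have hx0 : 0 ≤ x ^ (-(3 : ℝ) / 4) := Real.rpow_nonneg hx.1.le _
    apply mul_le_mul_of_nonneg_left _ hx0
    apply Real.rpow_le_rpow_of_exponent_ge (by linarith [hx.2]) (by linarith [hx.1])
    norm_num
  · have h4 : (2 : ℝ) = ∫ x in Ioo (0 : ℝ) 1, x ^ (1 - 1 : ℝ) * (1 - x) ^ (-(1 : ℝ) / 2) := by
      rw [B4]
      field_simp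
    refine h4.le.trans ?_
    refine setIntegral_mono_on I4 I2 measurableSet_Ioo ?_
    intro x hx
    have hx0 : 0 ≤ (1 - x) ^ (-(1 : ℝ) / 2) := Real.rpow_nonneg (by linarith [hx.2]) _
    apply mul_le_mul_of_nonneg_right _ hx0
    apply Real.rpow_le_rpow_of_exponent_ge hx.1 hx.2.le
    norm_num

end Pool.Agent.MPb60633
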