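import Pool.Agent.Lib.MP_b60633_nt.SpecD

set_option autoImplicit false

namespace Pool.Agent.MPb60633

open Complex Pool.Agent.Lib.Ribet4b482e

theorem t_E6 (hE2 : S_E2) (hE3 : S_E3) (hE4 : S_E4) (hE5 : S_E5) : S_E6 := by
  obtain ⟨L, w, h⟩ := hE2
  obtain ⟨h1, h2⟩ := hE4 L w h
  obtain ⟨h3, h4, h5, h6⟩ := hE5
  generalize (∫ u in Set.Ioo (0 : ℝ) 1, u ^ (-(3 : ℝ) / 4) * (1 - u) ^ (-(1 : ℝ) / 2)) = B1 at *
  generalize (∫ u in Set.Ioo (0 : ℝ) 1, u ^ (-(1 : ℝ) / 4) * (1 - u) ^ (-(1 : ℝ) / 2)) = B2 at *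
  have hB1 : 0 < B1 := by linarith
  have hw : w = B1 / 2 := by rw [h1]; ring
  have hpi : Real.pi / w = 1 / 2 * B2 := by
    rw [hw]
    field_simp
    linarith
  refine ⟨L, w, ⟨h, (hE3 L w h).1, ?_, ?_, ?_, ?_⟩⟩
  · rw [h2, hpi]
  · rw [hw]; linarith
  · have : Real.pi = w * (1 / 2 * B2) := by
      rw [hw]; nlinarith
    rw [this]
    have hw0 : 0 < w := by rw [hw]; linarith
    nlinarith
  · rw [hw, h3]

end Pool.Agent.MPb60633
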