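import Pool.Agent.Lib.MP_b60633_nt.SpecD

set_option autoImplicit false

namespace Pool.Agent.MPb60633

open Complex Pool.Agent.Lib.Ribet4b482e Finset

namespace E7

theorem sum_inv (w : ℝ) (hw : 0 < w) (N : ℕ) :
    ∑ k ∈ range (N + 2), (k : ℝ) * ((k : ℝ) * w) ^ (-3 : ℤ) ≤ (2 - 1 / ((N : ℝ) + 1)) / w ^ 3 := by
  induction N with
  | zero =>
    rw [sum_range_succ, sum_range_one]
    simp [zpow_neg]
    norm_num
  | succ N ih =>
    rw [sum_range_succ]
    have h1 : ((N + 2 : ℕ) : ℝ) * (((N + 2 : ℕ) : ℝ) * w) ^ (-3 : ℤ)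
        ≤ (1 / ((N : ℝ) + 1) - 1 / ((N : ℝ) + 2)) / w ^ 3 := by
      have hN : (0 : ℝ) < (N : ℝ) + 1 := by positivity
      have hN2 : (0 : ℝ) < (N : ℝ) + 2 := by positivity
      have e1 : ((N + 2 : ℕ) : ℝ) * (((N + 2 : ℕ) : ℝ) * w) ^ (-3 : ℤ)
          = (1 / ((N : ℝ) + 2) ^ 2) / w ^ 3 := by
        push_cast
        rw [zpow_neg, show (3 : ℤ) = ((3 : ℕ) : ℤ) by rfl, zpow_natCast]
        field_simp
      rw [e1]
      apply div_le_div_of_nonneg_right _ (by positivity)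
      rw [div_sub_div _ _ hN.ne' hN2.ne', div_le_div_iff₀ (by positivity) (by positivity)]
      nlinarith
    have h2 : (2 - 1 / (((N + 1 : ℕ) : ℝ) + 1)) / w ^ 3
        = (2 - 1 / ((N : ℝ) + 1)) / w ^ 3 + (1 / ((N : ℝ) + 1) - 1 / ((N : ℝ) + 2)) / w ^ 3 := by
      rw [← add_div]
      congr 1
      push_cast
      ring
    rw [h2]
    exact add_le_add ih h1

theorem sum_box (w : ℝ) (hw : 0 < w) (s : Finset (ℤ × ℤ)) :
    ∑ p ∈ s, (((max p.1.natAbs p.2.natAbs : ℕ) : ℝ) * w) ^ (-3 : ℤ) ≤ 16 / w ^ 3 := by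
  classical
  set kk : ℤ × ℤ → ℕ := fun p => max p.1.natAbs p.2.natAbs with hkk
  obtain ⟨N, hN⟩ : ∃ N : ℕ, ∀ p ∈ s, kk p < N + 2 := by
    obtain ⟨N, hN⟩ := (s.image kk).exists_le
    exact ⟨N, fun p hp => by have := hN _ (mem_image_of_mem kk hp); omega⟩
  have h1 : ∑ p ∈ s, ((kk p : ℝ) * w) ^ (-3 : ℤ)
      = ∑ k ∈ range (N + 2), ∑ p ∈ s with kk p = k, ((kk p : ℝ) * w) ^ (-3 : ℤ) :=
    (sum_fiberwise_of_maps_to (fun p hp => mem_range.mpr (hN p hp)) _).symm
  have h2 : ∀ k ∈ range (N + 2), ∑ p ∈ s with kk p = k, ((kk p : ℝ) * w) ^ (-3 : ℤ)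
      ≤ 8 * ((k : ℝ) * ((k : ℝ) * w) ^ (-3 : ℤ)) := by
    intro k _
    rcases Nat.eq_zero_or_pos k with rfl | hk
    · apply le_of_eq
      rw [sum_eq_zero]
      · simp
      · intro p hp
        rw [mem_filter] at hp
        rw [hp.2]
        simp [zero_zpow]
    · have hsub : (s.filter fun p => kk p = k) ⊆ (box k : Finset (ℤ × ℤ)) := by
        intro p hp
        rw [mem_filter] at hp
        rw [Int.mem_box]
        exact hp.2
      calc ∑ p ∈ s with kk p = k, ((kk p : ℝ) * w) ^ (-3 : ℤ)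
          = ∑ p ∈ s with kk p = k, ((k : ℝ) * w) ^ (-3 : ℤ) := by
            apply sum_congr rfl
            intro p hp
            rw [mem_filter] at hp
            rw [hp.2]
        _ = ((s.filter fun p => kk p = k).card : ℝ) * ((k : ℝ) * w) ^ (-3 : ℤ) := by
            rw [sum_const, nsmul_eq_mul]
        _ ≤ (8 * k : ℝ) * ((k : ℝ) * w) ^ (-3 : ℤ) := by
            apply mul_le_mul_of_nonneg_right _ (by positivity)
            have h3 := card_le_card hsub
            rw [Int.card_box hk.ne'] at h3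
            exact_mod_cast h3
        _ = _ := by ring
  rw [h1]
  calc _ ≤ ∑ k ∈ range (N + 2), 8 * ((k : ℝ) * ((k : ℝ) * w) ^ (-3 : ℤ)) := sum_le_sum h2
    _ = 8 * ∑ k ∈ range (N + 2), ((k : ℝ) * ((k : ℝ) * w) ^ (-3 : ℤ)) := by rw [mul_sum]
    _ ≤ 8 * ((2 - 1 / ((N : ℝ) + 1)) / w ^ 3) := by
        have := sum_inv w hw N
        linarith
    _ ≤ 16 / w ^ 3 := by
        rw [← mul_div_assoc]
        apply div_le_div_of_nonneg_right _ (by positivity)
        have : (0 : ℝ) ≤ 1 / ((N : ℝ) + 1) := by positivity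
        linarith

end E7

theorem t_E7 : S_E7 := by
  intro L w hL
  classical
  have hw := hL.pos
  have hex : ∀ l : L.lattice, ∃ p : ℤ × ℤ, (l : ℂ) = ((p.1 : ℂ) + (p.2 : ℂ) * I) * w := by
    intro l
    obtain ⟨a, b, hab⟩ := (L.mem_lattice).mp l.2
    refine ⟨(a, b), ?_⟩
    rw [← hab, hL.one, hL.two]
    ring
  choose g hg using hex
  have hinj : Function.Injective g := by
    intro l l' h
    apply Subtype.ext
    rw [hg l, hg l', h]
  have hnorm : ∀ l : L.lattice,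
      ((max (g l).1.natAbs (g l).2.natAbs : ℕ) : ℝ) * w ≤ ‖(l : ℂ)‖ := by
    intro l
    rw [hg l, norm_mul, Complex.norm_real, Real.norm_of_nonneg hw.le]
    apply mul_le_mul_of_nonneg_right _ hw.le
    rw [Nat.cast_max, max_le_iff]
    have hre : (((g l).1 : ℂ) + ((g l).2 : ℂ) * I).re = (g l).1 := by simp
    have him : (((g l).1 : ℂ) + ((g l).2 : ℂ) * I).im = (g l).2 := by simp
    constructor
    · have := Complex.abs_re_le_norm (((g l).1 : ℂ) + ((g l).2 : ℂ) * I)
      rw [hre] at this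
      rwa [Nat.cast_natAbs, Int.cast_abs]
    · have := Complex.abs_im_le_norm (((g l).1 : ℂ) + ((g l).2 : ℂ) * I)
      rw [him] at this
      rwa [Nat.cast_natAbs, Int.cast_abs]
  apply tsum_le_of_sum_le' (by positivity)
  intro s
  calc ∑ l ∈ s, ‖(l : ℂ)‖ ^ (-3 : ℤ)
      ≤ ∑ l ∈ s, (((max (g l).1.natAbs (g l).2.natAbs : ℕ) : ℝ) * w) ^ (-3 : ℤ) := by
        apply sum_le_sum
        intro l _
        by_cases h0 : (max (g l).1.natAbs (g l).2.natAbs) = 0
        · have h1 : (g l).1 = 0 := by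
            have := le_max_left (g l).1.natAbs (g l).2.natAbs
            omega
          have h2 : (g l).2 = 0 := by
            have := le_max_right (g l).1.natAbs (g l).2.natAbs
            omega
          rw [hg l, h1, h2]
          simp
        · have hpos : 0 < ((max (g l).1.natAbs (g l).2.natAbs : ℕ) : ℝ) * w := by
            have : 0 < (max (g l).1.natAbs (g l).2.natAbs) := Nat.pos_of_ne_zero h0
            positivity
          have h3 := hnorm l
          rw [zpow_neg, zpow_neg, show (3 : ℤ) = ((3 : ℕ) : ℤ) by rfl, zpow_natCast, zpow_natCast]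
          exact inv_anti₀ (pow_pos hpos 3) (pow_le_pow_left₀ hpos.le h3 3)
    _ = ∑ p ∈ s.image g, (((max p.1.natAbs p.2.natAbs : ℕ) : ℝ) * w) ^ (-3 : ℤ) := by
        rw [sum_image (fun a _ b _ h => hinj h)]
    _ ≤ 16 / w ^ 3 := E7.sum_box w hw _

end Pool.Agent.MPb60633
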