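import Pool.Agent.Lib.MP_b60633_nt.SpecD
import Pool.Agent.Lib.Ribet4b482e.Growth

/-!
# MP_b60633_nt, E8: bounds for sigma near 0
-/

set_option autoImplicit false

noncomputable section

namespace Pool.Agent.MPb60633

open Complex Pool.Agent.Lib.Ribet4b482e

namespace E8

lemma le_norm {L : PeriodPair} {w : ℝ} (hL : Sq L w) {l : ℂ} (hl : l ∈ L.lattice) (h0 : l ≠ 0) :
    w ≤ ‖l‖ := by
  have hw := hL.pos
  rw [PeriodPair.mem_lattice] at hl
  obtain ⟨m, n, rfl⟩ := hl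
  rw [hL.one, hL.two] at h0 ⊢
  have h1 : (m : ℂ) * w + n * (I * w) = ((m * w : ℝ) : ℂ) + ((n * w : ℝ) : ℂ) * I := by
    push_cast
    ring
  have h2 : ‖(m : ℂ) * w + n * (I * w)‖ ^ 2 = ((m : ℝ) ^ 2 + n ^ 2) * w ^ 2 := by
    rw [h1, ← Complex.normSq_eq_norm_sq, Complex.normSq_add_mul_I]
    ring
  have h3 : (1 : ℝ) ≤ (m : ℝ) ^ 2 + (n : ℝ) ^ 2 := by
    have h4 : m ≠ 0 ∨ n ≠ 0 := by
      by_contra hcon
      push Not at hcon
      apply h0
      rw [hcon.1, hcon.2]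
      simp
    have h5 : (1 : ℤ) ≤ m ^ 2 + n ^ 2 := by
      rcases h4 with h | h
      · have : 0 < m ^ 2 := by positivity
        nlinarith [sq_nonneg n]
      · have : 0 < n ^ 2 := by positivity
        nlinarith [sq_nonneg m]
    exact_mod_cast h5
  apply le_of_sq_le_sq (h := ?_) (norm_nonneg _)
  rw [h2]
  nlinarith [sq_nonneg w]

lemma elem_lower {u : ℂ} (hu : ‖u‖ ≤ 2 / 3) : Real.exp (-(‖u‖ ^ 3)) ≤ ‖elemFac u‖ := by
  have hu1 : ‖-u‖ < 1 := by rw [norm_neg]; linarith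
  have h1 := Complex.norm_log_sub_logTaylor_le 2 hu1
  have h2 : logTaylor (2 + 1) (-u) = -u - u ^ 2 / 2 := by
    simp [logTaylor, Finset.sum_range_succ]
    ring
  rw [h2, norm_neg] at h1
  have h3 : (1 - ‖u‖)⁻¹ ≤ 3 := by
    rw [inv_le_comm₀ (by linarith) (by norm_num)]
    norm_num
    linarith
  have h4 : ‖u‖ ^ (2 + 1) * (1 - ‖u‖)⁻¹ / ((2 : ℕ) + 1) ≤ ‖u‖ ^ 3 := by
    have h5 : 0 ≤ ‖u‖ ^ 3 := by positivity
    push_cast
    have : ‖u‖ ^ (2 + 1) * (1 - ‖u‖)⁻¹ ≤ ‖u‖ ^ 3 * 3 := by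
      have : ‖u‖ ^ (2 + 1) = ‖u‖ ^ 3 := by norm_num
      rw [this]
      gcongr
    linarith
  have h6 : ‖log (1 + -u) - (-u - u ^ 2 / 2)‖ ≤ ‖u‖ ^ 3 := h1.trans h4
  have hne : 1 + -u ≠ 0 := by
    intro h
    have : u = 1 := by linear_combination -h
    rw [this] at hu
    norm_num at hu
  have h7 : elemFac u = Complex.exp (log (1 + -u) - (-u - u ^ 2 / 2)) := by
    rw [elemFac, Complex.exp_sub, Complex.exp_log hne, show (-u - u ^ 2 / 2 : ℂ) = -(u + u ^ 2 / 2)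
      by ring, Complex.exp_neg, div_inv_eq_mul]
    ring
  rw [h7, Complex.norm_exp]
  apply Real.exp_le_exp.mpr
  have h8 := (Complex.abs_re_le_norm (log (1 + -u) - (-u - u ^ 2 / 2))).trans h6
  linarith [neg_abs_le (log (1 + -u) - (-u - u ^ 2 / 2)).re]

lemma cube_eq {L : PeriodPair} (z : ℂ) (l : L.lattice) :
    ‖z / l‖ ^ 3 = ‖z‖ ^ 3 * ‖(l : ℂ)‖ ^ (-3 : ℤ) := by
  rw [norm_div, div_pow, zpow_neg, div_eq_mul_inv]
  norm_cast

end E8

theorem t_E8 (hE7 : S_E7) : S_E8 := by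
  intro L w hL
  have hw := hL.pos
  have hS := hE7 L w hL
  set S : ℝ := ∑' l : L.lattice, ‖(l : ℂ)‖ ^ (-3 : ℤ) with hSdef
  have hsum : ∀ s : Finset L.lattice, ∑ l ∈ s, ‖(l : ℂ)‖ ^ (-3 : ℤ) ≤ S := fun s =>
    (summable_norm_inv_three L).sum_le_tsum _ fun l _ => by positivity
  refine ⟨fun z => ?_, fun z hz => ?_⟩
  · have h1 : ‖∏' l : L.lattice, elemFac (z / l)‖ ≤ Real.exp (256 * (‖z‖ / w) ^ 3) := by
      have h2 := (multipliable_elemFac L z).hasProd.norm
      refine le_of_tendsto h2 (.of_forall fun s => ?_)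
      calc ∏ l ∈ s, ‖elemFac (z / l)‖ ≤ ∏ l ∈ s, Real.exp (16 * ‖z / l‖ ^ 3) :=
            Finset.prod_le_prod (fun _ _ => norm_nonneg _) fun l _ => norm_elemFac_le _
        _ = Real.exp (∑ l ∈ s, 16 * ‖z / l‖ ^ 3) := (Real.exp_sum _ _).symm
        _ ≤ Real.exp (256 * (‖z‖ / w) ^ 3) := by
          refine Real.exp_le_exp.mpr ?_
          simp_rw [E8.cube_eq]
          rw [← Finset.mul_sum, ← Finset.mul_sum]
          calc 16 * (‖z‖ ^ 3 * ∑ l ∈ s, ‖(l : ℂ)‖ ^ (-3 : ℤ)) ≤ 16 * (‖z‖ ^ 3 * (16 / w ^ 3)) := by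
                have := (hsum s).trans hS
                gcongr
            _ = 256 * (‖z‖ / w) ^ 3 := by
                rw [div_pow]
                ring
    rw [sigmaW_eq, norm_mul]
    gcongr
  · have h1 : Real.exp (-5) ≤ ‖∏' l : L.lattice, elemFac (z / l)‖ := by
      have h2 := (multipliable_elemFac L z).hasProd.norm
      refine ge_of_tendsto h2 (.of_forall fun s => ?_)
      calc Real.exp (-5) ≤ Real.exp (∑ l ∈ s, -(‖z / l‖ ^ 3)) := by
            refine Real.exp_le_exp.mpr ?_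
            simp_rw [E8.cube_eq]
            rw [Finset.sum_neg_distrib, ← Finset.mul_sum]
            have h3 : ‖z‖ ^ 3 * ∑ l ∈ s, ‖(l : ℂ)‖ ^ (-3 : ℤ) ≤ (2 / 3 * w) ^ 3 * (16 / w ^ 3) := by
              have h4 := (hsum s).trans hS
              have h5 : 0 ≤ ∑ l ∈ s, ‖(l : ℂ)‖ ^ (-3 : ℤ) :=
                Finset.sum_nonneg fun l _ => by positivity
              gcongr
            have h6 : (2 / 3 * w) ^ 3 * (16 / w ^ 3) = 128 / 27 := by
              field_simp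
              norm_num
            rw [h6] at h3
            linarith
        _ = ∏ l ∈ s, Real.exp (-(‖z / l‖ ^ 3)) := Real.exp_sum _ _
        _ ≤ ∏ l ∈ s, ‖elemFac (z / l)‖ := by
            refine Finset.prod_le_prod (fun _ _ => (Real.exp_pos _).le) fun l _ => ?_
            apply E8.elem_lower
            by_cases h0 : (l : ℂ) = 0
            · rw [h0, div_zero, norm_zero]
              norm_num
            · have h3 := E8.le_norm hL l.2 h0
              rw [norm_div, div_le_iff₀ (by linarith)]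
              nlinarith
    rw [sigmaW_eq, norm_mul]
    gcongr

end Pool.Agent.MPb60633
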