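import Pool.Agent.Lib.MP_b60633_nt.SpecD

/-!
# MP_b60633_nt, E9: quasi-periodicity of |sigma| with the Gaussian factor
-/

set_option autoImplicit false

noncomputable section

namespace Pool.Agent.MPb60633

open Complex Pool.Agent.Lib.Ribet4b482e

namespace E9

lemma two_I {L : PeriodPair} {w : ℝ} (hL : Sq L w) : L.ω₂ = I * L.ω₁ := by
  rw [hL.one, hL.two]

lemma eta_int {L : PeriodPair} {w : ℝ} (hL : LemP L w) (a b : ℤ) :
    etaW L (((a : ℂ) + b * I) * w) = ((a : ℂ) - b * I) * (Real.pi / w) := by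
  have hS : Sq L w := hL.toLem.toSq
  have hI := two_I hS
  have h1 : (w : ℂ) ∈ L.lattice := by rw [← hS.one]; exact L.ω₁_mem_lattice
  have h2 : I * (w : ℂ) ∈ L.lattice := by rw [← hS.two]; exact L.ω₂_mem_lattice
  have h3 : (a : ℂ) * (w : ℂ) ∈ L.lattice := by
    have := L.lattice.smul_mem a h1
    simpa using this
  have h4 : (b : ℂ) * (I * (w : ℂ)) ∈ L.lattice := by
    have := L.lattice.smul_mem b h2
    simpa using this
  have e1 : etaW L (w : ℂ) = (Real.pi : ℂ) / w := by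
    rw [hL.eta]
    push_cast
    ring
  have e2 : etaW L (I * (w : ℂ)) = - I * etaW L (w : ℂ) := etaW_I_mul L hI h1
  rw [show ((a : ℂ) + b * I) * w = a * w + b * (I * w) by ring, etaW_add L h3 h4,
    etaW_zsmul L a h1, etaW_zsmul L b h2, e2, e1]
  ring

/-- `|σ| exp(- Gs)`. -/
def f (L : PeriodPair) (w : ℝ) (z : ℂ) : ℝ := ‖sigmaW L z‖ * Real.exp (-(Gs w z))

/-- The periods of `f`. -/
def per (L : PeriodPair) (w : ℝ) : AddSubgroup ℂ where
  carrier := {l | ∀ z, f L w (z + l) = f L w z}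
  zero_mem' := by
    intro z
    rw [add_zero]
  add_mem' := by
    intro a b ha hb z
    rw [← add_assoc, hb, ha]
  neg_mem' := by
    intro a ha z
    have := ha (z + -a)
    rw [neg_add_cancel_right] at this
    exact this.symm

lemma mem_per {L : PeriodPair} {w : ℝ} {l : ℂ} :
    l ∈ per L w ↔ ∀ z, f L w (z + l) = f L w z := Iff.rfl

lemma f_I {L : PeriodPair} {w : ℝ} (hI : L.ω₂ = I * L.ω₁) (z : ℂ) :
    f L w (I * z) = f L w z := by
  rw [f, f, sigmaW_I_mul L hI, Gs, Gs, norm_mul, norm_mul, Complex.norm_I, one_mul, one_mul]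

lemma normSq_add (z : ℂ) (w : ℝ) : ‖z + w‖ ^ 2 = ‖z‖ ^ 2 + 2 * w * z.re + w ^ 2 := by
  rw [← Complex.normSq_eq_norm_sq, ← Complex.normSq_eq_norm_sq, Complex.normSq_apply,
    Complex.normSq_apply]
  simp only [add_re, ofReal_re, add_im, ofReal_im, add_zero]
  ring

lemma per_one {L : PeriodPair} {w : ℝ} (hL : LemP L w) : (w : ℂ) ∈ per L w := by
  have hS : Sq L w := hL.toLem.toSq
  have hw : 0 < w := hS.pos
  have hw' : (w : ℂ) ≠ 0 := by exact_mod_cast hw.ne'
  have h1 : (w : ℂ) ∈ L.lattice := by rw [← hS.one]; exact L.ω₁_mem_lattice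
  obtain ⟨C, hC, hCl⟩ := exists_sigmaW_add L h1
  rw [hL.eta] at hCl
  have h2 : sigmaW L ((w : ℂ) / 2) ≠ 0 := by
    apply sigmaW_ne_zero
    rw [← hS.one]
    exact L.ω₁_div_two_notMem_lattice
  have h3 := hCl (-((w : ℂ) / 2))
  rw [show -((w : ℂ) / 2) + w = w / 2 by ring, sigmaW_neg] at h3
  have h4 : C * exp (((Real.pi / w : ℝ) : ℂ) * -((w : ℂ) / 2)) = -1 := by
    apply mul_right_cancel₀ h2
    linear_combination h3
  have h5 : ‖C‖ = Real.exp (Real.pi / 2) := by
    have h6 := congrArg norm h4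
    rw [norm_mul, Complex.norm_exp, norm_neg, norm_one] at h6
    have h7 : (((Real.pi / w : ℝ) : ℂ) * -((w : ℂ) / 2)).re = -(Real.pi / 2) := by
      have : (((Real.pi / w : ℝ) : ℂ) * -((w : ℂ) / 2)) = ((-(Real.pi / 2) : ℝ) : ℂ) := by
        push_cast
        field_simp
      rw [this, ofReal_re]
    rw [h7, Real.exp_neg] at h6
    have h8 : Real.exp (Real.pi / 2) ≠ 0 := (Real.exp_pos _).ne'
    field_simp at h6
    linarith
  rw [mem_per]
  intro z
  rw [f, f, hCl z, norm_mul, norm_mul, h5, Complex.norm_exp, Complex.re_ofReal_mul]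
  have h9 : Gs w (z + w) = Gs w z + Real.pi / w * z.re + Real.pi / 2 := by
    rw [Gs, Gs, normSq_add]
    field_simp
  rw [h9, show -(Gs w z + Real.pi / w * z.re + Real.pi / 2) =
    -(Real.pi / 2) + -(Real.pi / w * z.re) + -(Gs w z) by ring, Real.exp_add, Real.exp_add]
  have h10 : Real.exp (Real.pi / 2) * Real.exp (-(Real.pi / 2)) = 1 := by
    rw [← Real.exp_add]; simp
  have h11 : Real.exp (Real.pi / w * z.re) * Real.exp (-(Real.pi / w * z.re)) = 1 := by
    rw [← Real.exp_add]; simp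
  calc _ = (Real.exp (Real.pi / 2) * Real.exp (-(Real.pi / 2))) *
        (Real.exp (Real.pi / w * z.re) * Real.exp (-(Real.pi / w * z.re))) *
        (‖sigmaW L z‖ * Real.exp (-(Gs w z))) := by ring
    _ = _ := by rw [h10, h11]; ring

lemma per_I {L : PeriodPair} {w : ℝ} (hL : LemP L w) : I * (w : ℂ) ∈ per L w := by
  have hS : Sq L w := hL.toLem.toSq
  have hI := two_I hS
  rw [mem_per]
  intro z
  have h1 : z + I * (w : ℂ) = I * (-(I * z) + w) := by
    linear_combination z * I_mul_I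
  rw [h1, f_I hI, mem_per.mp (per_one hL), ← f_I hI]
  congr 1
  linear_combination (-z) * I_mul_I

lemma lattice_le {L : PeriodPair} {w : ℝ} (hL : LemP L w) {l : ℂ} (hl : l ∈ L.lattice) :
    l ∈ per L w := by
  have hS : Sq L w := hL.toLem.toSq
  rw [PeriodPair.mem_lattice] at hl
  obtain ⟨m, n, rfl⟩ := hl
  rw [hS.one, hS.two]
  refine add_mem ?_ ?_
  · have := (per L w).zsmul_mem (per_one hL) m
    simpa using this
  · have := (per L w).zsmul_mem (per_I hL) n
    simpa using this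

lemma continuous_Gs (w : ℝ) : Continuous (Gs w) := by
  unfold Gs
  fun_prop

end E9

theorem t_E9 : S_E9 := by
  intro L w hL
  refine ⟨E9.eta_int hL, ?_⟩
  intro l hl
  obtain ⟨C, hC, hCl⟩ := exists_sigmaW_add L hl
  have hnorm : (fun z : ℂ => ‖C * Complex.exp (etaW L l * z)‖) =
      (fun z : ℂ => Real.exp (Gs w (z + l) - Gs w z)) := by
    have hG := E9.continuous_Gs w
    refine Continuous.ext_on (dense_compl L) (by fun_prop) (by fun_prop) ?_
    intro z hz
    have hσ : ‖sigmaW L z‖ ≠ 0 := norm_ne_zero_iff.mpr (sigmaW_ne_zero L hz)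
    have h1 := E9.mem_per.mp (E9.lattice_le hL hl) z
    rw [E9.f, E9.f, hCl z, norm_mul] at h1
    have h2 : ‖C * Complex.exp (etaW L l * z)‖ * Real.exp (-(Gs w (z + l))) =
        Real.exp (-(Gs w z)) := by
      apply mul_left_cancel₀ hσ
      linear_combination h1
    show ‖C * Complex.exp (etaW L l * z)‖ = Real.exp (Gs w (z + l) - Gs w z)
    have h3 : Real.exp (Gs w (z + l) - Gs w z) = Real.exp (-(Gs w z)) * Real.exp (Gs w (z + l)) := by
      rw [← Real.exp_add]
      congr 1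
      ring
    rw [h3, ← h2, mul_assoc, ← Real.exp_add]
    simp
  exact ⟨C, hC, fun z => ⟨hCl z, congrFun hnorm z⟩⟩

end Pool.Agent.MPb60633
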