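import Pool.Agent.Lib.MP_b60633_nt.SpecD

/-!
# MP_b60633_nt, F1: the main inequality (helper11)
-/

set_option autoImplicit false

namespace Pool.Agent.MPb60633

open Complex Pool.Agent.Lib.Ribet4b482e Module

namespace F1

lemma sum_Fin (l : ℕ) : ∑ j : Fin (l + 1), (j : ℕ) * 2 = l * (l + 1) := by
  rw [← Finset.sum_mul, Fin.sum_univ_eq_sum_range (fun i => i) (l + 1),
    Finset.sum_range_id_mul_two]
  simp only [Nat.add_sub_cancel]
  ring

lemma card_Col (l n : ℕ) : Fintype.card (Col l n) = 2 * n * (l + 1) ^ 2 := by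
  simp only [Col, Fintype.card_prod, Fintype.card_fin]
  ring

lemma sum_j (l n : ℕ) : ∑ c : Col l n, 4 * (c.2.1 : ℕ) = 2 * l * Fintype.card (Col l n) := by
  rw [card_Col]
  have h1 : ∑ c : Col l n, 4 * (c.2.1 : ℕ) =
      ∑ _i : Fin (l + 1), ∑ j : Fin (l + 1), ∑ _k : Fin n, ∑ _e : Fin 2, 4 * (j : ℕ) := by
    simp only [Col, Fintype.sum_prod_type]
  rw [h1]
  simp only [Finset.sum_const, Finset.card_univ, Fintype.card_fin, smul_eq_mul]
  have h2 : ∑ j : Fin (l + 1), n * (2 * (4 * (j : ℕ))) = 4 * n * (l * (l + 1)) := by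
    rw [← sum_Fin l, Finset.mul_sum]
    apply Finset.sum_congr rfl
    intro j _
    ring
  rw [h2]
  ring

lemma sum_i (l n : ℕ) : ∑ c : Col l n, 4 * (c.1 : ℕ) = 2 * l * Fintype.card (Col l n) := by
  rw [card_Col]
  have h1 : ∑ c : Col l n, 4 * (c.1 : ℕ) =
      ∑ i : Fin (l + 1), ∑ _j : Fin (l + 1), ∑ _k : Fin n, ∑ _e : Fin 2, 4 * (i : ℕ) := by
    simp only [Col, Fintype.sum_prod_type]
  rw [h1]
  simp only [Finset.sum_const, Finset.card_univ, Fintype.card_fin, smul_eq_mul]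
  have h2 : ∑ j : Fin (l + 1), (l + 1) * (n * (2 * (4 * (j : ℕ)))) =
      4 * n * (l + 1) * (l * (l + 1)) := by
    rw [← sum_Fin l, Finset.mul_sum]
    apply Finset.sum_congr rfl
    intro j _
    ring
  rw [h2]
  ring

lemma sum_deg (l n : ℕ) :
    ∑ c : Col l n, ((c.1 : ℕ) + 3 * (c.2.1 : ℕ)) = 2 * l * Fintype.card (Col l n) := by
  have h1 := sum_i l n
  have h2 := sum_j l n
  rw [Finset.sum_add_distrib]
  rw [← Finset.mul_sum] at h1 h2
  rw [← Finset.mul_sum]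
  omega

lemma norm_kap {h : ℕ} {a b : ℤ} (ha : |a| ≤ h) (hb : |b| ≤ h) :
    ‖kap a b‖ ≤ (2 * h + 1 : ℕ) / Real.sqrt 2 := by
  have hs : (0 : ℝ) < Real.sqrt 2 := by positivity
  rw [le_div_iff₀ hs]
  apply le_of_sq_le_sq _ (by positivity)
  rw [mul_pow, Real.sq_sqrt (by norm_num : (0:ℝ) ≤ 2)]
  have h1 : ‖kap a b‖ ^ 2 = ((a : ℝ) + 1 / 2) ^ 2 + (b : ℝ) ^ 2 := by
    rw [← Complex.normSq_eq_norm_sq, Complex.normSq_apply]
    simp only [kap, add_re, mul_re, intCast_re, intCast_im, I_re, I_im, add_im, mul_im]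
    norm_num
    ring
  rw [h1]
  have ha' : |(a : ℝ)| ≤ h := by exact_mod_cast ha
  have hb' : |(b : ℝ)| ≤ h := by exact_mod_cast hb
  have ha2 := abs_le.mp ha'
  have hb2 := abs_le.mp hb'
  have h2 : ((a : ℝ) + 1 / 2) ^ 2 ≤ ((h : ℝ) + 1 / 2) ^ 2 := by
    apply sq_le_sq'
    · linarith [ha2.1]
    · linarith [ha2.2]
  have h3 : (b : ℝ) ^ 2 ≤ (h : ℝ) ^ 2 := sq_le_sq' (by linarith [hb2.1]) hb2.2
  push_cast
  have h0 : (0 : ℝ) ≤ h := Nat.cast_nonneg _
  nlinarith [h2, h3]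

/-- The column factor. -/
noncomputable def vc (l n T : ℕ) (q : ℤ) (α : ℂ) (c : Col l n) : ℂ :=
  2 ^ ((c.1 : ℕ) + c.2.1) * (8 * (q : ℂ) ^ 4) ^ (c.2.1 : ℕ) * α ^ (3 * (c.2.1 : ℕ)) * (Den l T : ℂ)

lemma norm_vc {l n T : ℕ} {q : ℤ} {α : ℂ} (c : Col l n) (hq : 1 ≤ q) (hα : ‖α‖ ≤ 42 / 10) :
    ‖vc l n T q α c‖ ≤ ((Den l T : ℝ) * 2048 ^ (2 * l)) * (q : ℝ) ^ (4 * (c.2.1 : ℕ)) := by
  have hq0 : (0 : ℝ) < q := by exact_mod_cast (lt_of_lt_of_le one_pos hq)
  have hi : (c.1 : ℕ) ≤ l := Nat.lt_succ_iff.mp c.1.2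
  have hj : (c.2.1 : ℕ) ≤ l := Nat.lt_succ_iff.mp c.2.1.2
  set i := (c.1 : ℕ)
  set j := (c.2.1 : ℕ)
  have hnq : ‖(q : ℂ)‖ = q := by
    rw [Complex.norm_intCast, abs_of_pos hq0]
  have h1 : ‖vc l n T q α c‖ = 2 ^ (i + j) * (8 * (q : ℝ) ^ 4) ^ j * ‖α‖ ^ (3 * j) * Den l T := by
    simp only [vc, norm_mul, norm_pow, hnq]
    norm_num
    left
    rfl
  rw [h1]
  have h2 : ‖α‖ ^ (3 * j) ≤ 75 ^ j := by
    rw [pow_mul]
    apply pow_le_pow_left₀ (by positivity)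
    calc ‖α‖ ^ 3 ≤ (42 / 10 : ℝ) ^ 3 := pow_le_pow_left₀ (norm_nonneg _) hα 3
      _ ≤ 75 := by norm_num
  have h3 : (2 : ℝ) ^ (i + j) * (8 * (q : ℝ) ^ 4) ^ j * 75 ^ j =
      2 ^ i * 1200 ^ j * (q : ℝ) ^ (4 * j) := by
    rw [mul_pow, pow_add, ← pow_mul]
    have : (1200 : ℝ) ^ j = 2 ^ j * 8 ^ j * 75 ^ j := by
      rw [← mul_pow, ← mul_pow]; norm_num
    rw [this]
    ring
  have h4 : (2 : ℝ) ^ i * 1200 ^ j ≤ 2048 ^ (2 * l) := by
    calc (2 : ℝ) ^ i * 1200 ^ j ≤ 2 ^ l * 1200 ^ l := by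
          gcongr
          · norm_num
          · norm_num
      _ = 2400 ^ l := by rw [← mul_pow]; norm_num
      _ ≤ (2048 ^ 2) ^ l := by
          gcongr
          norm_num
      _ = 2048 ^ (2 * l) := by rw [pow_mul]
  calc 2 ^ (i + j) * (8 * (q : ℝ) ^ 4) ^ j * ‖α‖ ^ (3 * j) * Den l T
      ≤ 2 ^ (i + j) * (8 * (q : ℝ) ^ 4) ^ j * 75 ^ j * Den l T := by gcongr
    _ = (2 ^ i * 1200 ^ j) * (q : ℝ) ^ (4 * j) * Den l T := by rw [h3]
    _ ≤ 2048 ^ (2 * l) * (q : ℝ) ^ (4 * j) * Den l T := by gcongr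
    _ = ((Den l T : ℝ) * 2048 ^ (2 * l)) * (q : ℝ) ^ (4 * j) := by ring

lemma prod_q (l n : ℕ) (X q : ℝ) : ∏ c : Col l n, (X * q ^ (4 * (c.2.1 : ℕ))) =
    X ^ Fintype.card (Col l n) * q ^ (2 * l * Fintype.card (Col l n)) := by
  rw [Finset.prod_mul_distrib, Finset.prod_const, Finset.card_univ, Finset.prod_pow_eq_pow_sum,
    sum_j]

end F1

open F1 in
/-- The main inequality. -/
theorem t_F1 (hA1 : S_A1) (hA2 : S_A2) (hA3 : S_A3) (hA4 : S_A4) (hA6 : S_A6) (hD4 : S_D4)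
    (hS9 : S_S9) : S_F1 := by
  classical
  intro L w hL h l n T p q Q α ρ ε hl hn hT hρ hq hpq hp0 hQ hd hmah hQα hε0 hε1 hα hβ hcond
  have hw2 := hL.two_le
  have hwpi := hL.le_pi
  have hpi := Real.pi_lt_d2
  have hw0 : (0 : ℝ) < w := by linarith
  have hnw : ‖(w : ℂ)‖ = w := by
    rw [Complex.norm_real, Real.norm_eq_abs, abs_of_pos hw0]
  have hαle : ‖α‖ ≤ 42 / 10 := by
    calc ‖α‖ = ‖(α - w) + w‖ := by ring_nf
      _ ≤ ‖α - w‖ + ‖(w : ℂ)‖ := norm_add_le _ _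
      _ ≤ 42 / 10 := by rw [hnw]; linarith
  have hαge : 1 ≤ ‖α‖ := by
    have h1 : ‖(w : ℂ)‖ ≤ ‖α‖ + ‖α - w‖ := by
      calc ‖(w : ℂ)‖ = ‖α - (α - w)‖ := by ring_nf
        _ ≤ ‖α‖ + ‖α - w‖ := norm_sub_le _ _
    rw [hnw] at h1
    linarith
  have hα0 : α ≠ 0 := by
    intro h0
    rw [h0, norm_zero] at hαge
    linarith
  have hq0 : q ≠ 0 := by omega
  have hqC : (q : ℂ) ≠ 0 := by exact_mod_cast hq0
  have hqR : (1 : ℝ) ≤ q := by exact_mod_cast hq
  have hqR0 : (0 : ℝ) < q := by linarith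
  have hpC : (p : ℂ) ≠ 0 := by exact_mod_cast hp0
  set β : ℂ := (p : ℂ) ^ 4 / (8 * (q : ℂ) ^ 4 * α ^ 3) with hβdef
  have hβ0 : β ≠ 0 := by
    rw [hβdef]
    apply div_ne_zero (pow_ne_zero _ hpC)
    apply mul_ne_zero (mul_ne_zero (by norm_num) (pow_ne_zero _ hqC)) (pow_ne_zero _ hα0)
  have hineq : (2 * l + 1) ^ 2 * (2 * n + 1 + l) < (2 * h + 1) ^ 2 * (T + 1 - (l + 1) ^ 2) := by
    have e1 : T + 1 - (l + 1) ^ 2 = 144 * (2 * n + 1 + l) + 1 := by omega
    rw [e1]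
    have e2 : 2 * l + 1 ≤ 12 * (2 * h + 1) := by omega
    calc (2 * l + 1) ^ 2 * (2 * n + 1 + l) ≤ (12 * (2 * h + 1)) ^ 2 * (2 * n + 1 + l) :=
          Nat.mul_le_mul_right _ (Nat.pow_le_pow_left e2 2)
      _ = (2 * h + 1) ^ 2 * (144 * (2 * n + 1 + l)) := by ring
      _ < (2 * h + 1) ^ 2 * (144 * (2 * n + 1 + l) + 1) := by
          apply Nat.mul_lt_mul_of_pos_left (Nat.lt_succ_self _) (by positivity)
  obtain ⟨r, hr, hdet⟩ := hA6 L w hL l n h T α β hα0 hβ0 (by omega) (by omega) hineq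
  -- norms of the points
  have hs2 : (0 : ℝ) < Real.sqrt 2 := by positivity
  have hkap : ∀ c, ‖kap (r c).1 (r c).2.1‖ * w + 1 / 6 ≤ ρ := by
    intro c
    have h1 := norm_kap (hr c).1 (hr c).2.1
    rw [hρ]
    have h2 := mul_le_mul_of_nonneg_right h1 hw0.le
    have h3 : ((2 * h + 1 : ℕ) : ℝ) / Real.sqrt 2 * w = ((2 * h + 1 : ℕ) : ℝ) * w / Real.sqrt 2 := by
      ring
    rw [h3] at h2
    linarith
  have hkap2 : ∀ c, ‖2 * kap (r c).1 (r c).2.1‖ ≤ ρ := by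
    intro c
    have h1 := hkap c
    rw [norm_mul]
    have h2 : ‖(2 : ℂ)‖ = 2 := by norm_num
    rw [h2]
    have h3 : 2 * ‖kap (r c).1 (r c).2.1‖ ≤ ‖kap (r c).1 (r c).2.1‖ * w := by
      rw [mul_comm]
      exact mul_le_mul_of_nonneg_left hw2 (norm_nonneg _)
    linarith
  have hρ1 : 1 ≤ ρ := by
    rw [hρ]
    have h1 : (1 : ℝ) ≤ ((2 * h + 1 : ℕ) : ℝ) := by
      exact_mod_cast (by omega : 1 ≤ 2 * h + 1)
    have h2 : 1 ≤ ((2 * h + 1 : ℕ) : ℝ) * w / Real.sqrt 2 := by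
      rw [le_div_iff₀ hs2]
      have h3 : Real.sqrt 2 ≤ 2 := by
        rw [Real.sqrt_le_left (by norm_num)]
        norm_num
      nlinarith
    linarith
  -- the determinant polynomial
  set U : ℕ := Fintype.card (Col l n) with hU
  have hUval : (U : ℝ) = 2 * n * ((l : ℝ) + 1) ^ 2 := by
    rw [hU, card_Col]
    push_cast
    ring
  have hUpos : 0 < U := by
    rw [hU, card_Col]
    positivity
  have hUR : (0 : ℝ) < U := by exact_mod_cast hUpos
  set G : Polynomial ℤ := Matrix.det (Matrix.of fun c' c : Col l n =>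
    Epol T p q (r c').1 (r c').2.1 (r c').2.2.1 (r c').2.2.2 c) with hG
  have hDen : 0 < Den l T := (hS9 l T (by omega) (by omega)).1
  have hDenR : (1 : ℝ) ≤ Den l T := by exact_mod_cast hDen
  have hGα : Polynomial.aeval α G = (∏ c, vc l n T q α c) *
      Matrix.det (Matrix.of fun c' c : Col l n =>
        entR α β (r c').1 (r c').2.1 (r c').2.2.1 (r c').2.2.2 c) := by
    rw [hG, AlgHom.map_det]
    rw [← Matrix.det_mul_row]
    apply congrArg Matrix.det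
    ext c' c
    simp only [AlgHom.mapMatrix_apply, Matrix.map_apply, Matrix.of_apply]
    rw [hA1 l n T p q α _ _ _ _ c hq0 hα0 (hr c').2.2]
    rfl
  have hvne : ∀ c, vc l n T q α c ≠ 0 := by
    intro c
    unfold vc
    have : ((Den l T : ℕ) : ℂ) ≠ 0 := by exact_mod_cast hDen.ne'
    apply mul_ne_zero (mul_ne_zero (mul_ne_zero (pow_ne_zero _ two_ne_zero) _) _) this
    · exact pow_ne_zero _ (mul_ne_zero (by norm_num) (pow_ne_zero _ hqC))
    · exact pow_ne_zero _ hα0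
  have hGne : Polynomial.aeval α G ≠ 0 := by
    rw [hGα]
    exact mul_ne_zero (Finset.prod_ne_zero_iff.mpr fun c _ => hvne c) hdet
  -- degree and length
  set Y : ℝ := (272 * (ρ + 2)) ^ (2 * l) * Den l T * 2 ^ n * 4 ^ T with hY
  have hYpos : 0 < Y := by positivity
  have hA2' : ∀ c' c : Col l n,
      (Epol T p q (r c').1 (r c').2.1 (r c').2.2.1 (r c').2.2.2 c).natDegree ≤
        (c.1 : ℕ) + 3 * (c.2.1 : ℕ) ∧
      len (Epol T p q (r c').1 (r c').2.1 (r c').2.2.1 (r c').2.2.2 c) ≤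
        Y * (q : ℝ) ^ (4 * (c.2.1 : ℕ)) := by
    intro c' c
    obtain ⟨h1, h2⟩ := hA2 l n T p q (r c').1 (r c').2.1 (r c').2.2.1 (r c').2.2.2 c ρ hq hpq
      (hr c').2.2 hρ1 (hkap2 c')
    refine ⟨h1, h2.trans (le_of_eq ?_)⟩
    rw [hY]
    ring
  obtain ⟨hlen, hdeg⟩ := hA3 (Col l n) (Matrix.of fun c' c : Col l n =>
    Epol T p q (r c').1 (r c').2.1 (r c').2.2.1 (r c').2.2.2 c)
    (fun c => Y * (q : ℝ) ^ (4 * (c.2.1 : ℕ))) (fun c => (c.1 : ℕ) + 3 * (c.2.1 : ℕ))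
    (fun c' c => (hA2' c' c).2) (fun c' c => (hA2' c' c).1)
  rw [← hG, prod_q, ← hU] at hlen
  rw [← hG, sum_deg, ← hU] at hdeg
  have hfac : ((U.factorial : ℕ) : ℝ) ≤ ((U : ℝ) + 1) ^ U := by
    have h1 : ((U.factorial : ℕ) : ℝ) ≤ (U : ℝ) ^ U := by exact_mod_cast Nat.factorial_le_pow U
    exact h1.trans (pow_le_pow_left₀ hUR.le (by linarith) U)
  have hlen2 : len G ≤ ((U : ℝ) + 1) ^ U * (Y ^ U * (q : ℝ) ^ (2 * l * U)) :=
    hlen.trans (mul_le_mul_of_nonneg_right hfac (by positivity))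
  -- Liouville
  have hliou := hA4 Q G α (2 * l * U) hQ hd hQα hGne hdeg
  -- the upper bound
  have hup := hD4 L w hL l n T ρ ε α β r hn hρ1 hε0 hε1
    (fun c => ⟨hkap c, (hr c).2.2.le⟩) hα hβ (by
      rw [← hU, hUval]
      exact hcond)
  rw [← hU] at hup
  set KKv : ℝ := KK w l (2 * n + 1 + l) T ρ with hKKv
  have hKpos : 0 < KKv := by
    rw [hKKv]
    unfold KK
    positivity
  set V : ℝ := (Den l T : ℝ) * 2048 ^ (2 * l) with hV
  have hVpos : 0 < V := by positivity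
  have hGup : ‖Polynomial.aeval α G‖ ≤ (V ^ U * (q : ℝ) ^ (2 * l * U)) *
      (((U : ℝ) + 1) ^ U * ((U : ℝ) + 1) ^ U * (3 * KKv) ^ U *
        Real.exp (-((U : ℝ) * ((U : ℝ) - 1) / 2))) := by
    rw [hGα, norm_mul]
    apply mul_le_mul _ _ (norm_nonneg _) (by positivity)
    · rw [norm_prod, ← prod_q]
      apply Finset.prod_le_prod
      · intro c _
        exact norm_nonneg _
      · intro c _
        exact norm_vc c hq hαle
    · apply hup.trans
      gcongr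
  -- positivity
  have hlenpos : 0 < len G := by
    by_contra hcon
    push Not at hcon
    have hlen0 : 0 ≤ len G := by
      unfold len
      positivity
    have h0 : len G = 0 := le_antisymm hcon hlen0
    have hG0 : G ≠ 0 := by
      intro h0
      apply hGne
      rw [h0, map_zero]
    have h1 : |(G.coeff G.natDegree : ℝ)| ≤ len G := by
      unfold len
      exact Finset.single_le_sum (f := fun i => |(G.coeff i : ℝ)|) (fun i _ => abs_nonneg _)
        (Finset.mem_range.mpr (Nat.lt_succ_self _))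
    rw [h0] at h1
    have h2 : (G.coeff G.natDegree : ℝ) = 0 := abs_nonpos_iff.mp h1
    have h3 : G.coeff G.natDegree = 0 := by exact_mod_cast h2
    exact hG0 (Polynomial.leadingCoeff_eq_zero.mp h3)
  have hmpos : 0 < mah Q := by linarith
  have hnpos : 0 < ‖Polynomial.aeval α G‖ := norm_pos_iff.mpr hGne
  have hlog1 := Real.log_le_log one_pos hliou
  rw [Real.log_one, Real.log_mul (by positivity) hnpos.ne', Real.log_mul (by positivity)
    (by positivity), Real.log_pow, Real.log_pow] at hlog1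
  have hlog2 := Real.log_le_log hlenpos hlen2
  rw [Real.log_mul (by positivity) (by positivity), Real.log_mul (by positivity) (by positivity),
    Real.log_pow, Real.log_pow, Real.log_pow] at hlog2
  have hlog3 := Real.log_le_log hnpos hGup
  rw [Real.log_mul (by positivity) (by positivity), Real.log_mul (by positivity) (by positivity),
    Real.log_mul (by positivity) (by positivity), Real.log_mul (by positivity) (by positivity),
    Real.log_mul (by positivity) (by positivity), Real.log_exp,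
    Real.log_pow, Real.log_pow, Real.log_pow, Real.log_pow] at hlog3
  have hlogY : Real.log Y = 2 * l * Real.log (272 * (ρ + 2)) + Real.log (Den l T) +
      n * Real.log 2 + T * Real.log 4 := by
    rw [hY, Real.log_mul (by positivity) (by positivity), Real.log_mul (by positivity)
      (by positivity), Real.log_mul (by positivity) (by positivity), Real.log_pow, Real.log_pow,
      Real.log_pow]
    push_cast
    ring
  have hlogV : Real.log V = Real.log (Den l T) + 2 * l * Real.log 2048 := by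
    rw [hV, Real.log_mul (by positivity) (by positivity), Real.log_pow]
    push_cast
    ring
  rw [hlogY] at hlog2
  rw [hlogV] at hlog3
  push_cast at hlog1 hlog2 hlog3
  -- combine
  have hdR : (1 : ℝ) ≤ Q.natDegree := by exact_mod_cast hd
  have hcastd : ((Q.natDegree - 1 : ℕ) : ℝ) = (Q.natDegree : ℝ) - 1 := by
    rw [Nat.cast_sub hd, Nat.cast_one]
  rw [hcastd] at hlog1
  rw [← hUval]
  set D1 : ℝ := (Q.natDegree : ℝ) - 1 with hD1
  have hD1' : 0 ≤ D1 := by linarith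
  have hlog2' := mul_le_mul_of_nonneg_left hlog2 hD1'
  have hfinal : (U : ℝ) * (((U : ℝ) - 1) / 2) ≤ (U : ℝ) *
      (Real.log (3 * KKv) + 2 * Real.log ((U : ℝ) + 1)
      + Real.log (Den l T) + 2 * l * Real.log 2048 + 2 * l * Real.log q + 2 * l * Real.log (mah Q)
      + D1 * (Real.log ((U : ℝ) + 1) + Real.log (Den l T)
      + n * Real.log 2 + T * Real.log 4 + 2 * l * Real.log (272 * (ρ + 2)) +
        2 * l * Real.log q)) := by
    linarith [hlog1, hlog2', hlog3]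
  exact le_of_mul_le_mul_left hfinal hUR

end Pool.Agent.MPb60633
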