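import Pool.Agent.Lib.MP_b60633_nt.SpecD

/-!
# MP_b60633_nt, F2: the numbers (helper11)
-/

set_option autoImplicit false

namespace Pool.Agent.MPb60633

namespace F2

open Real Filter Asymptotics

lemma log_le : Real.log (2 * 900005) ≤ 14.405 := by
  have h2 := Real.log_two_lt_d9
  have h1 : (2 * 900005 : ℝ) ^ 4 ≤ 2 ^ 83 * 1.0855 := by norm_num
  have h3 : Real.log ((2 * 900005 : ℝ) ^ 4) ≤ Real.log (2 ^ 83 * 1.0855) :=
    Real.log_le_log (by positivity) h1
  rw [Real.log_pow, Real.log_mul (show (2 : ℝ) ^ 83 ≠ 0 by positivity)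
    (show (1.0855 : ℝ) ≠ 0 by norm_num), Real.log_pow] at h3
  have h4 : Real.log 1.0855 ≤ 1.0855 - 1 := Real.log_le_sub_one_of_pos (by norm_num)
  push_cast at h3
  linarith

lemma log4_eq : Real.log 4 = 2 * Real.log 2 := by
  rw [show (4 : ℝ) = 2 ^ 2 from by norm_num, Real.log_pow]
  norm_num

lemma log8_eq : Real.log 8 = 3 * Real.log 2 := by
  rw [show (8 : ℝ) = 2 ^ 3 from by norm_num, Real.log_pow]
  norm_num

lemma log4_le : Real.log 4 ≤ 1.3862944 := by
  have := Real.log_two_lt_d9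
  rw [log4_eq]
  linarith

lemma rho_le {w : ℝ} (hw : 2 ≤ w) :
    Real.pi * (Real.exp 1 * (150001 * w / Real.sqrt 2 + 1 / 6)) ^ 2 / (2 * w ^ 2) ≤ 130580000000 := by
  have hw0 : 0 < w := by linarith
  have hs : Real.sqrt 2 ^ 2 = 2 := Real.sq_sqrt (by norm_num)
  have hs0 : 0 < Real.sqrt 2 := by positivity
  have hs1 : 1.4142 ≤ Real.sqrt 2 := by
    apply Real.le_sqrt_of_sq_le
    norm_num
  have h1 : (150001 * w / Real.sqrt 2 + 1 / 6) / w ≤ 150001 / Real.sqrt 2 + 1 / 12 := by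
    rw [add_div]
    have e1 : 150001 * w / Real.sqrt 2 / w = 150001 / Real.sqrt 2 := by
      field_simp
    have e2 : (1 / 6 : ℝ) / w ≤ 1 / 12 := by
      rw [div_le_iff₀ hw0]
      linarith
    rw [e1]
    linarith
  have h2 : (150001 / Real.sqrt 2 + 1 / 12) ^ 2 ≤ 11250169000 := by
    have e1 : (150001 / Real.sqrt 2) ^ 2 = 150001 ^ 2 / 2 := by
      rw [div_pow, hs]
    have e2 : 150001 / Real.sqrt 2 ≤ 106069 := by
      rw [div_le_iff₀ hs0]
      linarith
    calc (150001 / Real.sqrt 2 + 1 / 12) ^ 2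
        = (150001 / Real.sqrt 2) ^ 2 + (150001 / Real.sqrt 2) / 6 + 1 / 144 := by ring
      _ ≤ 11250169000 := by
          rw [e1]
          linarith
  have h3 : ((150001 * w / Real.sqrt 2 + 1 / 6) / w) ^ 2 ≤ 11250169000 :=
    (pow_le_pow_left₀ (by positivity) h1 2).trans h2
  have he : Real.exp 1 ≤ 2.71829 := by
    have := Real.exp_one_lt_d9
    linarith
  have he2 : Real.exp 1 ^ 2 ≤ 2.71829 ^ 2 := pow_le_pow_left₀ (by positivity) he 2
  have hpi : Real.pi ≤ 3.1416 := by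
    have := Real.pi_lt_d4
    linarith
  calc Real.pi * (Real.exp 1 * (150001 * w / Real.sqrt 2 + 1 / 6)) ^ 2 / (2 * w ^ 2)
      = Real.pi * (Real.exp 1 ^ 2 * ((150001 * w / Real.sqrt 2 + 1 / 6) / w) ^ 2) / 2 := by
        field_simp
    _ ≤ 3.1416 * (2.71829 ^ 2 * 11250169000) / 2 := by
        gcongr
    _ ≤ 130580000000 := by norm_num

/-- `log x ≤ c x` and `√x log x ≤ c x` for large `x`. -/
lemma ev_log (c : ℝ) (hc : 0 < c) : ∀ᶠ x : ℝ in atTop, Real.log x ≤ c * x := by
  have h := (Real.isLittleO_log_id_atTop).def hc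
  filter_upwards [h, eventually_ge_atTop (0 : ℝ)] with x hx h0
  rw [Real.norm_eq_abs, id, Real.norm_eq_abs, abs_of_nonneg h0] at hx
  exact (le_abs_self _).trans hx

lemma ev_sqrt (c : ℝ) (hc : 0 < c) :
    ∀ᶠ x : ℝ in atTop, Real.sqrt x * Real.log x ≤ c * x := by
  have h := (isLittleO_log_rpow_atTop (r := 1 / 2) (by norm_num)).def hc
  filter_upwards [h, eventually_ge_atTop (0 : ℝ)] with x hx h0
  rw [Real.norm_eq_abs, Real.norm_eq_abs, abs_of_nonneg (Real.rpow_nonneg h0 _),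
    ← Real.sqrt_eq_rpow] at hx
  have h1 : Real.log x ≤ c * Real.sqrt x := (le_abs_self _).trans hx
  calc Real.sqrt x * Real.log x ≤ Real.sqrt x * (c * Real.sqrt x) := by gcongr
    _ = c * (Real.sqrt x * Real.sqrt x) := by ring
    _ = c * x := by rw [Real.mul_self_sqrt h0]

lemma log_KK (w : ℝ) (l P T : ℕ) (ρ : ℝ) (hρ : 0 ≤ ρ) :
    Real.log (3 * KK w l P T ρ) = Real.log 3 + (T * Real.log 8 + 6 * P +
      (2 * l : ℕ) * Real.log (1 + Real.exp 1 * ρ) +
      P * (600 + Real.pi * (Real.exp 1 * ρ) ^ 2 / (2 * w ^ 2))) := by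
  unfold KK
  rw [Real.log_mul (by norm_num) (by positivity), Real.log_mul (by positivity) (by positivity),
    Real.log_mul (by positivity) (by positivity), Real.log_mul (by positivity) (by positivity),
    Real.log_exp, Real.log_exp, Real.log_pow, Real.log_pow]

/-- The largest degree is the worst. -/
lemma dred {d D A B h : ℝ} (hd : d ≤ D) (hA : 0 ≤ A) (hB : B = A) :
    (d - 1) * (B + h) ≤ (D - 1) * A + d * h - h := by
  have : (d - 1) * A ≤ (D - 1) * A := by gcongr
  rw [hB]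
  linarith

end F2

open F2 Filter in
/-- Numbers. -/
theorem t_F2 (h9 : S_S9) : S_F2 := by
  intro w hw2 hwpi
  have hw0 : 0 < w := by linarith
  set ρ0 : ℝ := 150001 * w / Real.sqrt 2 + 1 / 6 with hρ0
  have hρ0pos : 0 ≤ ρ0 := by rw [hρ0]; positivity
  set c1 : ℝ := 2 * 900005 * Real.log (1 + Real.exp 1 * ρ0) with hc1
  set c2 : ℝ := 2 * 900005 * Real.log (272 * (ρ0 + 2)) with hc2
  have hc20 : 0 ≤ c2 := by
    rw [hc2]
    have : 0 ≤ Real.log (272 * (ρ0 + 2)) := Real.log_nonneg (by linarith)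
    positivity
  set c3 : ℝ := 2 * 900005 * Real.log 2048 with hc3
  set b : ℝ := Real.log 3 + 2.08 * 810140400900 + 6 * 900006 + c1 + 900006 * 130580000600 +
    27931406 * (22.7426 * 810140400900 + c2) + c3 + 1 with hb
  have hev1 : ∀ᶠ n : ℕ in atTop, b ≤ 10000000 * (n : ℝ) := by
    have h1 : Tendsto (fun n : ℕ => 10000000 * (n : ℝ)) atTop atTop :=
      tendsto_natCast_atTop_atTop.const_mul_atTop (by norm_num)
    exact h1.eventually_ge_atTop b
  have hev2 : ∀ᶠ n : ℕ in atTop, Real.log (2 * n * (900006 : ℝ) ^ 2 + 1) ≤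
      1 / 10 ^ 14 * (2 * n * (900006 : ℝ) ^ 2 + 1) := by
    have h1 : Tendsto (fun n : ℕ => 2 * (n : ℝ) * (900006 : ℝ) ^ 2 + 1) atTop atTop := by
      apply tendsto_atTop_add_const_right
      apply Tendsto.atTop_mul_const (by norm_num)
      exact tendsto_natCast_atTop_atTop.const_mul_atTop (by norm_num)
    exact h1.eventually (ev_log _ (by norm_num))
  have hev3 : ∀ᶠ n : ℕ in atTop, Real.sqrt (288 * n + 810140400900) *
      Real.log (288 * n + 810140400900) ≤ 1 / 10 ^ 10 * (288 * (n : ℝ) + 810140400900) := by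
    have h1 : Tendsto (fun n : ℕ => 288 * (n : ℝ) + 810140400900) atTop atTop := by
      apply tendsto_atTop_add_const_right
      exact tendsto_natCast_atTop_atTop.const_mul_atTop (by norm_num)
    exact h1.eventually (ev_sqrt _ (by norm_num))
  obtain ⟨n₀, hn₀⟩ := Filter.eventually_atTop.mp
    (((hev1.and hev2).and hev3).and (eventually_ge_atTop 1))
  refine ⟨n₀, fun n hn d T hq mQ ρ hd1 hdD hhq hmQ hT hρ hhyp => ?_⟩
  obtain ⟨⟨⟨e1, e2⟩, e3⟩, e4⟩ := hn₀ n hn
  clear hev1 hev2 hev3 hn₀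
  subst hρ
  have hn1 : (1 : ℝ) ≤ n := by exact_mod_cast e4
  have hTr : (T : ℝ) = 288 * n + 810140400900 := by
    rw [hT]
    push_cast
    ring
  have hPr : ((2 * n + 1 + 900005 : ℕ) : ℝ) = 2 * n + 900006 := by
    push_cast
    ring
  obtain ⟨hDen, hDenlog⟩ := h9 900005 T (by norm_num) (by rw [hT]; omega)
  have hkk := log_KK w 900005 (2 * n + 1 + 900005) T ρ0 hρ0pos
  rw [hPr, hTr] at hkk
  push_cast at hkk hDenlog
  rw [hTr] at hDenlog ⊢
  set L1 := Real.log (2 * n * (900006 : ℝ) ^ 2 + 1) with hL1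
  set LD := Real.log (Den 900005 T) with hLD
  set X1 := Real.log (3 * KK w 900005 (2 * n + 1 + 900005) T ρ0) with hX1
  set Kr := Real.pi * (Real.exp 1 * ρ0) ^ 2 / (2 * w ^ 2) with hKr
  have hKr1 : Kr ≤ 130580000000 := rho_le hw2
  have hl2 := Real.log_two_lt_d9
  have hl2' : 0 < Real.log 2 := Real.log_pos (by norm_num)
  have hl4 := log4_le
  have hl40 : 0 ≤ Real.log 4 := Real.log_nonneg (by norm_num)
  have hl8 : Real.log 8 ≤ 2.08 := by rw [log8_eq]; linarith
  have hLl := log_le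
  have hLl0 : 0 ≤ Real.log (2 * 900005) := Real.log_nonneg (by norm_num)
  have hL10 : 0 ≤ L1 := Real.log_nonneg (by
    have : (0 : ℝ) ≤ 2 * n * (900006 : ℝ) ^ 2 := by positivity
    linarith)
  have hT0 : (0 : ℝ) ≤ 288 * n + 810140400900 := by positivity
  -- bound for `log Den`
  have hLD1 : LD ≤ 21.3563 * (288 * n + 810140400900) := by
    have g1 : Real.log 4 * (288 * (n : ℝ) + 810140400900) * (1 + Real.log (2 * 900005)) ≤
        1.3862944 * (288 * n + 810140400900) * (1 + 14.405) := by gcongr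
    have g2 : 4 * (900005 : ℝ) * (Real.sqrt (288 * n + 810140400900) *
        Real.log (288 * n + 810140400900)) ≤
        4 * 900005 * (1 / 10 ^ 10 * (288 * n + 810140400900)) := by gcongr
    have g3 := hDenlog.trans (add_le_add g1 g2)
    refine g3.trans ?_
    generalize 288 * (n : ℝ) + 810140400900 = TT at hT0
    norm_num
    linarith
  have hT4 : (288 * (n : ℝ) + 810140400900) * Real.log 4 ≤
      (288 * n + 810140400900) * 1.3862944 := by gcongr
  have hT40 : 0 ≤ (288 * (n : ℝ) + 810140400900) * Real.log 4 := by positivity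
  have hT8 : (288 * (n : ℝ) + 810140400900) * Real.log 8 ≤
      (288 * n + 810140400900) * 2.08 := by gcongr
  have hP : (2 * (n : ℝ) + 900006) * (600 + Kr) ≤ (2 * n + 900006) * (600 + 130580000000) := by
    gcongr
  have hn2 : (n : ℝ) * Real.log 2 ≤ n * 0.6931471808 := by gcongr
  have hn20 : 0 ≤ (n : ℝ) * Real.log 2 := by positivity
  have hLD0 : 0 ≤ LD := Real.log_nonneg (by exact_mod_cast hDen)
  -- reduction of `d`
  have hdr : (d : ℝ) ≤ 27931406 := by exact_mod_cast hdD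
  have hdr1 : (1 : ℝ) ≤ d := by exact_mod_cast hd1
  set Y := L1 + LD + n * Real.log 2 + (288 * (n : ℝ) + 810140400900) * Real.log 4 + c2 with hY
  have hY0 : 0 ≤ Y := by rw [hY]; linarith
  have hdY : ((d : ℝ) - 1) * (L1 + LD + n * Real.log 2 + (288 * (n : ℝ) + 810140400900) * Real.log 4 +
      c2 + 2 * 900005 * hq) ≤ (27931406 - 1) * Y + 2 * 900005 * d * hq - 2 * 900005 * hq := by
    have g1 := dred (h := 2 * 900005 * hq) hdr hY0 hY.symm
    linarith
  have hYle : Y ≤ L1 + 21.3563 * (288 * n + 810140400900) + n * 0.6931471808 +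
      (288 * n + 810140400900) * 1.3862944 + c2 := by rw [hY]; linarith
  have hYge : L1 + LD ≤ Y := by rw [hY]; linarith
  have hm : (900006 : ℝ) ^ 2 = 810010800036 := by norm_num
  rw [hm] at hhyp e2 ⊢
  norm_num at e2
  linarith

end Pool.Agent.MPb60633
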