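import Pool.Agent.Lib.MP_b60633_nt.SpecD

set_option autoImplicit false

namespace Pool.Agent.MPb60633

open Complex Pool.Agent.Lib.Ribet4b482e

namespace F3

/-- The general form: `M`, `l` real numbers, `k` a natural number. -/
theorem gen (w ρ ε A l m : ℝ) (n T k : ℕ) (P : ℝ) (hw : 2 ≤ w) (hρ0 : 0 < ρ)
    (hl0 : 0 ≤ l) (hl : l ≤ Real.exp 900006) (hρ1 : ρ ≤ Real.exp 900006)
    (hε0 : 0 ≤ ε) (hε : ε ≤ Real.exp (-(1.6776 * n * m)))
    (hA : A = Real.pi * (Real.exp 1 * ρ) ^ 2 / (2 * w ^ 2))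
    (hP : (n : ℝ) + 2 * 900006 ≤ 606 * P) (hP0 : 0 ≤ P)
    (hmain : 0.3224 * n * m ≤ P * A) :
    ε * l * ρ * (2 * ρ) ^ k * 2 ^ n * 8 ^ T ≤
      8 ^ T * Real.exp (6 * P) * (1 + Real.exp 1 * ρ) ^ k * Real.exp (P * (600 + A)) *
        Real.exp (-(2 * n * m)) := by
  have he : (2 : ℝ) ≤ Real.exp 1 := by
    have := Real.exp_one_gt_d9
    linarith
  have h1 : (2 * ρ) ^ k ≤ (1 + Real.exp 1 * ρ) ^ k := by
    apply pow_le_pow_left₀ (by positivity)
    nlinarith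
  have h2 : (2 : ℝ) ^ n ≤ Real.exp n := by
    calc (2 : ℝ) ^ n ≤ (Real.exp 1) ^ n := pow_le_pow_left₀ (by norm_num) he n
      _ = Real.exp n := by rw [← Real.exp_nat_mul, mul_one]
  have h3 : ε * l * ρ * 2 ^ n ≤
      Real.exp (6 * P) * Real.exp (P * (600 + A)) * Real.exp (-(2 * n * m)) := by
    calc ε * l * ρ * 2 ^ n
        ≤ Real.exp (-(1.6776 * n * m)) * Real.exp 900006 * Real.exp 900006 * Real.exp n := by
          apply mul_le_mul _ h2 (by positivity) (by positivity)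
          apply mul_le_mul _ hρ1 hρ0.le (by positivity)
          exact mul_le_mul hε hl hl0 (by positivity)
      _ = Real.exp (-(1.6776 * n * m) + 900006 + 900006 + n) := by
          rw [Real.exp_add, Real.exp_add, Real.exp_add]
      _ ≤ Real.exp (6 * P + P * (600 + A) + -(2 * n * m)) := by
          apply Real.exp_le_exp.mpr
          nlinarith
      _ = _ := by rw [Real.exp_add, Real.exp_add]
  have hT : (0 : ℝ) ≤ 8 ^ T := by positivity
  calc ε * l * ρ * (2 * ρ) ^ k * 2 ^ n * 8 ^ T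
      = (ε * l * ρ * 2 ^ n) * (2 * ρ) ^ k * 8 ^ T := by ring
    _ ≤ (Real.exp (6 * P) * Real.exp (P * (600 + A)) * Real.exp (-(2 * n * m))) *
          (1 + Real.exp 1 * ρ) ^ k * 8 ^ T := by
        apply mul_le_mul_of_nonneg_right _ hT
        exact mul_le_mul h3 h1 (by positivity) (by positivity)
    _ = _ := by ring

end F3

theorem t_F3 : S_F3 := by
  intro w ρ ε n T hw hwpi hρ hε0 hε
  have hw0 : 0 < w := by linarith
  have hs : (0 : ℝ) < Real.sqrt 2 := by positivity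
  have hs2 : Real.sqrt 2 ^ 2 = 2 := Real.sq_sqrt (by norm_num)
  have hs1 : (1 : ℝ) ≤ Real.sqrt 2 := by
    rw [Real.one_le_sqrt]; norm_num
  have hpi4 : Real.pi < 3.15 := Real.pi_lt_d2
  have hpi3 : 3.141592 < Real.pi := Real.pi_gt_d6
  have hρlow : 150001 * w / Real.sqrt 2 ≤ ρ := by rw [hρ]; linarith
  have hρ0 : 0 < ρ := by
    have : 0 < 150001 * w / Real.sqrt 2 := by positivity
    linarith
  have hexp : (900007 : ℝ) ≤ Real.exp 900006 := by
    have := Real.add_one_le_exp (900006 : ℝ)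
    linarith
  have hρ1 : ρ ≤ Real.exp 900006 := by
    have h1 : 150001 * w / Real.sqrt 2 ≤ 150001 * w := by
      rw [div_le_iff₀ hs]
      nlinarith
    rw [hρ]
    linarith
  have hρsq : 150001 ^ 2 * w ^ 2 / 2 ≤ ρ ^ 2 := by
    have h1 : (150001 * w / Real.sqrt 2) ^ 2 ≤ ρ ^ 2 :=
      pow_le_pow_left₀ (by positivity) hρlow 2
    rw [div_pow, hs2, mul_pow] at h1
    exact h1
  have he := Real.exp_one_gt_d9
  have hc : (5.8032 : ℝ) ≤ Real.pi * Real.exp 1 ^ 2 / 4 := by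
    have h1 : (2.7182818283 : ℝ) ^ 2 ≤ Real.exp 1 ^ 2 := pow_le_pow_left₀ (by norm_num) he.le 2
    have h2 : (3.141592 : ℝ) * 2.7182818283 ^ 2 ≤ Real.pi * Real.exp 1 ^ 2 :=
      mul_le_mul hpi3.le h1 (by norm_num) (by positivity)
    have h3 : (5.8032 : ℝ) * 4 ≤ 3.141592 * 2.7182818283 ^ 2 := by norm_num
    linarith
  have hA : 5.8032 * 150001 ^ 2 ≤ Real.pi * (Real.exp 1 * ρ) ^ 2 / (2 * w ^ 2) := by
    rw [le_div_iff₀ (by positivity), mul_pow]
    have h1 : Real.pi * Real.exp 1 ^ 2 * (150001 ^ 2 * w ^ 2 / 2) ≤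
        Real.pi * (Real.exp 1 ^ 2 * ρ ^ 2) := by
      rw [← mul_assoc]
      exact mul_le_mul_of_nonneg_left hρsq (by positivity)
    have h2 : 5.8032 * (4 * (150001 ^ 2 * w ^ 2 / 2)) ≤
        (Real.pi * Real.exp 1 ^ 2 / 4) * (4 * (150001 ^ 2 * w ^ 2 / 2)) :=
      mul_le_mul_of_nonneg_right hc (by positivity)
    linarith
  have hn : (0 : ℝ) ≤ n := Nat.cast_nonneg n
  have hPc : ((2 * n + 1 + 900005 : ℕ) : ℝ) = 2 * n + 1 + 900005 := by push_cast; ring
  unfold KK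
  refine F3.gen w ρ ε _ 900005 (900006 ^ 2) n T (2 * 900005) _ hw hρ0 (by norm_num)
    (by linarith) hρ1 hε0 hε rfl ?_ (Nat.cast_nonneg _) ?_
  · rw [hPc]; linarith
  · rw [hPc]
    have h1 : (2 * (n : ℝ)) * (5.8032 * 150001 ^ 2) ≤
        (2 * (n : ℝ) + 1 + 900005) * (Real.pi * (Real.exp 1 * ρ) ^ 2 / (2 * w ^ 2)) :=
      mul_le_mul (by linarith) hA (by norm_num) (by linarith)
    refine le_trans ?_ h1
    have h2 : (0.3224 : ℝ) * 900006 ^ 2 ≤ 2 * (5.8032 * 150001 ^ 2) := by norm_num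
    have h3 := mul_le_mul_of_nonneg_left h2 hn
    linarith

end Pool.Agent.MPb60633
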