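import Pool.Agent.Lib.MP_b60633_nt.SpecD

/-!
# MP_b60633_nt, F4: the measure (helper11)
-/

set_option autoImplicit false

namespace Pool.Agent.MPb60633

open Complex Pool.Agent.Lib.Ribet4b482e Module

namespace F4

/-- `‖β - π/w‖` in terms of the two approximations. -/
lemma beta_bound {w γ δ η : ℝ} {p q : ℤ} {α : ℂ} (hw2 : 2 ≤ w) (hwpi : w ≤ Real.pi) (hγ0 : 0 < γ)
    (hγ4 : γ ≤ 4) (hγ : γ ^ 4 = 8 * Real.pi * w ^ 2) (hq : 1 ≤ q) (hpq : |(p : ℝ) / q| ≤ 4)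
    (h1 : |(p : ℝ) / q - γ| ≤ δ) (h2 : ‖α - w‖ ≤ η) (hα1 : 1 ≤ ‖α‖) (hα4 : ‖α‖ ≤ 4) :
    ‖(p : ℂ) ^ 4 / (8 * (q : ℂ) ^ 4 * α ^ 3) - (Real.pi / w : ℝ)‖ ≤ 32 * δ + 192 * η := by
  have hw0 : (0 : ℝ) < w := by linarith
  have hwC : (w : ℂ) ≠ 0 := by exact_mod_cast hw0.ne'
  have hq0 : (q : ℂ) ≠ 0 := by
    have : q ≠ 0 := by omega
    exact_mod_cast this
  have hα0 : α ≠ 0 := by
    intro h
    rw [h, norm_zero] at hα1
    linarith
  have hnw : ‖(w : ℂ)‖ = w := by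
    rw [Complex.norm_real, Real.norm_eq_abs, abs_of_pos hw0]
  set r : ℂ := (((p : ℝ) / q : ℝ) : ℂ) with hr
  set g : ℂ := ((γ : ℝ) : ℂ) with hg
  have hrn : ‖r‖ ≤ 4 := by rw [hr, Complex.norm_real, Real.norm_eq_abs]; exact hpq
  have hgn : ‖g‖ ≤ 4 := by
    rw [hg, Complex.norm_real, Real.norm_eq_abs, abs_of_pos hγ0]
    exact hγ4
  have hrg : ‖r - g‖ ≤ δ := by
    rw [hr, hg, ← Complex.ofReal_sub, Complex.norm_real, Real.norm_eq_abs]
    exact h1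
  have hpw : ((Real.pi / w : ℝ) : ℂ) = g ^ 4 / (8 * (w : ℂ) ^ 3) := by
    have e1 : Real.pi / w = γ ^ 4 / (8 * w ^ 3) := by
      rw [hγ]
      field_simp
    rw [e1, hg]
    push_cast
    ring
  have hβ : (p : ℂ) ^ 4 / (8 * (q : ℂ) ^ 4 * α ^ 3) = r ^ 4 / (8 * α ^ 3) := by
    rw [hr]
    push_cast
    field_simp
  rw [hpw, hβ]
  have hsplit : r ^ 4 / (8 * α ^ 3) - g ^ 4 / (8 * (w : ℂ) ^ 3) =
      (r - g) * (r ^ 3 + r ^ 2 * g + r * g ^ 2 + g ^ 3) / (8 * α ^ 3) +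
      g ^ 4 / 8 * ((w - α) * ((w : ℂ) ^ 2 + w * α + α ^ 2)) / (α ^ 3 * (w : ℂ) ^ 3) := by
    field_simp
    ring
  rw [hsplit]
  have hα3 : 1 ≤ ‖α‖ ^ 3 := one_le_pow₀ hα1
  have hw3 : 8 ≤ w ^ 3 := by
    calc (8 : ℝ) = 2 ^ 3 := by norm_num
      _ ≤ w ^ 3 := pow_le_pow_left₀ (by norm_num) hw2 3
  have hδ0 : 0 ≤ δ := (abs_nonneg _).trans h1
  have hη0 : 0 ≤ η := (norm_nonneg _).trans h2
  have hw4 : w ≤ 4 := by linarith [Real.pi_le_four]
  have t1 : ‖(r - g) * (r ^ 3 + r ^ 2 * g + r * g ^ 2 + g ^ 3) / (8 * α ^ 3)‖ ≤ 32 * δ := by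
    rw [norm_div, norm_mul, norm_mul, norm_pow]
    have e8 : ‖(8 : ℂ)‖ = 8 := by norm_num
    rw [e8, div_le_iff₀ (by positivity)]
    have hs : ‖r ^ 3 + r ^ 2 * g + r * g ^ 2 + g ^ 3‖ ≤ 256 := by
      calc ‖r ^ 3 + r ^ 2 * g + r * g ^ 2 + g ^ 3‖
          ≤ ‖r ^ 3‖ + ‖r ^ 2 * g‖ + ‖r * g ^ 2‖ + ‖g ^ 3‖ := by
            refine (norm_add_le _ _).trans (add_le_add ?_ le_rfl)
            refine (norm_add_le _ _).trans (add_le_add ?_ le_rfl)
            exact norm_add_le _ _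
        _ = ‖r‖ ^ 3 + ‖r‖ ^ 2 * ‖g‖ + ‖r‖ * ‖g‖ ^ 2 + ‖g‖ ^ 3 := by
            simp only [norm_mul, norm_pow]
        _ ≤ 4 ^ 3 + 4 ^ 2 * 4 + 4 * 4 ^ 2 + 4 ^ 3 := by gcongr
        _ = 256 := by norm_num
    calc ‖r - g‖ * ‖r ^ 3 + r ^ 2 * g + r * g ^ 2 + g ^ 3‖ ≤ δ * 256 := by gcongr
      _ ≤ 32 * δ * (8 * 1) := by linarith
      _ ≤ 32 * δ * (8 * ‖α‖ ^ 3) := by gcongr
  have t2 : ‖g ^ 4 / 8 * ((w - α) * ((w : ℂ) ^ 2 + w * α + α ^ 2)) / (α ^ 3 * (w : ℂ) ^ 3)‖ ≤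
      192 * η := by
    rw [norm_div, norm_mul, norm_mul, norm_mul, norm_div, norm_pow, norm_pow, norm_pow, hnw]
    have e8 : ‖(8 : ℂ)‖ = 8 := by norm_num
    rw [e8, div_le_iff₀ (by positivity)]
    have hs : ‖(w : ℂ) ^ 2 + w * α + α ^ 2‖ ≤ 48 := by
      calc ‖(w : ℂ) ^ 2 + w * α + α ^ 2‖ ≤ ‖(w : ℂ) ^ 2‖ + ‖(w : ℂ) * α‖ + ‖α ^ 2‖ := by
            refine (norm_add_le _ _).trans (add_le_add ?_ le_rfl)
            exact norm_add_le _ _
        _ = w ^ 2 + w * ‖α‖ + ‖α‖ ^ 2 := by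
            simp only [norm_mul, norm_pow, hnw]
        _ ≤ 4 ^ 2 + 4 * 4 + 4 ^ 2 := by gcongr
        _ = 48 := by norm_num
    have hwa : ‖(w : ℂ) - α‖ ≤ η := by rw [norm_sub_rev]; exact h2
    calc ‖g‖ ^ 4 / 8 * (‖(w : ℂ) - α‖ * ‖(w : ℂ) ^ 2 + w * α + α ^ 2‖)
        ≤ 4 ^ 4 / 8 * (η * 48) := by gcongr
      _ = 192 * η * (1 * 8) := by ring
      _ ≤ 192 * η * (‖α‖ ^ 3 * w ^ 3) := by gcongr
  calc _ ≤ _ := norm_add_le _ _
    _ ≤ 32 * δ + 192 * η := add_le_add t1 t2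

lemma gamma_lt_four {w γ : ℝ} (hw2 : 2 ≤ w) (hwpi : w ≤ Real.pi) (_hγ0 : 0 < γ)
    (hγ : γ ^ 4 = 8 * Real.pi * w ^ 2) : γ < 4 := by
  by_contra hcon
  push Not at hcon
  have h1 : (4 : ℝ) ^ 4 ≤ γ ^ 4 := pow_le_pow_left₀ (by norm_num) hcon 4
  have hpi := Real.pi_lt_d2
  have h2 : w ^ 2 ≤ 3.15 ^ 2 := pow_le_pow_left₀ (by linarith) (by linarith) 2
  have h3 : 8 * Real.pi * w ^ 2 ≤ 8 * 3.15 * 3.15 ^ 2 := by
    have : (0 : ℝ) ≤ w ^ 2 := sq_nonneg _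
    nlinarith [Real.pi_pos]
  rw [hγ] at h1
  norm_num at h1 h3
  linarith

end F4

open F4 in
/-- The measure. -/
theorem t_F4 (hF1 : S_F1) (hF2 : S_F2) (hF3 : S_F3) (hG4 : S_G4) (hE6 : S_E6) : S_F4 := by
  obtain ⟨L, w, hL⟩ := hE6
  have hw2 := hL.two_le
  have hwpi := hL.le_pi
  have hw0 : (0 : ℝ) < w := by linarith
  have hw4 : w ≤ 4 := by linarith [Real.pi_le_four]
  set γ : ℝ := Real.Gamma (1 / 4) with hγdef
  have hγ0 : 0 < γ := Real.Gamma_pos_of_pos (by norm_num)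
  have hγ : γ ^ 4 = 8 * Real.pi * w ^ 2 := by
    have h1 := hL.gam
    have hpi := Real.pi_pos
    rw [h1, hγdef]
    field_simp
  have hγ4 := gamma_lt_four hw2 hwpi hγ0 hγ
  obtain ⟨x₀, c₀, hx₀⟩ := hG4 w 27931406 hw0.le hw4 (by norm_num)
  obtain ⟨n₀, hn₀⟩ := hF2 w hw2 hwpi
  -- thresholds for `H = log q`
  set m : ℝ := 810010800036 with hm
  set H₁ : ℝ := |x₀| with hH1
  set H₂ : ℝ := m * n₀ with hH2
  set H₃ : ℝ := |c₀| + 6 + 1.6776 * m with hH3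
  set H₄ : ℝ := 6689000 * Real.log (27931406 + 1) + 1.6776 * m + 6 with hH4
  set H₅ : ℝ := -Real.log (4 - γ) with hH5
  set H₆ : ℝ := -Real.log (γ / 2) with hH6
  set H₀ : ℝ := 1 + H₁ + H₂ + H₃ + H₄ + |H₅| + |H₆| with hH0
  have hlogD : 0 ≤ Real.log (27931406 + 1) := Real.log_nonneg (by norm_num)
  have hH1' : 0 ≤ H₁ := abs_nonneg _
  have hH2' : 0 ≤ H₂ := by rw [hH2, hm]; positivity
  have hH3' : 0 ≤ H₃ := by rw [hH3, hm]; positivity
  have hH4' : 0 ≤ H₄ := by rw [hH4, hm]; positivity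
  have hH5' : 0 ≤ |H₅| := abs_nonneg _
  have hH6' : 0 ≤ |H₆| := abs_nonneg _
  refine ⟨⌈Real.exp H₀⌉₊ + 1, ?_⟩
  intro p q hq
  by_contra hcon
  push Not at hcon
  have hqR : Real.exp H₀ ≤ q := by
    have h1 : (((⌈Real.exp H₀⌉₊ + 1 : ℕ) : ℤ) : ℝ) ≤ (q : ℝ) := by exact_mod_cast hq
    have h2 := Nat.le_ceil (Real.exp H₀)
    push_cast at h1
    linarith
  have hq1 : (1 : ℤ) ≤ q := by
    have : (1 : ℤ) ≤ ((⌈Real.exp H₀⌉₊ + 1 : ℕ) : ℤ) := by push_cast; omega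
    omega
  have hqpos : (0 : ℝ) < q := lt_of_lt_of_le (Real.exp_pos _) hqR
  set H : ℝ := Real.log q with hH
  have hHge : H₀ ≤ H := by
    rw [hH, Real.le_log_iff_exp_le hqpos]
    exact hqR
  have hH1le : 1 ≤ H := by linarith
  have hHpos : 0 < H := by linarith
  -- the small number
  set δ : ℝ := (q : ℝ) ^ (-(10 : ℝ) ^ 15) with hδ
  have hδexp : δ = Real.exp (-(10 : ℝ) ^ 15 * H) := by
    rw [hδ, Real.rpow_def_of_pos hqpos, mul_comm]
  have hδle : δ ≤ Real.exp (-H) := by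
    rw [hδexp]
    apply Real.exp_le_exp.mpr
    have h0 : 0 ≤ ((10 : ℝ) ^ 15 - 1) * H := mul_nonneg (by norm_num) hHpos.le
    linarith
  have hδ5 : δ ≤ 4 - γ := by
    apply hδle.trans
    rw [← Real.exp_log (by linarith : 0 < 4 - γ)]
    apply Real.exp_le_exp.mpr
    have := le_abs_self H₅
    linarith
  have hδ6 : δ ≤ γ / 2 := by
    apply hδle.trans
    rw [← Real.exp_log (by linarith : 0 < γ / 2)]
    apply Real.exp_le_exp.mpr
    have := le_abs_self H₆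
    linarith
  have hpqγ : |(p : ℝ) / q - γ| ≤ δ := by
    rw [abs_sub_comm]
    exact hcon.le
  have hpq4 : |(p : ℝ) / q| ≤ 4 := by
    have h1 := abs_le.mp hpqγ
    rw [abs_le]
    constructor <;> linarith
  have hppos : 0 < (p : ℝ) / q := by
    have h1 := abs_le.mp hpqγ
    linarith
  have hp0 : p ≠ 0 := by
    rintro rfl
    simp at hppos
  have hp4 : |(p : ℝ)| ≤ 4 * q := by
    rw [abs_div, abs_of_pos hqpos, div_le_iff₀ hqpos] at hpq4
    exact hpq4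
  -- the algebraic approximation
  have hx : x₀ ≤ 88 * 900005 * H := by
    have h0 := le_abs_self x₀
    have h1 : |x₀| ≤ H := by linarith
    linarith
  obtain ⟨Q, α, hQ, hd1, hdD, hQα, hmah1, hmah2, hwα⟩ := hx₀ (88 * 900005 * H) hx
  set d : ℕ := Q.natDegree with hd
  have hdR1 : (1 : ℝ) ≤ d := by exact_mod_cast hd1
  have hdRD : (d : ℝ) ≤ 27931406 := by exact_mod_cast hdD
  set mQ : ℝ := Real.log (mah Q) with hmQ
  have hmQ0 : 0 ≤ mQ := Real.log_nonneg hmah1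
  have hmQle : mQ ≤ 88 * 900005 * H + Real.log (27931406 + 1) := by
    have h1 := Real.log_le_log (by linarith) hmah2
    rw [Real.log_mul (by positivity) (Real.exp_pos _).ne', Real.log_exp] at h1
    push_cast at h1
    linarith
  -- the parameter n
  set W : ℝ := 2 * 900005 * mQ + 2 * 900005 * d * H with hW
  have hWpos : 0 < W := by
    rw [hW]
    have : 0 < 2 * 900005 * (d : ℝ) * H := by positivity
    linarith [mul_nonneg (by norm_num : (0:ℝ) ≤ 2 * 900005) hmQ0]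
  set n : ℕ := ⌈W / (0.4515 * m)⌉₊ with hn
  have hmpos : 0 < m := by rw [hm]; norm_num
  have hn1 : W ≤ 0.4515 * n * m := by
    have h1 := Nat.le_ceil (W / (0.4515 * m))
    rw [← hn, div_le_iff₀ (by positivity)] at h1
    linarith
  have hn2 : 1.6776 * n * m ≤ 7.4313 * 900005 * mQ + 7.4313 * 900005 * (d * H) + 1.6776 * m := by
    have h1 := Nat.ceil_lt_add_one (div_nonneg hWpos.le (by positivity : (0:ℝ) ≤ 0.4515 * m))
    rw [← hn] at h1
    have h2 : (n : ℝ) * (0.4515 * m) < W + 0.4515 * m := by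
      have h3 : ((n : ℝ) - 1) < W / (0.4515 * m) := by linarith
      rw [lt_div_iff₀ (by positivity)] at h3
      linarith
    have hdH : 0 ≤ (d : ℝ) * H := by positivity
    have h3 : W = 2 * 900005 * mQ + 2 * 900005 * (d * H) := by rw [hW]; ring
    have h4 : (n : ℝ) * (0.4515 * m) = 0.4515 * (n * m) := by ring
    have h5 : 1.6776 * (n : ℝ) * m = 1.6776 * (n * m) := by ring
    rw [h4, h3] at h2
    rw [h5]
    linarith
  have hdH1 : H ≤ (d : ℝ) * H := by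
    have := mul_le_mul_of_nonneg_right hdR1 hHpos.le
    linarith
  have hnpos : 1 ≤ n := by
    rw [hn, Nat.one_le_ceil_iff]
    positivity
  have hnn₀ : n₀ ≤ n := by
    have h1 : H ≤ W := by
      have h2 : H ≤ 2 * 900005 * (d : ℝ) * H := by
        have h5 : 2 * 900005 * (d : ℝ) * H = 2 * 900005 * ((d : ℝ) * H) := by ring
        rw [h5]
        linarith
      rw [hW]
      linarith [mul_nonneg (by norm_num : (0:ℝ) ≤ 2 * 900005) hmQ0]
    have h2 : m * n₀ ≤ 0.4515 * n * m := by linarith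
    have h3 : (n₀ : ℝ) ≤ n := by
      have h4 : m * n₀ ≤ m * n := by
        have h6 : 0 ≤ m * (n : ℝ) := by positivity
        have h7 : 0.4515 * (n : ℝ) * m = 0.4515 * (m * n) := by ring
        rw [h7] at h2
        linarith
      exact le_of_mul_le_mul_left h4 hmpos
    exact_mod_cast h3
  -- the error
  set E : ℝ := 1.6776 * n * m with hE
  have hEpos : 0 ≤ E := by rw [hE]; positivity
  have hlog400 : Real.log 400 ≤ 6 := by
    rw [Real.log_le_iff_le_exp (by norm_num)]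
    have h1 : (2.718 : ℝ) ≤ Real.exp 1 := by linarith [Real.exp_one_gt_d9]
    have h2 : Real.exp 6 = Real.exp 1 ^ 6 := by rw [← Real.exp_nat_mul]; norm_num
    rw [h2]
    calc (400 : ℝ) ≤ 2.718 ^ 6 := by norm_num
      _ ≤ Real.exp 1 ^ 6 := pow_le_pow_left₀ (by norm_num) h1 6
  have hexp6 : Real.exp (-6) ≤ 1 / 400 := by
    rw [← Real.exp_log (by norm_num : (0:ℝ) < 1 / 400)]
    apply Real.exp_le_exp.mpr
    rw [one_div, Real.log_inv]
    linarith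
  have happ1 : ‖(w : ℂ) - α‖ ≤ Real.exp (-E) / 400 := by
    have h1 : Real.exp (c₀ - 37 / 150 * (27931406 : ℕ) * mQ - 43 / 500 * (88 * 900005 * H) * d) ≤
        Real.exp (-E + -6) := by
      apply Real.exp_le_exp.mpr
      have h2 := le_abs_self c₀
      have h3 : 7.4313 * 900005 * mQ ≤ 37 / 150 * ((27931406 : ℕ) : ℝ) * mQ := by
        apply mul_le_mul_of_nonneg_right _ hmQ0
        push_cast
        norm_num
      have h4 : 7.4313 * 900005 * ((d : ℝ) * H) + H ≤ 43 / 500 * (88 * 900005 * H) * d := by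
        have h5 : 43 / 500 * (88 * 900005 * H) * (d : ℝ) =
            43 / 500 * 88 * 900005 * ((d : ℝ) * H) := by ring
        rw [h5]
        linarith
      linarith
    rw [Real.exp_add] at h1
    calc ‖(w : ℂ) - α‖ ≤ _ := hwα
      _ ≤ Real.exp (-E) * Real.exp (-6) := h1
      _ ≤ Real.exp (-E) * (1 / 400) := by gcongr
      _ = Real.exp (-E) / 400 := by ring
  have happ2 : δ ≤ Real.exp (-E) / 400 := by
    have h1 : δ ≤ Real.exp (-E + -6) := by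
      rw [hδexp]
      apply Real.exp_le_exp.mpr
      have h2 : (d : ℝ) * H ≤ 27931406 * H := mul_le_mul_of_nonneg_right hdRD hHpos.le
      have h3 : 7.4313 * 900005 * mQ ≤
          7.4313 * 900005 * (88 * 900005 * H + Real.log (27931406 + 1)) := by
        apply mul_le_mul_of_nonneg_left hmQle (by norm_num)
      have h4 : H₄ ≤ H := by linarith
      rw [hH4] at h4
      linarith
    rw [Real.exp_add] at h1
    calc δ ≤ Real.exp (-E) * Real.exp (-6) := h1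
      _ ≤ Real.exp (-E) * (1 / 400) := by gcongr
      _ = Real.exp (-E) / 400 := by ring
  set ε : ℝ := Real.exp (-E) with hε
  have hε0 : 0 ≤ ε := (Real.exp_pos _).le
  have hε1 : ε ≤ 1 := by
    rw [hε]
    apply Real.exp_le_one_iff.mpr
    linarith
  have hnw : ‖(w : ℂ)‖ = w := by
    rw [Complex.norm_real, Real.norm_eq_abs, abs_of_pos hw0]
  have hαw : ‖α - w‖ ≤ ε / 400 := by rw [norm_sub_rev]; exact happ1
  have hα4 : ‖α‖ ≤ 4 := by
    calc ‖α‖ = ‖(α - w) + w‖ := by ring_nf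
      _ ≤ ‖α - w‖ + ‖(w : ℂ)‖ := norm_add_le _ _
      _ ≤ 4 := by
        rw [hnw]
        have := Real.pi_lt_d2
        linarith
  have hα1 : 1 ≤ ‖α‖ := by
    have h1 : ‖(w : ℂ)‖ ≤ ‖α‖ + ‖α - w‖ := by
      calc ‖(w : ℂ)‖ = ‖α - (α - w)‖ := by ring_nf
        _ ≤ ‖α‖ + ‖α - w‖ := norm_sub_le _ _
    rw [hnw] at h1
    linarith
  have hβ := beta_bound hw2 hwpi hγ0 hγ4.le hγ hq1 hpq4 (hpqγ.trans happ2) hαw hα1 hα4
  have hβε : ‖(p : ℂ) ^ 4 / (8 * (q : ℂ) ^ 4 * α ^ 3) - (Real.pi / w : ℝ)‖ ≤ ε := by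
    apply hβ.trans
    linarith
  have hαε : ‖α - w‖ ≤ ε := by linarith
  -- apply the main inequality
  have hm2 : (900006 : ℝ) ^ 2 = m := by rw [hm]; norm_num
  have hcond := hF3 w (150001 * w / Real.sqrt 2 + 1 / 6) ε n
    (144 * (2 * n + 1 + 900005) + 900006 ^ 2) hw2 hwpi rfl hε0 (by
      rw [hε, hE, hm2])
  have hmain := hF1 L w hL 75000 900005 n (144 * (2 * n + 1 + 900005) + 900006 ^ 2) p q Q α
    (150001 * w / Real.sqrt 2 + 1 / 6) ε (by norm_num) hnpos (by norm_num)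
    (by norm_num) hq1 hp4 hp0 hQ hd1 hmah1 hQα hε0 hε1 hαε hβε (by
      have e1 : ((900005 : ℕ) : ℝ) = 900005 := Nat.cast_ofNat
      have e2 : (900005 : ℝ) + 1 = 900006 := by norm_num
      rw [e1, e2]
      exact hcond)
  have hend := hn₀ n hnn₀ d (144 * (2 * n + 1 + 900005) + 900006 ^ 2) H mQ
    (150001 * w / Real.sqrt 2 + 1 / 6) hd1 hdD hHpos.le hmQ0 rfl rfl (by
      rw [hm2]
      linarith)
  have e1 : ((900005 : ℕ) : ℝ) = 900005 := Nat.cast_ofNat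
  have e2 : (900005 : ℝ) + 1 = 900006 := by norm_num
  rw [e1, e2] at hmain
  linarith

end Pool.Agent.MPb60633
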