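import Pool.Agent.Lib.MP_b60633_nt.SpecD

/-!
# MP_b60633_nt, F5: the irrationality exponent (helper11)
-/

set_option autoImplicit false

namespace Pool.Agent.MPb60633

/-- The irrationality exponent. -/
theorem t_F5 (hF4 : S_F4) : S_F5 := by
  obtain ⟨q₀, hq₀⟩ := hF4
  apply sSup_le
  rintro _ ⟨μ, hμ0, rfl, hadm⟩
  by_contra hcon
  push Not at hcon
  have hμ : (10 : ℝ) ^ 15 < μ := by
    by_contra h
    push Not at h
    have h1 : ENNReal.ofReal μ ≤ ENNReal.ofReal ((10 : ℝ) ^ 15) := ENNReal.ofReal_le_ofReal h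
    have h2 : ENNReal.ofReal ((10 : ℝ) ^ 15) = 10 ^ 15 := by
      rw [ENNReal.ofReal_pow (by norm_num)]
      norm_num
    rw [h2] at h1
    exact absurd hcon (not_lt.mpr h1)
  -- the pairs with small denominators are finite in number
  set x : ℝ := Real.Gamma (1 / 4) with hx
  set N : ℤ := max q₀ 2 with hN
  have hfin : {pq : ℤ × ℤ | (1 ≤ pq.2 ∧ 0 < |x - pq.1 / pq.2| ∧
      |x - pq.1 / pq.2| < 1 / (pq.2 : ℝ) ^ μ) ∧ pq.2 < N}.Finite := by
    obtain ⟨K, hK⟩ := exists_nat_gt ((N : ℝ) * (|x| + 1))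
    apply Set.Finite.subset ((Set.finite_Icc (-(K : ℤ)) K).prod (Set.finite_Icc (0 : ℤ) N))
    rintro ⟨p, q⟩ ⟨⟨h1, h2, h3⟩, h4⟩
    simp only at h1 h2 h3 h4
    have hq1 : (1 : ℝ) ≤ q := by exact_mod_cast h1
    have hq0 : (0 : ℝ) < q := by linarith
    have hqN : (q : ℝ) ≤ N := by exact_mod_cast h4.le
    have h5 : 1 / (q : ℝ) ^ μ ≤ 1 := by
      rw [div_le_one (Real.rpow_pos_of_pos hq0 μ)]
      exact Real.one_le_rpow hq1 hμ0
    have h6 : |(p : ℝ) / q| ≤ |x| + 1 := by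
      have h7 : |(p : ℝ) / q| ≤ |x| + |x - p / q| := by
        have := abs_sub_abs_le_abs_sub ((p : ℝ) / q) x
        rw [abs_sub_comm] at this
        linarith
      linarith
    rw [abs_div, abs_of_pos hq0, div_le_iff₀ hq0] at h6
    have h8 : |(p : ℝ)| < K := by
      have h9 : (|x| + 1) * (q : ℝ) ≤ (N : ℝ) * (|x| + 1) := by
        rw [mul_comm]
        exact mul_le_mul_of_nonneg_right hqN (by positivity)
      linarith
    have h10 : |p| < (K : ℤ) := by exact_mod_cast h8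
    have h11 := abs_lt.mp h10
    exact ⟨⟨by show -(K : ℤ) ≤ p; omega, by show p ≤ (K : ℤ); omega⟩,
      ⟨by show (0 : ℤ) ≤ q; omega, by show q ≤ N; omega⟩⟩
  have hex : ∃ pq : ℤ × ℤ, (1 ≤ pq.2 ∧ 0 < |x - pq.1 / pq.2| ∧
      |x - pq.1 / pq.2| < 1 / (pq.2 : ℝ) ^ μ) ∧ N ≤ pq.2 := by
    by_contra hno
    push Not at hno
    apply hadm
    apply hfin.subset
    intro pq hpq
    exact ⟨hpq, hno pq hpq⟩
  obtain ⟨⟨p, q⟩, ⟨h1, h2, h3⟩, h4⟩ := hex
  simp only at h1 h2 h3 h4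
  have hq2 : (2 : ℤ) ≤ q := le_trans (le_max_right _ _) h4
  have hqq₀ : (q₀ : ℤ) ≤ q := le_trans (le_max_left _ _) h4
  have hqR : (1 : ℝ) < q := by
    have : (2 : ℝ) ≤ q := by exact_mod_cast hq2
    linarith
  have h5 := hq₀ p q hqq₀
  have h6 : (q : ℝ) ^ (-μ) < (q : ℝ) ^ (-(10 : ℝ) ^ 15) :=
    Real.rpow_lt_rpow_of_exponent_lt hqR (by linarith)
  rw [one_div, ← Real.rpow_neg (by linarith)] at h3
  exact absurd (h3.trans h6) (not_lt.mpr h5)

end Pool.Agent.MPb60633
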