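import Pool.Agent.Lib.MP_b60633_nt.SpecD

/-!
# MP_b60633_nt, G1: Dirichlet (helper11)
-/

set_option autoImplicit false

namespace Pool.Agent.MPb60633

namespace G1

/-- The polynomial with coefficients `c`. -/
noncomputable def pol {D H : ℕ} (c : Fin (D + 1) → Fin (H + 1)) : Polynomial ℤ :=
  ∑ i : Fin (D + 1), Polynomial.monomial (i : ℕ) ((c i : ℕ) : ℤ)

lemma coeff_pol {D H : ℕ} (c : Fin (D + 1) → Fin (H + 1)) (i : Fin (D + 1)) :
    (pol c).coeff i = ((c i : ℕ) : ℤ) := by
  classical
  unfold pol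
  rw [Polynomial.finsetSum_coeff, Finset.sum_eq_single i]
  · rw [Polynomial.coeff_monomial, if_pos rfl]
  · intro j _ hj
    rw [Polynomial.coeff_monomial, if_neg]
    exact fun h => hj (Fin.ext h)
  · intro h
    exact absurd (Finset.mem_univ _) h

lemma coeff_pol_of_lt {D H : ℕ} (c : Fin (D + 1) → Fin (H + 1)) {i : ℕ} (hi : D < i) :
    (pol c).coeff i = 0 := by
  classical
  unfold pol
  rw [Polynomial.finsetSum_coeff]
  apply Finset.sum_eq_zero
  intro j _
  rw [Polynomial.coeff_monomial, if_neg]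
  intro h
  have := j.2
  omega

lemma aeval_pol {D H : ℕ} (c : Fin (D + 1) → Fin (H + 1)) (w : ℝ) :
    Polynomial.aeval w (pol c) = ∑ i : Fin (D + 1), ((c i : ℕ) : ℝ) * w ^ (i : ℕ) := by
  unfold pol
  rw [map_sum]
  apply Finset.sum_congr rfl
  intro i _
  rw [Polynomial.aeval_monomial]
  simp

end G1

open G1 in
/-- Small values of polynomials. -/
theorem t_G1 : S_G1 := by
  classical
  intro w D H hw0 hw4 hH
  set V : (Fin (D + 1) → Fin (H + 1)) → ℝ := fun c => Polynomial.aeval w (pol c) with hV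
  set N : ℕ := (H + 1) ^ (D + 1) - 1 with hN
  set B : ℝ := (H : ℝ) * ((D : ℝ) + 1) * 4 ^ D with hB
  have hH0 : (0 : ℝ) < H := by exact_mod_cast hH
  have hB0 : 0 < B := by positivity
  have hNge : H ^ (D + 1) ≤ N := by
    have h1 : H ^ (D + 1) + 1 ≤ (H + 1) ^ (D + 1) := by
      have h2 : H ^ (D + 1) < (H + 1) ^ (D + 1) := Nat.pow_lt_pow_left (Nat.lt_succ_self H) (by omega)
      omega
    omega
  have hN0 : 0 < N := lt_of_lt_of_le (by positivity) hNge
  have hNR : (0 : ℝ) < N := by exact_mod_cast hN0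
  have hVnn : ∀ c, 0 ≤ V c := by
    intro c
    rw [hV]
    simp only
    rw [aeval_pol]
    positivity
  have hVle : ∀ c, V c ≤ B := by
    intro c
    rw [hV]
    simp only
    rw [aeval_pol]
    have h1 : ∀ i ∈ (Finset.univ : Finset (Fin (D + 1))), ((c i : ℕ) : ℝ) * w ^ (i : ℕ) ≤
        (H : ℝ) * 4 ^ D := by
      intro i _
      have h2 : ((c i : ℕ) : ℝ) ≤ H := by
        have := (c i).2
        exact_mod_cast (by omega : (c i : ℕ) ≤ H)
      have h3 : w ^ (i : ℕ) ≤ 4 ^ D := by
        calc w ^ (i : ℕ) ≤ 4 ^ (i : ℕ) := pow_le_pow_left₀ hw0 hw4 _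
          _ ≤ 4 ^ D := pow_le_pow_right₀ (by norm_num) (by have := i.2; omega)
      exact mul_le_mul h2 h3 (by positivity) hH0.le
    refine (Finset.sum_le_card_nsmul _ _ _ h1).trans (le_of_eq ?_)
    rw [Finset.card_univ, Fintype.card_fin, nsmul_eq_mul, hB]
    push_cast
    ring
  -- the boxes
  set box : (Fin (D + 1) → Fin (H + 1)) → ℕ := fun c => min (N - 1) ⌊V c * N / B⌋₊ with hbox
  have hmaps : ∀ c ∈ (Finset.univ : Finset (Fin (D + 1) → Fin (H + 1))),
      box c ∈ Finset.range N := by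
    intro c _
    rw [Finset.mem_range]
    have : box c ≤ N - 1 := min_le_left _ _
    omega
  have hcard : (Finset.range N).card < (Finset.univ : Finset (Fin (D + 1) → Fin (H + 1))).card := by
    rw [Finset.card_range, Finset.card_univ, Fintype.card_fun, Fintype.card_fin, Fintype.card_fin]
    have : 0 < (H + 1) ^ (D + 1) := by positivity
    omega
  obtain ⟨c, _, c', _, hne, hcc⟩ := Finset.exists_ne_map_eq_of_card_lt_of_maps_to hcard hmaps
  have hdist : |V c - V c'| ≤ B / N := by
    have hx : ∀ c, V c * N / B ≤ N := by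
      intro c
      rw [div_le_iff₀ hB0]
      have := hVle c
      nlinarith
    have hlo : ∀ c, (box c : ℝ) * (B / N) ≤ V c := by
      intro c
      have h1 : (box c : ℝ) ≤ V c * N / B := by
        have h2 : box c ≤ ⌊V c * N / B⌋₊ := min_le_right _ _
        have h3 : ((⌊V c * N / B⌋₊ : ℕ) : ℝ) ≤ V c * N / B :=
          Nat.floor_le (by have := hVnn c; positivity)
        exact le_trans (by exact_mod_cast h2) h3
      calc (box c : ℝ) * (B / N) ≤ V c * N / B * (B / N) := by gcongr
        _ = V c := by field_simp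
    have hhi : ∀ c, V c ≤ ((box c : ℝ) + 1) * (B / N) := by
      intro c
      have h1 : V c * N / B ≤ (box c : ℝ) + 1 := by
        by_cases h : ⌊V c * N / B⌋₊ ≤ N - 1
        · have h2 : box c = ⌊V c * N / B⌋₊ := min_eq_right h
          rw [h2]
          exact (Nat.lt_floor_add_one _).le
        · have h2 : box c = N - 1 := min_eq_left (by omega)
          rw [h2]
          have h3 : ((N - 1 : ℕ) : ℝ) + 1 = N := by
            rw [Nat.cast_sub (by omega)]
            push_cast
            ring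
          rw [h3]
          exact hx c
      calc V c = V c * N / B * (B / N) := by field_simp
        _ ≤ ((box c : ℝ) + 1) * (B / N) := by gcongr
    have h1 := hlo c
    have h2 := hhi c
    have h3 := hlo c'
    have h4 := hhi c'
    have h5 : box c = box c' := hcc
    rw [h5] at h1 h2
    rw [abs_le]
    constructor <;> nlinarith
  refine ⟨pol c - pol c', ?_, ?_, ?_, ?_⟩
  · intro h0
    apply hne
    funext i
    have h1 : (pol c - pol c').coeff i = 0 := by rw [h0, Polynomial.coeff_zero]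
    rw [Polynomial.coeff_sub, coeff_pol, coeff_pol, sub_eq_zero] at h1
    exact Fin.ext (by exact_mod_cast h1)
  · rw [Polynomial.natDegree_le_iff_coeff_eq_zero]
    intro i hi
    rw [Polynomial.coeff_sub, coeff_pol_of_lt c hi, coeff_pol_of_lt c' hi, sub_zero]
  · intro i
    by_cases hi : i < D + 1
    · have h1 := coeff_pol c ⟨i, hi⟩
      have h2 := coeff_pol c' ⟨i, hi⟩
      simp only at h1 h2
      rw [Polynomial.coeff_sub, h1, h2, abs_le]
      have h3 := (c ⟨i, hi⟩).2
      have h4 := (c' ⟨i, hi⟩).2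
      omega
    · rw [Polynomial.coeff_sub, coeff_pol_of_lt c (by omega), coeff_pol_of_lt c' (by omega)]
      simp
  · rw [map_sub]
    refine hdist.trans ?_
    rw [hB, div_le_div_iff₀ hNR (by positivity)]
    have h1 : ((H ^ (D + 1) : ℕ) : ℝ) ≤ (N : ℝ) := by exact_mod_cast hNge
    push_cast at h1
    calc (H : ℝ) * ((D : ℝ) + 1) * 4 ^ D * (H : ℝ) ^ D = ((D : ℝ) + 1) * 4 ^ D * (H : ℝ) ^ (D + 1) := by
          ring
      _ ≤ ((D : ℝ) + 1) * 4 ^ D * N := by gcongr

end Pool.Agent.MPb60633
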