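import Pool.Agent.Lib.MP_b60633_nt.SpecD

/-!
# MP_b60633_nt, G2: an irreducible factor (helper11)
-/

set_option autoImplicit false

namespace Pool.Agent.MPb60633

namespace G2

lemma map_ne_zero' {P : Polynomial ℤ} (hP : P ≠ 0) : P.map (Int.castRingHom ℂ) ≠ 0 :=
  (Polynomial.map_ne_zero_iff (RingHom.injective_int _)).mpr hP

lemma mah_mul (P Q : Polynomial ℤ) : mah (P * Q) = mah P * mah Q := by
  unfold mah
  rw [Polynomial.map_mul, Polynomial.mahlerMeasure_mul]

lemma one_le_mah {P : Polynomial ℤ} (hP : P ≠ 0) : 1 ≤ mah P := by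
  unfold mah
  apply Polynomial.one_le_mahlerMeasure_of_one_le_norm_leadingCoeff
  rw [Polynomial.leadingCoeff_map_of_injective (RingHom.injective_int _)]
  have h1 : P.leadingCoeff ≠ 0 := Polynomial.leadingCoeff_ne_zero.mpr hP
  rw [eq_intCast, Complex.norm_intCast]
  have h2 : (1 : ℤ) ≤ |P.leadingCoeff| := Int.one_le_abs h1
  exact_mod_cast h2

/-- The multiplicative size. -/
noncomputable def Phi (w A B : ℝ) (P : Polynomial ℤ) : ℝ :=
  |Polynomial.aeval w P| * mah P ^ A * Real.exp (B * P.natDegree)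

lemma Phi_mul (w A B : ℝ) {P Q : Polynomial ℤ} (hP : P ≠ 0) (hQ : Q ≠ 0) :
    Phi w A B (P * Q) = Phi w A B P * Phi w A B Q := by
  unfold Phi
  rw [map_mul, abs_mul, mah_mul, Real.mul_rpow (by linarith [one_le_mah hP])
    (by linarith [one_le_mah hQ]), Polynomial.natDegree_mul hP hQ]
  push_cast
  rw [mul_add, Real.exp_add]
  ring

lemma one_le_Phi_C (w A B : ℝ) (hA : 0 ≤ A) {r : ℤ} (hr : r ≠ 0) :
    1 ≤ Phi w A B (Polynomial.C r) := by
  unfold Phi
  have h1 : 1 ≤ |Polynomial.aeval w (Polynomial.C r)| := by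
    rw [Polynomial.aeval_C]
    have h2 : (1 : ℤ) ≤ |r| := Int.one_le_abs hr
    have h3 : (algebraMap ℤ ℝ r) = (r : ℝ) := rfl
    rw [h3]
    exact_mod_cast h2
  have h2 : 1 ≤ mah (Polynomial.C r) ^ A :=
    Real.one_le_rpow (one_le_mah (by simpa using hr)) hA
  rw [Polynomial.natDegree_C]
  simp only [Nat.cast_zero, mul_zero, Real.exp_zero, mul_one]
  nlinarith

lemma one_le_Phi (w A B : ℝ) (hA : 0 ≤ A) (P : Polynomial ℤ) :
    P ≠ 0 → (∀ Q, Irreducible Q → Q ∣ P → 1 ≤ Phi w A B Q) → 1 ≤ Phi w A B P := by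
  induction P using WfDvdMonoid.induction_on_irreducible with
  | zero => intro h; exact absurd rfl h
  | unit u hu =>
    intro _ _
    obtain ⟨r, hr, rfl⟩ := Polynomial.isUnit_iff.mp hu
    exact one_le_Phi_C w A B hA hr.ne_zero
  | mul a i ha hi ih =>
    intro _ hall
    rw [Phi_mul w A B hi.ne_zero ha]
    have h1 := hall i hi (dvd_mul_right _ _)
    have h2 := ih ha (fun Q hQ hQa => hall Q hQ (hQa.mul_left _))
    nlinarith

end G2

open G2 in
/-- An irreducible factor. -/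
theorem t_G2 : S_G2 := by
  intro w A B Y D P hP hdeg hmah hA hB hlt
  have hPhi : Phi w A B P < 1 := by
    refine lt_of_le_of_lt ?_ hlt
    unfold Phi
    have h1 : mah P ^ A ≤ Y ^ A := Real.rpow_le_rpow (by linarith [one_le_mah hP]) hmah hA
    have h2 : Real.exp (B * P.natDegree) ≤ Real.exp (B * D) := by
      apply Real.exp_le_exp.mpr
      apply mul_le_mul_of_nonneg_left _ hB
      exact_mod_cast hdeg
    have h3 : 0 ≤ mah P ^ A := Real.rpow_nonneg (by linarith [one_le_mah hP]) A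
    have h4 : 0 ≤ Y ^ A := h3.trans h1
    have h5 : 0 ≤ |Polynomial.aeval w P| := abs_nonneg _
    gcongr
  have hex : ∃ Q, Irreducible Q ∧ Q ∣ P ∧ Phi w A B Q < 1 := by
    by_contra hcon
    push Not at hcon
    exact absurd hPhi (not_lt.mpr (one_le_Phi w A B hA P hP hcon))
  obtain ⟨Q, hQ, hQP, hQ1⟩ := hex
  refine ⟨Q, hQ, ?_, (Polynomial.natDegree_le_of_dvd hQP hP).trans hdeg, one_le_mah hQ.ne_zero,
    ?_, hQ1⟩
  · by_contra h0
    have h1 : Q.natDegree = 0 := by omega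
    rw [Polynomial.eq_C_of_natDegree_eq_zero h1] at hQ1
    refine absurd hQ1 (not_lt.mpr (one_le_Phi_C w A B hA ?_))
    intro h2
    apply hQ.ne_zero
    rw [Polynomial.eq_C_of_natDegree_eq_zero h1, h2, Polynomial.C_0]
  · obtain ⟨R, rfl⟩ := hQP
    have hR : R ≠ 0 := right_ne_zero_of_mul hP
    rw [mah_mul] at hmah
    have h1 := one_le_mah hR
    have h2 := one_le_mah hQ.ne_zero
    nlinarith

end Pool.Agent.MPb60633
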