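import Pool.Agent.Lib.MP_b60633_nt.SpecD

/-!
# MP_b60633_nt, G3: the nearest root (helper11)
-/

set_option autoImplicit false

namespace Pool.Agent.MPb60633

namespace G3

open Polynomial

lemma one_le_prod_max (t : Finset ℂ) : 1 ≤ ∏ a ∈ t, max 1 ‖a‖ := by
  classical
  induction t using Finset.induction_on with
  | empty => simp
  | insert a t ha ih =>
    rw [Finset.prod_insert ha]
    exact one_le_mul_of_one_le_of_one_le (le_max_left _ _) ih

lemma prod_max_mono {t u : Finset ℂ} (h : t ⊆ u) :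
    ∏ a ∈ t, max 1 ‖a‖ ≤ ∏ a ∈ u, max 1 ‖a‖ := by
  classical
  rw [← Finset.prod_sdiff h]
  have h1 := one_le_prod_max (u \ t)
  have h2 := one_le_prod_max t
  exact le_mul_of_one_le_left (by linarith) h1

/-- The set of complex roots. -/
lemma exists_roots {Q : ℤ[X]} (hQ : Irreducible Q) (hd : 1 ≤ Q.natDegree) :
    ∃ (s : Finset ℂ) (c : ℂ), s.card = Q.natDegree ∧ 1 ≤ ‖c‖ ∧
      Q.map (Int.castRingHom ℂ) = C c * Lagrange.nodal s id ∧
      mah Q = ‖c‖ * ∏ a ∈ s, max 1 ‖a‖ := by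
  classical
  set QC := Q.map (Int.castRingHom ℂ) with hQC
  have hinj : Function.Injective (Int.castRingHom ℂ) := RingHom.injective_int _
  have hprim : Q.IsPrimitive := hQ.isPrimitive (by omega)
  have hQQ : Irreducible (Q.map (Int.castRingHom ℚ)) :=
    (Polynomial.IsPrimitive.Int.irreducible_iff_irreducible_map_cast hprim).mp hQ
  have hsep : (Q.map (Int.castRingHom ℚ)).Separable := hQQ.separable
  have hmapmap : (Q.map (Int.castRingHom ℚ)).map (algebraMap ℚ ℂ) = QC := by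
    rw [Polynomial.map_map]
    congr 1
  have hsepC : QC.Separable := by
    rw [← hmapmap]
    exact hsep.map
  have hnodup : QC.roots.Nodup := Polynomial.nodup_roots hsepC
  have hsplit : QC.Splits := IsAlgClosed.splits QC
  have hcard : QC.roots.card = Q.natDegree := by
    rw [← hsplit.natDegree_eq_card_roots]
    exact Polynomial.natDegree_map_eq_of_injective hinj _
  refine ⟨⟨QC.roots, hnodup⟩, QC.leadingCoeff, hcard, ?_, ?_, ?_⟩
  · rw [hQC, Polynomial.leadingCoeff_map_of_injective hinj, eq_intCast, Complex.norm_intCast]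
    have h1 : Q.leadingCoeff ≠ 0 := Polynomial.leadingCoeff_ne_zero.mpr hQ.ne_zero
    exact_mod_cast Int.one_le_abs h1
  · conv_lhs => rw [hsplit.eq_prod_roots]
    rfl
  · unfold mah
    exact Polynomial.mahlerMeasure_eq_leadingCoeff_mul_prod_roots _

/-- The resultant of `Q` and `Q'`. -/
lemma one_le_res {Q : ℤ[X]} {s : Finset ℂ} {c : ℂ} (hc : 1 ≤ ‖c‖) (hs : s.card = Q.natDegree)
    (hQ : Q.map (Int.castRingHom ℂ) = C c * Lagrange.nodal s id) :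
    1 ≤ ‖c‖ ^ (Q.natDegree - 1) * ∏ a ∈ s, (‖c‖ * ∏ b ∈ s.erase a, ‖a - b‖) := by
  classical
  set QC := Q.map (Int.castRingHom ℂ) with hQC
  have hc0 : c ≠ 0 := by
    intro h
    rw [h, norm_zero] at hc
    linarith
  have hinj : Function.Injective (Int.castRingHom ℂ) := RingHom.injective_int _
  have hsplit : QC.Splits := IsAlgClosed.splits QC
  have hdeg : QC.natDegree = Q.natDegree := Polynomial.natDegree_map_eq_of_injective hinj _
  have hder : ∀ a ∈ s, (derivative QC).eval a = c * ∏ b ∈ s.erase a, (a - b) := by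
    intro a ha
    rw [hQ, Polynomial.derivative_C_mul, Polynomial.eval_C_mul]
    have h1 := Lagrange.eval_nodal_derivative_eval_node_eq (v := (id : ℂ → ℂ)) ha
    simp only [id] at h1
    rw [h1, Lagrange.eval_nodal]
    rfl
  have hres := Polynomial.resultant_eq_prod_eval QC (derivative QC) (Q.natDegree - 1)
    ((Polynomial.natDegree_derivative_le _).trans (by rw [hdeg])) hsplit
  have hroots : QC.roots = s.val := by
    rw [hQ, Polynomial.roots_C_mul _ hc0, Lagrange.nodal_eq]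
    exact Polynomial.roots_prod_X_sub_C s
  have hlc : QC.leadingCoeff = c := by
    rw [hQ, Polynomial.leadingCoeff_mul, Polynomial.leadingCoeff_C]
    have : (Lagrange.nodal s (id : ℂ → ℂ)).Monic := Lagrange.nodal_monic
    rw [this.leadingCoeff, mul_one]
  have hresmap : QC.resultant (derivative QC) QC.natDegree (Q.natDegree - 1) =
      ((Q.resultant (derivative Q) Q.natDegree (Q.natDegree - 1) : ℤ) : ℂ) := by
    rw [hdeg, hQC, Polynomial.derivative_map, Polynomial.resultant_map_map]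
    rfl
  have hval : QC.resultant (derivative QC) QC.natDegree (Q.natDegree - 1) =
      c ^ (Q.natDegree - 1) * ∏ a ∈ s, (c * ∏ b ∈ s.erase a, (a - b)) := by
    rw [hres, hlc, hroots]
    congr 1
    exact Finset.prod_congr rfl hder
  have hne : QC.resultant (derivative QC) QC.natDegree (Q.natDegree - 1) ≠ 0 := by
    rw [hval]
    apply mul_ne_zero (pow_ne_zero _ hc0)
    rw [Finset.prod_ne_zero_iff]
    intro a _
    apply mul_ne_zero hc0
    rw [Finset.prod_ne_zero_iff]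
    intro b hb
    rw [sub_ne_zero]
    exact (Finset.ne_of_mem_erase hb).symm
  have h1 : 1 ≤ ‖QC.resultant (derivative QC) QC.natDegree (Q.natDegree - 1)‖ := by
    rw [hresmap] at hne ⊢
    rw [Complex.norm_intCast]
    have h1 : (Q.resultant (derivative Q) Q.natDegree (Q.natDegree - 1) : ℤ) ≠ 0 := by
      exact_mod_cast hne
    exact_mod_cast Int.one_le_abs h1
  rw [hval, norm_mul, norm_pow, norm_prod] at h1
  refine h1.trans (le_of_eq ?_)
  congr 1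
  apply Finset.prod_congr rfl
  intro a _
  rw [norm_mul, norm_prod]

/-- Products of pairs, `S'` the set of the roots which are not among the two nearest. -/
lemma pairs {x : ℂ} {s : Finset ℂ} {a1 a2 : ℂ} (h1 : a1 ∈ s) (h2 : a2 ∈ s.erase a1)
    (hmin1 : ∀ a ∈ s, ‖x - a1‖ ≤ ‖x - a‖) (hmin2 : ∀ a ∈ s.erase a1, ‖x - a2‖ ≤ ‖x - a‖) :
    ∏ a ∈ s, ∏ b ∈ s.erase a, ‖a - b‖ ≤
      2 ^ (2 + 4 * (s.card - 2) + (s.card - 2) * (s.card - 3)) * ‖x - a2‖ ^ 2 *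
      (∏ b ∈ (s.erase a1).erase a2, ‖x - b‖) ^ 4 *
      (∏ b ∈ (s.erase a1).erase a2, max 1 ‖b‖) ^ ((s.card - 3) + (s.card - 2)) := by
  classical
  set S := (s.erase a1).erase a2 with hS
  have hScard : S.card = s.card - 2 := by
    rw [hS, Finset.card_erase_of_mem h2, Finset.card_erase_of_mem h1]
    omega
  have hne : a2 ≠ a1 := Finset.ne_of_mem_erase h2
  have h2s : a2 ∈ s := Finset.mem_of_mem_erase h2
  have hdist : ∀ a b : ℂ, ‖x - a‖ ≤ ‖x - b‖ → ‖a - b‖ ≤ 2 * ‖x - b‖ := by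
    intro a b hab
    calc ‖a - b‖ = ‖(x - b) - (x - a)‖ := by congr 1; ring
      _ ≤ ‖x - b‖ + ‖x - a‖ := norm_sub_le _ _
      _ ≤ 2 * ‖x - b‖ := by linarith
  set Δ := ∏ b ∈ S, ‖x - b‖ with hΔ
  set Mx := ∏ b ∈ S, max 1 ‖b‖ with hMx
  have hΔ0 : 0 ≤ Δ := Finset.prod_nonneg fun _ _ => norm_nonneg _
  have hMx1 : 1 ≤ Mx := by
    rw [hMx]
    exact one_le_prod_max _
  -- membership
  have hmemS : ∀ b ∈ S, b ∈ s ∧ b ≠ a1 ∧ b ≠ a2 := by
    intro b hb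
    have h3 := Finset.mem_erase.mp hb
    have h4 := Finset.mem_erase.mp h3.2
    exact ⟨h4.2, h4.1, h3.1⟩
  have hd1 : ∀ b ∈ S, ‖a1 - b‖ ≤ 2 * ‖x - b‖ := fun b hb => hdist _ _ (hmin1 b (hmemS b hb).1)
  have hd2 : ∀ b ∈ S, ‖a2 - b‖ ≤ 2 * ‖x - b‖ := fun b hb => hdist _ _ (hmin2 b
    (Finset.mem_erase.mpr ⟨(hmemS b hb).2.1, (hmemS b hb).1⟩))
  have hd12 : ‖a1 - a2‖ ≤ 2 * ‖x - a2‖ := hdist _ _ (hmin1 a2 h2s)
  have hprod2 : ∏ b ∈ S, (2 * ‖x - b‖) = 2 ^ (s.card - 2) * Δ := by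
    rw [Finset.prod_mul_distrib, Finset.prod_const, hScard]
  -- the rows of a1, a2
  have hr1 : ∏ b ∈ s.erase a1, ‖a1 - b‖ ≤ 2 * ‖x - a2‖ * (2 ^ (s.card - 2) * Δ) := by
    rw [← Finset.mul_prod_erase _ _ h2, ← hprod2]
    exact mul_le_mul hd12 (Finset.prod_le_prod (fun _ _ => norm_nonneg _) hd1)
      (Finset.prod_nonneg fun _ _ => norm_nonneg _) (by positivity)
  have hcomm : (s.erase a2).erase a1 = S := by
    rw [hS]
    exact Finset.erase_right_comm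
  have hr2 : ∏ b ∈ s.erase a2, ‖a2 - b‖ ≤ 2 * ‖x - a2‖ * (2 ^ (s.card - 2) * Δ) := by
    rw [← Finset.mul_prod_erase _ _ (Finset.mem_erase.mpr ⟨hne.symm, h1⟩ : a1 ∈ s.erase a2), hcomm,
      ← hprod2, norm_sub_rev a2 a1]
    exact mul_le_mul hd12 (Finset.prod_le_prod (fun _ _ => norm_nonneg _) hd2)
      (Finset.prod_nonneg fun _ _ => norm_nonneg _) (by positivity)
  -- the other rows
  have hr3 : ∀ a ∈ S, ∏ b ∈ s.erase a, ‖a - b‖ ≤
      (2 * ‖x - a‖) ^ 2 * (2 ^ (s.card - 3) * max 1 ‖a‖ ^ (s.card - 3) * Mx) := by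
    intro a ha
    obtain ⟨has, ha1, ha2⟩ := hmemS a ha
    have m1 : a1 ∈ s.erase a := Finset.mem_erase.mpr ⟨ha1.symm, h1⟩
    have m2 : a2 ∈ (s.erase a).erase a1 := Finset.mem_erase.mpr ⟨hne, Finset.mem_erase.mpr
      ⟨ha2.symm, h2s⟩⟩
    rw [← Finset.mul_prod_erase _ _ m1, ← Finset.mul_prod_erase _ _ m2]
    have e1 : ((s.erase a).erase a1).erase a2 = S.erase a := by
      ext b
      simp only [Finset.mem_erase, hS]
      tauto
    rw [e1]
    have t1 : ‖a - a1‖ ≤ 2 * ‖x - a‖ := by rw [norm_sub_rev]; exact hd1 a ha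
    have t2 : ‖a - a2‖ ≤ 2 * ‖x - a‖ := by rw [norm_sub_rev]; exact hd2 a ha
    have t3 : ∏ b ∈ S.erase a, ‖a - b‖ ≤ 2 ^ (s.card - 3) * max 1 ‖a‖ ^ (s.card - 3) * Mx := by
      have t4 : ∀ b ∈ S.erase a, ‖a - b‖ ≤ 2 * max 1 ‖a‖ * max 1 ‖b‖ := by
        intro b _
        have u1 : 1 ≤ max 1 ‖a‖ := le_max_left _ _
        have u2 : 1 ≤ max 1 ‖b‖ := le_max_left _ _
        have u3 : ‖a‖ ≤ max 1 ‖a‖ := le_max_right _ _
        have u4 : ‖b‖ ≤ max 1 ‖b‖ := le_max_right _ _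
        calc ‖a - b‖ ≤ ‖a‖ + ‖b‖ := norm_sub_le _ _
          _ ≤ max 1 ‖a‖ + max 1 ‖b‖ := by linarith
          _ ≤ 2 * max 1 ‖a‖ * max 1 ‖b‖ := by nlinarith
      refine (Finset.prod_le_prod (fun _ _ => norm_nonneg _) t4).trans ?_
      rw [Finset.prod_mul_distrib, Finset.prod_const, Finset.card_erase_of_mem ha, hScard,
        show s.card - 2 - 1 = s.card - 3 from by omega, mul_pow]
      apply mul_le_mul_of_nonneg_left _ (by positivity)
      rw [hMx]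
      exact prod_max_mono (Finset.erase_subset _ _)
    calc ‖a - a1‖ * (‖a - a2‖ * ∏ b ∈ S.erase a, ‖a - b‖)
        ≤ (2 * ‖x - a‖) * ((2 * ‖x - a‖) * (2 ^ (s.card - 3) * max 1 ‖a‖ ^ (s.card - 3) * Mx)) := by
          apply mul_le_mul t1 _ (mul_nonneg (norm_nonneg _)
            (Finset.prod_nonneg fun _ _ => norm_nonneg _)) (by positivity)
          exact mul_le_mul t2 t3 (Finset.prod_nonneg fun _ _ => norm_nonneg _) (by positivity)
      _ = _ := by ring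
  -- multiply
  have hsplit : ∏ a ∈ s, ∏ b ∈ s.erase a, ‖a - b‖ = (∏ b ∈ s.erase a1, ‖a1 - b‖) *
      ((∏ b ∈ s.erase a2, ‖a2 - b‖) * ∏ a ∈ S, ∏ b ∈ s.erase a, ‖a - b‖) := by
    rw [← Finset.mul_prod_erase s _ h1]
    congr 1
    rw [← Finset.mul_prod_erase (s.erase a1) _ h2]
  have hr4 : ∏ a ∈ S, ∏ b ∈ s.erase a, ‖a - b‖ ≤
      (4 ^ (s.card - 2) * Δ ^ 2) * (2 ^ ((s.card - 3) * (s.card - 2)) * Mx ^ (s.card - 3) *
        Mx ^ (s.card - 2)) := by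
    refine (Finset.prod_le_prod (fun _ _ => Finset.prod_nonneg fun _ _ => norm_nonneg _)
      hr3).trans (le_of_eq ?_)
    rw [Finset.prod_mul_distrib, Finset.prod_mul_distrib, Finset.prod_mul_distrib,
      Finset.prod_const, Finset.prod_const, hScard, Finset.prod_pow, Finset.prod_pow,
      Finset.prod_mul_distrib, Finset.prod_const, hScard, ← hΔ, ← hMx, mul_pow, ← pow_mul,
      ← pow_mul]
    have : (4 : ℝ) ^ (s.card - 2) = 2 ^ ((s.card - 2) * 2) := by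
      rw [mul_comm, pow_mul]; norm_num
    rw [this]
  rw [hsplit]
  have hnn : 0 ≤ ∏ a ∈ S, ∏ b ∈ s.erase a, ‖a - b‖ :=
    Finset.prod_nonneg fun _ _ => Finset.prod_nonneg fun _ _ => norm_nonneg _
  have hnn2 : 0 ≤ ∏ b ∈ s.erase a2, ‖a2 - b‖ := Finset.prod_nonneg fun _ _ => norm_nonneg _
  calc (∏ b ∈ s.erase a1, ‖a1 - b‖) * ((∏ b ∈ s.erase a2, ‖a2 - b‖) *
        ∏ a ∈ S, ∏ b ∈ s.erase a, ‖a - b‖)
      ≤ (2 * ‖x - a2‖ * (2 ^ (s.card - 2) * Δ)) * ((2 * ‖x - a2‖ * (2 ^ (s.card - 2) * Δ)) *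
        ((4 ^ (s.card - 2) * Δ ^ 2) * (2 ^ ((s.card - 3) * (s.card - 2)) * Mx ^ (s.card - 3) *
        Mx ^ (s.card - 2)))) := by
        apply mul_le_mul hr1 _ (mul_nonneg hnn2 hnn) (by positivity)
        exact mul_le_mul hr2 hr4 hnn (by positivity)
    _ = 2 ^ (2 + 4 * (s.card - 2) + (s.card - 2) * (s.card - 3)) * ‖x - a2‖ ^ 2 * Δ ^ 4 *
        Mx ^ ((s.card - 3) + (s.card - 2)) := by
        have e4 : (4 : ℝ) ^ (s.card - 2) = 2 ^ (s.card - 2) * 2 ^ (s.card - 2) := by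
          rw [← mul_pow]; norm_num
        rw [e4, pow_add, pow_add, pow_add, mul_comm (s.card - 3) (s.card - 2)]
        ring

end G3

open G3 in
/-- The nearest root. -/
theorem t_G3 : S_G3 := by
  classical
  intro Q x hQ hd hle
  obtain ⟨s, c, hs, hc, hQC, hmah⟩ := exists_roots hQ hd
  have hval : ∀ y : ℂ, Polynomial.aeval y Q = c * ∏ a ∈ s, (y - a) := by
    intro y
    have h1 : (Q.map (Int.castRingHom ℂ)).eval y = Polynomial.aeval y Q := by
      rw [Polynomial.eval_map, Polynomial.aeval_def]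
      rfl
    rw [← h1, hQC, Polynomial.eval_C_mul, Lagrange.eval_nodal]
    rfl
  have hnorm : ‖Polynomial.aeval x Q‖ = ‖c‖ * ∏ a ∈ s, ‖x - a‖ := by
    rw [hval, norm_mul, norm_prod]
  have hne : s.Nonempty := by
    rw [← Finset.card_pos]
    omega
  obtain ⟨a1, h1, hmin1⟩ := Finset.exists_min_image s (fun a => ‖x - a‖) hne
  have hroot : Polynomial.aeval a1 Q = 0 := by
    rw [hval, Finset.prod_eq_zero h1 (sub_self _), mul_zero]
  refine ⟨a1, hroot, ?_⟩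
  set d := Q.natDegree with hdd
  have hM1 : ∀ t : Finset ℂ, 1 ≤ ∏ a ∈ t, max 1 ‖a‖ := one_le_prod_max
  have hmah1 : 1 ≤ mah Q := by
    rw [hmah]
    exact one_le_mul_of_one_le_of_one_le hc (hM1 s)
  set N := ‖Polynomial.aeval x Q‖ with hN
  have hN0 : 0 ≤ N := norm_nonneg _
  by_cases hd1 : d = 1
  · -- degree one
    have h2 : s = {a1} := by
      obtain ⟨b, hb⟩ := Finset.card_eq_one.mp (hs.trans hd1)
      rw [hb] at h1 ⊢
      rw [Finset.mem_singleton.mp h1]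
    have h3 : ‖x - a1‖ ≤ N := by
      rw [hnorm, h2, Finset.prod_singleton]
      exact le_mul_of_one_le_left (norm_nonneg _) hc
    have h4 : ‖x - a1‖ ^ 6 ≤ N ^ 4 := by
      calc ‖x - a1‖ ^ 6 ≤ N ^ 6 := pow_le_pow_left₀ (norm_nonneg _) h3 6
        _ ≤ N ^ 4 := pow_le_pow_of_le_one hN0 hle (by norm_num)
    have h5 : (1 : ℝ) ≤ 2 ^ ((d + 2) ^ 2) := one_le_pow₀ (by norm_num)
    have h6 : 1 ≤ mah Q ^ (2 * d) := one_le_pow₀ hmah1
    calc ‖x - a1‖ ^ 6 ≤ 1 * N ^ 4 * 1 := by linarith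
      _ ≤ 2 ^ ((d + 2) ^ 2) * N ^ 4 * mah Q ^ (2 * d) := by gcongr
  · have hd2 : 2 ≤ d := by omega
    have hne2 : (s.erase a1).Nonempty := by
      rw [← Finset.card_pos, Finset.card_erase_of_mem h1]
      omega
    obtain ⟨a2, h2, hmin2⟩ := Finset.exists_min_image (s.erase a1) (fun a => ‖x - a‖) hne2
    have hres := one_le_res hc hs hQC
    have hpairs := pairs h1 h2 hmin1 hmin2
    rw [hs] at hpairs
    set S := (s.erase a1).erase a2 with hS
    set Δ := ∏ b ∈ S, ‖x - b‖ with hΔ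
    set Mx := ∏ b ∈ S, max 1 ‖b‖ with hMx
    have hΔ0 : 0 ≤ Δ := Finset.prod_nonneg fun _ _ => norm_nonneg _
    have hMx1 : 1 ≤ Mx := hM1 S
    have hNval : N = ‖c‖ * (‖x - a1‖ * (‖x - a2‖ * Δ)) := by
      rw [hnorm, ← Finset.mul_prod_erase s _ h1, ← Finset.mul_prod_erase (s.erase a1) _ h2]
    have hcMx : ‖c‖ * Mx ≤ mah Q := by
      rw [hmah]
      apply mul_le_mul_of_nonneg_left _ (by positivity)
      exact prod_max_mono ((Finset.erase_subset _ _).trans (Finset.erase_subset _ _))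
    rw [Finset.prod_mul_distrib, Finset.prod_const, hs] at hres
    set Pr := ∏ a ∈ s, ∏ b ∈ s.erase a, ‖a - b‖ with hPr
    have hPr0 : 0 ≤ Pr := Finset.prod_nonneg fun _ _ => Finset.prod_nonneg fun _ _ => norm_nonneg _
    set e := 2 + 4 * (d - 2) + (d - 2) * (d - 3) with he
    have hc0 : 0 ≤ ‖c‖ := norm_nonneg _
    have hkey : 1 ≤ ‖c‖ ^ (d - 1) * (‖c‖ ^ d *
        (2 ^ e * ‖x - a2‖ ^ 2 * Δ ^ 4 * Mx ^ ((d - 3) + (d - 2)))) := by
      refine hres.trans ?_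
      gcongr
    have hcpow : ‖c‖ ^ (d - 1) * ‖c‖ ^ d ≤ ‖c‖ ^ 4 * ‖c‖ ^ ((d - 3) + (d - 2)) := by
      rw [← pow_add, ← pow_add]
      exact pow_le_pow_right₀ hc (by omega)
    have h12 : ‖x - a1‖ ≤ ‖x - a2‖ := hmin1 a2 (Finset.mem_of_mem_erase h2)
    set δ1 := ‖x - a1‖ with hδ1
    set δ2 := ‖x - a2‖ with hδ2
    have hδ10 : 0 ≤ δ1 := norm_nonneg _
    have hδ20 : 0 ≤ δ2 := norm_nonneg _
    have hfin1 : δ1 ^ 6 ≤ δ1 ^ 4 * δ2 ^ 2 := by
      calc δ1 ^ 6 = δ1 ^ 4 * δ1 ^ 2 := by ring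
        _ ≤ δ1 ^ 4 * δ2 ^ 2 := by gcongr
    have hfin2 : δ1 ^ 4 * δ2 ^ 2 ≤ 2 ^ e * N ^ 4 * (‖c‖ * Mx) ^ ((d - 3) + (d - 2)) := by
      calc δ1 ^ 4 * δ2 ^ 2 = δ1 ^ 4 * δ2 ^ 2 * 1 := by ring
        _ ≤ δ1 ^ 4 * δ2 ^ 2 * (‖c‖ ^ (d - 1) * (‖c‖ ^ d *
            (2 ^ e * δ2 ^ 2 * Δ ^ 4 * Mx ^ ((d - 3) + (d - 2))))) := by gcongr
        _ = (‖c‖ ^ (d - 1) * ‖c‖ ^ d) * (2 ^ e * (δ1 * (δ2 * Δ)) ^ 4 * Mx ^ ((d - 3) + (d - 2))) := by
            ring
        _ ≤ (‖c‖ ^ 4 * ‖c‖ ^ ((d - 3) + (d - 2))) *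
            (2 ^ e * (δ1 * (δ2 * Δ)) ^ 4 * Mx ^ ((d - 3) + (d - 2))) := by gcongr
        _ = 2 ^ e * N ^ 4 * (‖c‖ * Mx) ^ ((d - 3) + (d - 2)) := by
            rw [hNval]
            ring
    have he2 : e ≤ (d + 2) ^ 2 := by
      rw [he]
      have u1 : d - 2 ≤ d := by omega
      have u2 : d - 3 ≤ d := by omega
      have u3 : (d - 2) * (d - 3) ≤ d * d := Nat.mul_le_mul u1 u2
      have u4 : (d + 2) ^ 2 = d * d + 4 * d + 4 := by ring
      omega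
    have hfin3 : (‖c‖ * Mx) ^ ((d - 3) + (d - 2)) ≤ mah Q ^ (2 * d) := by
      calc (‖c‖ * Mx) ^ ((d - 3) + (d - 2)) ≤ mah Q ^ ((d - 3) + (d - 2)) := by gcongr
        _ ≤ mah Q ^ (2 * d) := pow_le_pow_right₀ hmah1 (by omega)
    calc δ1 ^ 6 ≤ δ1 ^ 4 * δ2 ^ 2 := hfin1
      _ ≤ 2 ^ e * N ^ 4 * (‖c‖ * Mx) ^ ((d - 3) + (d - 2)) := hfin2
      _ ≤ 2 ^ ((d + 2) ^ 2) * N ^ 4 * mah Q ^ (2 * d) := by
          gcongr
          norm_num

end Pool.Agent.MPb60633
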