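import Pool.Agent.Lib.MP_b60633_nt.SpecD

/-!
# MP_b60633_nt, G4: algebraic approximation (helper11)
-/

set_option autoImplicit false

namespace Pool.Agent.MPb60633

namespace G4

lemma mah_le {P : Polynomial ℤ} {D : ℕ} {H : ℝ} (hH : 0 ≤ H) (hdeg : P.natDegree ≤ D)
    (hc : ∀ i, |(P.coeff i : ℝ)| ≤ H) : mah P ≤ ((D : ℝ) + 1) * H := by
  unfold mah
  refine (Polynomial.mahlerMeasure_le_sum_norm_coeff _).trans ?_
  rw [Polynomial.sum_over_range' _ (fun n => norm_zero) (D + 1)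
    (Nat.lt_succ_of_le (Polynomial.natDegree_map_le.trans hdeg))]
  have h1 : ∀ i ∈ Finset.range (D + 1), ‖(P.map (Int.castRingHom ℂ)).coeff i‖ ≤ H := by
    intro i _
    rw [Polynomial.coeff_map, eq_intCast, Complex.norm_intCast]
    exact hc i
  refine (Finset.sum_le_card_nsmul _ _ _ h1).trans (le_of_eq ?_)
  rw [Finset.card_range, nsmul_eq_mul]
  push_cast
  ring

end G4

open G4 in
/-- Algebraic approximation. -/
theorem t_G4 (hG1 : S_G1) (hG2 : S_G2) (hG3 : S_G3) : S_G4 := by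
  intro w D hw0 hw4 hD
  have hDR : (1 : ℝ) ≤ D := by exact_mod_cast hD
  set A : ℝ := 87 / 100 * D with hA
  have hA0 : 0 ≤ A := by rw [hA]; positivity
  set C : ℝ := ((D : ℝ) + 1) * 8 ^ D * ((D : ℝ) + 1) ^ A with hC
  have hC0 : 0 < C := by rw [hC]; positivity
  refine ⟨max 1 (1000 * Real.log C + 1), ((D : ℝ) + 2) ^ 2 * Real.log 2 / 6, ?_⟩
  intro x hx
  have hx1 : 1 ≤ x := le_trans (le_max_left _ _) hx
  have hx2 : 1000 * Real.log C + 1 ≤ x := le_trans (le_max_right _ _) hx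
  have he2 : 2 ≤ Real.exp x := by
    have h1 : Real.exp 1 ≤ Real.exp x := Real.exp_le_exp.mpr hx1
    linarith [Real.exp_one_gt_d9]
  set H : ℕ := ⌊Real.exp x⌋₊ with hH
  have hHle : (H : ℝ) ≤ Real.exp x := Nat.floor_le (Real.exp_pos _).le
  have hHge : Real.exp x / 2 ≤ H := by
    have := Nat.lt_floor_add_one (Real.exp x)
    rw [← hH] at this
    linarith
  have hH1 : 1 ≤ H := by
    rw [hH]
    exact Nat.le_floor (by push_cast; linarith)
  obtain ⟨P, hP0, hPdeg, hPc, hPw⟩ := hG1 w D H hw0 hw4 hH1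
  have hPc' : ∀ i, |(P.coeff i : ℝ)| ≤ H := by
    intro i
    exact_mod_cast hPc i
  have hmahP : mah P ≤ ((D : ℝ) + 1) * Real.exp x :=
    (mah_le (Nat.cast_nonneg H) hPdeg hPc').trans (by gcongr)
  have hPw2 : |Polynomial.aeval w P| ≤ ((D : ℝ) + 1) * 8 ^ D * Real.exp (-(D * x)) := by
    refine hPw.trans ?_
    rw [div_le_iff₀ (by positivity)]
    have h1 : (Real.exp x / 2) ^ D ≤ (H : ℝ) ^ D := pow_le_pow_left₀ (by positivity) hHge D
    have h2 : ((D : ℝ) + 1) * 8 ^ D * Real.exp (-(D * x)) * (Real.exp x / 2) ^ D =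
        ((D : ℝ) + 1) * 4 ^ D := by
      rw [div_pow, ← Real.exp_nat_mul, Real.exp_neg]
      have h3 : (8 : ℝ) ^ D = 4 ^ D * 2 ^ D := by rw [← mul_pow]; norm_num
      rw [h3]
      field_simp
    calc ((D : ℝ) + 1) * 4 ^ D = ((D : ℝ) + 1) * 8 ^ D * Real.exp (-(D * x)) *
          (Real.exp x / 2) ^ D := h2.symm
      _ ≤ ((D : ℝ) + 1) * 8 ^ D * Real.exp (-(D * x)) * (H : ℝ) ^ D := by gcongr
  have hlt : |Polynomial.aeval w P| * (((D : ℝ) + 1) * Real.exp x) ^ A *
      Real.exp (129 / 1000 * x * D) < 1 := by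
    have h1 : (((D : ℝ) + 1) * Real.exp x) ^ A = ((D : ℝ) + 1) ^ A * Real.exp (x * A) := by
      rw [Real.mul_rpow (by positivity) (Real.exp_pos _).le, ← Real.exp_mul]
    have h2 : |Polynomial.aeval w P| * (((D : ℝ) + 1) * Real.exp x) ^ A *
        Real.exp (129 / 1000 * x * D) ≤ C * Real.exp (-(D * x) / 1000) := by
      rw [h1]
      calc |Polynomial.aeval w P| * (((D : ℝ) + 1) ^ A * Real.exp (x * A)) *
            Real.exp (129 / 1000 * x * D)
          ≤ (((D : ℝ) + 1) * 8 ^ D * Real.exp (-(D * x))) * (((D : ℝ) + 1) ^ A *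
            Real.exp (x * A)) * Real.exp (129 / 1000 * x * D) := by gcongr
        _ = C * (Real.exp (-(D * x)) * Real.exp (x * A) * Real.exp (129 / 1000 * x * D)) := by
            rw [hC]; ring
        _ = C * Real.exp (-(D * x) / 1000) := by
            rw [← Real.exp_add, ← Real.exp_add, hA]
            congr 2
            ring
    refine lt_of_le_of_lt h2 ?_
    have h3 : C * Real.exp (-(D * x) / 1000) = Real.exp (Real.log C + -(D * x) / 1000) := by
      rw [Real.exp_add, Real.exp_log hC0]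
    rw [h3, Real.exp_lt_one_iff]
    have h4 : x ≤ D * x := by nlinarith
    linarith
  obtain ⟨Q, hQ, hd1, hdD, hm1, hm2, hQw⟩ := hG2 w A (129 / 1000 * x) (((D : ℝ) + 1) * Real.exp x)
    D P hP0 hPdeg hmahP hA0 (by positivity) hlt
  set d : ℕ := Q.natDegree with hd
  have hdR : (d : ℝ) ≤ D := by exact_mod_cast hdD
  set m : ℝ := Real.log (mah Q) with hm
  have hm0 : 0 ≤ m := Real.log_nonneg hm1
  have hmpos : 0 < mah Q := by linarith
  have hmexp : mah Q = Real.exp m := (Real.exp_log hmpos).symm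
  have hQw2 : |Polynomial.aeval w Q| ≤ Real.exp (-(A * m) - 129 / 1000 * x * d) := by
    have h1 : mah Q ^ A = Real.exp (A * m) := by
      rw [hmexp, ← Real.exp_mul]
      ring_nf
    rw [h1, mul_assoc, ← Real.exp_add] at hQw
    have h2 : Real.exp (-(A * m) - 129 / 1000 * x * d) * Real.exp (A * m + 129 / 1000 * x * d) = 1 := by
      rw [← Real.exp_add]
      ring_nf
      exact Real.exp_zero
    have h3 : 0 < Real.exp (A * m + 129 / 1000 * x * d) := Real.exp_pos _
    by_contra hcon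
    push Not at hcon
    have h4 := mul_lt_mul_of_pos_right hcon h3
    rw [h2] at h4
    linarith
  have hnormQ : ‖Polynomial.aeval (w : ℂ) Q‖ = |Polynomial.aeval w Q| := by
    have h1 : Polynomial.aeval (w : ℂ) Q = ((Polynomial.aeval w Q : ℝ) : ℂ) := by
      have := Polynomial.aeval_algebraMap_apply ℂ w Q
      simpa using this
    rw [h1, Complex.norm_real, Real.norm_eq_abs]
  have hQle1 : ‖Polynomial.aeval (w : ℂ) Q‖ ≤ 1 := by
    rw [hnormQ]
    refine hQw2.trans ?_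
    rw [Real.exp_le_one_iff]
    have h1 : 0 ≤ A * m := by positivity
    have h2 : 0 ≤ 129 / 1000 * x * (d : ℝ) := by positivity
    linarith
  obtain ⟨α, hα0, hα⟩ := hG3 Q (w : ℂ) hQ hd1 hQle1
  refine ⟨Q, α, hQ, hd1, hdD, hα0, hm1, hm2, ?_⟩
  set E : ℝ := ((D : ℝ) + 2) ^ 2 * Real.log 2 / 6 - 37 / 150 * D * m - 43 / 500 * x * d with hE
  have h6 : ‖(w : ℂ) - α‖ ^ 6 ≤ Real.exp E ^ 6 := by
    refine hα.trans ?_
    rw [hnormQ, ← hd, hmexp]
    have h1 : |Polynomial.aeval w Q| ^ 4 ≤ Real.exp (-(A * m) - 129 / 1000 * x * d) ^ 4 :=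
      pow_le_pow_left₀ (abs_nonneg _) hQw2 4
    have h2 : (2 : ℝ) ^ ((d + 2) ^ 2) ≤ 2 ^ ((D + 2) ^ 2) :=
      pow_le_pow_right₀ (by norm_num) (Nat.pow_le_pow_left (by omega) 2)
    have h3 : (2 : ℝ) ^ ((D + 2) ^ 2) = Real.exp (((D : ℝ) + 2) ^ 2 * Real.log 2) := by
      rw [← Real.rpow_natCast, Real.rpow_def_of_pos (by norm_num)]
      push_cast
      ring_nf
    calc (2 : ℝ) ^ ((d + 2) ^ 2) * |Polynomial.aeval w Q| ^ 4 * Real.exp m ^ (2 * d)
        ≤ Real.exp (((D : ℝ) + 2) ^ 2 * Real.log 2) *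
          Real.exp (-(A * m) - 129 / 1000 * x * d) ^ 4 * Real.exp m ^ (2 * d) := by
          rw [← h3]
          gcongr
      _ = Real.exp (((D : ℝ) + 2) ^ 2 * Real.log 2 + 4 * (-(A * m) - 129 / 1000 * x * d) +
          (2 * d) * m) := by
          rw [← Real.exp_nat_mul, ← Real.exp_nat_mul, ← Real.exp_add, ← Real.exp_add]
          push_cast
          ring_nf
      _ ≤ Real.exp (6 * E) := by
          apply Real.exp_le_exp.mpr
          have h4 : (d : ℝ) * m ≤ D * m := mul_le_mul_of_nonneg_right hdR hm0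
          rw [hE, hA]
          nlinarith
      _ = Real.exp E ^ 6 := by
          rw [← Real.exp_nat_mul]
          norm_num
  exact le_of_pow_le_pow_left₀ (by norm_num) (Real.exp_pos _).le h6

end Pool.Agent.MPb60633
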