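import Pool.Agent.Lib.MP_b60633_nt.SpecD

/-!
# MP_b60633_nt, S10: bounds for the coefficients
-/

set_option autoImplicit false

namespace Pool.Agent.MPb60633

open Complex PowerSeries Pool.Agent.Lib.Ribet4b482e

namespace S10

theorem Bd_mono (f : PowerSeries ℂ) (r A B : ℝ) (h : Bd f r A) (hAB : A ≤ B) : Bd f r B :=
  fun N => (h N).trans hAB

theorem n2 : (2 : PowerSeries ℂ) = PowerSeries.C 2 := (map_ofNat PowerSeries.C 2).symm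

theorem n4 : (4 : PowerSeries ℂ) = PowerSeries.C 4 := (map_ofNat PowerSeries.C 4).symm

theorem Bd_one (h2 : S_S2) (r : ℝ) (hr : 0 ≤ r) : Bd 1 r 1 := by
  have h := (h2 r hr).2.2.2.1 1
  simpa using h

theorem Bd_Z (h2 : S_S2) (r B : ℝ) (hr : 0 ≤ r) (hB : Bd ZC r B) : Bd (1 + 2 * ZC) r (1 + 2 * B) := by
  have a := (h2 r hr).2.1 _ _ _ _ ((h2 r hr).2.2.2.1 2) hB
  have c2 : ‖(2 : ℂ)‖ = 2 := by simp
  rw [c2, ← n2] at a
  exact (h2 r hr).1 _ _ _ _ (Bd_one h2 r hr) a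

theorem Bd_4X (h2 : S_S2) (r : ℝ) (hr : 0 ≤ r) : Bd (4 * PowerSeries.X) r (4 * r) := by
  have a := (h2 r hr).2.1 _ _ _ _ ((h2 r hr).2.2.2.1 4) ((h2 r hr).2.2.2.2.1)
  have c4 : ‖(4 : ℂ)‖ = 4 := by simp
  rw [c4, ← n4] at a
  exact a

theorem tail4 (h2 : S_S2) (h3 : S_S3) (k e : ℕ) :
    Bd ((1 + 2 * ZC) ^ k * (4 * PowerSeries.X) ^ e) (1 / 4) (2 ^ k) := by
  have hr : (0 : ℝ) ≤ 1 / 4 := by norm_num
  have a1 := (h2 _ hr).2.2.1 _ _ k (Bd_Z h2 _ _ hr h3.1)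
  have a2 := (h2 _ hr).2.2.1 _ _ e (Bd_4X h2 _ hr)
  have a3 := (h2 _ hr).2.1 _ _ _ _ a1 a2
  refine Bd_mono _ _ _ _ a3 ?_
  have b1 : (1 + 2 * (9 / 100 : ℝ)) ^ k ≤ 2 ^ k := pow_le_pow_left₀ (by norm_num) (by norm_num) k
  have b2 : (4 * (1 / 4 : ℝ)) ^ e = 1 := by norm_num
  rw [b2, mul_one]
  exact b1

theorem tail8 (h2 : S_S2) (h3 : S_S3) (k e : ℕ) :
    Bd ((1 + 2 * ZC) ^ k * (4 * PowerSeries.X) ^ e) (1 / 8) (2 ^ k) := by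
  have hr : (0 : ℝ) ≤ 1 / 8 := by norm_num
  have a1 := (h2 _ hr).2.2.1 _ _ k (Bd_Z h2 _ _ hr h3.2.2.2.2.1)
  have a2 := (h2 _ hr).2.2.1 _ _ e (Bd_4X h2 _ hr)
  have a3 := (h2 _ hr).2.1 _ _ _ _ a1 a2
  refine Bd_mono _ _ _ _ a3 ?_
  have b1 : (1 + 2 * (1 / 50 : ℝ)) ^ k ≤ 2 ^ k := pow_le_pow_left₀ (by norm_num) (by norm_num) k
  have b2 : (4 * (1 / 8 : ℝ)) ^ e ≤ 1 := pow_le_one₀ (by norm_num) (by norm_num)
  calc (1 + 2 * (1 / 50 : ℝ)) ^ k * (4 * (1 / 8 : ℝ)) ^ e ≤ 2 ^ k * 1 :=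
        mul_le_mul b1 b2 (by positivity) (by positivity)
    _ = 2 ^ k := mul_one _

theorem first (h2 : S_S2) (h3 : S_S3) (a b k e t : ℕ) :
    |(cf a b k e t : ℝ)| ≤ 2 ^ k * 4 ^ t := by
  have hr : (0 : ℝ) ≤ 1 / 4 := by norm_num
  have e1 : ((cf a b k e t : ℚ) : ℂ) =
      coeff t (psiC ^ a * zetC ^ b * ((1 + 2 * ZC) ^ k * (4 * PowerSeries.X) ^ e)) := by
    have hc : (algebraMap ℚ ℂ).comp (Int.castRingHom ℚ) = Int.castRingHom ℂ :=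
      RingHom.ext_int _ _
    have h0 : ((cf a b k e t : ℚ) : ℂ) = algebraMap ℚ ℂ (cf a b k e t) := by
      rw [eq_ratCast]
    rw [h0, cf, ← PowerSeries.coeff_map]
    congr 1
    rw [map_mul, map_mul, map_pow, map_pow]
    rw [← psiC, ← zetC]
    congr 1
    rw [← RingHom.comp_apply, ← PowerSeries.map_comp, hc]
    have m2 : PowerSeries.map (Int.castRingHom ℂ) 2 = 2 := map_ofNat _ 2
    have m4 : PowerSeries.map (Int.castRingHom ℂ) 4 = 4 := map_ofNat _ 4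
    rw [map_mul, map_pow, map_pow, map_add, map_mul, map_mul, map_one, m2, m4, PowerSeries.map_X,
      ← ZC]
  have b1 := (h2 _ hr).2.2.1 _ _ a h3.2.2.1
  have b2 := (h2 _ hr).2.2.1 _ _ b h3.2.2.2.1
  have b3 := (h2 _ hr).2.1 _ _ _ _ ((h2 _ hr).2.1 _ _ _ _ b1 b2) (tail4 h2 h3 k e)
  have b4 := (h2 _ hr).2.2.2.2.2.1 _ _ t b3
  rw [← e1] at b4
  have e2 : ‖((cf a b k e t : ℚ) : ℂ)‖ = |(cf a b k e t : ℝ)| := by
    rw [← Complex.ofReal_ratCast, Complex.norm_real, Real.norm_eq_abs]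
  rw [e2] at b4
  have c1 : (7 / 10 : ℝ) ^ a ≤ 1 := pow_le_one₀ (by norm_num) (by norm_num)
  have c2 : (3 / 4 : ℝ) ^ b ≤ 1 := pow_le_one₀ (by norm_num) (by norm_num)
  have c3 : (7 / 10 : ℝ) ^ a * (3 / 4 : ℝ) ^ b * 2 ^ k ≤ 1 * 1 * 2 ^ k :=
    mul_le_mul_of_nonneg_right (mul_le_mul c1 c2 (by positivity) (by norm_num)) (by positivity)
  have c4 : |(cf a b k e t : ℝ)| * (1 / 4) ^ t ≤ 2 ^ k := by linarith
  have c5 : (1 / 4 : ℝ) ^ t = 1 / 4 ^ t := by rw [one_div_pow]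
  rw [c5, mul_one_div, div_le_iff₀ (by positivity)] at c4
  exact c4

theorem Bd_pd (h2 : S_S2) (r : ℝ) (hr : 0 ≤ r) (U U' : PowerSeries ℂ) (R ε : ℝ)
    (hR : 1 ≤ R) (hε : 0 ≤ ε) (hU : Bd U r R) (hU' : Bd U' r R) (hd : Bd (U - U') r ε) (i : ℕ) :
    Bd (U ^ i - U' ^ i) r (i * ε * R ^ i) := by
  induction i with
  | zero =>
    intro N
    simp
  | succ i ih =>
    have e : U ^ (i + 1) - U' ^ (i + 1) = U ^ i * (U - U') + (U ^ i - U' ^ i) * U' := by ring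
    rw [e]
    have a1 := (h2 r hr).2.1 _ _ _ _ ((h2 r hr).2.2.1 _ _ i hU) hd
    have a2 := (h2 r hr).2.1 _ _ _ _ ih hU'
    refine Bd_mono _ _ _ _ ((h2 r hr).1 _ _ _ _ a1 a2) ?_
    have b1 : R ^ i * ε ≤ R ^ i * R * ε := by
      have : 0 ≤ R ^ i := by positivity
      have h1 : R ^ i ≤ R ^ i * R := le_mul_of_one_le_right this hR
      exact mul_le_mul_of_nonneg_right h1 hε
    have b2 : ((i + 1 : ℕ) : ℝ) * ε * R ^ (i + 1) =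
        R ^ i * R * ε + i * ε * R ^ i * R := by
      push_cast
      ring
    rw [b2]
    linarith

theorem second (h2 : S_S2) (h3 : S_S3) (x y x' y' : ℂ) (R ε : ℝ) (t i j k e : ℕ) (hR : 1 ≤ R)
    (hx : ‖x‖ + 1 / 6 ≤ R) (hy : ‖y‖ + 1 / 6 ≤ R) (hx' : ‖x'‖ + 1 / 6 ≤ R)
    (hy' : ‖y'‖ + 1 / 6 ≤ R) (hxx : ‖x - x'‖ ≤ ε) (hyy : ‖y - y'‖ ≤ ε) :
    ‖ent x y t i j k e - ent x' y' t i j k e‖ ≤ (i + j : ℕ) * ε * R ^ (i + j) * 2 ^ k * 8 ^ t := by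
  have hr : (0 : ℝ) ≤ 1 / 8 := by norm_num
  have hε : 0 ≤ ε := (norm_nonneg _).trans hxx
  have hC : ∀ z : ℂ, Bd (PowerSeries.C z) (1 / 8) ‖z‖ := (h2 _ hr).2.2.2.1
  have hps := h3.2.2.2.2.2.1
  have hzt := h3.2.2.2.2.2.2
  have hU : Bd (PowerSeries.C x + psiC) (1 / 8) R :=
    Bd_mono _ _ _ _ ((h2 _ hr).1 _ _ _ _ (hC x) hps) hx
  have hU' : Bd (PowerSeries.C x' + psiC) (1 / 8) R :=
    Bd_mono _ _ _ _ ((h2 _ hr).1 _ _ _ _ (hC x') hps) hx'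
  have hV : Bd (PowerSeries.C y + zetC) (1 / 8) R :=
    Bd_mono _ _ _ _ ((h2 _ hr).1 _ _ _ _ (hC y) hzt) hy
  have hV' : Bd (PowerSeries.C y' + zetC) (1 / 8) R :=
    Bd_mono _ _ _ _ ((h2 _ hr).1 _ _ _ _ (hC y') hzt) hy'
  have dU : Bd ((PowerSeries.C x + psiC) - (PowerSeries.C x' + psiC)) (1 / 8) ε := by
    have e : (PowerSeries.C x + psiC) - (PowerSeries.C x' + psiC) = PowerSeries.C (x - x') := by
      rw [map_sub]; ring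
    rw [e]
    exact Bd_mono _ _ _ _ (hC _) hxx
  have dV : Bd ((PowerSeries.C y + zetC) - (PowerSeries.C y' + zetC)) (1 / 8) ε := by
    have e : (PowerSeries.C y + zetC) - (PowerSeries.C y' + zetC) = PowerSeries.C (y - y') := by
      rw [map_sub]; ring
    rw [e]
    exact Bd_mono _ _ _ _ (hC _) hyy
  have a1 := Bd_pd h2 _ hr _ _ R ε hR hε hU hU' dU i
  have a2 := Bd_pd h2 _ hr _ _ R ε hR hε hV hV' dV j
  have a3 := (h2 _ hr).2.1 _ _ _ _ a1 ((h2 _ hr).2.2.1 _ _ j hV)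
  have a4 := (h2 _ hr).2.1 _ _ _ _ ((h2 _ hr).2.2.1 _ _ i hU') a2
  have a5 := (h2 _ hr).2.1 _ _ _ _ ((h2 _ hr).1 _ _ _ _ a3 a4) (tail8 h2 h3 k e)
  have a6 := (h2 _ hr).2.2.2.2.2.1 _ _ t a5
  have e1 : ent x y t i j k e - ent x' y' t i j k e = coeff t
      ((((PowerSeries.C x + psiC) ^ i - (PowerSeries.C x' + psiC) ^ i) *
        (PowerSeries.C y + zetC) ^ j + (PowerSeries.C x' + psiC) ^ i *
        ((PowerSeries.C y + zetC) ^ j - (PowerSeries.C y' + zetC) ^ j)) *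
        ((1 + 2 * ZC) ^ k * (4 * PowerSeries.X) ^ e)) := by
    rw [ent, ent, ← map_sub]
    congr 1
    ring
  rw [← e1] at a6
  have c5 : (1 / 8 : ℝ) ^ t = 1 / 8 ^ t := by rw [one_div_pow]
  rw [c5, mul_one_div, div_le_iff₀ (by positivity)] at a6
  refine a6.trans (le_of_eq ?_)
  push_cast
  ring

end S10

/-- Statement S10. -/
theorem t_S10 (h2 : S_S2) (h3 : S_S3) : S_S10 := by
  refine ⟨fun a b k e t => S10.first h2 h3 a b k e t, ?_⟩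
  intro x y x' y' R ε t i j k e hR _ hx hy hx' hy' hxx hyy
  exact S10.second h2 h3 x y x' y' R ε t i j k e hR hx hy hx' hy' hxx hyy

end Pool.Agent.MPb60633
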