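import Pool.Agent.Lib.MP_b60633_nt.SpecD

/-!
# MP_b60633_nt, S2: calculus of the majorant norm
-/

set_option autoImplicit false

namespace Pool.Agent.MPb60633

open Complex PowerSeries Pool.Agent.Lib.Ribet4b482e

namespace S2

/-- Partial sum. -/
noncomputable def ps (f : PowerSeries ℂ) (r : ℝ) (N : ℕ) : ℝ :=
  ∑ n ∈ Finset.range N, ‖coeff n f‖ * r ^ n

theorem ps_nonneg (f : PowerSeries ℂ) (r : ℝ) (hr : 0 ≤ r) (N : ℕ) : 0 ≤ ps f r N :=
  Finset.sum_nonneg fun n _ => mul_nonneg (norm_nonneg _) (pow_nonneg hr n)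

theorem ps_mul (f g : PowerSeries ℂ) (r : ℝ) (hr : 0 ≤ r) (N : ℕ) :
    ps (f * g) r N ≤ ps f r N * ps g r N := by
  have h1 : ∀ n ∈ Finset.range N, ‖coeff n (f * g)‖ * r ^ n ≤
      ∑ k ∈ Finset.range (n + 1),
        (fun i j => (‖coeff i f‖ * r ^ i) * (‖coeff j g‖ * r ^ j)) k (n - k) := by
    intro n _
    rw [PowerSeries.coeff_mul, Finset.Nat.sum_antidiagonal_eq_sum_range_succ
      (f := fun i j => coeff i f * coeff j g) (n := n)]
    calc ‖∑ k ∈ Finset.range n.succ, coeff k f * coeff (n - k) g‖ * r ^ n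
        ≤ (∑ k ∈ Finset.range n.succ, ‖coeff k f * coeff (n - k) g‖) * r ^ n :=
          mul_le_mul_of_nonneg_right (norm_sum_le _ _) (pow_nonneg hr n)
      _ = ∑ k ∈ Finset.range n.succ, (‖coeff k f‖ * r ^ k) * (‖coeff (n - k) g‖ * r ^ (n - k)) := by
          rw [Finset.sum_mul]
          apply Finset.sum_congr rfl
          intro k hk
          have hk' : k ≤ n := Nat.lt_succ_iff.mp (Finset.mem_range.mp hk)
          have e : r ^ n = r ^ k * r ^ (n - k) := by rw [← pow_add, Nat.add_sub_cancel' hk']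
          rw [norm_mul, e]
          ring
  calc ps (f * g) r N ≤ ∑ n ∈ Finset.range N, ∑ k ∈ Finset.range (n + 1),
        (fun i j => (‖coeff i f‖ * r ^ i) * (‖coeff j g‖ * r ^ j)) k (n - k) :=
        Finset.sum_le_sum h1
    _ = ∑ m ∈ Finset.range N, ∑ k ∈ Finset.range (N - m),
        (fun i j => (‖coeff i f‖ * r ^ i) * (‖coeff j g‖ * r ^ j)) m k :=
        Finset.sum_range_diag_flip N
          (fun i j => (‖coeff i f‖ * r ^ i) * (‖coeff j g‖ * r ^ j))
    _ ≤ ∑ m ∈ Finset.range N, ∑ k ∈ Finset.range N,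
        (‖coeff m f‖ * r ^ m) * (‖coeff k g‖ * r ^ k) := by
        apply Finset.sum_le_sum
        intro m _
        apply Finset.sum_le_sum_of_subset_of_nonneg
        · intro x hx
          rw [Finset.mem_range] at hx ⊢
          omega
        · intro k _ _
          positivity
    _ = ps f r N * ps g r N := by
        rw [ps, ps, Finset.sum_mul_sum]

theorem ps_add (f g : PowerSeries ℂ) (r : ℝ) (hr : 0 ≤ r) (N : ℕ) :
    ps (f + g) r N ≤ ps f r N + ps g r N := by
  rw [ps, ps, ps, ← Finset.sum_add_distrib]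
  apply Finset.sum_le_sum
  intro n _
  rw [map_add, ← add_mul]
  exact mul_le_mul_of_nonneg_right (norm_add_le _ _) (pow_nonneg hr n)

theorem Bd_nonneg (f : PowerSeries ℂ) (r A : ℝ) (h : Bd f r A) : 0 ≤ A := by
  simpa using h 0

theorem Bd_C (x : ℂ) (r : ℝ) : Bd (PowerSeries.C x) r ‖x‖ := by
  intro N
  have h : ∀ n ∈ Finset.range N, ‖coeff n (PowerSeries.C x)‖ * r ^ n =
      if n = 0 then ‖x‖ else 0 := by
    intro n _
    rw [PowerSeries.coeff_C]
    by_cases hn : n = 0
    · subst hn; simp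
    · simp [hn]
  rw [Finset.sum_congr rfl h, Finset.sum_ite_eq']
  split_ifs
  · exact le_refl _
  · exact norm_nonneg _

theorem Bd_X (r : ℝ) (hr : 0 ≤ r) : Bd PowerSeries.X r r := by
  intro N
  have h : ∀ n ∈ Finset.range N, ‖coeff n (PowerSeries.X : PowerSeries ℂ)‖ * r ^ n =
      if n = 1 then r else 0 := by
    intro n _
    rw [PowerSeries.coeff_X]
    by_cases hn : n = 1
    · subst hn; simp
    · simp [hn]
  rw [Finset.sum_congr rfl h, Finset.sum_ite_eq']
  split_ifs
  · exact le_refl _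
  · exact hr

theorem Bd_mul (f g : PowerSeries ℂ) (r A B : ℝ) (hr : 0 ≤ r) (hf : Bd f r A) (hg : Bd g r B) :
    Bd (f * g) r (A * B) := by
  intro N
  exact (ps_mul f g r hr N).trans
    (mul_le_mul (hf N) (hg N) (ps_nonneg g r hr N) (Bd_nonneg f r A hf))

theorem Bd_one (r : ℝ) : Bd 1 r 1 := by
  have h := Bd_C 1 r
  simpa using h

theorem Bd_pow (f : PowerSeries ℂ) (r A : ℝ) (hr : 0 ≤ r) (hf : Bd f r A) (k : ℕ) :
    Bd (f ^ k) r (A ^ k) := by
  induction k with
  | zero => simpa using Bd_one r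
  | succ k ih =>
    rw [pow_succ, pow_succ]
    exact Bd_mul _ _ r _ _ hr ih hf

theorem Bd_inv (f g : PowerSeries ℂ) (r B : ℝ) (hr : 0 ≤ r) (h : f * (1 - g) = 1)
    (hg : Bd g r B) (hB : B < 1) : Bd f r (1 / (1 - B)) := by
  intro N
  have e : f = 1 + f * g := by linear_combination h
  have h0 := ps_nonneg f r hr N
  have h1 : ps f r N ≤ 1 + ps f r N * B := by
    calc ps f r N = ps (1 + f * g) r N := by rw [← e]
      _ ≤ ps 1 r N + ps (f * g) r N := ps_add _ _ r hr N
      _ ≤ 1 + ps f r N * ps g r N := add_le_add (Bd_one r N) (ps_mul f g r hr N)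
      _ ≤ 1 + ps f r N * B := by
          have := mul_le_mul_of_nonneg_left (hg N) h0
          have h2 : ps f r N * ps g r N ≤ ps f r N * B := this
          linarith
  change ps f r N ≤ _
  rw [le_div_iff₀ (by linarith)]
  linarith

end S2

/-- Statement S2. -/
theorem t_S2 : S_S2 := by
  intro r hr
  refine ⟨?_, ?_, ?_, ?_, S2.Bd_X r hr, ?_, ?_⟩
  · intro f g A B hf hg N
    exact (S2.ps_add f g r hr N).trans (add_le_add (hf N) (hg N))
  · intro f g A B hf hg
    exact S2.Bd_mul f g r A B hr hf hg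
  · intro f A k hf
    exact S2.Bd_pow f r A hr hf k
  · intro x
    exact S2.Bd_C x r
  · intro f A n hf
    refine le_trans ?_ (hf (n + 1))
    exact Finset.single_le_sum (f := fun n => ‖coeff n f‖ * r ^ n)
      (fun i _ => mul_nonneg (norm_nonneg _) (pow_nonneg hr i)) (Finset.self_mem_range_succ n)
  · intro f g B h hg hB
    exact S2.Bd_inv f g r B hr h hg hB

end Pool.Agent.MPb60633
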