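import Pool.Agent.Lib.MP_b60633_nt.SpecD
import Pool.Agent.Lib.MP_b60633_nt.W.S2

/-!
# MP_b60633_nt, S3: numerical majorants
-/

set_option autoImplicit false

namespace Pool.Agent.MPb60633

open Complex PowerSeries Pool.Agent.Lib.Ribet4b482e

namespace S3

theorem Bd_mono (f : PowerSeries ℂ) (r A B : ℝ) (h : Bd f r A) (hAB : A ≤ B) : Bd f r B :=
  fun N => (h N).trans hAB

theorem Bd_neg (f : PowerSeries ℂ) (r A : ℝ) (h : Bd f r A) : Bd (-f) r A := by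
  intro N
  have := h N
  simpa using this

theorem Bd_cmul (h2 : S_S2) (r : ℝ) (hr : 0 ≤ r) (c : ℂ) (f : PowerSeries ℂ) (A : ℝ)
    (h : Bd f r A) : Bd (PowerSeries.C c * f) r (‖c‖ * A) :=
  (h2 r hr).2.1 _ _ _ _ ((h2 r hr).2.2.2.1 c) h

theorem n2 : (2 : PowerSeries ℂ) = PowerSeries.C 2 := (map_ofNat PowerSeries.C 2).symm

theorem n3 : (3 : PowerSeries ℂ) = PowerSeries.C 3 := (map_ofNat PowerSeries.C 3).symm

theorem n6 : (6 : PowerSeries ℂ) = PowerSeries.C 6 := (map_ofNat PowerSeries.C 6).symm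

theorem ps_X (W : PowerSeries ℂ) (r : ℝ) (N : ℕ) :
    S2.ps (X * W) r (N + 1) = r * S2.ps W r N := by
  rw [S2.ps, Finset.sum_range_succ', S2.ps, Finset.mul_sum]
  simp only [coeff_succ_X_mul, coeff_zero_X_mul, norm_zero, zero_mul, add_zero]
  apply Finset.sum_congr rfl
  intro n _
  ring

theorem ps_succ (f : PowerSeries ℂ) (r : ℝ) (hr : 0 ≤ r) (N : ℕ) :
    S2.ps f r N ≤ S2.ps f r (N + 1) := by
  rw [S2.ps, S2.ps, Finset.sum_range_succ]
  have : 0 ≤ ‖coeff N f‖ * r ^ N := mul_nonneg (norm_nonneg _) (pow_nonneg hr N)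
  linarith

theorem ps_sq (f : PowerSeries ℂ) (r : ℝ) (hr : 0 ≤ r) (hf : constantCoeff f = 0) (N : ℕ) :
    S2.ps (f ^ 2) r (N + 2) ≤ (S2.ps f r (N + 1)) ^ 2 := by
  obtain ⟨W, hW⟩ := PowerSeries.X_dvd_iff.mpr hf
  have e : f ^ 2 = X * (X * (W * W)) := by rw [hW]; ring
  rw [e, ps_X, ps_X]
  rw [hW, ps_X]
  have h := S2.ps_mul W W r hr N
  have h2 : r * (r * S2.ps (W * W) r N) ≤ r * (r * (S2.ps W r N * S2.ps W r N)) :=
    mul_le_mul_of_nonneg_left (mul_le_mul_of_nonneg_left h hr) hr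
  refine h2.trans (le_of_eq ?_)
  ring

theorem ps_cube (f : PowerSeries ℂ) (r : ℝ) (hr : 0 ≤ r) (hf : constantCoeff f = 0) (N : ℕ) :
    S2.ps (f ^ 3) r (N + 2) ≤ (S2.ps f r (N + 1)) ^ 3 := by
  refine (ps_succ _ r hr _).trans ?_
  obtain ⟨W, hW⟩ := PowerSeries.X_dvd_iff.mpr hf
  have e : f ^ 3 = X * (X * (X * (W * W * W))) := by rw [hW]; ring
  rw [e, ps_X, ps_X, ps_X]
  rw [hW, ps_X]
  have h0 := S2.ps_nonneg W r hr N
  have h : S2.ps (W * W * W) r N ≤ S2.ps W r N * S2.ps W r N * S2.ps W r N :=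
    (S2.ps_mul (W * W) W r hr N).trans
      (mul_le_mul_of_nonneg_right (S2.ps_mul W W r hr N) h0)
  have h2 : r * (r * (r * S2.ps (W * W * W) r N)) ≤
      r * (r * (r * (S2.ps W r N * S2.ps W r N * S2.ps W r N))) :=
    mul_le_mul_of_nonneg_left (mul_le_mul_of_nonneg_left (mul_le_mul_of_nonneg_left h hr) hr) hr
  refine h2.trans (le_of_eq ?_)
  ring

theorem ps_neg (f : PowerSeries ℂ) (r : ℝ) (N : ℕ) : S2.ps (-f) r N = S2.ps f r N := by
  simp [S2.ps]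

theorem ps_Cmul (c : ℂ) (f : PowerSeries ℂ) (r : ℝ) (N : ℕ) :
    S2.ps (PowerSeries.C c * f) r N = ‖c‖ * S2.ps f r N := by
  rw [S2.ps, S2.ps, Finset.mul_sum]
  apply Finset.sum_congr rfl
  intro n _
  rw [coeff_C_mul, norm_mul]
  ring

theorem Bd_ZC (h1 : S_S1) (h2 : S_S2) (r B : ℝ) (hr : 0 ≤ r) (hB : 0 ≤ B)
    (h : r ^ 2 + 3 * B ^ 2 + 2 * B ^ 3 ≤ B) : Bd ZC r B := by
  obtain ⟨_, ⟨hc, he, _, _⟩, _⟩ := h1
  have hX : Bd (X ^ 2) r (r ^ 2) := (h2 r hr).2.2.1 _ _ 2 ((h2 r hr).2.2.2.2.1)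
  have key : ∀ N, S2.ps ZC r (N + 1) ≤ B := by
    intro N
    induction N with
    | zero =>
      simp only [S2.ps, zero_add, Finset.range_one, Finset.sum_singleton,
        coeff_zero_eq_constantCoeff, hc]
      simpa using hB
    | succ N ih =>
      have h0 := S2.ps_nonneg ZC r hr (N + 1)
      have e : S2.ps ZC r (N + 2) = S2.ps (X ^ 2 + (-(PowerSeries.C 3 * ZC ^ 2) +
          -(PowerSeries.C 2 * ZC ^ 3))) r (N + 2) := by
        have e1 : ZC = X ^ 2 + (-(PowerSeries.C 3 * ZC ^ 2) + -(PowerSeries.C 2 * ZC ^ 3)) := by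
          rw [← n3, ← n2]
          linear_combination he
        rw [← e1]
      have hsq := ps_sq ZC r hr hc N
      have hcu := ps_cube ZC r hr hc N
      have a1 := S2.ps_add (X ^ 2) (-(PowerSeries.C 3 * ZC ^ 2) + -(PowerSeries.C 2 * ZC ^ 3))
        r hr (N + 2)
      have a2 := S2.ps_add (-(PowerSeries.C 3 * ZC ^ 2)) (-(PowerSeries.C 2 * ZC ^ 3))
        r hr (N + 2)
      rw [ps_neg, ps_neg, ps_Cmul, ps_Cmul] at a2
      have a3 : S2.ps (X ^ 2) r (N + 2) ≤ r ^ 2 := hX (N + 2)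
      have b2 : (S2.ps ZC r (N + 1)) ^ 2 ≤ B ^ 2 := pow_le_pow_left₀ h0 ih 2
      have b3 : (S2.ps ZC r (N + 1)) ^ 3 ≤ B ^ 3 := pow_le_pow_left₀ h0 ih 3
      have c3 : ‖(3 : ℂ)‖ = 3 := by simp
      have c2 : ‖(2 : ℂ)‖ = 2 := by simp
      rw [c3, c2] at a2
      change S2.ps ZC r (N + 2) ≤ B
      rw [e]
      linarith
  intro N
  cases N with
  | zero => simpa using hB
  | succ N => exact key N

theorem Bd_PC (h1 : S_S1) (h2 : S_S2) (r B : ℝ) (hr : 0 ≤ r) (hB : Bd ZC r B)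
    (hB1 : 6 * B + 6 * B ^ 2 < 1) : Bd PC r (1 / (1 - (6 * B + 6 * B ^ 2))) := by
  obtain ⟨_, ⟨_, _, he, _⟩, _⟩ := h1
  have hg : Bd (-(PowerSeries.C 6 * ZC + PowerSeries.C 6 * ZC ^ 2)) r (6 * B + 6 * B ^ 2) := by
    apply Bd_neg
    have a1 := Bd_cmul h2 r hr 6 ZC B hB
    have a2 := Bd_cmul h2 r hr 6 (ZC ^ 2) (B ^ 2) ((h2 r hr).2.2.1 _ _ 2 hB)
    have c6 : ‖(6 : ℂ)‖ = 6 := by simp
    rw [c6] at a1 a2
    exact (h2 r hr).1 _ _ _ _ a1 a2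
  refine (h2 r hr).2.2.2.2.2.2 PC _ _ ?_ hg hB1
  rw [← n6]
  linear_combination he

theorem Bd_int (f g : PowerSeries ℂ) (r A : ℝ) (hr : 0 ≤ r) (hf : constantCoeff f = 0)
    (hd : d⁄dX ℂ f = g) (hg : Bd g r A) : Bd f r (r * A) := by
  have hA : 0 ≤ A := S2.Bd_nonneg g r A hg
  intro N
  cases N with
  | zero => simpa using mul_nonneg hr hA
  | succ N =>
    rw [Finset.sum_range_succ', coeff_zero_eq_constantCoeff, hf]
    simp only [norm_zero, zero_mul, add_zero]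
    calc ∑ k ∈ Finset.range N, ‖coeff (k + 1) f‖ * r ^ (k + 1)
        ≤ ∑ k ∈ Finset.range N, r * (‖coeff k g‖ * r ^ k) := by
          apply Finset.sum_le_sum
          intro k _
          have e : coeff k g = coeff (k + 1) f * (k + 1) := by
            rw [← hd, PowerSeries.coeff_derivative]
          have e2 : ‖coeff (k + 1) f‖ ≤ ‖coeff k g‖ := by
            rw [e, norm_mul]
            have e3 : (1 : ℝ) ≤ ‖((k : ℂ) + 1)‖ := by
              have : ((k : ℂ) + 1) = ((k + 1 : ℕ) : ℂ) := by push_cast; ring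
              rw [this, Complex.norm_natCast]
              exact_mod_cast Nat.succ_le_succ (Nat.zero_le k)
            exact le_mul_of_one_le_right (norm_nonneg _) e3
          have e4 : 0 ≤ r ^ (k + 1) := pow_nonneg hr _
          calc ‖coeff (k + 1) f‖ * r ^ (k + 1) ≤ ‖coeff k g‖ * r ^ (k + 1) :=
                mul_le_mul_of_nonneg_right e2 e4
            _ = r * (‖coeff k g‖ * r ^ k) := by ring
      _ = r * ∑ k ∈ Finset.range N, ‖coeff k g‖ * r ^ k := by rw [Finset.mul_sum]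
      _ ≤ r * A := mul_le_mul_of_nonneg_left (hg N) hr

theorem Bd_zd (h2 : S_S2) (r B A : ℝ) (hr : 0 ≤ r) (hB : Bd ZC r B) (hA : Bd PC r A) :
    Bd (-((1 + 2 * ZC) * PC)) r ((1 + 2 * B) * A) := by
  apply Bd_neg
  have c2 : ‖(2 : ℂ)‖ = 2 := by simp
  have a1 := Bd_cmul h2 r hr 2 ZC B hB
  rw [c2] at a1
  have a2 := (h2 r hr).1 _ _ _ _ (S2.Bd_one r) a1
  rw [n2]
  exact (h2 r hr).2.1 _ _ _ _ a2 hA

end S3

/-- Statement S3. -/
theorem t_S3 (h1 : S_S1) (h2 : S_S2) : S_S3 := by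
  obtain ⟨_, _, hp, hz, hp0, hz0⟩ := id h1
  have z4 : Bd ZC (1 / 4) (9 / 100) :=
    S3.Bd_ZC h1 h2 (1 / 4) (9 / 100) (by norm_num) (by norm_num) (by norm_num)
  have z8 : Bd ZC (1 / 8) (1 / 50) :=
    S3.Bd_ZC h1 h2 (1 / 8) (1 / 50) (by norm_num) (by norm_num) (by norm_num)
  have p4 := S3.Bd_PC h1 h2 (1 / 4) (9 / 100) (by norm_num) z4 (by norm_num)
  have p8 := S3.Bd_PC h1 h2 (1 / 8) (1 / 50) (by norm_num) z8 (by norm_num)
  refine ⟨z4, ?_, ?_, ?_, z8, ?_, ?_⟩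
  · exact S3.Bd_mono _ _ _ _ p4 (by norm_num)
  · exact S3.Bd_mono _ _ _ _ (S3.Bd_int psiC PC (1 / 4) _ (by norm_num) hp0 hp p4) (by norm_num)
  · exact S3.Bd_mono _ _ _ _ (S3.Bd_int zetC _ (1 / 4) _ (by norm_num) hz0 hz
      (S3.Bd_zd h2 (1 / 4) _ _ (by norm_num) z4 p4)) (by norm_num)
  · exact S3.Bd_mono _ _ _ _ (S3.Bd_int psiC PC (1 / 8) _ (by norm_num) hp0 hp p8) (by norm_num)
  · exact S3.Bd_mono _ _ _ _ (S3.Bd_int zetC _ (1 / 8) _ (by norm_num) hz0 hz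
      (S3.Bd_zd h2 (1 / 8) _ _ (by norm_num) z8 p8)) (by norm_num)

end Pool.Agent.MPb60633
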