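import Pool.Agent.Lib.MP_b60633_nt.SpecD

/-!
# MP_b60633_nt, S4: values and derivatives of power series
-/

set_option autoImplicit false

namespace Pool.Agent.MPb60633

open Complex PowerSeries Pool.Agent.Lib.Ribet4b482e

namespace S4

theorem part1 (r : ℝ) (f : PowerSeries ℂ) (A : ℝ) (s : ℂ) (hf : Bd f r A)
    (hs : ‖s‖ ≤ r) : Summable (fun n => ‖coeff n f * s ^ n‖) ∧ ‖evs f s‖ ≤ A := by
  have h1 : ∀ N : ℕ, ∑ n ∈ Finset.range N, ‖coeff n f * s ^ n‖ ≤ A := by
    intro N
    refine le_trans (Finset.sum_le_sum fun n _ => ?_) (hf N)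
    rw [norm_mul, norm_pow]
    exact mul_le_mul_of_nonneg_left (pow_le_pow_left₀ (norm_nonneg _) hs n) (norm_nonneg _)
  have h2 : Summable (fun n => ‖coeff n f * s ^ n‖) :=
    summable_of_sum_range_le (fun n => norm_nonneg _) h1
  refine ⟨h2, ?_⟩
  exact (norm_tsum_le_tsum_norm h2).trans
    (Real.tsum_le_of_sum_range_le (fun n => norm_nonneg _) h1)

theorem part2 (r : ℝ) (f g : PowerSeries ℂ) (A B : ℝ) (s : ℂ) (hf : Bd f r A) (hg : Bd g r B)
    (hs : ‖s‖ ≤ r) :
    evs (f + g) s = evs f s + evs g s ∧ evs (f * g) s = evs f s * evs g s := by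
  have hf' := (part1 r f A s hf hs).1
  have hg' := (part1 r g B s hg hs).1
  constructor
  · rw [evs, evs, evs, ← Summable.tsum_add hf'.of_norm hg'.of_norm]
    apply tsum_congr
    intro n
    rw [map_add, add_mul]
  · rw [evs, evs, evs, tsum_mul_tsum_eq_tsum_sum_antidiagonal_of_summable_norm hf' hg']
    apply tsum_congr
    intro n
    rw [PowerSeries.coeff_mul, Finset.sum_mul]
    apply Finset.sum_congr rfl
    intro p hp
    rw [Finset.HasAntidiagonal.mem_antidiagonal] at hp
    rw [← hp, pow_add]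
    ring

theorem part3a (x s : ℂ) : evs (PowerSeries.C x) s = x := by
  rw [evs, tsum_eq_single 0]
  · simp
  · intro n hn
    rw [PowerSeries.coeff_C, if_neg hn, zero_mul]

theorem part3b (s : ℂ) : evs PowerSeries.X s = s := by
  rw [evs, tsum_eq_single 1]
  · simp
  · intro n hn
    rw [PowerSeries.coeff_X, if_neg hn, zero_mul]

theorem part4 (f : PowerSeries ℂ) : evs f 0 = constantCoeff f := by
  rw [evs, tsum_eq_single 0]
  · simp
  · intro n hn
    rw [zero_pow hn, mul_zero]

theorem coeff_le (f : PowerSeries ℂ) (r A : ℝ) (hr : 0 < r) (hf : Bd f r A) (n : ℕ) :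
    ‖coeff n f‖ * r ^ n ≤ A := by
  refine le_trans ?_ (hf (n + 1))
  exact Finset.single_le_sum (f := fun n => ‖coeff n f‖ * r ^ n)
    (fun i _ => mul_nonneg (norm_nonneg _) (pow_nonneg hr.le i)) (Finset.self_mem_range_succ n)

theorem part5 (r : ℝ) (hr : 0 < r) (f : PowerSeries ℂ) (A : ℝ) (s : ℂ) (hf : Bd f r A)
    (hs : ‖s‖ < r) : HasDerivAt (evs f) (evs (d⁄dX ℂ f) s) s := by
  obtain ⟨ρ, hρ1, hρ2⟩ := exists_between hs
  have hρ0 : 0 < ρ := lt_of_le_of_lt (norm_nonneg _) hρ1
  have hA : 0 ≤ A := by simpa using hf 0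
  set u : ℕ → ℝ := fun n => A / ρ * ((n : ℝ) ^ 1 * (ρ / r) ^ n) with hu
  have hus : Summable u := by
    apply Summable.mul_left
    apply summable_pow_mul_geometric_of_norm_lt_one
    rw [Real.norm_eq_abs, abs_of_pos (div_pos hρ0 hr)]
    exact (div_lt_one hr).mpr hρ2
  set g' : ℕ → ℂ → ℂ := fun n y => coeff n f * ((n : ℂ) * y ^ (n - 1)) with hg'
  have hgd : ∀ n y, y ∈ Metric.ball (0 : ℂ) ρ →
      HasDerivAt (fun z => coeff n f * z ^ n) (g' n y) y := by
    intro n y _
    exact (hasDerivAt_pow n y).const_mul _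
  have hgb : ∀ n y, y ∈ Metric.ball (0 : ℂ) ρ → ‖g' n y‖ ≤ u n := by
    intro n y hy
    have hy' : ‖y‖ ≤ ρ := by
      rw [mem_ball_zero_iff] at hy
      exact hy.le
    cases n with
    | zero => simp [hg', hu]
    | succ n =>
      have h1 : ‖coeff (n + 1) f‖ ≤ A / r ^ (n + 1) := by
        rw [le_div_iff₀ (pow_pos hr _)]
        exact coeff_le f r A hr hf (n + 1)
      have h2 : ‖y‖ ^ n ≤ ρ ^ n := pow_le_pow_left₀ (norm_nonneg _) hy' n
      simp only [hg', hu, norm_mul, norm_pow, Nat.add_sub_cancel, Complex.norm_natCast, pow_one]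
      calc ‖coeff (n + 1) f‖ * (((n + 1 : ℕ) : ℝ) * ‖y‖ ^ n)
          ≤ A / r ^ (n + 1) * (((n + 1 : ℕ) : ℝ) * ρ ^ n) := by
            apply mul_le_mul h1 _ (by positivity) (by positivity)
            exact mul_le_mul_of_nonneg_left h2 (by positivity)
        _ = A / ρ * (((n + 1 : ℕ) : ℝ) * (ρ / r) ^ (n + 1)) := by
            rw [div_pow]
            field_simp
            ring
  have hs' : s ∈ Metric.ball (0 : ℂ) ρ := by rw [mem_ball_zero_iff]; exact hρ1
  have hsum : Summable (fun n => coeff n f * s ^ n) := (part1 r f A s hf hs.le).1.of_norm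
  have hmain := hasDerivAt_tsum_of_isPreconnected hus Metric.isOpen_ball
    (convex_ball (0 : ℂ) ρ).isPreconnected hgd hgb hs' hsum hs'
  have e : ∑' n, g' n s = evs (d⁄dX ℂ f) s := by
    have hsg : Summable (fun n => g' n s) :=
      Summable.of_norm_bounded hus (fun n => hgb n s hs')
    rw [hsg.tsum_eq_zero_add, evs]
    have z : g' 0 s = 0 := by simp [hg']
    rw [z, zero_add]
    apply tsum_congr
    intro n
    rw [PowerSeries.coeff_derivative]
    simp only [hg', Nat.add_sub_cancel]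
    push_cast
    ring
  rw [e] at hmain
  exact hmain

end S4

/-- Statement S4. -/
theorem t_S4 : S_S4 := by
  intro r hr
  exact ⟨fun f A s hf hs => S4.part1 r f A s hf hs,
    fun f g A B s hf hg hs => S4.part2 r f g A B s hf hg hs,
    fun x s => ⟨S4.part3a x s, S4.part3b s⟩,
    S4.part4, fun f A s hf hs => S4.part5 r hr f A s hf hs⟩

end Pool.Agent.MPb60633
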