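import Pool.Agent.Lib.MP_b60633_nt.SpecD

/-!
# MP_b60633_nt, S5: a coefficient as a circle integral
-/

set_option autoImplicit false

namespace Pool.Agent.MPb60633

open Complex PowerSeries Pool.Agent.Lib.Ribet4b482e

namespace S5

theorem has (h4 : S_S4) (f : PowerSeries ℂ) (r A : ℝ) (hr : 1 / 8 < r) (hf : Bd f r A) :
    HasFPowerSeriesAt (evs f)
      (FormalMultilinearSeries.ofScalars ℂ (fun n => coeff n f)) 0 := by
  have hr0 : 0 < r := lt_trans (by norm_num) hr
  rw [hasFPowerSeriesAt_iff]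
  filter_upwards [Metric.ball_mem_nhds (0 : ℂ) (by norm_num : (0 : ℝ) < 1 / 8)] with z hz
  rw [mem_ball_zero_iff] at hz
  have h := ((h4 r hr0).1 f A z hf (hz.le.trans hr.le)).1.of_norm.hasSum
  have e : (fun n : ℕ => z ^ n • (FormalMultilinearSeries.ofScalars ℂ
      (fun n => coeff n f)).coeff n) = fun n => coeff n f * z ^ n := by
    funext n
    rw [FormalMultilinearSeries.coeff_ofScalars, smul_eq_mul, mul_comm]
  rw [e, zero_add]
  exact h

theorem diff (h4 : S_S4) (f : PowerSeries ℂ) (r A : ℝ) (hr : 1 / 8 < r) (hf : Bd f r A) :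
    DifferentiableOn ℂ (evs f) (Metric.closedBall 0 (1 / 8)) := by
  have hr0 : 0 < r := lt_trans (by norm_num) hr
  intro s hs
  rw [mem_closedBall_zero_iff] at hs
  exact ((h4 r hr0).2.2.2.2 f A s hf (lt_of_le_of_lt hs hr)).differentiableAt.differentiableWithinAt

end S5

/-- Statement S5. -/
theorem t_S5 (h4 : S_S4) : S_S5 := by
  intro f r A hr hf t
  have hd := S5.diff h4 f r A hr hf
  have hp := S5.has h4 f r A hr hf
  have hq : HasFPowerSeriesOnBall (evs f) (cauchyPowerSeries (evs f) 0 ((1 / 8 : NNReal) : ℝ)) 0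
      ((1 / 8 : NNReal) : ENNReal) := by
    apply DifferentiableOn.hasFPowerSeriesOnBall
    · have e : ((1 / 8 : NNReal) : ℝ) = 1 / 8 := by push_cast; ring
      rw [e]
      exact hd
    · positivity
  have heq := hp.eq_formalMultilinearSeries hq.hasFPowerSeriesAt
  have h1 : (FormalMultilinearSeries.ofScalars ℂ (fun n => coeff n f) t) (fun _ => (1 : ℂ)) =
      (cauchyPowerSeries (evs f) 0 ((1 / 8 : NNReal) : ℝ) t) (fun _ => (1 : ℂ)) := by
    rw [heq]
  rw [cauchyPowerSeries_apply] at h1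
  have h2 : (FormalMultilinearSeries.ofScalars ℂ (fun n => coeff n f) t) (fun _ => (1 : ℂ)) =
      coeff t f := by
    have := FormalMultilinearSeries.coeff_ofScalars (𝕜 := ℂ) (p := fun n => coeff n f) (n := t)
    exact this
  rw [← h2, h1, smul_eq_mul]
  have e : ((1 / 8 : NNReal) : ℝ) = 1 / 8 := by push_cast; ring
  rw [e]
  congr 1
  apply circleIntegral.integral_congr (by norm_num)
  intro z hz
  have hz0 : z ≠ 0 := by
    rintro rfl
    simp at hz
  simp only [sub_zero, smul_eq_mul]
  rw [← mul_assoc]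
  congr 1
  rw [zpow_neg, zpow_add₀ hz0, zpow_natCast, zpow_one, one_div, inv_pow, mul_inv]

end Pool.Agent.MPb60633
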