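import Pool.Agent.Lib.MP_b60633_nt.SpecD
import Pool.Agent.Lib.MP_b60633_nt.W.S2

/-!
# MP_b60633_nt, S6: the parametrisation
-/

set_option autoImplicit false

namespace Pool.Agent.MPb60633

open Complex PowerSeries Pool.Agent.Lib.Ribet4b482e

namespace S6

/-- Bounded for the radius `1 / 4`. -/
def Good (f : PowerSeries ℂ) : Prop := ∃ A : ℝ, Bd f (1 / 4) A

theorem good_add {f g : PowerSeries ℂ} (hf : Good f) (hg : Good g) : Good (f + g) := by
  obtain ⟨A, hA⟩ := hf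
  obtain ⟨B, hB⟩ := hg
  exact ⟨_, (t_S2 (1 / 4) (by norm_num)).1 _ _ _ _ hA hB⟩

theorem good_mul {f g : PowerSeries ℂ} (hf : Good f) (hg : Good g) : Good (f * g) := by
  obtain ⟨A, hA⟩ := hf
  obtain ⟨B, hB⟩ := hg
  exact ⟨_, (t_S2 (1 / 4) (by norm_num)).2.1 _ _ _ _ hA hB⟩

theorem good_C (x : ℂ) : Good (PowerSeries.C x) :=
  ⟨_, (t_S2 (1 / 4) (by norm_num)).2.2.2.1 x⟩

theorem good_X : Good (PowerSeries.X : PowerSeries ℂ) :=
  ⟨_, (t_S2 (1 / 4) (by norm_num)).2.2.2.2.1⟩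

theorem ev_add (h4 : S_S4) {f g : PowerSeries ℂ} (hf : Good f) (hg : Good g) {s : ℂ}
    (hs : ‖s‖ ≤ 1 / 4) : evs (f + g) s = evs f s + evs g s := by
  obtain ⟨A, hA⟩ := hf
  obtain ⟨B, hB⟩ := hg
  exact ((h4 (1 / 4) (by norm_num)).2.1 f g A B s hA hB hs).1

theorem ev_mul (h4 : S_S4) {f g : PowerSeries ℂ} (hf : Good f) (hg : Good g) {s : ℂ}
    (hs : ‖s‖ ≤ 1 / 4) : evs (f * g) s = evs f s * evs g s := by
  obtain ⟨A, hA⟩ := hf
  obtain ⟨B, hB⟩ := hg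
  exact ((h4 (1 / 4) (by norm_num)).2.1 f g A B s hA hB hs).2

theorem ev_C (h4 : S_S4) (x s : ℂ) : evs (PowerSeries.C x) s = x :=
  ((h4 (1 / 4) (by norm_num)).2.2.1 x s).1

theorem ev_X (h4 : S_S4) (s : ℂ) : evs (PowerSeries.X : PowerSeries ℂ) s = s :=
  ((h4 (1 / 4) (by norm_num)).2.2.1 0 s).2

theorem ev_d (h4 : S_S4) {f : PowerSeries ℂ} (hf : Good f) {s : ℂ} (hs : ‖s‖ < 1 / 4) :
    HasDerivAt (evs f) (evs (d⁄dX ℂ f) s) s := by
  obtain ⟨A, hA⟩ := hf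
  exact (h4 (1 / 4) (by norm_num)).2.2.2.2 f A s hA hs

theorem n1 : (1 : PowerSeries ℂ) = PowerSeries.C 1 := (map_one PowerSeries.C).symm

theorem n2 : (2 : PowerSeries ℂ) = PowerSeries.C 2 := (map_ofNat PowerSeries.C 2).symm

theorem n6 : (6 : PowerSeries ℂ) = PowerSeries.C 6 := (map_ofNat PowerSeries.C 6).symm

theorem dpsi (h1 : S_S1) (h3 : S_S3) (h4 : S_S4) {s : ℂ} (hs : ‖s‖ < 1 / 4) :
    HasDerivAt (evs psiC) (evs PC s) s := by
  have h := ev_d h4 ⟨_, h3.2.2.1⟩ hs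
  rwa [h1.2.2.1] at h

theorem dZ (h1 : S_S1) (h3 : S_S3) (h4 : S_S4) {s : ℂ} (hs : ‖s‖ < 1 / 4) :
    HasDerivAt (evs ZC) (2 * s * evs PC s) s := by
  have h := ev_d h4 ⟨_, h3.1⟩ hs
  have gP : Good PC := ⟨_, h3.2.1⟩
  rw [h1.2.1.2.2.2, n2, ev_mul h4 (good_mul (good_C 2) good_X) gP hs.le,
    ev_mul h4 (good_C 2) good_X hs.le, ev_C h4, ev_X h4] at h
  exact h

theorem dzet (h1 : S_S1) (h3 : S_S3) (h4 : S_S4) {s : ℂ} (hs : ‖s‖ < 1 / 4) :
    HasDerivAt (evs zetC) (-((1 + 2 * evs ZC s) * evs PC s)) s := by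
  have h := ev_d h4 ⟨_, h3.2.2.2.1⟩ hs
  have gP : Good PC := ⟨_, h3.2.1⟩
  have gZ : Good ZC := ⟨_, h3.1⟩
  have e : -((1 + 2 * ZC) * PC) =
      PowerSeries.C (-1) * ((PowerSeries.C 1 + PowerSeries.C 2 * ZC) * PC) := by
    rw [← n2, ← n1, map_neg, ← n1]
    ring
  have g1 : Good (PowerSeries.C 1 + PowerSeries.C 2 * ZC) :=
    good_add (good_C 1) (good_mul (good_C 2) gZ)
  rw [h1.2.2.2.1, e, ev_mul h4 (good_C _) (good_mul g1 gP) hs.le, ev_mul h4 g1 gP hs.le,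
    ev_add h4 (good_C 1) (good_mul (good_C 2) gZ) hs.le, ev_mul h4 (good_C 2) gZ hs.le,
    ev_C h4, ev_C h4, ev_C h4] at h
  convert h using 1
  ring

theorem alg (h1 : S_S1) (h3 : S_S3) (h4 : S_S4) {s : ℂ} (hs : ‖s‖ ≤ 1 / 4) :
    evs PC s * (1 + 6 * evs ZC s + 6 * (evs ZC s) ^ 2) = 1 := by
  have gP : Good PC := ⟨_, h3.2.1⟩
  have gZ : Good ZC := ⟨_, h3.1⟩
  have e : PC * (1 + 6 * ZC + 6 * ZC ^ 2) = PC * (PowerSeries.C 1 + PowerSeries.C 6 * ZC +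
      PowerSeries.C 6 * (ZC * ZC)) := by
    rw [← n6, ← n1]
    ring
  have h := h1.2.1.2.2.1
  have g1 : Good (PowerSeries.C 1 + PowerSeries.C 6 * ZC) :=
    good_add (good_C 1) (good_mul (good_C 6) gZ)
  have g2 : Good (PowerSeries.C 6 * (ZC * ZC)) := good_mul (good_C 6) (good_mul gZ gZ)
  have h2 : evs (PC * (1 + 6 * ZC + 6 * ZC ^ 2)) s = evs 1 s := by rw [h]
  rw [e, ev_mul h4 gP (good_add g1 g2) hs, ev_add h4 g1 g2 hs,
    ev_add h4 (good_C 1) (good_mul (good_C 6) gZ) hs, ev_mul h4 (good_C 6) gZ hs,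
    ev_mul h4 (good_C 6) (good_mul gZ gZ) hs, ev_mul h4 gZ gZ hs, ev_C h4, ev_C h4, n1,
    ev_C h4] at h2
  linear_combination h2

/-- Uniqueness for the second order system. -/
theorem ode (x f x₁ f₁ p : ℂ → ℂ) (s : ℂ)
    (hx : ∀ u, ‖u‖ ≤ ‖s‖ → HasDerivAt x (f u * p u) u)
    (hf : ∀ u, ‖u‖ ≤ ‖s‖ → HasDerivAt f ((6 * x u ^ 2 - 2) * p u) u)
    (hx₁ : ∀ u, ‖u‖ ≤ ‖s‖ → HasDerivAt x₁ (f₁ u * p u) u)
    (hf₁ : ∀ u, ‖u‖ ≤ ‖s‖ → HasDerivAt f₁ ((6 * x₁ u ^ 2 - 2) * p u) u)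
    (P : ℝ) (hP : 0 ≤ P) (hp : ∀ u, ‖u‖ ≤ ‖s‖ → ‖p u‖ ≤ P)
    (h0 : x 0 = x₁ 0) (h0' : f 0 = f₁ 0) : x s = x₁ s ∧ f s = f₁ s := by
  have hts : ∀ t ∈ Set.Icc (0 : ℝ) 1, ‖(t : ℂ) * s‖ ≤ ‖s‖ := by
    intro t ht
    rw [norm_mul, Complex.norm_real, Real.norm_eq_abs, abs_of_nonneg ht.1]
    exact mul_le_of_le_one_left (norm_nonneg _) ht.2
  have hcomp : ∀ (g : ℂ → ℂ) (g' : ℂ) (t : ℝ), HasDerivAt g g' ((t : ℂ) * s) →
      HasDerivAt (fun t : ℝ => g ((t : ℂ) * s)) (g' * s) t := by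
    intro g g' t hg
    have h1 : HasDerivAt (fun u : ℂ => u * s) s (t : ℂ) := by
      simpa using (hasDerivAt_id (t : ℂ)).mul_const s
    have h2 : HasDerivAt (fun u : ℂ => g (u * s)) (g' * s) (t : ℂ) :=
      HasDerivAt.comp (t : ℂ) hg h1
    exact h2.comp_ofReal
  set F : ℝ → ℂ × ℂ := fun t => (x ((t : ℂ) * s), f ((t : ℂ) * s)) with hF
  set G : ℝ → ℂ × ℂ := fun t => (x₁ ((t : ℂ) * s), f₁ ((t : ℂ) * s)) with hG
  set v : ℝ → ℂ × ℂ → ℂ × ℂ := fun t Y =>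
    (Y.2 * p ((t : ℂ) * s) * s, (6 * Y.1 ^ 2 - 2) * p ((t : ℂ) * s) * s) with hv
  have dF : ∀ t ∈ Set.Icc (0 : ℝ) 1, HasDerivAt F (v t (F t)) t := by
    intro t ht
    exact (hcomp x _ t (hx _ (hts t ht))).prodMk (hcomp f _ t (hf _ (hts t ht)))
  have dG : ∀ t ∈ Set.Icc (0 : ℝ) 1, HasDerivAt G (v t (G t)) t := by
    intro t ht
    exact (hcomp x₁ _ t (hx₁ _ (hts t ht))).prodMk (hcomp f₁ _ t (hf₁ _ (hts t ht)))
  have cF : ContinuousOn F (Set.Icc 0 1) := fun t ht => (dF t ht).continuousAt.continuousWithinAt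
  have cG : ContinuousOn G (Set.Icc 0 1) := fun t ht => (dG t ht).continuousAt.continuousWithinAt
  obtain ⟨M₁, hM₁⟩ := isCompact_Icc.exists_bound_of_continuousOn cF
  obtain ⟨M₂, hM₂⟩ := isCompact_Icc.exists_bound_of_continuousOn cG
  set M := max M₁ M₂ with hM
  have hM0 : 0 ≤ M := by
    have := hM₁ 0 ⟨le_refl _, zero_le_one⟩
    exact (norm_nonneg _).trans (this.trans (le_max_left _ _))
  set K : NNReal := ⟨(12 * M + 1) * P * ‖s‖, by positivity⟩ with hK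
  have hlip : ∀ t ∈ Set.Ico (0 : ℝ) 1, LipschitzOnWith K (v t)
      (Metric.closedBall (0 : ℂ × ℂ) M) := by
    intro t ht
    have hpt := hp _ (hts t ⟨ht.1, ht.2.le⟩)
    apply LipschitzOnWith.of_dist_le_mul
    intro Y hY Y' hY'
    rw [mem_closedBall_zero_iff] at hY hY'
    rw [dist_eq_norm, dist_eq_norm]
    have a1 : ‖(Y - Y').1‖ ≤ ‖Y - Y'‖ := norm_fst_le _
    have a2 : ‖(Y - Y').2‖ ≤ ‖Y - Y'‖ := norm_snd_le _
    have hd := norm_nonneg (Y - Y')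
    have b1 : ‖Y.1‖ ≤ M := (norm_fst_le _).trans hY
    have b2 : ‖Y'.1‖ ≤ M := (norm_fst_le _).trans hY'
    have hKc : (K : ℝ) = (12 * M + 1) * P * ‖s‖ := rfl
    rw [hKc]
    rw [Prod.norm_def]
    apply max_le
    · have e : (v t Y - v t Y').1 = (Y - Y').2 * p ((t : ℂ) * s) * s := by
        simp only [hv, Prod.fst_sub, Prod.snd_sub]
        ring
      rw [e, norm_mul, norm_mul]
      calc ‖(Y - Y').2‖ * ‖p ((t : ℂ) * s)‖ * ‖s‖ ≤ ‖Y - Y'‖ * P * ‖s‖ :=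
            mul_le_mul_of_nonneg_right (mul_le_mul a2 hpt (norm_nonneg _) hd) (norm_nonneg _)
        _ = 1 * (P * ‖s‖ * ‖Y - Y'‖) := by ring
        _ ≤ (12 * M + 1) * (P * ‖s‖ * ‖Y - Y'‖) :=
            mul_le_mul_of_nonneg_right (by linarith) (by positivity)
        _ = (12 * M + 1) * P * ‖s‖ * ‖Y - Y'‖ := by ring
    · have e : (v t Y - v t Y').2 = 6 * ((Y - Y').1 * (Y.1 + Y'.1)) * p ((t : ℂ) * s) * s := by
        simp only [hv, Prod.fst_sub, Prod.snd_sub]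
        ring
      have b3 : ‖Y.1 + Y'.1‖ ≤ 2 * M := (norm_add_le _ _).trans (by linarith)
      have c6 : ‖(6 : ℂ)‖ = 6 := by simp
      rw [e, norm_mul, norm_mul, norm_mul, norm_mul, c6]
      calc 6 * (‖(Y - Y').1‖ * ‖Y.1 + Y'.1‖) * ‖p ((t : ℂ) * s)‖ * ‖s‖
          ≤ 6 * (‖Y - Y'‖ * (2 * M)) * P * ‖s‖ := by
            apply mul_le_mul_of_nonneg_right _ (norm_nonneg _)
            apply mul_le_mul _ hpt (norm_nonneg _) (by positivity)
            exact mul_le_mul_of_nonneg_left (mul_le_mul a1 b3 (norm_nonneg _) hd) (by norm_num)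
        _ = (12 * M) * (P * ‖s‖ * ‖Y - Y'‖) := by ring
        _ ≤ (12 * M + 1) * (P * ‖s‖ * ‖Y - Y'‖) :=
            mul_le_mul_of_nonneg_right (by linarith) (by positivity)
        _ = (12 * M + 1) * P * ‖s‖ * ‖Y - Y'‖ := by ring
  have key := ODE_solution_unique_of_mem_Icc_right (v := v)
    (s := fun _ => Metric.closedBall (0 : ℂ × ℂ) M) (K := K) (f := F) (g := G) (a := 0) (b := 1)
    hlip cF (fun t ht => (dF t ⟨ht.1, ht.2.le⟩).hasDerivWithinAt)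
    (fun t ht => by
      rw [mem_closedBall_zero_iff]
      exact (hM₁ t ⟨ht.1, ht.2.le⟩).trans (le_max_left _ _))
    cG (fun t ht => (dG t ⟨ht.1, ht.2.le⟩).hasDerivWithinAt)
    (fun t ht => by
      rw [mem_closedBall_zero_iff]
      exact (hM₂ t ⟨ht.1, ht.2.le⟩).trans (le_max_right _ _))
    (by simp only [hF, hG, Complex.ofReal_zero, zero_mul, h0, h0'])
  have h1 := key (⟨zero_le_one, le_refl _⟩ : (1 : ℝ) ∈ Set.Icc (0 : ℝ) 1)
  simp only [hF, hG, Complex.ofReal_one, one_mul, Prod.mk.injEq] at h1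
  exact h1

theorem mem_lat {L : PeriodPair} {w : ℝ} (hL : LemP L w) (a b : ℤ) :
    ((a : ℂ) + b * I) * w ∈ L.lattice := by
  rw [PeriodPair.mem_lattice]
  refine ⟨a, b, ?_⟩
  rw [hL.one, hL.two]
  ring

theorem notmem {L : PeriodPair} {w : ℝ} (hL : LemP L w) (a b : ℤ) (y : ℂ) (hy : ‖y‖ < 1) :
    kap a b * w + y ∉ L.lattice := by
  intro h
  rw [PeriodPair.mem_lattice] at h
  obtain ⟨m, n, hmn⟩ := h
  rw [hL.one, hL.two] at hmn
  have hre := congrArg Complex.re hmn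
  simp only [kap, Complex.add_re, Complex.mul_re, Complex.add_im, Complex.mul_im,
    Complex.intCast_re, Complex.intCast_im, Complex.ofReal_re, Complex.ofReal_im, Complex.I_re,
    Complex.I_im, mul_zero, mul_one, zero_mul, sub_zero, add_zero, zero_add, zero_sub,
    Complex.div_ofNat_re, Complex.div_ofNat_im, Complex.one_re, Complex.one_im, zero_div] at hre
  have h1 : |y.re| < 1 := lt_of_le_of_lt (Complex.abs_re_le_norm y) hy
  have hw := hL.two_le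
  have h2 : y.re = ((m : ℝ) - a - 1 / 2) * w := by linarith
  have h3 : (1 : ℝ) / 2 ≤ |(m : ℝ) - a - 1 / 2| := by
    rcases lt_or_ge m (a + 1) with hlt | hge
    · have : (m : ℝ) ≤ a := by exact_mod_cast (by omega : m ≤ a)
      rw [abs_of_nonpos (by linarith)]
      linarith
    · have : (a : ℝ) + 1 ≤ m := by exact_mod_cast hge
      rw [abs_of_nonneg (by linarith)]
      linarith
  rw [h2, abs_mul, abs_of_pos (by linarith : (0 : ℝ) < w)] at h1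
  nlinarith

theorem main (h1 : S_S1) (h3 : S_S3) (h4 : S_S4) {L : PeriodPair} {w : ℝ} (hL : LemP L w)
    (a b : ℤ) (s : ℂ) (hs : ‖s‖ ≤ 1 / 8) :
    L.weierstrassP (kap a b * w + evs psiC s) = 1 + 2 * evs ZC s ∧
    L.derivWeierstrassP (kap a b * w + evs psiC s) = 4 * s := by
  have hb : ∀ u : ℂ, ‖u‖ ≤ ‖s‖ → ‖u‖ < 1 / 4 := fun u hu => by linarith
  have hnot : ∀ u : ℂ, ‖u‖ ≤ ‖s‖ → kap a b * w + evs psiC u ∉ L.lattice := by
    intro u hu
    apply notmem hL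
    have := ((h4 (1 / 4) (by norm_num)).1 psiC _ u h3.2.2.1 (hb u hu).le).2
    linarith
  have hz : ∀ u : ℂ, ‖u‖ ≤ ‖s‖ →
      HasDerivAt (fun u => kap a b * w + evs psiC u) (evs PC u) u := fun u hu =>
    (dpsi h1 h3 h4 (hb u hu)).const_add _
  have z0 : kap a b * w + evs psiC 0 = (w : ℂ) / 2 + ((a : ℂ) + b * I) * w := by
    rw [(h4 (1 / 4) (by norm_num)).2.2.2.1, h1.2.2.2.2.1, kap]
    ring
  have key := ode (fun u => L.weierstrassP (kap a b * w + evs psiC u))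
    (fun u => L.derivWeierstrassP (kap a b * w + evs psiC u))
    (fun u => 1 + 2 * evs ZC u) (fun u => 4 * u) (evs PC) s
    (fun u hu => HasDerivAt.comp u (hasDerivAt_weierstrassP L (hnot u hu)) (hz u hu))
    (fun u hu => by
      have h := HasDerivAt.comp u (hasDerivAt_derivWeierstrassP L (hnot u hu)) (hz u hu)
      rw [hL.g2] at h
      exact h.congr_deriv (by ring))
    (fun u hu => by
      have h := ((dZ h1 h3 h4 (hb u hu)).const_mul 2).const_add 1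
      exact h.congr_deriv (by ring))
    (fun u hu => by
      have h : HasDerivAt (fun u : ℂ => 4 * u) (4 * 1) u := (hasDerivAt_id u).const_mul 4
      have ha := alg h1 h3 h4 (hb u hu).le
      exact h.congr_deriv (by linear_combination (-4) * ha))
    (5 / 2) (by norm_num)
    (fun u hu => ((h4 (1 / 4) (by norm_num)).1 PC _ u h3.2.1 (hb u hu).le).2)
    (by
      change L.weierstrassP (kap a b * w + evs psiC 0) = 1 + 2 * evs ZC 0
      rw [z0, L.weierstrassP_add_coe _ ⟨_, mem_lat hL a b⟩, hL.P1,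
        (h4 (1 / 4) (by norm_num)).2.2.2.1, h1.2.1.1]
      ring)
    (by
      change L.derivWeierstrassP (kap a b * w + evs psiC 0) = 4 * 0
      rw [z0, derivWeierstrassP_eq_zero, mul_zero]
      have h := mem_lat hL (2 * a + 1) (2 * b)
      convert h using 1
      push_cast
      ring)
  exact key

end S6

/-- Statement S6. -/
theorem t_S6 (h1 : S_S1) (h3 : S_S3) (h4 : S_S4) (e9 : S_E9) : S_S6 := by
  intro L w hL a b s hs
  have hs4 : ∀ t ∈ Set.Icc (0 : ℝ) 1, ‖(t : ℂ) * s‖ ≤ 1 / 8 := by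
    intro t ht
    rw [norm_mul, Complex.norm_real, Real.norm_eq_abs, abs_of_nonneg ht.1]
    exact (mul_le_of_le_one_left (norm_nonneg _) ht.2).trans hs
  have hnot : ∀ u : ℂ, ‖u‖ ≤ 1 / 8 → kap a b * w + evs psiC u ∉ L.lattice := by
    intro u hu
    apply S6.notmem hL
    have := ((h4 (1 / 8) (by norm_num)).1 psiC _ u h3.2.2.2.2.2.1 hu).2
    linarith
  have hm := S6.main h1 h3 h4 hL a b s hs
  refine ⟨hnot s hs, hm.1, hm.2, ?_,
    ((h4 (1 / 8) (by norm_num)).1 psiC _ s h3.2.2.2.2.2.1 hs).2,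
    ((h4 (1 / 8) (by norm_num)).1 zetC _ s h3.2.2.2.2.2.2 hs).2⟩
  have hd : ∀ u : ℂ, ‖u‖ ≤ 1 / 8 → HasDerivAt
      (fun u => zetaW L (kap a b * w + evs psiC u) - evs zetC u) 0 u := by
    intro u hu
    have hu4 : ‖u‖ < 1 / 4 := by linarith
    have d1 := HasDerivAt.comp u (hasDerivAt_zetaW L (hnot u hu))
      ((S6.dpsi h1 h3 h4 hu4).const_add (kap a b * w))
    have d2 := d1.sub (S6.dzet h1 h3 h4 hu4)
    exact d2.congr_deriv (by rw [(S6.main h1 h3 h4 hL a b u hu).1]; ring)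
  have hdt : ∀ t ∈ Set.Icc (0 : ℝ) 1, HasDerivAt
      (fun t : ℝ => zetaW L (kap a b * w + evs psiC ((t : ℂ) * s)) - evs zetC ((t : ℂ) * s))
      0 t := by
    intro t ht
    have e1 : HasDerivAt (fun u : ℂ => u * s) s (t : ℂ) := by
      simpa using (hasDerivAt_id (t : ℂ)).mul_const s
    have e2 := HasDerivAt.comp (t : ℂ) (hd _ (hs4 t ht)) e1
    rw [zero_mul] at e2
    exact e2.comp_ofReal
  have hc := constant_of_has_deriv_right_zero
    (fun t ht => (hdt t ht).continuousAt.continuousWithinAt)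
    (fun t ht => (hdt t ⟨ht.1, ht.2.le⟩).hasDerivWithinAt) 1
    (⟨zero_le_one, le_refl _⟩ : (1 : ℝ) ∈ Set.Icc (0 : ℝ) 1)
  simp only [Complex.ofReal_one, one_mul, Complex.ofReal_zero, zero_mul] at hc
  have z0 : kap a b * w + evs psiC 0 = (w : ℂ) / 2 + ((a : ℂ) + b * I) * w := by
    rw [(h4 (1 / 4) (by norm_num)).2.2.2.1, h1.2.2.2.2.1, kap]
    ring
  have ze0 : evs zetC 0 = 0 := by
    rw [(h4 (1 / 4) (by norm_num)).2.2.2.1, h1.2.2.2.2.2]
  have hw2 : (w : ℂ) / 2 ∉ L.lattice := by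
    have h := S6.notmem hL 0 0 0 (by simp)
    have e : kap 0 0 * w + 0 = (w : ℂ) / 2 := by
      rw [kap]; push_cast; ring
    rwa [e] at h
  have hwm : (w : ℂ) ∈ L.lattice := by
    have h := S6.mem_lat hL 1 0
    have e : (((1 : ℤ) : ℂ) + ((0 : ℤ) : ℂ) * I) * w = w := by push_cast; ring
    rwa [e] at h
  have heta := etaW_eq_two_mul L hwm hw2
  rw [hL.eta] at heta
  have h9 := (e9 L w hL).1 a b
  have hz0 : zetaW L (kap a b * w + evs psiC 0) = kap a (-b) * (Real.pi / w) := by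
    rw [z0, zetaW_add L hw2 (S6.mem_lat hL a b), h9, kap]
    push_cast at heta ⊢
    linear_combination (-1 / 2) * heta
  rw [hz0, ze0] at hc
  linear_combination hc

end Pool.Agent.MPb60633
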