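import Pool.Agent.Lib.MP_b60633_nt.SpecD

/-!
# MP_b60633_nt, S7: products of positive integers with bounded sum
-/

set_option autoImplicit false

namespace Pool.Agent.MPb60633

open Complex PowerSeries Pool.Agent.Lib.Ribet4b482e

/-- Statement S7. -/
theorem t_S7 : S_S7 := by
  intro h
  induction h with
  | zero =>
    intro T l _ _
    simp
  | succ h ih =>
    intro T l h1 hT
    obtain ⟨m, _, hm⟩ := Finset.exists_min_image (Finset.univ : Finset (Fin (h + 1))) l
      ⟨0, Finset.mem_univ _⟩
    rw [Fin.prod_univ_succAbove l m, Finset.prod_Icc_succ_top (by omega), mul_comm]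
    apply mul_dvd_mul
    · apply ih T (fun i => l (m.succAbove i)) (fun i => h1 _)
      rw [Fin.sum_univ_succAbove l m] at hT
      omega
    · have h2 : (h + 1) * l m ≤ T := by
        refine le_trans ?_ hT
        have h3 := Finset.card_nsmul_le_sum (Finset.univ : Finset (Fin (h + 1))) l (l m)
          (fun x hx => hm x hx)
        simpa using h3
      have h4 : l m ≤ T / (h + 1) := by
        rw [Nat.le_div_iff_mul_le (by omega), mul_comm]
        exact h2
      rw [Nat.lcmUpto]
      exact Finset.dvd_lcm (f := id) (Finset.mem_Icc.mpr ⟨h1 m, h4⟩)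

end Pool.Agent.MPb60633
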