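import Pool.Agent.Lib.MP_b60633_nt.SpecD

/-!
# MP_b60633_nt, S8: the common denominator
-/

set_option autoImplicit false

namespace Pool.Agent.MPb60633

open Complex PowerSeries Pool.Agent.Lib.Ribet4b482e

namespace S8

/-- `D x` is an integer. -/
def IsD (D : ℕ) (x : ℚ) : Prop := ∃ n : ℤ, (D : ℚ) * x = n

theorem IsD_sum {ι : Type*} (D : ℕ) (s : Finset ι) (f : ι → ℚ) (h : ∀ i ∈ s, IsD D (f i)) :
    IsD D (∑ i ∈ s, f i) := by
  classical
  induction s using Finset.induction_on with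
  | empty => exact ⟨0, by simp⟩
  | insert a s ha ih =>
    obtain ⟨n, hn⟩ := h a (Finset.mem_insert_self a s)
    obtain ⟨m, hm⟩ := ih (fun i hi => h i (Finset.mem_insert_of_mem hi))
    refine ⟨n + m, ?_⟩
    rw [Finset.sum_insert ha, mul_add, hn, hm]
    push_cast
    ring

theorem IsD_mul (D : ℕ) (x : ℚ) (m : ℤ) (h : IsD D x) : IsD D (x * m) := by
  obtain ⟨n, hn⟩ := h
  refine ⟨n * m, ?_⟩
  rw [← mul_assoc, hn]
  push_cast
  ring

theorem psi_c (n : ℕ) : ∃ c : ℤ, coeff n psiQ = (c : ℚ) / n :=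
  ⟨_, by rw [psiQ, coeff_mk]⟩

theorem zet_c (n : ℕ) : ∃ c : ℤ, coeff n zetQ = (c : ℚ) / n :=
  ⟨-(PowerSeries.coeff (n - 1) ((1 + 2 * Zs) * Ps)), by rw [zetQ, coeff_mk]; push_cast; ring⟩

theorem prod_IsD (h7 : S_S7) (h l T : ℕ) (hl : h ≤ 2 * l) (f : Fin h → PowerSeries ℚ)
    (hf : ∀ i n, ∃ c : ℤ, coeff n (f i) = (c : ℚ) / n) (u : Fin h → ℕ) (hu : ∑ i, u i ≤ T) :
    IsD (Den l T) (∏ i, coeff (u i) (f i)) := by
  choose c hc using hf
  have e : ∏ i, coeff (u i) (f i) = (∏ i, (c i (u i) : ℚ)) / ∏ i, (u i : ℚ) := by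
    rw [← Finset.prod_div_distrib]
    exact Finset.prod_congr rfl fun i _ => hc i (u i)
  rw [e]
  by_cases h0 : ∀ i, 1 ≤ u i
  · have h1 : (∏ i, u i) ∣ Den l T := by
      refine (h7 h T u h0 hu).trans ?_
      rw [Den]
      exact Finset.prod_dvd_prod_of_subset _ _ _ (Finset.Icc_subset_Icc_right hl)
    obtain ⟨q, hq⟩ := h1
    have hne : (∏ i, (u i : ℚ)) ≠ 0 := by
      rw [Finset.prod_ne_zero_iff]
      intro i _
      have := h0 i
      exact_mod_cast (by omega : u i ≠ 0)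
    refine ⟨(q : ℤ) * ∏ i, c i (u i), ?_⟩
    rw [hq]
    push_cast
    field_simp
  · push Not at h0
    obtain ⟨i, hi⟩ := h0
    have hz : (∏ i, (u i : ℚ)) = 0 := by
      apply Finset.prod_eq_zero (Finset.mem_univ i)
      have : u i = 0 := by omega
      rw [this]
      simp
    refine ⟨0, ?_⟩
    rw [hz]
    simp

theorem coeff_IsD (h7 : S_S7) (l T a b t : ℕ) (hab : a + b ≤ 2 * l) (ht : t ≤ T) :
    IsD (Den l T) (coeff t (psiQ ^ a * zetQ ^ b)) := by
  set f : Fin (a + b) → PowerSeries ℚ :=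
    Fin.append (fun _ : Fin a => psiQ) (fun _ : Fin b => zetQ) with hf
  have e : psiQ ^ a * zetQ ^ b = ∏ i, f i := by
    rw [Fin.prod_univ_add]
    simp [hf, Fin.append_left, Fin.append_right]
  rw [e, PowerSeries.coeff_prod]
  apply IsD_sum
  intro u hu
  rw [Finset.mem_finsuppAntidiag] at hu
  apply prod_IsD h7 (a + b) l T hab f _ (fun i => u i)
  · rw [hu.1]
    exact ht
  · intro i n
    refine Fin.addCases (fun j => ?_) (fun j => ?_) i
    · rw [hf, Fin.append_left]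
      exact psi_c n
    · rw [hf, Fin.append_right]
      exact zet_c n

end S8

/-- Statement S8. -/
theorem t_S8 (h7 : S_S7) : S_S8 := by
  intro l T a b k e t hab ht
  have h : S8.IsD (Den l T) (cf a b k e t) := by
    rw [cf, PowerSeries.coeff_mul]
    apply S8.IsD_sum
    intro p hp
    rw [Finset.HasAntidiagonal.mem_antidiagonal] at hp
    rw [PowerSeries.coeff_map, eq_intCast]
    apply S8.IsD_mul
    exact S8.coeff_IsD h7 l T a b p.1 hab (by omega)
  obtain ⟨n, hn⟩ := h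
  rw [cz, hn, Rat.num_intCast]

end Pool.Agent.MPb60633
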