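import Pool.Agent.Lib.MP_b60633_nt.SpecD

/-!
# MP_b60633_nt, S9: size of the common denominator
-/

set_option autoImplicit false

namespace Pool.Agent.MPb60633

open Complex PowerSeries Pool.Agent.Lib.Ribet4b482e

/-- Statement S9. -/
theorem t_S9 : S_S9 := by
  intro l T hl hT
  have hpos : 0 < Den l T := Finset.prod_pos fun i _ => Nat.lcmUpto_pos _
  refine ⟨hpos, ?_⟩
  have hT1 : (1 : ℝ) ≤ T := by exact_mod_cast (by omega : 1 ≤ T)
  have e1 : Real.log (Den l T) =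
      ∑ h ∈ Finset.Icc 1 (2 * l), Chebyshev.psi ((T / h : ℕ) : ℝ) := by
    rw [Den, Nat.cast_prod, Real.log_prod]
    · apply Finset.sum_congr rfl
      intro h _
      rw [Chebyshev.psi_eq_log_lcmUpto]
    · intro i _
      exact_mod_cast (Nat.lcmUpto_ne_zero _)
  have e2 : ∀ h ∈ Finset.Icc 1 (2 * l), Chebyshev.psi ((T / h : ℕ) : ℝ) ≤
      Real.log 4 * T * (h : ℝ)⁻¹ + 2 * (Real.sqrt T * Real.log T) := by
    intro h hh
    rw [Finset.mem_Icc] at hh
    have h1 : 1 ≤ T / h := by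
      rw [Nat.le_div_iff_mul_le (by omega)]
      omega
    have h1' : (1 : ℝ) ≤ ((T / h : ℕ) : ℝ) := by exact_mod_cast h1
    have h2 : ((T / h : ℕ) : ℝ) ≤ (T : ℝ) / h := Nat.cast_div_le
    have h3 : ((T / h : ℕ) : ℝ) ≤ T := by exact_mod_cast Nat.div_le_self T h
    have h4 := Chebyshev.psi_le h1'
    have h5 : Real.sqrt ((T / h : ℕ) : ℝ) * Real.log ((T / h : ℕ) : ℝ) ≤
        Real.sqrt T * Real.log T :=
      mul_le_mul (Real.sqrt_le_sqrt h3) (Real.log_le_log (by linarith) h3)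
        (Real.log_nonneg h1') (Real.sqrt_nonneg _)
    have h6 : Real.log 4 * ((T / h : ℕ) : ℝ) ≤ Real.log 4 * (T * (h : ℝ)⁻¹) := by
      apply mul_le_mul_of_nonneg_left _ (Real.log_nonneg (by norm_num))
      rw [← div_eq_mul_inv]
      exact h2
    calc Chebyshev.psi ((T / h : ℕ) : ℝ) ≤ Real.log 4 * ((T / h : ℕ) : ℝ) +
          2 * Real.sqrt ((T / h : ℕ) : ℝ) * Real.log ((T / h : ℕ) : ℝ) := h4
      _ ≤ Real.log 4 * T * (h : ℝ)⁻¹ + 2 * (Real.sqrt T * Real.log T) := by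
          rw [mul_assoc 2, mul_assoc (Real.log 4)]
          linarith
  have e3 := harmonic_le_one_add_log (2 * l)
  rw [harmonic_eq_sum_Icc] at e3
  push_cast at e3
  have hl4 : 0 ≤ Real.log 4 * T := mul_nonneg (Real.log_nonneg (by norm_num)) (by linarith)
  rw [e1]
  calc ∑ h ∈ Finset.Icc 1 (2 * l), Chebyshev.psi ((T / h : ℕ) : ℝ)
      ≤ ∑ h ∈ Finset.Icc 1 (2 * l),
        (Real.log 4 * T * (h : ℝ)⁻¹ + 2 * (Real.sqrt T * Real.log T)) := Finset.sum_le_sum e2
    _ = Real.log 4 * T * ∑ h ∈ Finset.Icc 1 (2 * l), (h : ℝ)⁻¹ +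
        4 * l * (Real.sqrt T * Real.log T) := by
        rw [Finset.sum_add_distrib, ← Finset.mul_sum, Finset.sum_const, Nat.card_Icc,
          nsmul_eq_mul]
        congr 1
        push_cast [Nat.add_sub_cancel]
        ring
    _ ≤ Real.log 4 * T * (1 + Real.log (2 * l)) + 4 * l * (Real.sqrt T * Real.log T) := by
        have := mul_le_mul_of_nonneg_left e3 hl4
        linarith

end Pool.Agent.MPb60633
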