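import Pool.Agent.Lib.MP_b60633_nt.SpecD

/-! # Z1: kernels of powers of a nilpotent operator -/

set_option autoImplicit false

namespace Pool.Agent.MPb60633

open Complex Pool.Agent.Lib.Ribet4b482e Module

namespace Z1

theorem sum_ineq (d : ℕ → ℕ) (hd : Antitone d) (M N : ℕ) (h : M ≤ N) :
    M * ∑ j ∈ Finset.range N, d j ≤ N * ∑ j ∈ Finset.range M, d j := by
  induction N, h using Nat.le_induction with
  | base => exact le_rfl
  | succ N hMN ih =>
    rw [Finset.sum_range_succ, mul_add, add_mul, one_mul]
    apply add_le_add ih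
    calc M * d N = ∑ _j ∈ Finset.range M, d N := by
          rw [Finset.sum_const, Finset.card_range, smul_eq_mul]
      _ ≤ ∑ j ∈ Finset.range M, d j := by
          apply Finset.sum_le_sum
          intro j hj
          exact hd ((Finset.mem_range.1 hj).le.trans hMN)

/-- rank-nullity on a subspace -/
theorem rn (V W : Type) [AddCommGroup V] [Module ℂ V] [FiniteDimensional ℂ V] [AddCommGroup W]
    [Module ℂ W] [FiniteDimensional ℂ W] (f : V →ₗ[ℂ] W) (p : Submodule ℂ V) :
    finrank ℂ (p.map f) + finrank ℂ (p ⊓ LinearMap.ker f : Submodule ℂ V) = finrank ℂ p := by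
  have h := LinearMap.finrank_range_add_finrank_ker (f.domRestrict p)
  have e1 : LinearMap.range (f.domRestrict p) = p.map f := by
    ext x
    constructor
    · rintro ⟨y, rfl⟩
      exact ⟨y, y.2, rfl⟩
    · rintro ⟨y, hy, rfl⟩
      exact ⟨⟨y, hy⟩, rfl⟩
  rw [e1, LinearMap.ker_domRestrict, ← Submodule.finrank_map_subtype_eq,
    Submodule.map_comap_subtype] at h
  exact h

end Z1

theorem t_Z1 : S_Z1 := by
  intro V _ _ _ D N M hN hMN
  set r : ℕ → ℕ := fun j => finrank ℂ (LinearMap.range (D ^ j)) with hr
  set d : ℕ → ℕ := fun j => finrank ℂ (LinearMap.range (D ^ j) ⊓ LinearMap.ker D : Submodule ℂ V)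
    with hd
  have hstep : ∀ j, r (j + 1) + d j = r j := by
    intro j
    have h := Z1.rn V V D (LinearMap.range (D ^ j))
    have e : (LinearMap.range (D ^ j)).map D = LinearMap.range (D ^ (j + 1)) := by
      rw [← LinearMap.range_comp, pow_succ']
      rfl
    rw [e] at h
    exact h
  have hanti : Antitone d := by
    apply antitone_nat_of_succ_le
    intro j
    apply Submodule.finrank_mono
    apply inf_le_inf_right
    rintro _ ⟨x, rfl⟩
    exact ⟨D x, by rw [pow_succ]; rfl⟩
  have hr0 : r 0 = finrank ℂ V := by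
    have : LinearMap.range (D ^ 0) = ⊤ := LinearMap.range_id
    change finrank ℂ (LinearMap.range (D ^ 0)) = finrank ℂ V
    rw [this, finrank_top]
  have hsum : ∀ j, ∑ i ∈ Finset.range j, d i + r j = finrank ℂ V := by
    intro j
    induction j with
    | zero => rw [Finset.sum_range_zero, zero_add, hr0]
    | succ j ih =>
      rw [Finset.sum_range_succ, add_assoc, add_comm (d j), hstep, ih]
  have hrN : r N = 0 := by
    have : LinearMap.range (D ^ N) = ⊥ := by rw [hN, LinearMap.range_zero]
    change finrank ℂ (LinearMap.range (D ^ N)) = 0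
    rw [this, finrank_bot]
  have h1 := Z1.sum_ineq d hanti M N hMN
  have h2 := hsum N
  rw [hrN, add_zero] at h2
  have h3 := LinearMap.finrank_range_add_finrank_ker (D ^ M)
  have h4 := hsum M
  have h5 : finrank ℂ (LinearMap.ker (D ^ M)) = ∑ i ∈ Finset.range M, d i := by
    change r M + _ = _ at h3
    omega
  rw [h5, ← h2]
  exact h1

end Pool.Agent.MPb60633
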