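import Pool.Agent.Lib.MP_b60633_nt.W.Z8

/-! # Z10: the dimension of the span of the translates at the grid points -/

set_option autoImplicit false

namespace Pool.Agent.MPb60633

open Complex Pool.Agent.Lib.Ribet4b482e Module

namespace Z10

/-- the translation as an algebra homomorphism -/
noncomputable def TrA (a b : ℂ) : R4 →ₐ[ℂ] R4 :=
  MvPolynomial.aeval (R := ℂ) ![(MvPolynomial.X 0 + MvPolynomial.C a : R4),
    (MvPolynomial.X 1 + MvPolynomial.C b : R4), (MvPolynomial.X 2 : R4),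
    (MvPolynomial.X 3 : R4)]

theorem TrA_comp (a b a' b' : ℂ) : (TrA a b).comp (TrA a' b') = TrA (a + a') (b + b') := by
  apply MvPolynomial.algHom_ext
  intro i
  fin_cases i
  · simp [TrA, add_assoc]
  · simp [TrA, add_assoc]
  · simp [TrA]
  · simp [TrA]

theorem Tr_comp (a b a' b' : ℂ) (F : R4) : Tr a b (Tr a' b' F) = Tr (a + a') (b + b') F := by
  have h := congrArg (fun f : R4 →ₐ[ℂ] R4 => f F) (TrA_comp a b a' b')
  exact h

theorem TrA_zero : TrA 0 0 = AlgHom.id ℂ R4 := by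
  apply MvPolynomial.algHom_ext
  intro i
  fin_cases i <;> simp [TrA]

theorem Tr_zero (F : R4) : Tr 0 0 F = F := by
  have h := congrArg (fun f : R4 →ₐ[ℂ] R4 => f F) TrA_zero
  exact h

end Z10

theorem t_Z10 (hZ2 : S_Z2) (hZ8 : S_Z8) : S_Z10 := by
  intro l n M F E α β w h a₀ b₀ hEB hFE hfin hst hspan hα hβ hM
  set N := 2 * l + 1 with hN
  set x : Module.End ℂ E := d0.restrict (fun B hB => (hst B hB).1) with hx
  set y : Module.End ℂ E := d1.restrict (fun B hB => (hst B hB).2) with hy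
  have hsx : ∀ z, E.subtype (x z) = d0 (E.subtype z) := fun z => rfl
  have hsy : ∀ z, E.subtype (y z) = d1 (E.subtype z) := fun z => rfl
  have hxy : Commute x y := by
    apply LinearMap.ext
    intro z
    apply Subtype.ext
    exact LinearMap.congr_fun Z8.d_comm (z : R4)
  have hxn : x ^ (l + 1) = 0 := by
    apply LinearMap.ext
    intro z
    apply E.injective_subtype
    rw [Z8.map_pow E.subtype x d0 hsx, LinearMap.zero_apply, map_zero]
    exact Z8.d0_nil (Nat.lt_succ_self l) z (hEB z.2)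
  have hyn : y ^ (l + 1) = 0 := by
    apply LinearMap.ext
    intro z
    apply E.injective_subtype
    rw [Z8.map_pow E.subtype y d1 hsy, LinearMap.zero_apply, map_zero]
    exact Z8.d1_nil (Nat.lt_succ_self l) z (hEB z.2)
  have hs : ∀ s t : ℂ, (s • x + t • y) ^ N = 0 := by
    intro s t
    apply Commute.add_pow_eq_zero_of_add_le_succ_of_pow_eq_zero
      ((hxy.smul_left s).smul_right t) (m := l + 1) (n := l + 1)
    · rw [smul_pow, hxn, smul_zero]
    · rw [smul_pow, hyn, smul_zero]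
    · omega
  set D₁ : Module.End ℂ E := α • x + β • y with hD₁
  set D₂ : Module.End ℂ E := I • (α • x - β • y) with hD₂
  have hD₁N : D₁ ^ N = 0 := hs α β
  have hD₂N : D₂ ^ N = 0 := by
    rw [hD₂, Z8.D2_eq]
    exact hs _ _
  have hcD : Commute D₁ D₂ := Z8.D_comm x y hxy α β
  -- translations preserve `E`
  have hTr : ∀ (a b : ℂ) (B : E), Tr a b (B : R4) = E.subtype (GG x y N B a b) := by
    intro a b B
    rw [Z8.map_GG E.subtype x y d0 d1 hsx hsy,
      ← Z8.taylor (l := l) (n := n) (N := N) (by omega) a b (B : R4) (hEB B.2)]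
    rfl
  set F' : E := ⟨F, hFE⟩ with hF'
  set F₀ : E := GG x y N F' (-(w / 2)) (-(h / 2)) with hF₀
  have hF₀c : (F₀ : R4) = Tr (-(w / 2)) (-(h / 2)) F := (hTr _ _ F').symm
  have hback : GG x y N F₀ (w / 2) (h / 2) = F' := by
    apply E.injective_subtype
    rw [← hTr, hF₀c, Z10.Tr_comp, add_neg_cancel, add_neg_cancel, Z10.Tr_zero]
    rfl
  -- the span of the `D₁^i D₂^j F₀`
  set W : Submodule ℂ E := Submodule.span ℂ (Set.range fun ij : ℕ × ℕ =>
    (D₁ ^ ij.1 * D₂ ^ ij.2) F₀) with hW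
  have hW1 : W ≤ W.comap D₁ := by
    conv_lhs => rw [hW]
    rw [Submodule.span_le]
    rintro _ ⟨ij, rfl⟩
    change D₁ ((D₁ ^ ij.1 * D₂ ^ ij.2) F₀) ∈ W
    rw [← Module.End.mul_apply, ← mul_assoc, ← pow_succ']
    exact Submodule.subset_span ⟨(ij.1 + 1, ij.2), rfl⟩
  have hW2 : W ≤ W.comap D₂ := by
    conv_lhs => rw [hW]
    rw [Submodule.span_le]
    rintro _ ⟨ij, rfl⟩
    change D₂ ((D₁ ^ ij.1 * D₂ ^ ij.2) F₀) ∈ W
    rw [← Module.End.mul_apply, ← mul_assoc, ← (hcD.pow_left ij.1).eq, mul_assoc, ← pow_succ']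
    exact Submodule.subset_span ⟨(ij.1, ij.2 + 1), rfl⟩
  have hII : ∀ z : E, I • (I • z) = -z := by
    intro z
    rw [smul_smul, I_mul_I, neg_one_smul]
  have hWx : ∀ z ∈ W, x z ∈ W := by
    intro z hz
    have e : x z = (2 * α)⁻¹ • (D₁ z - I • D₂ z) := by
      have e1 : D₁ z - I • D₂ z = (2 * α) • x z := by
        rw [hD₁, hD₂]
        simp only [LinearMap.add_apply, LinearMap.smul_apply, LinearMap.sub_apply]
        rw [hII, sub_neg_eq_add, two_mul, add_smul]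
        abel
      rw [e1, smul_smul, inv_mul_cancel₀ (mul_ne_zero two_ne_zero hα), one_smul]
    rw [e]
    exact Submodule.smul_mem _ _ (Submodule.sub_mem _ (hW1 hz) (Submodule.smul_mem _ _ (hW2 hz)))
  have hWy : ∀ z ∈ W, y z ∈ W := by
    intro z hz
    have e : y z = (2 * β)⁻¹ • (D₁ z + I • D₂ z) := by
      have e1 : D₁ z + I • D₂ z = (2 * β) • y z := by
        rw [hD₁, hD₂]
        simp only [LinearMap.add_apply, LinearMap.smul_apply, LinearMap.sub_apply]
        rw [hII, neg_sub, two_mul, add_smul]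
        abel
      rw [e1, smul_smul, inv_mul_cancel₀ (mul_ne_zero two_ne_zero hβ), one_smul]
    rw [e]
    exact Submodule.smul_mem _ _ (Submodule.add_mem _ (hW1 hz) (Submodule.smul_mem _ _ (hW2 hz)))
  have hWxp : ∀ (i : ℕ), ∀ z ∈ W, (x ^ i) z ∈ W := by
    intro i
    induction i with
    | zero => exact fun z hz => hz
    | succ i ih =>
      intro z hz
      rw [pow_succ, Module.End.mul_apply]
      exact ih _ (hWx z hz)
  have hWyp : ∀ (i : ℕ), ∀ z ∈ W, (y ^ i) z ∈ W := by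
    intro i
    induction i with
    | zero => exact fun z hz => hz
    | succ i ih =>
      intro z hz
      rw [pow_succ, Module.End.mul_apply]
      exact ih _ (hWy z hz)
  have hF₀W : F₀ ∈ W := Submodule.subset_span ⟨(0, 0), by simp⟩
  have hF'W : F' ∈ W := by
    rw [← hback]
    unfold GG
    apply Submodule.sum_mem
    intro i _
    apply Submodule.sum_mem
    intro j _
    exact Submodule.smul_mem _ _ (hWxp i _ (hWyp j _ hF₀W))
  have htop : W = ⊤ := by
    rw [eq_top_iff]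
    intro B _
    have h1 := hspan B B.2
    have h2 : Submodule.span ℂ (Set.range fun ij : ℕ × ℕ => (d0 ^ ij.1 * d1 ^ ij.2) F) ≤
        W.map E.subtype := by
      rw [Submodule.span_le]
      rintro _ ⟨ij, rfl⟩
      refine ⟨(x ^ ij.1 * y ^ ij.2) F', hWxp _ _ (hWyp _ _ hF'W), ?_⟩
      rw [Module.End.mul_apply, Z8.map_pow E.subtype x d0 hsx, Z8.map_pow E.subtype y d1 hsy]
      rfl
    obtain ⟨B', hB', e⟩ := h2 h1
    have e' : B' = B := Subtype.ext e
    rw [← e']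
    exact hB'
  have key := hZ2 E D₁ D₂ F₀ N M ((a₀ : ℂ) + 1 / 2) (b₀ : ℂ) hcD.eq hD₁N hD₂N hM htop
  refine key.trans (Nat.mul_le_mul_left _ (le_of_eq ?_))
  rw [← Submodule.finrank_map_subtype_eq, Submodule.map_span, ← Set.range_comp]
  have hfun : (E.subtype ∘ fun pq : Fin M × Fin M => GG D₁ D₂ N F₀ ((a₀ : ℂ) + 1 / 2 + (pq.1 : ℕ))
      ((b₀ : ℂ) + (pq.2 : ℕ))) = fun pq : Fin M × Fin M =>
      Tr (kap (a₀ + (pq.1 : ℕ)) (b₀ + (pq.2 : ℕ)) * α - w / 2)
        (kap (a₀ + (pq.1 : ℕ)) (-(b₀ + (pq.2 : ℕ))) * β - h / 2) F := by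
   funext pq
   have h3 := Z8.map_GG E.subtype D₁ D₂ (α • d0 + β • d1) (I • (α • d0 - β • d1))
     (fun z => rfl) (fun z => rfl) N F₀ ((a₀ : ℂ) + 1 / 2 + (pq.1 : ℕ)) ((b₀ : ℂ) + (pq.2 : ℕ))
   have h4 := (hZ8 l n).2.2.2 α β ((a₀ : ℂ) + 1 / 2 + (pq.1 : ℕ)) ((b₀ : ℂ) + (pq.2 : ℕ))
     (F₀ : R4) (hEB F₀.2)
   rw [Function.comp_apply]
   refine h3.trans (h4.symm.trans ?_)
   rw [hF₀c, Z10.Tr_comp]
   have e1 : ((a₀ : ℂ) + 1 / 2 + (pq.1 : ℕ)) * α + ((b₀ : ℂ) + (pq.2 : ℕ)) * (I * α) + -(w / 2) =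
       kap (a₀ + (pq.1 : ℕ)) (b₀ + (pq.2 : ℕ)) * α - w / 2 := by
     unfold kap
     push_cast
     ring
   have e2 : ((a₀ : ℂ) + 1 / 2 + (pq.1 : ℕ)) * β - ((b₀ : ℂ) + (pq.2 : ℕ)) * (I * β) + -(h / 2) =
       kap (a₀ + (pq.1 : ℕ)) (-(b₀ + (pq.2 : ℕ))) * β - h / 2 := by
     unfold kap
     push_cast
     ring
   rw [e1, e2]
  rw [hfun]

end Pool.Agent.MPb60633
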