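import Pool.Agent.Lib.MP_b60633_nt.SpecZ

/-!
# MP_b60633_nt: linearity of `Hf`, monomials (helper11)
-/

set_option autoImplicit false

namespace Pool.Agent.MPb60633

open Complex Pool.Agent.Lib.Ribet4b482e Module

namespace HfLin

lemma Hf_eq_sum (L : PeriodPair) (P : ℕ) (F : R4) (z : ℂ) (S : Finset (Fin 4 →₀ ℕ))
    (hS : F.support ⊆ S) :
    Hf L P F z = ∑ c ∈ S, F.coeff c * gfun L P (c 0) (c 1) (c 2) (c 3) z := by
  unfold Hf
  apply Finset.sum_subset hS
  intro c _ hc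
  rw [MvPolynomial.notMem_support_iff.mp hc, zero_mul]

lemma Hf_add (L : PeriodPair) (P : ℕ) (F G : R4) (z : ℂ) :
    Hf L P (F + G) z = Hf L P F z + Hf L P G z := by
  classical
  rw [Hf_eq_sum L P (F + G) z (F.support ∪ G.support) MvPolynomial.support_add,
    Hf_eq_sum L P F z (F.support ∪ G.support) Finset.subset_union_left,
    Hf_eq_sum L P G z (F.support ∪ G.support) Finset.subset_union_right,
    ← Finset.sum_add_distrib]
  apply Finset.sum_congr rfl
  intro c _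
  rw [MvPolynomial.coeff_add]
  ring

lemma Hf_smul (L : PeriodPair) (P : ℕ) (a : ℂ) (F : R4) (z : ℂ) :
    Hf L P (a • F) z = a * Hf L P F z := by
  classical
  rw [Hf_eq_sum L P (a • F) z F.support MvPolynomial.support_smul]
  unfold Hf
  rw [Finset.mul_sum]
  apply Finset.sum_congr rfl
  intro c _
  rw [MvPolynomial.coeff_smul, smul_eq_mul]
  ring

/-- `Hf` at a point as a linear map. -/
noncomputable def HfL (L : PeriodPair) (P : ℕ) (z : ℂ) : R4 →ₗ[ℂ] ℂ where
  toFun F := Hf L P F z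
  map_add' F G := Hf_add L P F G z
  map_smul' a F := by simpa using Hf_smul L P a F z

lemma HfL_apply (L : PeriodPair) (P : ℕ) (z : ℂ) (F : R4) : HfL L P z F = Hf L P F z := rfl

lemma Hf_monomial (L : PeriodPair) (P : ℕ) (c : Fin 4 →₀ ℕ) (a : ℂ) (z : ℂ) :
    Hf L P (MvPolynomial.monomial c a) z = a * gfun L P (c 0) (c 1) (c 2) (c 3) z := by
  classical
  rw [Hf_eq_sum L P _ z {c} MvPolynomial.support_monomial_subset, Finset.sum_singleton,
    MvPolynomial.coeff_monomial, if_pos rfl]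

lemma X4_eq (s t k e : ℕ) :
    ((MvPolynomial.X 0) ^ s * (MvPolynomial.X 1) ^ t * (MvPolynomial.X 2) ^ k *
      (MvPolynomial.X 3) ^ e : R4) = MvPolynomial.monomial (Finsupp.single 0 s +
        Finsupp.single 1 t + Finsupp.single 2 k + Finsupp.single 3 e) 1 := by
  rw [MvPolynomial.X_pow_eq_monomial, MvPolynomial.X_pow_eq_monomial,
    MvPolynomial.X_pow_eq_monomial, MvPolynomial.X_pow_eq_monomial, MvPolynomial.monomial_mul,
    MvPolynomial.monomial_mul, MvPolynomial.monomial_mul, one_mul, one_mul, one_mul]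

lemma X4_val (s t k e : ℕ) :
    (Finsupp.single 0 s + Finsupp.single 1 t + Finsupp.single 2 k + Finsupp.single 3 e :
      Fin 4 →₀ ℕ) 0 = s ∧
    (Finsupp.single 0 s + Finsupp.single 1 t + Finsupp.single 2 k + Finsupp.single 3 e :
      Fin 4 →₀ ℕ) 1 = t ∧
    (Finsupp.single 0 s + Finsupp.single 1 t + Finsupp.single 2 k + Finsupp.single 3 e :
      Fin 4 →₀ ℕ) 2 = k ∧
    (Finsupp.single 0 s + Finsupp.single 1 t + Finsupp.single 2 k + Finsupp.single 3 e :
      Fin 4 →₀ ℕ) 3 = e := by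
  simp [Finsupp.single_apply]

lemma Hf_X4 (L : PeriodPair) (P : ℕ) (s t k e : ℕ) (z : ℂ) :
    Hf L P ((MvPolynomial.X 0) ^ s * (MvPolynomial.X 1) ^ t * (MvPolynomial.X 2) ^ k *
      (MvPolynomial.X 3) ^ e) z = gfun L P s t k e z := by
  obtain ⟨h0, h1, h2, h3⟩ := X4_val s t k e
  rw [X4_eq, Hf_monomial, h0, h1, h2, h3, one_mul]

/-- A monomial as a product. -/
lemma monomial_eq_X4 (c : Fin 4 →₀ ℕ) (a : ℂ) :
    (MvPolynomial.monomial c a : R4) = a • ((MvPolynomial.X 0) ^ c 0 * (MvPolynomial.X 1) ^ c 1 *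
      (MvPolynomial.X 2) ^ c 2 * (MvPolynomial.X 3) ^ c 3) := by
  obtain ⟨h0, h1, h2, h3⟩ := X4_val (c 0) (c 1) (c 2) (c 3)
  have hc : Finsupp.single 0 (c 0) + Finsupp.single 1 (c 1) + Finsupp.single 2 (c 2) +
      Finsupp.single 3 (c 3) = c := by
    refine Finsupp.ext fun i => ?_
    fin_cases i
    · exact h0
    · exact h1
    · exact h2
    · exact h3
  rw [X4_eq, MvPolynomial.smul_monomial, smul_eq_mul, mul_one, hc]

/-- The expansion of a translated monomial. -/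
lemma Tr_X4 (a b : ℂ) (s t k e : ℕ) :
    Tr a b ((MvPolynomial.X 0) ^ s * (MvPolynomial.X 1) ^ t * (MvPolynomial.X 2) ^ k *
      (MvPolynomial.X 3) ^ e) =
    ∑ s' ∈ Finset.range (s + 1), ∑ t' ∈ Finset.range (t + 1),
      ((a ^ (s - s') * (s.choose s' : ℂ)) * (b ^ (t - t') * (t.choose t' : ℂ))) •
        ((MvPolynomial.X 0) ^ s' * (MvPolynomial.X 1) ^ t' * (MvPolynomial.X 2) ^ k *
          (MvPolynomial.X 3) ^ e : R4) := by
  have h1 : Tr a b ((MvPolynomial.X 0) ^ s * (MvPolynomial.X 1) ^ t * (MvPolynomial.X 2) ^ k *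
      (MvPolynomial.X 3) ^ e) = (MvPolynomial.X 0 + MvPolynomial.C a) ^ s *
      (MvPolynomial.X 1 + MvPolynomial.C b) ^ t * (MvPolynomial.X 2) ^ k *
      (MvPolynomial.X 3) ^ e := by
    unfold Tr
    rw [AlgHom.toLinearMap_apply, map_mul, map_mul, map_mul, map_pow, map_pow, map_pow, map_pow,
      MvPolynomial.aeval_X, MvPolynomial.aeval_X, MvPolynomial.aeval_X, MvPolynomial.aeval_X]
    rfl
  rw [h1, add_pow, add_pow, Finset.sum_mul_sum, Finset.sum_mul, Finset.sum_mul]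
  apply Finset.sum_congr rfl
  intro s' _
  rw [Finset.sum_mul, Finset.sum_mul]
  apply Finset.sum_congr rfl
  intro t' _
  rw [MvPolynomial.smul_eq_C_mul, MvPolynomial.C_mul, MvPolynomial.C_mul, MvPolynomial.C_mul,
    MvPolynomial.C_pow, MvPolynomial.C_pow]
  have e1 : (MvPolynomial.C (s.choose s' : ℂ) : R4) = (s.choose s' : R4) := by
    rw [map_natCast]
  have e2 : (MvPolynomial.C (t.choose t' : ℂ) : R4) = (t.choose t' : R4) := by
    rw [map_natCast]
  rw [e1, e2]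
  ring

lemma mem_Box_iff (l n : ℕ) (F : R4) : F ∈ Box l n ↔
    ∀ c ∈ F.support, c 0 ≤ l ∧ c 1 ≤ l ∧ c 2 < n ∧ c 3 < 2 := by
  unfold Box
  rw [MvPolynomial.mem_restrictSupport_iff]
  rfl

/-- Two linear maps which agree on the monomials of `Box` agree on `Box`. -/
lemma box_ext {V : Type*} [AddCommGroup V] [Module ℂ V] {l n : ℕ} (f g : R4 →ₗ[ℂ] V)
    (h : ∀ s t k e : ℕ, s ≤ l → t ≤ l → k < n → e < 2 →
      f ((MvPolynomial.X 0) ^ s * (MvPolynomial.X 1) ^ t * (MvPolynomial.X 2) ^ k *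
        (MvPolynomial.X 3) ^ e) =
      g ((MvPolynomial.X 0) ^ s * (MvPolynomial.X 1) ^ t * (MvPolynomial.X 2) ^ k *
        (MvPolynomial.X 3) ^ e)) :
    ∀ F ∈ Box l n, f F = g F := by
  intro F hF
  rw [mem_Box_iff] at hF
  rw [← MvPolynomial.support_sum_monomial_coeff F, map_sum, map_sum]
  apply Finset.sum_congr rfl
  intro c hc
  obtain ⟨h0, h1, h2, h3⟩ := hF c hc
  rw [monomial_eq_X4, map_smul, map_smul, h _ _ _ _ h0 h1 h2 h3]

end HfLin

end Pool.Agent.MPb60633
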