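import Pool.Agent.Lib.MP_b60633_nt.SpecE
import Pool.Agent.Lib.MP_b60633_nt.W.HfLin

/-!
# MP_b60633_nt, Z11: quasi-periodicity of `Hf` (helper11)
-/

set_option autoImplicit false

namespace Pool.Agent.MPb60633

open Complex Pool.Agent.Lib.Ribet4b482e Module HfLin in
/-- Quasi-periodicity of `Hf`. -/
theorem t_Z11 (hE10 : S_E10) : S_Z11 := by
  intro L l n F hF lam h C hσ z
  obtain ⟨hA1, hA2, hA3⟩ := (hE10 L).2.2 lam h C hσ z
  set E := C * Complex.exp (h * z) with hE
  set P := 2 * n + 1 + l with hP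
  have key : ∀ G ∈ Box l n, HfL L P (z + lam) G = ((E ^ P) • (HfL L P z ∘ₗ Tr lam h)) G := by
    apply box_ext
    intro s t k e hs ht hk he
    rw [LinearMap.smul_apply, LinearMap.comp_apply, Tr_X4, HfL_apply, Hf_X4, map_sum, smul_eq_mul]
    have hdeg : t + 2 * k + 3 * e ≤ P := by omega
    have h1 : gfun L P s t k e (z + lam) = E ^ P * ((z + lam) ^ s *
        ((A1 L z + h * sigmaW L z) ^ t * (A2 L z ^ k * A3 L z ^ e *
        sigmaW L z ^ (P - t - 2 * k - 3 * e)))) := by
      unfold gfun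
      rw [hA1, hA2, hA3, hσ z, ← hE]
      rw [mul_pow E, mul_pow (E ^ 2), mul_pow (E ^ 3), mul_pow E]
      have h2 : E ^ P = E ^ t * (E ^ 2) ^ k * (E ^ 3) ^ e * E ^ (P - t - 2 * k - 3 * e) := by
        rw [← pow_mul, ← pow_mul, ← pow_add, ← pow_add, ← pow_add]
        congr 1
        omega
      rw [h2]
      ring
    rw [h1]
    congr 1
    rw [add_pow, add_pow, Finset.sum_mul]
    apply Finset.sum_congr rfl
    intro s' _
    rw [map_sum, Finset.sum_mul, Finset.mul_sum]
    apply Finset.sum_congr rfl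
    intro t' ht'
    rw [Finset.mem_range] at ht'
    rw [map_smul, HfL_apply, Hf_X4, smul_eq_mul]
    unfold gfun
    have h3 : sigmaW L z ^ (P - t' - 2 * k - 3 * e) =
        sigmaW L z ^ (t - t') * sigmaW L z ^ (P - t - 2 * k - 3 * e) := by
      rw [← pow_add]
      congr 1
      omega
    rw [h3, mul_pow]
    ring
  have := key F hF
  rw [LinearMap.smul_apply, LinearMap.comp_apply, HfL_apply, HfL_apply, smul_eq_mul] at this
  exact this

end Pool.Agent.MPb60633
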