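import Pool.Agent.Lib.MP_b60633_nt.W.HfLin

/-!
# MP_b60633_nt, Z12: independence of `z, ζ, ℘, ℘'` (helper11)
-/

set_option autoImplicit false

namespace Pool.Agent.MPb60633

namespace Z12

lemma eval_aeval (g : Fin 4 → MvPolynomial (Fin 2) ℂ) (v : Fin 2 → ℂ) (F : R4) :
    MvPolynomial.eval v (MvPolynomial.aeval (R := ℂ) g F) =
      MvPolynomial.eval (fun i => MvPolynomial.eval v (g i)) F := by
  have h := MvPolynomial.comp_aeval_apply (f := g) (MvPolynomial.aeval (R := ℂ) v) F
  have e2 : ∀ (f : Fin 2 → ℂ) (p : MvPolynomial (Fin 2) ℂ),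
      MvPolynomial.aeval (R := ℂ) f p = MvPolynomial.eval f p := fun f p => rfl
  have e4 : ∀ (f : Fin 4 → ℂ) (p : MvPolynomial (Fin 4) ℂ),
      MvPolynomial.aeval (R := ℂ) f p = MvPolynomial.eval f p := fun f p => rfl
  rw [e2, e4] at h
  simpa only [e2] using h

end Z12

open Complex Pool.Agent.Lib.Ribet4b482e HfLin Z12 in
/-- `z, ζ, ℘, ℘'` are sufficiently independent. -/
theorem t_Z12 : S_Z12 := by
  intro L w hL heta hg l n F hF hzero
  have hw0 : (w : ℂ) ≠ 0 := by
    have := hL.pos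
    exact_mod_cast this.ne'
  have hpi0 : (Real.pi / w : ℂ) ≠ 0 :=
    div_ne_zero (by exact_mod_cast Real.pi_ne_zero) hw0
  rw [mem_Box_iff] at hF
  -- step 1
  have h1 : ∀ z, z ∉ L.lattice → MvPolynomial.eval
      ![z, zetaW L z, L.weierstrassP z, L.derivWeierstrassP z] F = 0 := by
    intro z hz
    have hσ : sigmaW L z ^ (2 * n + 1 + l) ≠ 0 :=
      pow_ne_zero _ (fun h => hz ((sigmaW_eq_zero_iff L).mp h))
    have h2 : Hf L (2 * n + 1 + l) F z = sigmaW L z ^ (2 * n + 1 + l) * MvPolynomial.eval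
      ![z, zetaW L z, L.weierstrassP z, L.derivWeierstrassP z] F := by
      rw [MvPolynomial.eval_eq', Finset.mul_sum]
      unfold Hf
      apply Finset.sum_congr rfl
      intro c hc
      obtain ⟨c0, c1, c2, c3⟩ := hF c hc
      rw [(hg (2 * n + 1 + l) (c 0) (c 1) (c 2) (c 3)).2 (by omega) z hz, Fin.prod_univ_four]
      show _ = sigmaW L z ^ (2 * n + 1 + l) * (F.coeff c * (z ^ c 0 * zetaW L z ^ c 1 *
        L.weierstrassP z ^ c 2 * L.derivWeierstrassP z ^ c 3))
      ring
    rw [hzero z] at h2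
    exact (mul_eq_zero.mp h2.symm).resolve_left hσ
  -- step 2
  have h2 : ∀ z, z ∉ L.lattice → ∀ x y : ℂ, MvPolynomial.eval
      ![x, y, L.weierstrassP z, L.derivWeierstrassP z] F = 0 := by
    intro z hz x y
    set g : Fin 4 → MvPolynomial (Fin 2) ℂ :=
      ![MvPolynomial.C z + (MvPolynomial.X 0 + MvPolynomial.C I * MvPolynomial.X 1) *
          MvPolynomial.C (w : ℂ),
        MvPolynomial.C (zetaW L z) + (MvPolynomial.X 0 - MvPolynomial.C I * MvPolynomial.X 1) *
          MvPolynomial.C (Real.pi / w : ℂ),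
        MvPolynomial.C (L.weierstrassP z), MvPolynomial.C (L.derivWeierstrassP z)] with hgdef
    have hval : ∀ v : Fin 2 → ℂ, (fun i => MvPolynomial.eval v (g i)) =
        ![z + (v 0 + I * v 1) * w, zetaW L z + (v 0 - I * v 1) * (Real.pi / w),
          L.weierstrassP z, L.derivWeierstrassP z] := by
      intro v
      funext i
      fin_cases i <;> simp [hgdef]
    have hG : MvPolynomial.aeval (R := ℂ) g F = 0 := by
      apply MvPolynomial.funext_set (fun _ => Set.range (Int.cast : ℤ → ℂ))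
        (fun _ => Set.infinite_range_of_injective Int.cast_injective)
      intro v hv
      obtain ⟨p, hp⟩ := hv 0 (Set.mem_univ _)
      obtain ⟨q, hq⟩ := hv 1 (Set.mem_univ _)
      rw [eval_aeval, hval, ← hp, ← hq, map_zero]
      have hl : ((p : ℂ) + (q : ℂ) * I) * w ∈ L.lattice := by
        rw [PeriodPair.mem_lattice]
        refine ⟨p, q, ?_⟩
        rw [hL.one, hL.two]
        ring
      have h3 := h1 (z + ((p : ℂ) + (q : ℂ) * I) * w) (add_notMem L hz hl)
      rw [zetaW_add L hz hl, L.weierstrassP_add_coe z ⟨_, hl⟩,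
        L.derivWeierstrassP_add_coe z ⟨_, hl⟩, heta p q, mul_comm (q : ℂ) I] at h3
      exact h3
    have h3 := congrArg (MvPolynomial.eval
      ![((x - z) / w + (y - zetaW L z) / (Real.pi / w)) / 2,
        ((x - z) / w - (y - zetaW L z) / (Real.pi / w)) / (2 * I)]) hG
    rw [eval_aeval, hval, map_zero] at h3
    have e1 : z + ((![((x - z) / w + (y - zetaW L z) / (Real.pi / w)) / 2,
        ((x - z) / w - (y - zetaW L z) / (Real.pi / w)) / (2 * I)] : Fin 2 → ℂ) 0 +
        I * (![((x - z) / w + (y - zetaW L z) / (Real.pi / w)) / 2,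
        ((x - z) / w - (y - zetaW L z) / (Real.pi / w)) / (2 * I)] : Fin 2 → ℂ) 1) * w = x := by
      show z + (((x - z) / w + (y - zetaW L z) / (Real.pi / w)) / 2 +
        I * (((x - z) / w - (y - zetaW L z) / (Real.pi / w)) / (2 * I))) * w = x
      have hI : (I : ℂ) ≠ 0 := I_ne_zero
      generalize (Real.pi / w : ℂ) = h at hpi0
      field_simp
      ring
    have e2 : zetaW L z + ((![((x - z) / w + (y - zetaW L z) / (Real.pi / w)) / 2,
        ((x - z) / w - (y - zetaW L z) / (Real.pi / w)) / (2 * I)] : Fin 2 → ℂ) 0 -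
        I * (![((x - z) / w + (y - zetaW L z) / (Real.pi / w)) / 2,
        ((x - z) / w - (y - zetaW L z) / (Real.pi / w)) / (2 * I)] : Fin 2 → ℂ) 1) *
        (Real.pi / w) = y := by
      show zetaW L z + (((x - z) / w + (y - zetaW L z) / (Real.pi / w)) / 2 -
        I * (((x - z) / w - (y - zetaW L z) / (Real.pi / w)) / (2 * I))) * (Real.pi / w) = y
      have hI : (I : ℂ) ≠ 0 := I_ne_zero
      generalize (Real.pi / w : ℂ) = h at hpi0
      field_simp
      ring
    rw [e1, e2] at h3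
    exact h3
  -- step 3
  have h3 : ∀ a : ℂ, a ^ 3 - a ≠ 0 → ∀ x y t : ℂ, MvPolynomial.eval ![x, y, a, t] F = 0 := by
    intro a ha x y t
    obtain ⟨z, hz, hza⟩ := exists_weierstrassP_eq L a
    have hb : L.derivWeierstrassP z ≠ 0 := by
      intro hb
      have h4 := L.derivWeierstrassP_sq z hz
      rw [hb, hza, hL.g2, g₃_eq_zero L (by rw [hL.one, hL.two])] at h4
      apply ha
      linear_combination -h4 / 4
    have hz' : -z ∉ L.lattice := fun h => hz (by simpa using neg_mem h)
    set A0 : ℂ := ∑ c ∈ F.support, if c 3 = 0 then F.coeff c * (x ^ c 0 * y ^ c 1 * a ^ c 2) else 0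
      with hA0
    set A1 : ℂ := ∑ c ∈ F.support, if c 3 = 1 then F.coeff c * (x ^ c 0 * y ^ c 1 * a ^ c 2) else 0
      with hA1
    have hlin : ∀ s : ℂ, MvPolynomial.eval ![x, y, a, s] F = A0 + s * A1 := by
      intro s
      rw [MvPolynomial.eval_eq', hA0, hA1, Finset.mul_sum, ← Finset.sum_add_distrib]
      apply Finset.sum_congr rfl
      intro c hc
      obtain ⟨-, -, -, c3⟩ := hF c hc
      rw [Fin.prod_univ_four]
      show F.coeff c * (x ^ c 0 * y ^ c 1 * a ^ c 2 * s ^ c 3) = _
      interval_cases h : c 3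
      · simp
      · simp
        ring
    have k1 := h2 z hz x y
    have k2 := h2 (-z) hz' x y
    rw [L.weierstrassP_neg, L.derivWeierstrassP_neg] at k2
    rw [hza, hlin] at k1 k2
    have k3 : A0 = 0 := by linear_combination (k1 + k2) / 2
    have k4 : L.derivWeierstrassP z * A1 = 0 := by linear_combination (k1 - k2) / 2
    have k5 : A1 = 0 := (mul_eq_zero.mp k4).resolve_left hb
    rw [hlin, k3, k5]
    ring
  -- conclusion
  have hfin : ({a : ℂ | a ^ 3 - a = 0} : Set ℂ).Finite := by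
    apply Set.Finite.subset (s := ({0, 1, -1} : Set ℂ)) (by simp)
    intro a ha
    have h4 : a * (a - 1) * (a + 1) = 0 := by
      have : a ^ 3 - a = 0 := ha
      linear_combination this
    rcases mul_eq_zero.mp h4 with h5 | h5
    · rcases mul_eq_zero.mp h5 with h6 | h6
      · simp [h6]
      · simp [sub_eq_zero.mp h6]
    · simp [eq_neg_of_add_eq_zero_left h5]
  have hinf : ({a : ℂ | a ^ 3 - a = 0}ᶜ : Set ℂ).Infinite := hfin.infinite_compl
  apply MvPolynomial.funext_set (fun _ => ({a : ℂ | a ^ 3 - a = 0}ᶜ : Set ℂ)) (fun _ => hinf)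
  intro v hv
  have h4 := h3 (v 2) (hv 2 (Set.mem_univ _)) (v 0) (v 1) (v 3)
  rw [map_zero, ← h4]
  congr 1
  congr 1
  funext i
  fin_cases i <;> rfl

end Pool.Agent.MPb60633
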