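import Pool.Agent.Lib.MP_b60633_nt.SpecD

/-!
# MP_b60633_nt, Z14: the zero estimate (helper11)
-/

set_option autoImplicit false

namespace Pool.Agent.MPb60633

open Complex Pool.Agent.Lib.Ribet4b482e Module

namespace Z14

lemma Hf_eq_sum (L : PeriodPair) (P : ℕ) (F : R4) (z : ℂ) (S : Finset (Fin 4 →₀ ℕ))
    (hS : F.support ⊆ S) :
    Hf L P F z = ∑ c ∈ S, F.coeff c * gfun L P (c 0) (c 1) (c 2) (c 3) z := by
  unfold Hf
  apply Finset.sum_subset hS
  intro c _ hc
  rw [MvPolynomial.notMem_support_iff.mp hc, zero_mul]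

lemma Hf_add (L : PeriodPair) (P : ℕ) (F G : R4) (z : ℂ) :
    Hf L P (F + G) z = Hf L P F z + Hf L P G z := by
  classical
  rw [Hf_eq_sum L P (F + G) z (F.support ∪ G.support) MvPolynomial.support_add,
    Hf_eq_sum L P F z (F.support ∪ G.support) Finset.subset_union_left,
    Hf_eq_sum L P G z (F.support ∪ G.support) Finset.subset_union_right,
    ← Finset.sum_add_distrib]
  apply Finset.sum_congr rfl
  intro c _
  rw [MvPolynomial.coeff_add]
  ring

lemma Hf_smul (L : PeriodPair) (P : ℕ) (a : ℂ) (F : R4) (z : ℂ) :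
    Hf L P (a • F) z = a * Hf L P F z := by
  classical
  rw [Hf_eq_sum L P (a • F) z F.support MvPolynomial.support_smul]
  unfold Hf
  rw [Finset.mul_sum]
  apply Finset.sum_congr rfl
  intro c _
  rw [MvPolynomial.coeff_smul, smul_eq_mul]
  ring

/-- `Hf` at a point as a linear map. -/
noncomputable def HfL (L : PeriodPair) (P : ℕ) (z : ℂ) : R4 →ₗ[ℂ] ℂ where
  toFun F := Hf L P F z
  map_add' F G := Hf_add L P F G z
  map_smul' a F := by simpa using Hf_smul L P a F z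

lemma HfL_apply (L : PeriodPair) (P : ℕ) (z : ℂ) (F : R4) : HfL L P z F = Hf L P F z := rfl

lemma differentiable_Hf (L : PeriodPair) (P : ℕ) (F : R4)
    (hg : ∀ P i j k e : ℕ, Differentiable ℂ (gfun L P i j k e)) :
    Differentiable ℂ (Hf L P F) := by
  have : Hf L P F = fun z => ∑ c ∈ F.support, F.coeff c * gfun L P (c 0) (c 1) (c 2) (c 3) z := rfl
  rw [this]
  apply Differentiable.fun_sum
  intro c _
  exact (hg P (c 0) (c 1) (c 2) (c 3)).const_mul _

/-- Derivatives of `Hf` at a point as linear maps. -/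
noncomputable def cN (L : PeriodPair) (P : ℕ) (z₀ : ℂ)
    (hg : ∀ P i j k e : ℕ, Differentiable ℂ (gfun L P i j k e)) (N : ℕ) : R4 →ₗ[ℂ] ℂ where
  toFun F := iteratedDeriv N (Hf L P F) z₀
  map_add' F G := by
    have h : Hf L P (F + G) = Hf L P F + Hf L P G := by
      funext z
      exact Hf_add L P F G z
    rw [h, iteratedDeriv_add]
    · exact (differentiable_Hf L P F hg).contDiff.contDiffAt
    · exact (differentiable_Hf L P G hg).contDiff.contDiffAt
  map_smul' a F := by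
    have h : Hf L P (a • F) = a • Hf L P F := by
      funext z
      simpa using Hf_smul L P a F z
    rw [h, iteratedDeriv_const_smul]
    · rfl
    · exact (differentiable_Hf L P F hg).contDiff.contDiffAt

lemma cN_apply (L : PeriodPair) (P : ℕ) (z₀ : ℂ)
    (hg : ∀ P i j k e : ℕ, Differentiable ℂ (gfun L P i j k e)) (N : ℕ) (F : R4) :
    cN L P z₀ hg N F = iteratedDeriv N (Hf L P F) z₀ := rfl

end Z14

open Z14 in
/-- The zero estimate. -/
theorem t_Z14 (hZ3 : S_Z3) (hZ4 : S_Z4) (hZ5 : S_Z5) (hZ6 : S_Z6) (hZ7 : S_Z7) (hZ9 : S_Z9)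
    (hZ10 : S_Z10) (hZ11 : S_Z11) (hZ12 : S_Z12) (hZ13 : S_Z13) (hE9 : S_E9) (hE12 : S_E12)
    (hS6 : S_S6) : S_Z14 := by
  classical
  intro L w hL l n M T α β a₀ b₀ hα hβ hM hT hlt F hF hrow
  by_contra hF0
  obtain ⟨hE9a, hE9b⟩ := hE9 L w hL
  have hg0 := hE12 L w hL
  have hgd : ∀ P i j k e : ℕ, Differentiable ℂ (gfun L P i j k e) :=
    fun P i j k e => (hg0 P i j k e).1
  have hgf : ∀ P i j k e : ℕ, Differentiable ℂ (gfun L P i j k e) ∧ (j + 2 * k + 3 * e ≤ P →
      ∀ z, z ∉ L.lattice → gfun L P i j k e z =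
        z ^ i * zetaW L z ^ j * L.weierstrassP z ^ k * L.derivWeierstrassP z ^ e *
          sigmaW L z ^ P) :=
    fun P i j k e => ⟨(hg0 P i j k e).1, fun h => ((hg0 P i j k e).2 h).1⟩
  have hpar : ∀ s : ℂ, ‖s‖ ≤ 1 / 8 →
      (w : ℂ) / 2 + evs psiC s ∉ L.lattice ∧
      L.weierstrassP ((w : ℂ) / 2 + evs psiC s) = 1 + 2 * evs ZC s ∧
      L.derivWeierstrassP ((w : ℂ) / 2 + evs psiC s) = 4 * s ∧
      zetaW L ((w : ℂ) / 2 + evs psiC s) = (Real.pi / w) / 2 + evs zetC s := by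
    intro s hs
    obtain ⟨h1, h2, h3, h4, -, -⟩ := hS6 L w hL 0 0 s hs
    have e1 : kap 0 0 * (w : ℂ) = (w : ℂ) / 2 := by
      simp only [kap, Int.cast_zero]; ring
    have e2 : kap 0 (-0) * ((Real.pi : ℂ) / w) = (Real.pi / w) / 2 := by
      simp only [kap, Int.cast_zero, neg_zero]; ring
    rw [e1] at h1 h2 h3 h4
    rw [e2] at h4
    exact ⟨h1, h2, h3, h4⟩
  obtain ⟨E, hFE, hEB, hfd, hdim, hst, hspan, hdet⟩ := hZ9 l n F hF
  set P := 2 * n + 1 + l with hP
  set z₀ : ℂ := (w : ℂ) / 2 with hz₀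
  have hz₀L : z₀ ∉ L.lattice := by
    have := L.ω₁_div_two_notMem_lattice
    rwa [hL.one] at this
  -- the functionals
  set c : ℕ → (E →ₗ[ℂ] ℂ) := fun N => (cN L P z₀ hgd N).comp E.subtype with hc
  have hcapp : ∀ N (v : E), c N v = iteratedDeriv N (Hf L P (v : R4)) z₀ := fun N v => rfl
  have hinj : ∀ v : E, v ≠ 0 → ∃ N, c N v ≠ 0 := by
    intro v hv
    by_contra! hcon
    apply hv
    have hzero : ∀ z, Hf L P (v : R4) z = 0 := by
      intro z
      have h := Complex.hasSum_taylorSeries_of_entire (differentiable_Hf L P (v : R4) hgd) z₀ z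
      have h2 : (fun n : ℕ => ((n.factorial : ℂ))⁻¹ • (z - z₀) ^ n •
          iteratedDeriv n (Hf L P (v : R4)) z₀) = fun _ => 0 := by
        funext N
        rw [← hcapp N v, hcon N, smul_zero, smul_zero]
      rw [h2] at h
      exact h.unique hasSum_zero
    have := hZ12 L w hL hE9a hgf l n (v : R4) (hEB v.2) hzero
    exact Subtype.ext this
  obtain ⟨ℓ, hℓ⟩ : ∃ ℓ, finrank ℂ E = ℓ := ⟨_, rfl⟩
  rw [hℓ] at hdim
  obtain ⟨b, nn, hmono, hb⟩ := hZ3 ℓ E c hℓ hinj
  set f : Fin ℓ → ℂ → ℂ := fun j => Hf L P ((b j : E) : R4) with hf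
  have hfdiff : ∀ j, Differentiable ℂ (f j) := fun j => differentiable_Hf L P _ hgd
  have hord : ∀ j, analyticOrderAt (f j) z₀ = nn j := by
    intro j
    have han : AnalyticAt ℂ (f j) z₀ := (hfdiff j).analyticAt z₀
    apply le_antisymm
    · by_contra hlt'
      push Not at hlt'
      have h2 : ((nn j + 1 : ℕ) : ℕ∞) ≤ analyticOrderAt (f j) z₀ := by
        rw [Nat.cast_add, Nat.cast_one]
        exact Order.add_one_le_of_lt hlt'
      rw [natCast_le_analyticOrderAt_iff_iteratedDeriv_eq_zero han] at h2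
      exact (hb j).1 (h2 (nn j) (Nat.lt_succ_self _))
    · rw [natCast_le_analyticOrderAt_iff_iteratedDeriv_eq_zero han]
      intro i hi
      exact (hb j).2 i hi
  obtain ⟨z₁, hz₁⟩ := hZ5 ℓ f z₀ nn hfdiff hmono hord
  -- the functional equation
  have hfe : ∀ lam ∈ L.lattice, ∀ z,
      Wr f (z + lam) * sigmaW L z ^ (P * ℓ) = Wr f z * sigmaW L (z + lam) ^ (P * ℓ) := by
    intro lam hlam z
    obtain ⟨C, hC0, hC⟩ := hE9b lam hlam
    obtain ⟨hh, hdet1⟩ := hdet lam (etaW L lam)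
    set A : E →ₗ[ℂ] E := (Tr lam (etaW L lam)).restrict hh with hA
    set Mt : Matrix (Fin ℓ) (Fin ℓ) ℂ := LinearMap.toMatrix b b A with hMt
    have hMdet : Mt.det = 1 := by rw [hMt, LinearMap.det_toMatrix, hdet1]
    have hTr : ∀ j, Tr lam (etaW L lam) ((b j : E) : R4) = ∑ k, Mt k j • ((b k : E) : R4) := by
      intro j
      have h1 : A (b j) = ∑ k, Mt k j • b k := by
        conv_lhs => rw [← b.sum_repr (A (b j))]
        apply Finset.sum_congr rfl
        intro k _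
        rw [hMt, LinearMap.toMatrix_apply]
      have h3 : ((A (b j) : E) : R4) = Tr lam (etaW L lam) ((b j : E) : R4) := rfl
      rw [← h3, h1, AddSubmonoidClass.coe_finsetSum]
      rfl
    have hstep : ∀ j z, f j (z + lam) =
        (C * Complex.exp (etaW L lam * z)) ^ P * ∑ k, Mt k j * f k z := by
      intro j z
      have h1 := hZ11 L l n ((b j : E) : R4) (hEB (b j).2) lam (etaW L lam) C
        (fun z => (hC z).1) z
      have h2 : Hf L P (Tr lam (etaW L lam) ((b j : E) : R4)) z = ∑ k, Mt k j * f k z := by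
        rw [hTr j, ← HfL_apply, map_sum]
        apply Finset.sum_congr rfl
        intro k _
        rw [map_smul, smul_eq_mul, HfL_apply]
      rw [← h2]
      exact h1
    have hW1 := (hZ4 ℓ f hfdiff).2.2.2 lam z
    have hW2 := (hZ4 ℓ f hfdiff).2.2.1 Mt z
    have hdiff2 : ∀ j, Differentiable ℂ (fun z => ∑ k, Mt k j * f k z) := by
      intro j
      apply Differentiable.fun_sum
      intro k _
      exact (hfdiff k).const_mul _
    have hgdiff : Differentiable ℂ (fun z => (C * Complex.exp (etaW L lam * z)) ^ P) := by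
      fun_prop
    have hW3 := (hZ4 ℓ (fun j z => ∑ k, Mt k j * f k z) hdiff2).2.1
      (fun z => (C * Complex.exp (etaW L lam * z)) ^ P) hgdiff z
    have hW4 : (fun (j : Fin ℓ) (z : ℂ) => f j (z + lam)) =
        fun j z => (C * Complex.exp (etaW L lam * z)) ^ P * ∑ k, Mt k j * f k z := by
      funext j z
      exact hstep j z
    rw [hW4] at hW1
    rw [← hW1, hW3, hW2, hMdet, (hC z).1]
    ring
  -- the set of large orders
  set S : Finset (Fin ℓ) := Finset.univ.filter (fun j => T ≤ nn j) with hS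
  have hordW := hZ6 ℓ f z₀ T S hfdiff (by
    intro j hj
    rw [hord j]
    exact_mod_cast (Finset.mem_filter.mp hj).2)
  have hle1 : S.card * (T + 1 - ℓ) ≤ P * ℓ := by
    by_contra hcon
    push Not at hcon
    exact hz₁ (hZ7 L w hL hE9b (Wr f) (P * ℓ) (S.card * (T + 1 - ℓ)) z₀ ((hZ4 ℓ f hfdiff).1)
      hz₀L hfe hordW hcon z₁)
  -- the span of the translates
  set G : Fin M × Fin M → R4 := fun pq =>
      Tr (kap (a₀ + (pq.1 : ℕ)) (b₀ + (pq.2 : ℕ)) * α - w / 2)
        (kap (a₀ + (pq.1 : ℕ)) (-(b₀ + (pq.2 : ℕ))) * β - ((Real.pi / w : ℝ) : ℂ) / 2) F with hG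
  have hrank : M ^ 2 * ℓ ≤ (2 * l + 1) ^ 2 * finrank ℂ (Submodule.span ℂ (Set.range G)) := by
    rw [← hℓ]
    exact hZ10 l n M F E α β w ((Real.pi / w : ℝ) : ℂ) a₀ b₀ hEB hFE hfd hst hspan hα hβ hM
  have hGE : ∀ pq, G pq ∈ E := by
    intro pq
    obtain ⟨hh, -⟩ := hdet (kap (a₀ + (pq.1 : ℕ)) (b₀ + (pq.2 : ℕ)) * α - w / 2)
      (kap (a₀ + (pq.1 : ℕ)) (-(b₀ + (pq.2 : ℕ))) * β - ((Real.pi / w : ℝ) : ℂ) / 2)
    exact hh F hFE
  have hGord : ∀ pq, ∀ N < T, c N ⟨G pq, hGE pq⟩ = 0 := by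
    intro pq N hN
    have h1 := hZ13 L w hL hpar hgf l n T α β (a₀ + (pq.1 : ℕ)) (b₀ + (pq.2 : ℕ)) F hF
      (fun t ht => hrow pq.1 pq.1.2 pq.2 pq.2.2 t ht)
    rw [natCast_le_analyticOrderAt_iff_iteratedDeriv_eq_zero
      ((differentiable_Hf L _ _ hgd).analyticAt z₀)] at h1
    exact h1 N hN
  -- vectors of large order
  have hlarge : ∀ v : E, (∀ N < T, c N v = 0) → ∀ j, j ∉ S → b.repr v j = 0 := by
    intro v hv
    by_contra! hcon
    obtain ⟨j₀, hj₀S, hj₀⟩ := hcon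
    have hne : (Finset.univ.filter (fun j : Fin ℓ => b.repr v j ≠ 0)).Nonempty :=
      ⟨j₀, Finset.mem_filter.mpr ⟨Finset.mem_univ _, hj₀⟩⟩
    set j₁ : Fin ℓ := (Finset.univ.filter (fun j : Fin ℓ => b.repr v j ≠ 0)).min' hne with hj₁
    have hj₁m : b.repr v j₁ ≠ 0 := by
      have h1 := Finset.min'_mem (Finset.univ.filter (fun j : Fin ℓ => b.repr v j ≠ 0)) hne
      rw [← hj₁] at h1
      exact (Finset.mem_filter.mp h1).2
    have hj₁le : ∀ j : Fin ℓ, b.repr v j ≠ 0 → j₁ ≤ j := fun j hj =>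
      Finset.min'_le (Finset.univ.filter (fun j : Fin ℓ => b.repr v j ≠ 0)) j
        (Finset.mem_filter.mpr ⟨Finset.mem_univ _, hj⟩)
    have hnn : nn j₁ < T := by
      have h1 : nn j₁ ≤ nn j₀ := hmono.monotone (hj₁le j₀ hj₀)
      have h2 : ¬ T ≤ nn j₀ := fun h => hj₀S (Finset.mem_filter.mpr ⟨Finset.mem_univ _, h⟩)
      omega
    have h0 := hv (nn j₁) hnn
    have h1 : c (nn j₁) v = b.repr v j₁ * c (nn j₁) (b j₁) := by
      conv_lhs => rw [← b.sum_repr v]
      rw [map_sum]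
      rw [Finset.sum_eq_single j₁]
      · rw [map_smul, smul_eq_mul]
      · intro j _ hj
        rw [map_smul, smul_eq_mul]
        by_cases hz : b.repr v j = 0
        · rw [hz, zero_mul]
        · have hlt1 : j₁ < j := lt_of_le_of_ne (hj₁le j hz) (Ne.symm hj)
          rw [(hb j).2 (nn j₁) (hmono hlt1), mul_zero]
      · intro h
        exact absurd (Finset.mem_univ _) h
    rw [h1] at h0
    rcases mul_eq_zero.mp h0 with h | h
    · exact hj₁m h
    · exact (hb j₁).1 h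
  have hrho : finrank ℂ (Submodule.span ℂ (Set.range G)) ≤ S.card := by
    have hsub : Submodule.span ℂ (Set.range G) ≤
        Submodule.span ℂ ((S.image (fun j => ((b j : E) : R4)) : Finset R4) : Set R4) := by
      rw [Submodule.span_le]
      rintro _ ⟨pq, rfl⟩
      have h1 : G pq = ∑ j, b.repr ⟨G pq, hGE pq⟩ j • ((b j : E) : R4) := by
        calc G pq = ((∑ j, b.repr ⟨G pq, hGE pq⟩ j • b j : E) : R4) := by rw [b.sum_repr]
          _ = ∑ j, b.repr ⟨G pq, hGE pq⟩ j • ((b j : E) : R4) := by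
            rw [AddSubmonoidClass.coe_finsetSum]
            rfl
      rw [h1]
      apply Submodule.sum_mem
      intro j _
      by_cases hj : j ∈ S
      · apply Submodule.smul_mem
        apply Submodule.subset_span
        exact Finset.mem_coe.mpr (Finset.mem_image_of_mem _ hj)
      · rw [hlarge _ (hGord pq) j hj, zero_smul]
        exact Submodule.zero_mem _
    have h3 := Submodule.finrank_mono hsub
    have h4 : finrank ℂ (Submodule.span ℂ
        ((S.image (fun j => ((b j : E) : R4)) : Finset R4) : Set R4)) ≤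
        (S.image (fun j => ((b j : E) : R4))).card :=
      finrank_span_finset_le_card (S.image (fun j => ((b j : E) : R4)))
    exact h3.trans (h4.trans Finset.card_image_le)
  -- the final inequality
  have hℓ1 : 1 ≤ ℓ := by
    rw [Nat.one_le_iff_ne_zero]
    intro h0
    rw [← hℓ] at h0
    have hsub : Subsingleton E := finrank_zero_iff.mp h0
    apply hF0
    have := Subsingleton.elim (⟨F, hFE⟩ : E) 0
    exact congrArg Subtype.val this
  have h1 : M ^ 2 * ℓ * (T + 1 - ℓ) ≤ (2 * l + 1) ^ 2 * (P * ℓ) := by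
    calc M ^ 2 * ℓ * (T + 1 - ℓ)
        ≤ (2 * l + 1) ^ 2 * S.card * (T + 1 - ℓ) := by
          apply Nat.mul_le_mul_right
          exact hrank.trans (Nat.mul_le_mul_left _ hrho)
      _ = (2 * l + 1) ^ 2 * (S.card * (T + 1 - ℓ)) := by ring
      _ ≤ (2 * l + 1) ^ 2 * (P * ℓ) := Nat.mul_le_mul_left _ hle1
  have h2 : T + 1 - (l + 1) ^ 2 ≤ T + 1 - ℓ := by omega
  have h3 : ℓ * ((2 * l + 1) ^ 2 * P) < ℓ * (M ^ 2 * (T + 1 - (l + 1) ^ 2)) :=
    Nat.mul_lt_mul_of_pos_left hlt hℓ1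
  have h4 : ℓ * (M ^ 2 * (T + 1 - (l + 1) ^ 2)) ≤ M ^ 2 * ℓ * (T + 1 - ℓ) := by
    calc ℓ * (M ^ 2 * (T + 1 - (l + 1) ^ 2)) = M ^ 2 * ℓ * (T + 1 - (l + 1) ^ 2) := by ring
      _ ≤ M ^ 2 * ℓ * (T + 1 - ℓ) := Nat.mul_le_mul_left _ h2
  have h5 : (2 * l + 1) ^ 2 * (P * ℓ) = ℓ * ((2 * l + 1) ^ 2 * P) := by ring
  omega

end Pool.Agent.MPb60633
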