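import Pool.Agent.Lib.MP_b60633_nt.SpecD

/-! # Z3: echelon basis -/

set_option autoImplicit false

namespace Pool.Agent.MPb60633

open Complex Pool.Agent.Lib.Ribet4b482e Module

theorem t_Z3 : S_Z3 := by
  classical
  intro l
  induction l with
  | zero =>
    intro V _ _ _ c hl _
    have b : Basis (Fin 0) ℂ V := (finBasisOfFinrankEq ℂ V hl)
    exact ⟨b, Fin.elim0, fun i => i.elim0, fun i => i.elim0⟩
  | succ l ih =>
    intro V _ _ _ c hl hne
    have hnt : Nontrivial V := by
      apply Module.nontrivial_of_finrank_pos (R := ℂ)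
      omega
    obtain ⟨x, hx⟩ := exists_ne (0 : V)
    have hex : ∃ N, c N ≠ 0 := by
      obtain ⟨N, hN⟩ := hne x hx
      exact ⟨N, fun h => hN (by rw [h, LinearMap.zero_apply])⟩
    set N₀ := Nat.find hex with hN₀
    have hN₀ne : c N₀ ≠ 0 := Nat.find_spec hex
    have hN₀lt : ∀ N < N₀, c N = 0 := fun N hN => not_not.1 (Nat.find_min hex hN)
    obtain ⟨v₀, hv₀⟩ : ∃ v, c N₀ v ≠ 0 := by
      by_contra hcon
      push Not at hcon
      exact hN₀ne (LinearMap.ext hcon)
    have hfr : finrank ℂ (LinearMap.ker (c N₀)) = l := by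
      have h := Module.Dual.finrank_ker_add_one_of_ne_zero (f := c N₀) hN₀ne
      omega
    obtain ⟨b', n', hmono, hb'⟩ := ih (LinearMap.ker (c N₀))
      (fun N => (c N).domRestrict (LinearMap.ker (c N₀))) hfr (by
        intro v hv
        obtain ⟨N, hN⟩ := hne v (fun h => hv (Subtype.ext h))
        exact ⟨N, hN⟩)
    have hlt : ∀ j, N₀ < n' j := by
      intro j
      by_contra hcon
      push Not at hcon
      apply (hb' j).1
      rcases hcon.lt_or_eq with h | h
      · change c (n' j) (b' j : V) = 0
        rw [hN₀lt _ h, LinearMap.zero_apply]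
      · change c (n' j) (b' j : V) = 0
        rw [h]
        exact (b' j).2
    have hli : LinearIndependent ℂ (Fin.cons v₀ (fun j => (b' j : V)) : Fin (l + 1) → V) := by
      rw [linearIndependent_finCons]
      refine ⟨b'.linearIndependent.map' (LinearMap.ker (c N₀)).subtype
        (Submodule.ker_subtype _), fun hmem => hv₀ ?_⟩
      have hle : Submodule.span ℂ (Set.range fun j => (b' j : V)) ≤ LinearMap.ker (c N₀) := by
        rw [Submodule.span_le]
        rintro _ ⟨j, rfl⟩
        exact (b' j).2
      exact hle hmem
    refine ⟨basisOfLinearIndependentOfCardEqFinrank hli (by rw [Fintype.card_fin, hl]),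
      Fin.cons N₀ n', ?_, ?_⟩
    · intro i j hij
      refine Fin.cases ?_ (fun i => ?_) i hij
      · intro hij
        refine Fin.cases ?_ (fun j => ?_) j hij
        · intro h
          exact absurd h (lt_irrefl _)
        · intro _
          rw [Fin.cons_zero, Fin.cons_succ]
          exact hlt j
      · intro hij
        refine Fin.cases ?_ (fun j => ?_) j hij
        · intro h
          exact absurd h (Fin.not_lt_zero _)
        · intro h
          rw [Fin.cons_succ, Fin.cons_succ]
          exact hmono (Fin.succ_lt_succ_iff.1 h)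
    · intro j
      rw [coe_basisOfLinearIndependentOfCardEqFinrank]
      refine Fin.cases ?_ (fun j => ?_) j
      · rw [Fin.cons_zero, Fin.cons_zero]
        refine ⟨hv₀, fun N hN => ?_⟩
        rw [hN₀lt N hN, LinearMap.zero_apply]
      · rw [Fin.cons_succ, Fin.cons_succ]
        exact hb' j

end Pool.Agent.MPb60633
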