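import Pool.Agent.Lib.MP_b60633_nt.SpecD

/-! # Z4: calculus of Wronskians -/

set_option autoImplicit false

namespace Pool.Agent.MPb60633

open Complex Pool.Agent.Lib.Ribet4b482e Module

namespace Z4

/-- Leibniz for the Wronskian, local form -/
theorem mul {l : ℕ} (f : Fin l → ℂ → ℂ) (g : ℂ → ℂ) (z : ℂ) (hf : ∀ j, AnalyticAt ℂ (f j) z)
    (hg : AnalyticAt ℂ g z) : Wr (fun j z => g z * f j z) z = g z ^ l * Wr f z := by
  set T : Matrix (Fin l) (Fin l) ℂ := Matrix.of fun i s =>
    if (s : ℕ) ≤ i then ((i : ℕ).choose s : ℂ) * iteratedDeriv ((i : ℕ) - s) g z else 0 with hT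
  have hmat : (Matrix.of fun i j : Fin l => iteratedDeriv (i : ℕ) (fun z => g z * f j z) z) =
      T * (Matrix.of fun i j : Fin l => iteratedDeriv (i : ℕ) (f j) z) := by
    ext i j
    rw [Matrix.mul_apply]
    simp only [Matrix.of_apply]
    have e1 : (fun z => g z * f j z) = f j * g := by
      funext z
      rw [Pi.mul_apply, mul_comm]
    rw [e1, iteratedDeriv_mul (hf j).contDiffAt hg.contDiffAt]
    have e2 : ∀ s : Fin l, T i s * iteratedDeriv (s : ℕ) (f j) z =
        (fun k : ℕ => if k ≤ (i : ℕ) then ((i : ℕ).choose k : ℂ) * iteratedDeriv k (f j) z *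
          iteratedDeriv ((i : ℕ) - k) g z else 0) s := by
      intro s
      simp only [hT, Matrix.of_apply]
      split_ifs
      · ring
      · rw [zero_mul]
    rw [Finset.sum_congr rfl (fun s _ => e2 s), ← Finset.sum_range
      (fun k : ℕ => if k ≤ (i : ℕ) then ((i : ℕ).choose k : ℂ) * iteratedDeriv k (f j) z *
          iteratedDeriv ((i : ℕ) - k) g z else 0)]
    rw [← Finset.sum_filter]
    apply Finset.sum_congr _ (fun _ _ => rfl)
    ext k
    have := i.2
    simp only [Finset.mem_range, Finset.mem_filter]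
    omega
  have hdet : T.det = g z ^ l := by
    rw [Matrix.det_of_isLowerTriangular T]
    · rw [Finset.prod_congr rfl (fun i _ => ?_), Finset.prod_const, Finset.card_univ,
        Fintype.card_fin]
      simp [hT]
    · intro i j hij
      have h1 : (i : ℕ) < j := hij
      simp only [hT, Matrix.of_apply]
      rw [if_neg (not_le.2 h1)]
  unfold Wr
  rw [hmat, Matrix.det_mul, hdet]

end Z4

theorem t_Z4 : S_Z4 := by
  intro l f hf
  have hc : ∀ j (n : ℕ∞), ContDiff ℂ n (f j) := fun j n => (hf j).contDiff
  refine ⟨?_, ?_, ?_, ?_⟩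
  · unfold Wr
    simp only [Matrix.det_apply]
    apply Differentiable.fun_sum
    intro σ _
    apply Differentiable.const_smul
    apply Differentiable.fun_finsetProd
    intro i _
    exact (hc i ⊤).differentiable_iteratedDeriv _ (by exact_mod_cast WithTop.coe_lt_top _)
  · intro g hg z
    exact Z4.mul f g z (fun j => (hf j).analyticAt z) (hg.analyticAt z)
  · intro C z
    unfold Wr
    rw [mul_comm, ← Matrix.det_mul]
    congr 1
    ext i j
    rw [Matrix.mul_apply]
    simp only [Matrix.of_apply]
    rw [iteratedDeriv_fun_sum (fun k _ => ((hf k).const_mul _).contDiff.contDiffAt)]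
    apply Finset.sum_congr rfl
    intro k _
    rw [iteratedDeriv_const_mul_field, mul_comm]
  · intro a z
    unfold Wr
    congr 1
    ext i j
    simp only [Matrix.of_apply]
    rw [iteratedDeriv_comp_add_const]

end Pool.Agent.MPb60633
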