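import Pool.Agent.Lib.MP_b60633_nt.W.Z4

/-! # Z5: a Wronskian with different orders is not zero -/

set_option autoImplicit false

namespace Pool.Agent.MPb60633

open Complex Pool.Agent.Lib.Ribet4b482e Module Filter Topology

namespace Z5

theorem Wr_congr {l : ℕ} {f g : Fin l → ℂ → ℂ} {z : ℂ} (h : ∀ j, f j =ᶠ[𝓝 z] g j) :
    Wr f z = Wr g z := by
  unfold Wr
  congr 1
  ext i j
  simp only [Matrix.of_apply]
  exact (h j).iteratedDeriv_eq i

/-- if the first function is `1` the Wronskian is the Wronskian of the derivatives of the others -/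
theorem Wr_one {l : ℕ} (h : Fin (l + 1) → ℂ → ℂ) (h0 : h 0 = fun _ => 1) (z : ℂ) :
    Wr h z = Wr (fun j : Fin l => deriv (h j.succ)) z := by
  unfold Wr
  rw [Matrix.det_succ_column_zero, Finset.sum_eq_single 0]
  · rw [Fin.val_zero, pow_zero, one_mul]
    have e1 : (Matrix.of fun i j : Fin (l + 1) => iteratedDeriv (i : ℕ) (h j) z) 0 0 = 1 := by
      simp [h0]
    rw [e1, one_mul]
    congr 1
    ext i j
    simp only [Matrix.submatrix_apply, Matrix.of_apply, Fin.succAbove_zero, Fin.val_succ]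
    rw [iteratedDeriv_succ']
  · intro i _ hi
    have e1 : (Matrix.of fun i j : Fin (l + 1) => iteratedDeriv (i : ℕ) (h j) z) i 0 = 0 := by
      simp only [Matrix.of_apply, h0]
      rw [iteratedDeriv_const, if_neg]
      intro h
      exact hi (Fin.ext h)
    rw [e1, mul_zero, zero_mul]
  · intro h
    exact absurd (Finset.mem_univ _) h

theorem main (l : ℕ) : ∀ (f : Fin l → ℂ → ℂ) (z₀ : ℂ) (nn : Fin l → ℕ),
    (∀ j, AnalyticAt ℂ (f j) z₀) → StrictMono nn → (∀ j, analyticOrderAt (f j) z₀ = nn j) →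
    ∀ᶠ z in 𝓝[≠] z₀, Wr f z ≠ 0 := by
  induction l with
  | zero =>
    intro f z₀ nn _ _ _
    refine Eventually.of_forall fun z => ?_
    unfold Wr
    rw [Matrix.det_isEmpty]
    exact one_ne_zero
  | succ l ih =>
    intro f z₀ nn hf hnn hord
    choose g hg hg0 hfg using fun j => ((hf j).analyticOrderAt_eq_natCast).1 (hord j)
    -- the quotients
    set h : Fin (l + 1) → ℂ → ℂ := fun j => if j = 0 then (fun _ => 1) else
      (fun z => (z - z₀) ^ (nn j - nn 0) * (g j z / g 0 z)) with hh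
    have h0 : h 0 = fun _ => 1 := by simp [hh]
    have hsucc : ∀ j : Fin l, h j.succ =
        fun z => (z - z₀) ^ (nn j.succ - nn 0) * (g j.succ z / g 0 z) := by
      intro j
      simp only [hh]
      rw [if_neg (Fin.succ_ne_zero j)]
    have hq : ∀ j, AnalyticAt ℂ (fun z => g j z / g 0 z) z₀ := fun j => (hg j).fun_div (hg 0) (hg0 0)
    have hpow : ∀ n : ℕ, AnalyticAt ℂ (fun z => (z - z₀) ^ n) z₀ := fun n =>
      (analyticAt_id.sub analyticAt_const).pow n
    have hha : ∀ j, AnalyticAt ℂ (h j) z₀ := by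
      intro j
      refine Fin.cases ?_ (fun j => ?_) j
      · rw [h0]
        exact analyticAt_const
      · rw [hsucc]
        exact (hpow _).fun_mul (hq _)
    have hg0e : ∀ᶠ z in 𝓝 z₀, g 0 z ≠ 0 := (hg 0).continuousAt.eventually_ne (hg0 0)
    have hfh : ∀ j, f j =ᶠ[𝓝 z₀] fun z => f 0 z * h j z := by
      intro j
      refine Fin.cases ?_ (fun j => ?_) j
      · rw [h0]
        exact Eventually.of_forall fun z => by simp
      · rw [hsucc]
        filter_upwards [hfg j.succ, hfg 0, hg0e] with z hz hz0 hgz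
        rw [hz, hz0, smul_eq_mul, smul_eq_mul]
        have hle : nn 0 ≤ nn j.succ := hnn.monotone (Fin.zero_le _)
        have e : (z - z₀) ^ nn j.succ = (z - z₀) ^ nn 0 * (z - z₀) ^ (nn j.succ - nn 0) := by
          rw [← pow_add, Nat.add_sub_cancel' hle]
        rw [e]
        field_simp
    -- orders of the derivatives
    have hord' : ∀ j : Fin l, analyticOrderAt (deriv (h j.succ)) z₀ = (nn j.succ - nn 0 - 1 : ℕ) := by
      intro j
      have hlt : nn 0 < nn j.succ := hnn (Fin.succ_pos j)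
      apply analyticOrderAt_deriv_of_pos (hha j.succ)
      have e1 : ((nn j.succ - nn 0 - 1 : ℕ) : ℕ∞) + 1 = ((nn j.succ - nn 0 : ℕ) : ℕ∞) := by
        have : nn j.succ - nn 0 - 1 + 1 = nn j.succ - nn 0 := by omega
        rw [← this]
        push_cast
        rfl
      rw [e1, (hha j.succ).analyticOrderAt_eq_natCast]
      refine ⟨fun z => g j.succ z / g 0 z, hq _, div_ne_zero (hg0 _) (hg0 _), ?_⟩
      rw [hsucc]
      exact Eventually.of_forall fun z => by rw [smul_eq_mul]
    have hmono' : StrictMono (fun j : Fin l => nn j.succ - nn 0 - 1) := by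
      intro i j hij
      have h1 : nn i.succ < nn j.succ := hnn (Fin.succ_lt_succ_iff.2 hij)
      have h2 : nn 0 < nn i.succ := hnn (Fin.succ_pos i)
      change nn i.succ - nn 0 - 1 < nn j.succ - nn 0 - 1
      omega
    have hIH := ih (fun j => deriv (h j.succ)) z₀ _ (fun j => (hha j.succ).deriv) hmono' hord'
    -- `f 0` does not vanish near `z₀`
    have hf0 : ∀ᶠ z in 𝓝[≠] z₀, f 0 z ≠ 0 := by
      rcases (hf 0).eventually_eq_zero_or_eventually_ne_zero with h1 | h1
      · exfalso
        have h2 := analyticOrderAt_eq_top.2 h1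
        rw [hord 0] at h2
        exact ENat.natCast_ne_top _ h2
      · exact h1
    have hev1 : ∀ᶠ z in 𝓝[≠] z₀, ∀ j, f j =ᶠ[𝓝 z] fun z => f 0 z * h j z :=
      (eventually_all.2 fun j => (hfh j).eventually_nhds).filter_mono nhdsWithin_le_nhds
    have hev2 : ∀ᶠ z in 𝓝[≠] z₀, AnalyticAt ℂ (f 0) z :=
      ((hf 0).eventually_analyticAt).filter_mono nhdsWithin_le_nhds
    have hev3 : ∀ᶠ z in 𝓝[≠] z₀, ∀ j, AnalyticAt ℂ (h j) z :=
      (eventually_all.2 fun j => (hha j).eventually_analyticAt).filter_mono nhdsWithin_le_nhds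
    filter_upwards [hIH, hf0, hev1, hev2, hev3] with z h1 h2 h3 h4 h5
    rw [Wr_congr h3, Z4.mul h (f 0) z h5 h4, Wr_one h h0]
    exact mul_ne_zero (pow_ne_zero _ h2) h1

end Z5

theorem t_Z5 : S_Z5 := by
  intro l f z₀ nn hf hnn hord
  exact (Z5.main l f z₀ nn (fun j => (hf j).analyticAt z₀) hnn hord).exists

end Pool.Agent.MPb60633
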