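import Pool.Agent.Lib.MP_b60633_nt.SpecD

/-! # Z6: lower bound for the order of a Wronskian -/

set_option autoImplicit false

namespace Pool.Agent.MPb60633

open Complex Pool.Agent.Lib.Ribet4b482e Module Filter Topology

theorem t_Z6 : S_Z6 := by
  classical
  intro l f z₀ T S hf hS
  set m := T + 1 - l with hm
  have hc : ∀ j (n : ℕ∞), ContDiff ℂ n (f j) := fun j n => (hf j).contDiff
  have hdiff : ∀ (j : Fin l) (i : ℕ), Differentiable ℂ (iteratedDeriv i (f j)) := fun j i =>
    (hc j ⊤).differentiable_iteratedDeriv _ (by exact_mod_cast WithTop.coe_lt_top _)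
  have hfac : ∀ (i j : Fin l), ∃ g : ℂ → ℂ, AnalyticAt ℂ g z₀ ∧
      ∀ᶠ z in 𝓝 z₀, iteratedDeriv (i : ℕ) (f j) z = (if j ∈ S then (z - z₀) ^ m else 1) * g z := by
    intro i j
    by_cases hj : j ∈ S
    · have h1 : (m : ℕ∞) ≤ analyticOrderAt (iteratedDeriv (i : ℕ) (f j)) z₀ := by
        rw [natCast_le_analyticOrderAt_iff_iteratedDeriv_eq_zero ((hdiff j i).analyticAt z₀)]
        intro k hk
        have h2 := (natCast_le_analyticOrderAt_iff_iteratedDeriv_eq_zero
          ((hf j).analyticAt z₀)).1 (hS j hj) (k + i) (by have := i.2; omega)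
        rw [iteratedDeriv_eq_iterate, iteratedDeriv_eq_iterate, ← Function.iterate_add_apply]
        rw [iteratedDeriv_eq_iterate] at h2
        exact h2
      obtain ⟨g, hg, hfg⟩ := (natCast_le_analyticOrderAt ((hdiff j i).analyticAt z₀)).1 h1
      refine ⟨g, hg, ?_⟩
      filter_upwards [hfg] with z hz
      rw [if_pos hj, hz, smul_eq_mul]
    · refine ⟨iteratedDeriv (i : ℕ) (f j), (hdiff j i).analyticAt z₀, Eventually.of_forall fun z => ?_⟩
      rw [if_neg hj, one_mul]
  choose g hg hfg using hfac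
  have hWr : AnalyticAt ℂ (Wr f) z₀ := by
    unfold Wr
    simp only [Matrix.det_apply]
    apply Finset.analyticAt_fun_sum
    intro σ _
    have h1 : AnalyticAt ℂ (fun z => ∏ i, (Matrix.of fun i j : Fin l =>
        iteratedDeriv (i : ℕ) (f j) z) (σ i) i) z₀ :=
      Finset.analyticAt_fun_prod _ (fun i _ => (hdiff i _).analyticAt z₀)
    simp only [Units.smul_def, zsmul_eq_mul]
    exact analyticAt_const.mul h1
  rw [natCast_le_analyticOrderAt hWr]
  refine ⟨fun z => Matrix.det (Matrix.of fun i j : Fin l => g i j z), ?_, ?_⟩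
  · simp only [Matrix.det_apply]
    apply Finset.analyticAt_fun_sum
    intro σ _
    have h1 : AnalyticAt ℂ (fun z => ∏ i, (Matrix.of fun i j : Fin l => g i j z) (σ i) i) z₀ :=
      Finset.analyticAt_fun_prod _ (fun i _ => hg _ i)
    simp only [Units.smul_def, zsmul_eq_mul]
    exact analyticAt_const.mul h1
  · have hall : ∀ᶠ z in 𝓝 z₀, ∀ i j : Fin l, iteratedDeriv (i : ℕ) (f j) z =
        (if j ∈ S then (z - z₀) ^ m else 1) * g i j z :=
      eventually_all.2 fun i => eventually_all.2 fun j => hfg i j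
    filter_upwards [hall] with z hz
    unfold Wr
    have e1 : (Matrix.of fun i j : Fin l => iteratedDeriv (i : ℕ) (f j) z) =
        Matrix.of fun i j : Fin l => (if j ∈ S then (z - z₀) ^ m else 1) *
          (Matrix.of fun i j : Fin l => g i j z) i j := by
      ext i j
      simp only [Matrix.of_apply]
      exact hz i j
    rw [e1, Matrix.det_mul_row (fun j : Fin l => if j ∈ S then (z - z₀) ^ m else 1), smul_eq_mul]
    congr 1
    rw [Finset.prod_ite, Finset.prod_const, Finset.prod_const, one_pow, mul_one, mul_comm, pow_mul]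
    congr 2
    rw [Finset.filter_mem_eq_inter, Finset.univ_inter]

end Pool.Agent.MPb60633
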