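import Pool.Agent.Lib.MP_b60633_nt.SpecZ

/-!
# MP_b60633_nt, Z7: a quasi-periodic entire function cannot vanish too much (helper11)
-/

set_option autoImplicit false

namespace Pool.Agent.MPb60633

namespace Z7

open Complex Pool.Agent.Lib.Ribet4b482e Filter Topology

/-- Removable singularities. -/
lemma extend (f : ℂ → ℂ)
    (hf : ∀ a, ∃ G : ℂ → ℂ, AnalyticAt ℂ G a ∧ ∀ᶠ z in 𝓝[≠] a, f z = G z) :
    ∃ h : ℂ → ℂ, Differentiable ℂ h ∧ ∀ a, ∀ᶠ z in 𝓝[≠] a, h z = f z := by
  choose G hG hfG using hf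
  have key : ∀ a, ∀ᶠ z in 𝓝 a, G z z = G a z := by
    intro a
    have h1 : ∀ᶠ z in 𝓝[≠] a, ∀ᶠ y in 𝓝[≠] z, f y = G a y := by
      have h2 := eventually_eventually_nhdsWithin.mpr (hfG a)
      filter_upwards [h2, self_mem_nhdsWithin] with z hz hza
      have hz' : ∀ᶠ y in 𝓝 z, f y = G a y := by
        rwa [isOpen_compl_singleton.nhdsWithin_eq hza] at hz
      exact hz'.filter_mono nhdsWithin_le_nhds
    rw [eventually_nhdsWithin_iff] at h1
    filter_upwards [h1, (hG a).eventually_analyticAt] with z hz hzan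
    by_cases hza : z = a
    · rw [hza]
    · have h3 : ∀ᶠ y in 𝓝[≠] z, G z y = G a y := by
        filter_upwards [hz hza, hfG z] with y hy1 hy2
        rw [← hy1, hy2]
      exact tendsto_nhds_unique_of_eventuallyEq
        ((hG z).continuousAt.tendsto.mono_left nhdsWithin_le_nhds)
        (hzan.continuousAt.tendsto.mono_left nhdsWithin_le_nhds) h3
  refine ⟨fun z => G z z, ?_, ?_⟩
  · intro a
    exact (hG a).differentiableAt.congr_of_eventuallyEq (key a)
  · intro a
    filter_upwards [(key a).filter_mono nhdsWithin_le_nhds, hfG a] with z h1 h2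
    rw [h1, h2]

end Z7

open Complex Pool.Agent.Lib.Ribet4b482e Filter Topology Z7 in
/-- A quasi-periodic entire function cannot vanish too much. -/
theorem t_Z7 : S_Z7 := by
  intro L w hL hσ H Q V z₀ hH hz₀ hfun hord hQV
  have hw0 : 0 < w := hL.pos
  have hd := differentiable_sigmaW L
  have hd0 := differentiable_sig0 L
  have hHa : ∀ z, AnalyticAt ℂ H z := fun z => hH.analyticAt z
  obtain ⟨g, hg, hgH⟩ := (natCast_le_analyticOrderAt (hHa z₀)).mp hord
  set f : ℂ → ℂ := fun z => H z / sigmaW L (z - z₀) ^ V with hf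
  have hds : Differentiable ℂ fun z => sigmaW L (z - z₀) :=
    hd.comp (differentiable_id.sub_const z₀)
  have hfan : ∀ a, a - z₀ ∉ L.lattice → AnalyticAt ℂ f a := by
    intro a ha
    exact (hHa a).div ((hds.analyticAt a).pow V) (pow_ne_zero _ (sigmaW_ne_zero L ha))
  have hloc : ∀ a, ∃ G : ℂ → ℂ, AnalyticAt ℂ G a ∧ ∀ᶠ z in 𝓝[≠] a, f z = G z := by
    intro a
    by_cases ha : a - z₀ ∈ L.lattice
    · obtain ⟨C, hC, hCz⟩ := hσ (a - z₀) ha
      set l := a - z₀ with hl
      have hal : a - l = z₀ := by rw [hl]; ring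
      have hσz₀ : sigmaW L (a - l) ≠ 0 := by
        rw [hal]
        exact sigmaW_ne_zero L hz₀
      have hdl : Differentiable ℂ fun z => sigmaW L (z - l) :=
        hd.comp (differentiable_id.sub_const l)
      have hda : Differentiable ℂ fun z => C * Complex.exp (etaW L l * (z - a)) * sig0 L (z - a) := by
        have e1 : Differentiable ℂ fun z => sig0 L (z - a) :=
          hd0.comp (differentiable_id.sub_const a)
        have e2 : Differentiable ℂ fun z : ℂ => C * Complex.exp (etaW L l * (z - a)) := by fun_prop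
        exact e2.mul e1
      refine ⟨fun x => g (x - l) * (sigmaW L x / sigmaW L (x - l)) ^ Q /
        (C * Complex.exp (etaW L l * (x - a)) * sig0 L (x - a)) ^ V, ?_, ?_⟩
      · have h1 : AnalyticAt ℂ (fun x => g (x - l)) a := by
          have h2 : AnalyticAt ℂ g (a - l) := by rw [hal]; exact hg
          exact AnalyticAt.comp' (f := fun x => x - l) (x := a) h2 (by fun_prop)
        have h3 : AnalyticAt ℂ (fun x => (sigmaW L x / sigmaW L (x - l)) ^ Q) a :=
          ((hd.analyticAt a).div (hdl.analyticAt a) hσz₀).pow Q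
        refine (h1.mul h3).div ((hda.analyticAt a).pow V) (pow_ne_zero _ ?_)
        simp only [sub_self, mul_zero, Complex.exp_zero, mul_one, sig0_zero]
        exact hC
      · have ht : Tendsto (fun x : ℂ => x - l) (𝓝 a) (𝓝 z₀) := by
          have : ContinuousAt (fun x : ℂ => x - l) a := by fun_prop
          have h1 := this.tendsto
          rwa [hal] at h1
        have h1 : ∀ᶠ x in 𝓝 a, H (x - l) = (x - l - z₀) ^ V • g (x - l) := ht.eventually hgH
        have h2 : ∀ᶠ x in 𝓝 a, sigmaW L (x - l) ≠ 0 :=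
          (hdl.continuous.continuousAt).eventually_ne hσz₀
        filter_upwards [h1.filter_mono nhdsWithin_le_nhds, h2.filter_mono nhdsWithin_le_nhds,
          self_mem_nhdsWithin] with x hx1 hx2 hx3
        have hxa : x - a ≠ 0 := sub_ne_zero.mpr hx3
        have e1 := hfun l ha (x - l)
        rw [sub_add_cancel, hx1] at e1
        have e2 : x - l - z₀ = x - a := by rw [hl]; ring
        rw [e2, smul_eq_mul] at e1
        have e3 : sigmaW L (x - z₀) = (x - a) * (C * Complex.exp (etaW L l * (x - a)) *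
            sig0 L (x - a)) := by
          have e4 := (hCz (x - a)).1
          rw [show x - a + l = x - z₀ from by rw [hl]; ring, sigmaW_eq_mul L (x - a)] at e4
          rw [e4]
          ring
        have e5 : H x = (x - a) ^ V * (g (x - l) * (sigmaW L x / sigmaW L (x - l)) ^ Q) := by
          rw [div_pow]
          field_simp
          rw [e1]
        rw [hf]
        simp only []
        rw [e3, mul_pow (x - a), e5, mul_div_mul_left _ _ (pow_ne_zero V hxa)]
    · exact ⟨f, hfan a ha, Eventually.of_forall fun _ => rfl⟩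
  obtain ⟨h, hh, hhf⟩ := extend f hloc
  -- the dense set
  set D : Set ℂ := ((L.lattice : Set ℂ) ∪ (fun x => x + z₀) '' (L.lattice : Set ℂ))ᶜ with hD
  have hDd : Dense D := by
    have h1 : (L.lattice : Set ℂ).Countable := countable_of_Lindelof_of_discrete (X := L.lattice)
    exact Set.Countable.dense_compl (𝕜 := ℂ) (h1.union (h1.image _))
  have hD1 : ∀ x ∈ D, x ∉ L.lattice ∧ x - z₀ ∉ L.lattice := by
    intro x hx
    rw [hD, Set.mem_compl_iff, Set.mem_union, not_or] at hx
    refine ⟨hx.1, fun h => hx.2 ⟨x - z₀, h, by simp⟩⟩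
  have hhx : ∀ x, x - z₀ ∉ L.lattice → H x = h x * sigmaW L (x - z₀) ^ V := by
    intro x hx
    have h1 : h x = f x := tendsto_nhds_unique_of_eventuallyEq
      (hh.continuous.continuousAt.tendsto.mono_left nhdsWithin_le_nhds)
      ((hfan x hx).continuousAt.tendsto.mono_left nhdsWithin_le_nhds) (hhf x)
    rw [h1, hf]
    simp only []
    rw [div_mul_cancel₀ _ (pow_ne_zero _ (sigmaW_ne_zero L hx))]
  have hHh : H = fun x => h x * sigmaW L (x - z₀) ^ V :=
    Continuous.ext_on hDd hH.continuous (hh.continuous.mul (hds.continuous.pow V))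
      (fun x hx => hhx x (hD1 x hx).2)
  -- the periodic function
  have hGsc : Continuous (Gs w) := by
    unfold Gs
    fun_prop
  set B : ℂ → ℝ := fun z => ‖h z‖ * Real.exp (V * Gs w (z - z₀) - Q * Gs w z) with hB
  have hBc : Continuous B := by
    refine (hh.continuous.norm).mul (Real.continuous_exp.comp ?_)
    exact (continuous_const.mul (hGsc.comp (continuous_id.sub continuous_const))).sub
      (continuous_const.mul hGsc)
  have hBper : ∀ z l, l ∈ L.lattice → B (z + l) = B z := by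
    intro z l hl
    have h1 : (fun z => B (z + l)) = B := by
      refine Continuous.ext_on hDd (hBc.comp (continuous_id.add continuous_const)) hBc ?_
      intro x hx
      obtain ⟨hx1, hx2⟩ := hD1 x hx
      have hx3 : x - z₀ + l ∉ L.lattice := add_notMem L hx2 hl
      obtain ⟨C, hC, hCz⟩ := hσ l hl
      obtain ⟨a1, a2⟩ := hCz x
      obtain ⟨b1, b2⟩ := hCz (x - z₀)
      set E := C * Complex.exp (etaW L l * x) with hE
      set E' := C * Complex.exp (etaW L l * (x - z₀)) with hE'
      clear_value E E'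
      have hsx : sigmaW L x ^ Q ≠ 0 := pow_ne_zero _ (sigmaW_ne_zero L hx1)
      have hsx2 : sigmaW L (x - z₀) ^ V ≠ 0 := pow_ne_zero _ (sigmaW_ne_zero L hx2)
      have c1 : H (x + l) = H x * E ^ Q := by
        have := hfun l hl x
        rw [a1, mul_pow, ← mul_assoc] at this
        exact mul_right_cancel₀ hsx this
      have c2 := hhx x hx2
      have c3 := hhx (x + l) (by rwa [show x + l - z₀ = x - z₀ + l from by ring])
      rw [show x + l - z₀ = x - z₀ + l from by ring, b1, c1, c2, mul_pow] at c3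
      have c4 : h x * E ^ Q = h (x + l) * E' ^ V := by
        apply mul_right_cancel₀ hsx2
        rw [mul_right_comm, c3]
        ring
      have c5 : ‖h x‖ * Real.exp (Q * (Gs w (x + l) - Gs w x)) =
          ‖h (x + l)‖ * Real.exp (V * (Gs w (x - z₀ + l) - Gs w (x - z₀))) := by
        have := congrArg norm c4
        rw [norm_mul, norm_mul, norm_pow, norm_pow, a2, b2, ← Real.exp_nat_mul,
          ← Real.exp_nat_mul] at this
        exact this
      show B (x + l) = B x
      rw [hB]
      simp only []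
      rw [show x + l - z₀ = x - z₀ + l from by ring]
      have d1 : Real.exp (V * Gs w (x - z₀ + l) - Q * Gs w (x + l)) =
          Real.exp (V * (Gs w (x - z₀ + l) - Gs w (x - z₀))) *
          Real.exp (V * Gs w (x - z₀) - Q * Gs w (x + l)) := by
        rw [← Real.exp_add]
        congr 1
        ring
      have d2 : Real.exp (V * Gs w (x - z₀) - Q * Gs w x) =
          Real.exp (Q * (Gs w (x + l) - Gs w x)) *
          Real.exp (V * Gs w (x - z₀) - Q * Gs w (x + l)) := by
        rw [← Real.exp_add]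
        congr 1
        ring
      rw [d1, d2, ← mul_assoc, ← mul_assoc, c5]
    exact congrFun h1 z
  obtain ⟨c, hc⟩ := (IsZLattice.isCompact_range_of_periodic L.lattice B hBc hBper).bddAbove
  have hcB : ∀ z, B z ≤ c := fun z => hc ⟨z, rfl⟩
  have hc0 : 0 ≤ c := le_trans (by rw [hB]; positivity) (hcB 0)
  -- `h` tends to zero
  set k : ℝ := Real.pi / (2 * w ^ 2) with hk
  have hk0 : 0 < k := by
    rw [hk]
    have := Real.pi_pos
    positivity
  have hGk : ∀ z, Gs w z = k * ‖z‖ ^ 2 := by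
    intro z
    rw [hk]
    unfold Gs
    ring
  have hlim : Tendsto h (cocompact ℂ) (𝓝 0) := by
    have ht : Tendsto (fun z : ℂ => ‖z‖) (cocompact ℂ) atTop := tendsto_norm_cocompact_atTop
    have ha : Tendsto (fun z : ℂ => c * Real.exp (-(k * ‖z‖))) (cocompact ℂ) (𝓝 0) := by
      have h1 : Tendsto (fun x : ℝ => c * Real.exp (-(k * x))) atTop (𝓝 0) := by
        have h2 : Tendsto (fun x : ℝ => Real.exp (-(k * x))) atTop (𝓝 0) :=
          Real.tendsto_exp_neg_atTop_nhds_zero.comp (tendsto_id.const_mul_atTop hk0)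
        simpa using h2.const_mul c
      exact h1.comp ht
    refine squeeze_zero_norm' ?_ ha
    filter_upwards [ht.eventually_ge_atTop (2 * V * ‖z₀‖ + 1)] with z hz
    have hV : (Q : ℝ) + 1 ≤ V := by exact_mod_cast hQV
    have hQ0 : (0 : ℝ) ≤ Q := Nat.cast_nonneg _
    have h1 : ‖h z‖ = B z * Real.exp (Q * Gs w z - V * Gs w (z - z₀)) := by
      rw [hB]
      simp only []
      rw [mul_assoc, ← Real.exp_add]
      have : (V : ℝ) * Gs w (z - z₀) - Q * Gs w z + (Q * Gs w z - V * Gs w (z - z₀)) = 0 := by ring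
      rw [this, Real.exp_zero, mul_one]
    have h2 : Q * Gs w z - V * Gs w (z - z₀) ≤ -(k * ‖z‖) := by
      rw [hGk, hGk]
      have t1 : ‖z‖ - ‖z₀‖ ≤ ‖z - z₀‖ := norm_sub_norm_le z z₀
      have t0 : 0 ≤ ‖z₀‖ := norm_nonneg _
      have t2 : 0 ≤ ‖z‖ - ‖z₀‖ := by
        have : ‖z₀‖ ≤ 2 * V * ‖z₀‖ := by
          have : (1 : ℝ) ≤ 2 * V := by linarith
          exact le_mul_of_one_le_left t0 this
        linarith
      have t3 : (‖z‖ - ‖z₀‖) ^ 2 ≤ ‖z - z₀‖ ^ 2 := pow_le_pow_left₀ t2 t1 2
      have t4 : (V : ℝ) * (‖z‖ - ‖z₀‖) ^ 2 ≤ V * ‖z - z₀‖ ^ 2 := by gcongr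
      have t5 : ((Q : ℝ) + 1) * ‖z‖ ^ 2 ≤ V * ‖z‖ ^ 2 := by gcongr
      have t6 : (2 * V * ‖z₀‖ + 1) * ‖z‖ ≤ ‖z‖ * ‖z‖ := by gcongr
      have t7 : 0 ≤ (V : ℝ) * ‖z₀‖ ^ 2 := by positivity
      have t8 : (Q : ℝ) * ‖z‖ ^ 2 - V * ‖z - z₀‖ ^ 2 ≤ -‖z‖ := by
        have : (V : ℝ) * (‖z‖ - ‖z₀‖) ^ 2 = V * ‖z‖ ^ 2 - 2 * V * ‖z₀‖ * ‖z‖ + V * ‖z₀‖ ^ 2 := by
          ring
        linarith
      calc (Q : ℝ) * (k * ‖z‖ ^ 2) - V * (k * ‖z - z₀‖ ^ 2)
          = k * ((Q : ℝ) * ‖z‖ ^ 2 - V * ‖z - z₀‖ ^ 2) := by ring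
        _ ≤ k * (-‖z‖) := by gcongr
        _ = -(k * ‖z‖) := by ring
    rw [h1]
    exact mul_le_mul (hcB z) (Real.exp_le_exp.mpr h2) (Real.exp_pos _).le hc0
  intro z
  rw [hHh]
  simp only []
  rw [hh.apply_eq_of_tendsto_cocompact z hlim, zero_mul]

end Pool.Agent.MPb60633
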