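import Pool.Agent.Lib.MP_b60633_nt.SpecD

/-! # Z8: derivations, translations, Taylor's formula -/

set_option autoImplicit false

namespace Pool.Agent.MPb60633

open Complex Pool.Agent.Lib.Ribet4b482e Module

namespace Z8

/-! ### exponentials -/

/-- truncated exponential -/
noncomputable def ex {A : Type*} [Ring A] [Algebra ℂ A] (k : ℕ) (x : A) : A :=
  ∑ i ∈ Finset.range k, ((i.factorial : ℂ))⁻¹ • x ^ i

theorem ex_add {A : Type*} [Ring A] [Algebra ℂ A] {x y : A} (h : Commute x y) {k : ℕ}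
    (hx : x ^ k = 0) (hy : y ^ k = 0) (hxy : (x + y) ^ k = 0) : ex k (x + y) = ex k x * ex k y := by
  let _ : Module ℚ A := Module.compHom A (algebraMap ℚ ℂ)
  have e : ∀ z : A, z ^ k = 0 → IsNilpotent.exp z = ex k z := by
    intro z hz
    rw [IsNilpotent.exp_eq_sum hz]
    unfold ex
    apply Finset.sum_congr rfl
    intro i _
    change ((algebraMap ℚ ℂ) ((i.factorial : ℚ)⁻¹)) • z ^ i = _
    rw [map_inv₀, map_natCast]
  rw [← e _ hxy, ← e _ hx, ← e _ hy]
  exact IsNilpotent.exp_add_of_commute h ⟨k, hx⟩ ⟨k, hy⟩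

theorem ex_GG {V : Type*} [AddCommGroup V] [Module ℂ V] (x y : V →ₗ[ℂ] V) (N : ℕ) (F : V) (u v : ℂ) :
    ((ex N (u • x) * ex N (v • y) : Module.End ℂ V)) F = GG x y N F u v := by
  unfold ex GG
  rw [Finset.sum_mul_sum, LinearMap.sum_apply]
  apply Finset.sum_congr rfl
  intro i _
  rw [LinearMap.sum_apply]
  apply Finset.sum_congr rfl
  intro j _
  rw [smul_pow, smul_pow, smul_smul, smul_smul, smul_mul_smul_comm, LinearMap.smul_apply]
  congr 1
  ring

theorem map_pow {V W : Type*} [AddCommGroup V] [Module ℂ V] [AddCommGroup W] [Module ℂ W]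
    (φ : V →ₗ[ℂ] W) (x : V →ₗ[ℂ] V) (x' : W →ₗ[ℂ] W) (hx : ∀ z, φ (x z) = x' (φ z)) (i : ℕ) (z : V) :
    φ ((x ^ i) z) = (x' ^ i) (φ z) := by
  induction i generalizing z with
  | zero => rfl
  | succ i ih => rw [pow_succ, pow_succ, Module.End.mul_apply, Module.End.mul_apply, ih, hx]

theorem map_GG {V W : Type*} [AddCommGroup V] [Module ℂ V] [AddCommGroup W] [Module ℂ W]
    (φ : V →ₗ[ℂ] W) (x y : V →ₗ[ℂ] V) (x' y' : W →ₗ[ℂ] W) (hx : ∀ z, φ (x z) = x' (φ z))
    (hy : ∀ z, φ (y z) = y' (φ z)) (N : ℕ) (F : V) (u v : ℂ) :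
    φ (GG x y N F u v) = GG x' y' N (φ F) u v := by
  unfold GG
  rw [map_sum]
  apply Finset.sum_congr rfl
  intro i _
  rw [map_sum]
  apply Finset.sum_congr rfl
  intro j _
  rw [map_smul, Module.End.mul_apply, Module.End.mul_apply, map_pow φ x x' hx, map_pow φ y y' hy]

theorem GG_add {V : Type*} [AddCommGroup V] [Module ℂ V] (x y : V →ₗ[ℂ] V) (N : ℕ) (F G : V)
    (u v : ℂ) : GG x y N (F + G) u v = GG x y N F u v + GG x y N G u v := by
  unfold GG
  simp only [map_add, smul_add, Finset.sum_add_distrib]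

theorem GG_smul {V : Type*} [AddCommGroup V] [Module ℂ V] (x y : V →ₗ[ℂ] V) (N : ℕ) (F : V)
    (c u v : ℂ) : GG x y N (c • F) u v = c • GG x y N F u v := by
  unfold GG
  simp only [map_smul, Finset.smul_sum]
  apply Finset.sum_congr rfl
  intro i _
  apply Finset.sum_congr rfl
  intro j _
  rw [smul_comm]

theorem GG_zero {V : Type*} [AddCommGroup V] [Module ℂ V] (x y : V →ₗ[ℂ] V) (N : ℕ)
    (u v : ℂ) : GG x y N (0 : V) u v = 0 := by
  unfold GG
  simp only [map_zero, smul_zero, Finset.sum_const_zero]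

/-! ### derivations -/

theorem der_pow (D : Derivation ℂ R4 R4) (x q : R4) (hx : D x = 1) (hq : D q = 0) (i m : ℕ) :
    (D.toLinearMap ^ m) (x ^ i * q) = (i.descFactorial m : ℂ) • (x ^ (i - m) * q) := by
  induction m with
  | zero => simp
  | succ m ih =>
    rw [pow_succ', Module.End.mul_apply, ih, map_smul]
    change (i.descFactorial m : ℂ) • D (x ^ (i - m) * q) = _
    rw [Derivation.leibniz, Derivation.leibniz_pow, hq, hx, smul_zero, zero_add,
      Nat.descFactorial_succ, Nat.sub_sub]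
    simp only [smul_eq_mul, mul_one, Nat.cast_mul, nsmul_eq_mul]
    rw [mul_comm ((i - m : ℕ) : ℂ), ← smul_smul]
    congr 1
    rw [← MvPolynomial.C_mul', map_natCast]
    ring

theorem taylor1 (D : Derivation ℂ R4 R4) (x q : R4) (hx : D x = 1) (hq : D q = 0) (i N : ℕ)
    (hi : i < N) (a : ℂ) :
    ∑ m ∈ Finset.range N, (a ^ m / (m.factorial : ℂ)) • (D.toLinearMap ^ m) (x ^ i * q) =
      (x + MvPolynomial.C a) ^ i * q := by
  rw [add_comm x, add_pow, Finset.sum_mul]
  symm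
  have hsub : Finset.range (i + 1) ⊆ Finset.range N := Finset.range_mono hi
  rw [← Finset.sum_subset hsub]
  · apply Finset.sum_congr rfl
    intro m _
    rw [der_pow D x q hx hq, smul_smul, ← MvPolynomial.C_mul', Nat.descFactorial_eq_factorial_mul_choose]
    have hf : (m.factorial : ℂ) ≠ 0 := by exact_mod_cast Nat.factorial_ne_zero m
    have e : a ^ m / (m.factorial : ℂ) * ((m.factorial * i.choose m : ℕ) : ℂ) =
        a ^ m * (i.choose m : ℂ) := by
      push_cast
      field_simp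
    rw [e, map_mul, MvPolynomial.C_pow, map_natCast]
    ring
  · intro m _ hm
    rw [der_pow D x q hx hq]
    have : i < m := by
      rw [Finset.mem_range] at hm
      omega
    rw [Nat.descFactorial_of_lt this]
    simp

theorem mon_eq (c : Fin 4 →₀ ℕ) : (MvPolynomial.monomial c (1 : ℂ) : R4) =
    MvPolynomial.X 0 ^ c 0 * (MvPolynomial.X 1 ^ c 1 * (MvPolynomial.X 2 ^ c 2 *
      MvPolynomial.X 3 ^ c 3)) := by
  rw [MvPolynomial.monomial_eq, Finsupp.prod_fintype _ _ (fun i => pow_zero _), Fin.prod_univ_four,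
    MvPolynomial.C_1, one_mul, mul_assoc, mul_assoc]

theorem box_ind {l n : ℕ} {p : R4 → Prop} (h0 : p 0) (hadd : ∀ F G, p F → p G → p (F + G))
    (hsmul : ∀ (c : ℂ) F, p F → p (c • F))
    (hmon : ∀ c : Fin 4 →₀ ℕ, c 0 ≤ l → c 1 ≤ l → c 2 < n → c 3 < 2 →
      p (MvPolynomial.monomial c (1 : ℂ))) : ∀ F ∈ Box l n, p F := by
  intro F hF
  unfold Box at hF
  rw [MvPolynomial.restrictSupport_eq_span] at hF
  refine Submodule.span_induction ?_ h0 (fun F G _ _ => hadd F G) (fun c F _ => hsmul c F) hF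
  rintro _ ⟨c, ⟨h0, h1, h2, h3⟩, rfl⟩
  exact hmon c h0 h1 h2 h3

theorem mon_mem {l n : ℕ} {c : Fin 4 →₀ ℕ} (h0 : c 0 ≤ l) (h1 : c 1 ≤ l) (h2 : c 2 < n)
    (h3 : c 3 < 2) (a : ℂ) : MvPolynomial.monomial c a ∈ Box l n :=
  (MvPolynomial.monomial_mem_restrictSupport ℂ).2 (Or.inl ⟨h0, h1, h2, h3⟩)

theorem d_mem {l n : ℕ} : ∀ F ∈ Box l n, d0 F ∈ Box l n ∧ d1 F ∈ Box l n := by
  apply box_ind
  · rw [map_zero, map_zero]
    exact ⟨Submodule.zero_mem _, Submodule.zero_mem _⟩
  · intro F G hF hG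
    rw [map_add, map_add]
    exact ⟨Submodule.add_mem _ hF.1 hG.1, Submodule.add_mem _ hF.2 hG.2⟩
  · intro c F hF
    rw [map_smul, map_smul]
    exact ⟨Submodule.smul_mem _ _ hF.1, Submodule.smul_mem _ _ hF.2⟩
  · intro c h0 h1 h2 h3
    constructor
    · change MvPolynomial.pderiv 0 (MvPolynomial.monomial c (1 : ℂ)) ∈ Box l n
      rw [MvPolynomial.pderiv_monomial]
      apply mon_mem <;> simp <;> omega
    · change MvPolynomial.pderiv 1 (MvPolynomial.monomial c (1 : ℂ)) ∈ Box l n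
      rw [MvPolynomial.pderiv_monomial]
      apply mon_mem <;> simp <;> omega

theorem d_comm : d0 * d1 = d1 * d0 := by
  apply MvPolynomial.linearMap_ext
  intro c
  apply LinearMap.ext_ring
  change MvPolynomial.pderiv 0 (MvPolynomial.pderiv 1 (MvPolynomial.monomial c (1 : ℂ))) =
    MvPolynomial.pderiv 1 (MvPolynomial.pderiv 0 (MvPolynomial.monomial c (1 : ℂ)))
  simp only [MvPolynomial.pderiv_monomial]
  rw [tsub_right_comm]
  congr 1
  simp [mul_comm]

theorem d0X (c : Fin 4 →₀ ℕ) (a : ℂ) : MvPolynomial.pderiv (R := ℂ) (0 : Fin 4)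
    ((MvPolynomial.X 1 + MvPolynomial.C a) ^ c 1 *
      (MvPolynomial.X 2 ^ c 2 * MvPolynomial.X 3 ^ c 3) : R4) = 0 := by
  simp [Derivation.leibniz, Derivation.leibniz_pow, MvPolynomial.pderiv_X]

theorem d0X' (c : Fin 4 →₀ ℕ) : MvPolynomial.pderiv (R := ℂ) (0 : Fin 4)
    (MvPolynomial.X 1 ^ c 1 * (MvPolynomial.X 2 ^ c 2 * MvPolynomial.X 3 ^ c 3) : R4) = 0 := by
  simp [Derivation.leibniz, Derivation.leibniz_pow, MvPolynomial.pderiv_X]

theorem d1X (c : Fin 4 →₀ ℕ) : MvPolynomial.pderiv (R := ℂ) (1 : Fin 4)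
    (MvPolynomial.X 0 ^ c 0 * (MvPolynomial.X 2 ^ c 2 * MvPolynomial.X 3 ^ c 3) : R4) = 0 := by
  simp [Derivation.leibniz, Derivation.leibniz_pow, MvPolynomial.pderiv_X]

theorem Tr_mon (a b : ℂ) (c : Fin 4 →₀ ℕ) : Tr a b (MvPolynomial.monomial c (1 : ℂ)) =
    (MvPolynomial.X 0 + MvPolynomial.C a) ^ c 0 * ((MvPolynomial.X 1 + MvPolynomial.C b) ^ c 1 *
      (MvPolynomial.X 2 ^ c 2 * MvPolynomial.X 3 ^ c 3)) := by
  rw [mon_eq]
  unfold Tr
  simp

/-- Taylor's formula -/
theorem taylor {l n N : ℕ} (hN : l < N) (a b : ℂ) : ∀ F ∈ Box l n, GG d0 d1 N F a b = Tr a b F := by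
  apply box_ind
  · rw [GG_zero, map_zero]
  · intro F G hF hG
    rw [GG_add, hF, hG, map_add]
  · intro c F hF
    rw [GG_smul, hF, map_smul]
  · intro c h0 h1 h2 h3
    rw [Tr_mon, mon_eq]
    have e1 : ∀ s, ∑ t ∈ Finset.range N, (a ^ s / (s.factorial : ℂ) * (b ^ t / (t.factorial : ℂ))) •
        (d0 ^ s * d1 ^ t) (MvPolynomial.X 0 ^ c 0 * (MvPolynomial.X 1 ^ c 1 *
          (MvPolynomial.X 2 ^ c 2 * MvPolynomial.X 3 ^ c 3)) : R4) =
        (a ^ s / (s.factorial : ℂ)) • (d0 ^ s) (MvPolynomial.X 0 ^ c 0 *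
          ((MvPolynomial.X 1 + MvPolynomial.C b) ^ c 1 *
          (MvPolynomial.X 2 ^ c 2 * MvPolynomial.X 3 ^ c 3))) := by
      intro s
      have e2 := taylor1 (MvPolynomial.pderiv (R := ℂ) (1 : Fin 4)) (MvPolynomial.X 1)
        (MvPolynomial.X 0 ^ c 0 * (MvPolynomial.X 2 ^ c 2 * MvPolynomial.X 3 ^ c 3))
        (MvPolynomial.pderiv_X_self _) (d1X c) (c 1) N (by omega) b
      have e3 : (MvPolynomial.X 0 ^ c 0 * ((MvPolynomial.X 1 + MvPolynomial.C b) ^ c 1 *
          (MvPolynomial.X 2 ^ c 2 * MvPolynomial.X 3 ^ c 3)) : R4) =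
          (MvPolynomial.X 1 + MvPolynomial.C b) ^ c 1 * (MvPolynomial.X 0 ^ c 0 *
          (MvPolynomial.X 2 ^ c 2 * MvPolynomial.X 3 ^ c 3)) := by ring
      have e4 : (MvPolynomial.X 0 ^ c 0 * (MvPolynomial.X 1 ^ c 1 *
          (MvPolynomial.X 2 ^ c 2 * MvPolynomial.X 3 ^ c 3)) : R4) =
          MvPolynomial.X 1 ^ c 1 * (MvPolynomial.X 0 ^ c 0 *
          (MvPolynomial.X 2 ^ c 2 * MvPolynomial.X 3 ^ c 3)) := by ring
      rw [e3, ← e2, e4, map_sum, Finset.smul_sum]
      apply Finset.sum_congr rfl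
      intro t _
      rw [map_smul, smul_smul]
      rfl
    unfold GG
    rw [Finset.sum_congr rfl (fun s _ => e1 s)]
    exact taylor1 (MvPolynomial.pderiv (R := ℂ) (0 : Fin 4)) (MvPolynomial.X 0) _
      (MvPolynomial.pderiv_X_self _) (d0X c b) (c 0) N (by omega) a

theorem d0_nil {l n m : ℕ} (hm : l < m) : ∀ F ∈ Box l n, (d0 ^ m) F = 0 := by
  apply box_ind
  · rw [map_zero]
  · intro F G hF hG
    rw [map_add, hF, hG, add_zero]
  · intro c F hF
    rw [map_smul, hF, smul_zero]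
  · intro c h0 h1 h2 h3
    rw [mon_eq]
    have h := der_pow (MvPolynomial.pderiv (R := ℂ) (0 : Fin 4)) (MvPolynomial.X 0) _
      (MvPolynomial.pderiv_X_self _) (d0X' c) (c 0) m
    rw [Nat.descFactorial_of_lt (by omega), Nat.cast_zero, zero_smul] at h
    exact h

theorem d1_nil {l n m : ℕ} (hm : l < m) : ∀ F ∈ Box l n, (d1 ^ m) F = 0 := by
  apply box_ind
  · rw [map_zero]
  · intro F G hF hG
    rw [map_add, hF, hG, add_zero]
  · intro c F hF
    rw [map_smul, hF, smul_zero]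
  · intro c h0 h1 h2 h3
    rw [mon_eq]
    have e4 : (MvPolynomial.X 0 ^ c 0 * (MvPolynomial.X 1 ^ c 1 *
        (MvPolynomial.X 2 ^ c 2 * MvPolynomial.X 3 ^ c 3)) : R4) =
        MvPolynomial.X 1 ^ c 1 * (MvPolynomial.X 0 ^ c 0 *
        (MvPolynomial.X 2 ^ c 2 * MvPolynomial.X 3 ^ c 3)) := by ring
    rw [e4]
    have h := der_pow (MvPolynomial.pderiv (R := ℂ) (1 : Fin 4)) (MvPolynomial.X 1) _
      (MvPolynomial.pderiv_X_self _) (d1X c) (c 1) m
    rw [Nat.descFactorial_of_lt (by omega), Nat.cast_zero, zero_smul] at h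
    exact h

/-- change of variables for commuting nilpotent operators -/
theorem GG_change {V : Type*} [AddCommGroup V] [Module ℂ V] (x y : V →ₗ[ℂ] V) (l : ℕ)
    (hxy : Commute x y) (hx : x ^ (l + 1) = 0) (hy : y ^ (l + 1) = 0) (α β u v : ℂ) (F : V) :
    GG (α • x + β • y) (I • (α • x - β • y)) (2 * l + 1) F u v =
      GG x y (2 * l + 1) F (u * α + v * (I * α)) (u * β - v * (I * β)) := by
  have hs : ∀ s t : ℂ, ((s • x : Module.End ℂ V) + t • y) ^ (2 * l + 1) = 0 := by
    intro s t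
    apply Commute.add_pow_eq_zero_of_add_le_succ_of_pow_eq_zero
      ((hxy.smul_left s).smul_right t) (m := l + 1) (n := l + 1)
    · rw [smul_pow, hx, smul_zero]
    · rw [smul_pow, hy, smul_zero]
    · omega
  have hxN : ∀ s : ℂ, ((s • x : Module.End ℂ V)) ^ (2 * l + 1) = 0 := by
    intro s
    have := hs s 0
    rwa [zero_smul, add_zero] at this
  have hyN : ∀ s : ℂ, ((s • y : Module.End ℂ V)) ^ (2 * l + 1) = 0 := by
    intro s
    have := hs 0 s
    rwa [zero_smul, zero_add] at this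
  set D₁ : Module.End ℂ V := α • x + β • y with hD₁
  set D₂ : Module.End ℂ V := I • (α • x - β • y) with hD₂
  have e1 : u • D₁ = (u * α) • x + (u * β) • y := by
    rw [hD₁, smul_add, smul_smul, smul_smul]
  have e2 : v • D₂ = (v * (I * α)) • x + (-(v * (I * β))) • y := by
    rw [hD₂, smul_smul, smul_sub, smul_smul, smul_smul, neg_smul, ← sub_eq_add_neg]
    congr 2 <;> ring
  have e3 : u • D₁ + v • D₂ = (u * α + v * (I * α)) • x + (u * β - v * (I * β)) • y := by
    rw [e1, e2, add_smul, sub_smul, neg_smul]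
    abel
  have hc1 : Commute (α • x + β • y) (α • x - β • y) := by
    apply Commute.sub_right
    · exact ((Commute.refl x).smul_left α).smul_right α |>.add_left
        ((hxy.symm.smul_left β).smul_right α)
    · exact ((hxy.smul_left α).smul_right β).add_left
        (((Commute.refl y).smul_left β).smul_right β)
  have hcD : Commute (u • D₁) (v • D₂) := by
    rw [hD₂, smul_smul]
    exact ((hc1.smul_left u).smul_right _)
  have h1 : ex (2 * l + 1) (u • D₁ + v • D₂) = ex (2 * l + 1) (u • D₁) * ex (2 * l + 1) (v • D₂) := by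
    apply ex_add hcD
    · rw [e1]
      exact hs _ _
    · rw [e2]
      exact hs _ _
    · rw [e3]
      exact hs _ _
  have h2 : ex (2 * l + 1) ((u * α + v * (I * α)) • x + (u * β - v * (I * β)) • y) =
      ex (2 * l + 1) ((u * α + v * (I * α)) • x) * ex (2 * l + 1) ((u * β - v * (I * β)) • y) :=
    ex_add ((hxy.smul_left _).smul_right _) (hxN _) (hyN _) (hs _ _)
  rw [← ex_GG, ← ex_GG, ← h1, ← h2, e3]

theorem D2_eq {V : Type*} [AddCommGroup V] [Module ℂ V] (x y : V →ₗ[ℂ] V) (α β : ℂ) :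
    (I • (α • x - β • y) : V →ₗ[ℂ] V) = (I * α) • x + (-(I * β)) • y := by
  rw [smul_sub, smul_smul, smul_smul, neg_smul, ← sub_eq_add_neg]

theorem D_comm {V : Type*} [AddCommGroup V] [Module ℂ V] (x y : V →ₗ[ℂ] V)
    (hxy : Commute x y) (α β : ℂ) : Commute (α • x + β • y) (I • (α • x - β • y)) := by
  rw [D2_eq]
  apply Commute.add_right
  · exact (((Commute.refl x).smul_left α).smul_right _).add_left
      ((hxy.symm.smul_left β).smul_right _)
  · exact ((hxy.smul_left α).smul_right _).add_left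
      (((Commute.refl y).smul_left β).smul_right _)

end Z8

theorem t_Z8 : S_Z8 := by
  intro l n
  -- the restrictions to the box
  set x : Box l n →ₗ[ℂ] Box l n := d0.restrict (fun F hF => (Z8.d_mem F hF).1) with hx
  set y : Box l n →ₗ[ℂ] Box l n := d1.restrict (fun F hF => (Z8.d_mem F hF).2) with hy
  have hsx : ∀ z, (Box l n).subtype (x z) = d0 ((Box l n).subtype z) := fun z => rfl
  have hsy : ∀ z, (Box l n).subtype (y z) = d1 ((Box l n).subtype z) := fun z => rfl
  have hxy : Commute x y := by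
    apply LinearMap.ext
    intro z
    apply Subtype.ext
    exact LinearMap.congr_fun Z8.d_comm (z : R4)
  have hxn : x ^ (l + 1) = 0 := by
    apply LinearMap.ext
    intro z
    apply (Box l n).injective_subtype
    rw [Z8.map_pow (Box l n).subtype x d0 hsx, LinearMap.zero_apply, map_zero]
    exact Z8.d0_nil (Nat.lt_succ_self l) z z.2
  have hyn : y ^ (l + 1) = 0 := by
    apply LinearMap.ext
    intro z
    apply (Box l n).injective_subtype
    rw [Z8.map_pow (Box l n).subtype y d1 hsy, LinearMap.zero_apply, map_zero]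
    exact Z8.d1_nil (Nat.lt_succ_self l) z z.2
  refine ⟨Z8.d_mem, Z8.d_comm, ?_, ?_⟩
  · intro α β F hF
    have h1 : ((α • x : Module.End ℂ (Box l n)) + β • y) ^ (2 * l + 1) = 0 := by
      apply Commute.add_pow_eq_zero_of_add_le_succ_of_pow_eq_zero
        ((hxy.smul_left α).smul_right β) (m := l + 1) (n := l + 1)
      · rw [smul_pow, hxn, smul_zero]
      · rw [smul_pow, hyn, smul_zero]
      · omega
    have h2 := Z8.map_pow (Box l n).subtype (α • x + β • y) (α • d0 + β • d1)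
      (fun z => rfl) (2 * l + 1) ⟨F, hF⟩
    rw [h1, LinearMap.zero_apply, map_zero] at h2
    exact h2.symm
  · intro α β u v F hF
    have h1 := Z8.GG_change x y l hxy hxn hyn α β u v ⟨F, hF⟩
    have h2 := congrArg (Box l n).subtype h1
    rw [Z8.map_GG (Box l n).subtype (α • x + β • y) (I • (α • x - β • y)) (α • d0 + β • d1)
      (I • (α • d0 - β • d1)) (fun z => rfl) (fun z => rfl),
      Z8.map_GG (Box l n).subtype x y d0 d1 hsx hsy] at h2
    rw [← Z8.taylor (l := l) (n := n) (N := 2 * l + 1) (by omega) _ _ F hF]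
    exact h2.symm

end Pool.Agent.MPb60633
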