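import Pool.Agent.Lib.MP_b60633_nt.W.Z8

/-! # Z9: the space of translates -/

set_option autoImplicit false

namespace Pool.Agent.MPb60633

open Complex Pool.Agent.Lib.Ribet4b482e Module

namespace Z9

/-- the determinant of a unipotent map is one -/
theorem det_one_add {V : Type*} [AddCommGroup V] [Module ℂ V] [FiniteDimensional ℂ V]
    (ν : Module.End ℂ V) (h : IsNilpotent ν) : LinearMap.det (1 + ν) = 1 := by
  have h1 := LinearMap.eval_charpoly (f := -ν) (1 : ℂ)
  rw [IsNilpotent.charpoly_eq_X_pow_finrank h.neg, Polynomial.eval_pow, Polynomial.eval_X, one_pow,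
    map_one, sub_neg_eq_add] at h1
  exact h1.symm

theorem det_ex {V : Type*} [AddCommGroup V] [Module ℂ V] [FiniteDimensional ℂ V]
    (z : Module.End ℂ V) (k : ℕ) (hz : z ^ (k + 1) = 0) :
    LinearMap.det (Z8.ex (k + 1) z) = 1 := by
  have e : Z8.ex (k + 1) z = 1 + z * ∑ i ∈ Finset.range k, (((i + 1).factorial : ℂ))⁻¹ • z ^ i := by
    unfold Z8.ex
    rw [Finset.sum_range_succ', pow_zero, Nat.factorial_zero, Nat.cast_one, inv_one, one_smul,
      add_comm, Finset.mul_sum]
    congr 1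
    apply Finset.sum_congr rfl
    intro i _
    rw [mul_smul_comm, pow_succ']
  rw [e]
  apply det_one_add
  apply Commute.isNilpotent_mul_right
  · apply Commute.sum_right
    intro i _
    exact ((Commute.refl z).pow_right i).smul_right _
  · exact ⟨k + 1, hz⟩

end Z9

theorem t_Z9 (_hZ8 : S_Z8) : S_Z9 := by
  intro l n F hF
  set E : Submodule ℂ R4 := Submodule.span ℂ (Set.range
    (fun p : Fin (l + 1) × Fin (l + 1) => (d0 ^ (p.1 : ℕ) * d1 ^ (p.2 : ℕ)) F)) with hE
  have hpow0 : ∀ (i : ℕ) (G : R4), G ∈ Box l n → (d0 ^ i) G ∈ Box l n := by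
    intro i
    induction i with
    | zero => exact fun G hG => hG
    | succ i ih =>
      intro G hG
      rw [pow_succ, Module.End.mul_apply]
      exact ih _ (Z8.d_mem G hG).1
  have hpow1 : ∀ (i : ℕ) (G : R4), G ∈ Box l n → (d1 ^ i) G ∈ Box l n := by
    intro i
    induction i with
    | zero => exact fun G hG => hG
    | succ i ih =>
      intro G hG
      rw [pow_succ, Module.End.mul_apply]
      exact ih _ (Z8.d_mem G hG).2
  have hFE : F ∈ E := by
    apply Submodule.subset_span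
    exact ⟨(0, 0), by simp⟩
  have hEB : E ≤ Box l n := by
    rw [hE, Submodule.span_le]
    rintro _ ⟨p, rfl⟩
    exact hpow0 _ _ (hpow1 _ _ hF)
  have hfin : FiniteDimensional ℂ E := FiniteDimensional.span_of_finite ℂ (Set.finite_range _)
  have hst : ∀ B ∈ E, d0 B ∈ E ∧ d1 B ∈ E := by
    have h0 : E ≤ E.comap d0 := by
      conv_lhs => rw [hE]
      rw [Submodule.span_le]
      rintro _ ⟨p, rfl⟩
      have e : d0 ((d0 ^ (p.1 : ℕ) * d1 ^ (p.2 : ℕ)) F) =
          (d0 ^ ((p.1 : ℕ) + 1) * d1 ^ (p.2 : ℕ)) F := by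
        rw [pow_succ', mul_assoc, Module.End.mul_apply d0]
      change d0 ((d0 ^ (p.1 : ℕ) * d1 ^ (p.2 : ℕ)) F) ∈ E
      rw [e]
      by_cases h : (p.1 : ℕ) + 1 < l + 1
      · exact Submodule.subset_span ⟨(⟨(p.1 : ℕ) + 1, h⟩, p.2), rfl⟩
      · have : (d0 ^ ((p.1 : ℕ) + 1) * d1 ^ (p.2 : ℕ)) F = 0 := by
          rw [Module.End.mul_apply]
          exact Z8.d0_nil (l := l) (n := n) (m := (p.1 : ℕ) + 1) (by omega) _ (hpow1 _ _ hF)
        rw [this]
        exact Submodule.zero_mem _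
    have h1 : E ≤ E.comap d1 := by
      conv_lhs => rw [hE]
      rw [Submodule.span_le]
      rintro _ ⟨p, rfl⟩
      have hc : Commute d0 d1 := Z8.d_comm
      have e : d1 ((d0 ^ (p.1 : ℕ) * d1 ^ (p.2 : ℕ)) F) =
          (d0 ^ (p.1 : ℕ) * d1 ^ ((p.2 : ℕ) + 1)) F := by
        rw [pow_succ' d1, ← mul_assoc, (hc.pow_left (p.1 : ℕ)).eq, mul_assoc, Module.End.mul_apply d1]
      change d1 ((d0 ^ (p.1 : ℕ) * d1 ^ (p.2 : ℕ)) F) ∈ E
      rw [e]
      by_cases h : (p.2 : ℕ) + 1 < l + 1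
      · exact Submodule.subset_span ⟨(p.1, ⟨(p.2 : ℕ) + 1, h⟩), rfl⟩
      · have : (d0 ^ (p.1 : ℕ) * d1 ^ ((p.2 : ℕ) + 1)) F = 0 := by
          rw [Module.End.mul_apply, Z8.d1_nil (l := l) (n := n) (m := (p.2 : ℕ) + 1) (by omega) F hF, map_zero]
        rw [this]
        exact Submodule.zero_mem _
    exact fun B hB => ⟨h0 hB, h1 hB⟩
  refine ⟨E, hFE, hEB, hfin, ?_, hst, ?_, ?_⟩
  · have h := finrank_range_le_card (R := ℂ)
      (fun p : Fin (l + 1) × Fin (l + 1) => (d0 ^ (p.1 : ℕ) * d1 ^ (p.2 : ℕ)) F)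
    rw [Fintype.card_prod, Fintype.card_fin, ← sq] at h
    exact h
  · intro B hB
    have hle : E ≤ Submodule.span ℂ (Set.range fun ij : ℕ × ℕ => (d0 ^ ij.1 * d1 ^ ij.2) F) := by
      rw [hE]
      apply Submodule.span_mono
      rintro _ ⟨p, rfl⟩
      exact ⟨(p.1, p.2), rfl⟩
    exact hle hB
  · intro a b
    set x : Module.End ℂ E := d0.restrict (fun B hB => (hst B hB).1) with hx
    set y : Module.End ℂ E := d1.restrict (fun B hB => (hst B hB).2) with hy
    have hsx : ∀ z, E.subtype (x z) = d0 (E.subtype z) := fun z => rfl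
    have hsy : ∀ z, E.subtype (y z) = d1 (E.subtype z) := fun z => rfl
    have hxn : x ^ (l + 1) = 0 := by
      apply LinearMap.ext
      intro z
      apply E.injective_subtype
      rw [Z8.map_pow E.subtype x d0 hsx, LinearMap.zero_apply, map_zero]
      exact Z8.d0_nil (Nat.lt_succ_self l) z (hEB z.2)
    have hyn : y ^ (l + 1) = 0 := by
      apply LinearMap.ext
      intro z
      apply E.injective_subtype
      rw [Z8.map_pow E.subtype y d1 hsy, LinearMap.zero_apply, map_zero]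
      exact Z8.d1_nil (Nat.lt_succ_self l) z (hEB z.2)
    have hTr : ∀ B : E, Tr a b (B : R4) = E.subtype (GG x y (l + 1) B a b) := by
      intro B
      rw [Z8.map_GG E.subtype x y d0 d1 hsx hsy,
        ← Z8.taylor (l := l) (n := n) (N := l + 1) (Nat.lt_succ_self l) a b (B : R4) (hEB B.2)]
      rfl
    refine ⟨fun B hB => ?_, ?_⟩
    · have h := hTr ⟨B, hB⟩
      change Tr a b B = _ at h
      rw [h]
      exact (GG x y (l + 1) ⟨B, hB⟩ a b).2
    · have e : (Tr a b).restrict (fun B hB => (by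
          have h := hTr ⟨B, hB⟩
          change Tr a b B = _ at h
          rw [h]
          exact (GG x y (l + 1) ⟨B, hB⟩ a b).2 : Tr a b B ∈ E)) =
          (Z8.ex (l + 1) (a • x) * Z8.ex (l + 1) (b • y) : Module.End ℂ E) := by
        apply LinearMap.ext
        intro B
        rw [Z8.ex_GG]
        apply Subtype.ext
        exact hTr B
      rw [e, map_mul, Z9.det_ex _ l, Z9.det_ex _ l, one_mul]
      · rw [smul_pow, hyn, smul_zero]
      · rw [smul_pow, hxn, smul_zero]

end Pool.Agent.MPb60633
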