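import Pool.Agent.Lib.MP_b60633_nt.SpecD

/-!
# MP_b60633_nt, A1: the integer polynomials evaluate to the entries
-/

set_option autoImplicit false

noncomputable section

namespace Pool.Agent.MPb60633

open Complex Pool.Agent.Lib.Ribet4b482e

namespace A1

theorem map_int (p : PowerSeries ℤ) :
    PowerSeries.map (algebraMap ℚ ℂ) (PowerSeries.map (Int.castRingHom ℚ) p) =
      PowerSeries.map (Int.castRingHom ℂ) p := by
  ext n
  simp [PowerSeries.coeff_map]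

/-- The rational coefficients as complex numbers. -/
theorem cf_cast (a b k e t : ℕ) : ((cf a b k e t : ℚ) : ℂ) =
    PowerSeries.coeff t (psiC ^ a * zetC ^ b * ((1 + 2 * ZC) ^ k * (4 * PowerSeries.X) ^ e)) := by
  have h1 : ((1 + 2 * ZC) ^ k * (4 * PowerSeries.X) ^ e : PowerSeries ℂ) =
      PowerSeries.map (Int.castRingHom ℂ) ((1 + 2 * Zs) ^ k * (4 * PowerSeries.X) ^ e) := by
    have h2 : PowerSeries.map (Int.castRingHom ℂ) 2 = 2 := map_ofNat _ 2
    have h4 : PowerSeries.map (Int.castRingHom ℂ) 4 = 4 := map_ofNat _ 4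
    rw [map_mul, map_pow, map_pow, map_add, map_mul, map_mul, map_one, PowerSeries.map_X, h2, h4]
    rfl
  rw [h1, ← map_int, psiC, zetC, ← map_pow, ← map_pow, ← map_mul, ← map_mul,
    PowerSeries.coeff_map]
  rfl

/-- The binomial theorem for the entries. -/
theorem ent_sum (x y : ℂ) (t i j k e : ℕ) : ent x y t i j k e =
    ∑ a' ∈ Finset.range (i + 1), ∑ b' ∈ Finset.range (j + 1),
      ((i.choose a' : ℂ) * (j.choose b' : ℂ) * x ^ (i - a') * y ^ (j - b')) *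
        ((cf a' b' k e t : ℚ) : ℂ) := by
  have h1 : ((PowerSeries.C x + psiC) ^ i * (PowerSeries.C y + zetC) ^ j *
      (1 + 2 * ZC) ^ k * (4 * PowerSeries.X) ^ e : PowerSeries ℂ) =
      ∑ a' ∈ Finset.range (i + 1), ∑ b' ∈ Finset.range (j + 1),
        PowerSeries.C ((i.choose a' : ℂ) * (j.choose b' : ℂ) * x ^ (i - a') * y ^ (j - b')) *
          (psiC ^ a' * zetC ^ b' * ((1 + 2 * ZC) ^ k * (4 * PowerSeries.X) ^ e)) := by
    rw [add_comm (PowerSeries.C x), add_comm (PowerSeries.C y), add_pow, add_pow,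
      Finset.sum_mul_sum, Finset.sum_mul, Finset.sum_mul]
    refine Finset.sum_congr rfl fun a' _ => ?_
    rw [Finset.sum_mul, Finset.sum_mul]
    refine Finset.sum_congr rfl fun b' _ => ?_
    rw [map_mul, map_mul, map_mul, map_pow, map_pow, map_natCast, map_natCast]
    ring
  rw [ent, h1, map_sum]
  refine Finset.sum_congr rfl fun a' _ => ?_
  rw [map_sum]
  refine Finset.sum_congr rfl fun b' _ => ?_
  rw [PowerSeries.coeff_C_mul, cf_cast]

theorem two_kap (a b : ℤ) : 2 * kap a b = GaussianInt.toComplex ⟨2 * a + 1, 2 * b⟩ := by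
  rw [GaussianInt.toComplex_def', kap]
  push_cast
  ring

theorem two_kap' (a b : ℤ) : 2 * kap a (-b) = GaussianInt.toComplex ⟨2 * a + 1, -(2 * b)⟩ := by
  rw [GaussianInt.toComplex_def', kap]
  push_cast
  ring

theorem conj_kap (a b : ℤ) : (starRingEnd ℂ) (2 * kap a b) = 2 * kap a (-b) := by
  have h2 : (starRingEnd ℂ) 2 = 2 := map_ofNat _ 2
  simp [kap, h2]

theorem conj_kap' (a b : ℤ) : (starRingEnd ℂ) (2 * kap a (-b)) = 2 * kap a b := by
  have h2 : (starRingEnd ℂ) 2 = 2 := map_ofNat _ 2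
  simp [kap, h2]

/-- Half the sum, respectively the difference divided by `2 i`. -/
theorem gint_eq (part : Fin 2) (a b : ℤ) (u v : ℕ) : ((gint part a b u v : ℤ) : ℂ) =
    if part = 0 then
      ((2 * kap a b) ^ u * (2 * kap a (-b)) ^ v + (2 * kap a (-b)) ^ u * (2 * kap a b) ^ v) / 2
    else ((2 * kap a b) ^ u * (2 * kap a (-b)) ^ v - (2 * kap a (-b)) ^ u * (2 * kap a b) ^ v) /
      (2 * I) := by
  set z : ℂ := (2 * kap a b) ^ u * (2 * kap a (-b)) ^ v with hz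
  have h1 : (2 * kap a (-b)) ^ u * (2 * kap a b) ^ v = (starRingEnd ℂ) z := by
    rw [hz, map_mul, map_pow, map_pow, conj_kap, conj_kap']
  have h2 : z = GaussianInt.toComplex ((⟨2 * a + 1, 2 * b⟩ : GaussianInt) ^ u *
      (⟨2 * a + 1, -(2 * b)⟩ : GaussianInt) ^ v) := by
    rw [hz, two_kap, two_kap', map_mul, map_pow, map_pow]
  rw [h1]
  unfold gint
  split
  · rw [Complex.add_conj, h2, ← GaussianInt.intCast_re]
    push_cast
    ring
  · rw [Complex.sub_conj, h2, ← GaussianInt.intCast_im]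
    push_cast
    field_simp

/-- One term. -/
theorem term_eq (q : ℤ) (p : ℤ) (α κ κ' : ℂ) (hq : q ≠ 0) (hα : α ≠ 0) (i j a' b' : ℕ)
    (ha : a' ≤ i) (hb : b' ≤ j) :
    (2 : ℂ) ^ (i + j) * (8 * (q : ℂ) ^ 4) ^ j * α ^ (3 * j) *
      ((κ * α) ^ (i - a') * (κ' * ((p : ℂ) ^ 4 / (8 * (q : ℂ) ^ 4 * α ^ 3))) ^ (j - b')) =
    ((2 * κ) ^ (i - a') * (2 * κ') ^ (j - b')) *
      ((p : ℂ) ^ (4 * (j - b')) * 2 ^ a' * (16 * (q : ℂ) ^ 4) ^ b' * α ^ (i - a' + 3 * b')) := by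
  obtain ⟨u, rfl⟩ := Nat.exists_eq_add_of_le ha
  obtain ⟨v, rfl⟩ := Nat.exists_eq_add_of_le hb
  have hq' : (q : ℂ) ≠ 0 := Int.cast_ne_zero.2 hq
  rw [Nat.add_sub_cancel_left, Nat.add_sub_cancel_left]
  have h8 : (8 * (q : ℂ) ^ 4 * α ^ 3) ≠ 0 :=
    mul_ne_zero (mul_ne_zero (by norm_num) (pow_ne_zero 4 hq')) (pow_ne_zero 3 hα)
  have h1 : (8 * (q : ℂ) ^ 4) ^ (b' + v) * α ^ (3 * (b' + v)) *
      ((p : ℂ) ^ 4 / (8 * (q : ℂ) ^ 4 * α ^ 3)) ^ v =
      (8 * (q : ℂ) ^ 4 * α ^ 3) ^ b' * (p : ℂ) ^ (4 * v) := by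
    rw [div_pow, pow_mul α 3, ← mul_pow, pow_add, ← pow_mul]
    field_simp
  calc _ = (2 : ℂ) ^ (a' + u + (b' + v)) * (κ * α) ^ u * κ' ^ v *
        ((8 * (q : ℂ) ^ 4) ^ (b' + v) * α ^ (3 * (b' + v)) *
          ((p : ℂ) ^ 4 / (8 * (q : ℂ) ^ 4 * α ^ 3)) ^ v) := by
        rw [mul_pow κ' _ v]; ring
    _ = _ := by
        rw [h1]
        have h16 : (16 : ℂ) ^ b' = 2 ^ b' * 8 ^ b' := by rw [← mul_pow]; norm_num
        rw [mul_pow κ α, mul_pow 2 κ, mul_pow 2 κ', mul_pow, mul_pow, mul_pow 16, h16]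
        ring

end A1

open A1 in
theorem t_A1 (hS8 : S_S8) : S_A1 := by
  intro l n T p q α a b t part c hq hα ht
  set i : ℕ := (c.1 : ℕ) with hi
  set j : ℕ := (c.2.1 : ℕ) with hj
  set k : ℕ := (c.2.2.1 : ℕ) with hk
  set e : ℕ := (c.2.2.2 : ℕ) with he
  set β : ℂ := (p : ℂ) ^ 4 / (8 * (q : ℂ) ^ 4 * α ^ 3) with hβ
  set M : ℂ := 2 ^ (i + j) * (8 * (q : ℂ) ^ 4) ^ j * α ^ (3 * j) * (Den l T : ℂ) with hM
  have hil : i ≤ l := Nat.lt_succ_iff.1 c.1.2
  have hjl : j ≤ l := Nat.lt_succ_iff.1 c.2.1.2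
  -- the common factor
  set Tm : ℕ → ℕ → ℂ := fun a' b' => (i.choose a' : ℂ) * (j.choose b' : ℂ) *
    ((p : ℂ) ^ (4 * (j - b')) * 2 ^ a' * (16 * (q : ℂ) ^ 4) ^ b' * α ^ (i - a' + 3 * b')) *
      ((Den l T : ℂ) * ((cf a' b' k e t : ℚ) : ℂ)) with hTm
  have hent : ∀ κ κ' : ℂ, M * ent (κ * α) (κ' * β) t i j k e =
      ∑ a' ∈ Finset.range (i + 1), ∑ b' ∈ Finset.range (j + 1),
        Tm a' b' * ((2 * κ) ^ (i - a') * (2 * κ') ^ (j - b')) := by
    intro κ κ'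
    rw [ent_sum, Finset.mul_sum]
    refine Finset.sum_congr rfl fun a' ha' => ?_
    rw [Finset.mul_sum]
    refine Finset.sum_congr rfl fun b' hb' => ?_
    have h1 := term_eq q p α κ κ' hq hα i j a' b'
      (Nat.lt_succ_iff.1 (Finset.mem_range.1 ha')) (Nat.lt_succ_iff.1 (Finset.mem_range.1 hb'))
    rw [← hβ] at h1
    calc _ = (i.choose a' : ℂ) * (j.choose b' : ℂ) *
          ((Den l T : ℂ) * ((cf a' b' k e t : ℚ) : ℂ)) *
          ((2 : ℂ) ^ (i + j) * (8 * (q : ℂ) ^ 4) ^ j * α ^ (3 * j) *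
            ((κ * α) ^ (i - a') * (κ' * β) ^ (j - b'))) := by rw [hM]; ring
      _ = _ := by rw [h1, hTm]; ring
  -- the entries
  have hentR : M * entR α β a b t part c =
      ∑ a' ∈ Finset.range (i + 1), ∑ b' ∈ Finset.range (j + 1),
        Tm a' b' * ((gint part a b (i - a') (j - b') : ℤ) : ℂ) := by
    have h1 := hent (kap a b) (kap a (-b))
    have h2 := hent (kap a (-b)) (kap a b)
    unfold entR entC
    rw [neg_neg]
    simp only [gint_eq]
    split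
    · rw [mul_div_assoc', mul_add, h1, h2, ← Finset.sum_add_distrib, Finset.sum_div]
      refine Finset.sum_congr rfl fun a' _ => ?_
      rw [← Finset.sum_add_distrib, Finset.sum_div]
      refine Finset.sum_congr rfl fun b' _ => ?_
      ring
    · rw [mul_div_assoc', mul_sub, h1, h2, ← Finset.sum_sub_distrib, Finset.sum_div]
      refine Finset.sum_congr rfl fun a' _ => ?_
      rw [← Finset.sum_sub_distrib, Finset.sum_div]
      refine Finset.sum_congr rfl fun b' _ => ?_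
      ring
  rw [hentR]
  unfold Epol
  rw [map_sum]
  refine Finset.sum_congr rfl fun a' ha' => ?_
  rw [map_sum]
  refine Finset.sum_congr rfl fun b' hb' => ?_
  have ha : a' ≤ i := Nat.lt_succ_iff.1 (Finset.mem_range.1 ha')
  have hb : b' ≤ j := Nat.lt_succ_iff.1 (Finset.mem_range.1 hb')
  have hcz : ((cz l T a' b' k e t : ℤ) : ℂ) = (Den l T : ℂ) * ((cf a' b' k e t : ℚ) : ℂ) := by
    have h1 := hS8 l T a' b' k e t (by omega) ht
    have h2 := congrArg (fun x : ℚ => (x : ℂ)) h1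
    simpa using h2
  rw [map_mul, map_pow, Polynomial.aeval_X, Polynomial.aeval_C, hTm]
  simp only [algebraMap_int_eq, eq_intCast]
  push_cast
  rw [← hi, ← hj, ← hk, ← he, hcz]
  ring

end Pool.Agent.MPb60633
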