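import Pool.Agent.Lib.MP_b60633_nt.SpecD

/-!
# MP_b60633_nt, E1: complex conjugation for the square lattice
-/

set_option autoImplicit false

noncomputable section

namespace Pool.Agent.MPb60633

open Complex Pool.Agent.Lib.Ribet4b482e

namespace E1

lemma conj_mem {L : PeriodPair} {w : ℝ} (hL : Sq L w) {z : ℂ} (hz : z ∈ L.lattice) :
    (starRingEnd ℂ) z ∈ L.lattice := by
  rw [PeriodPair.mem_lattice] at hz ⊢
  obtain ⟨m, n, rfl⟩ := hz
  refine ⟨m, -n, ?_⟩
  rw [hL.one, hL.two]
  simp only [map_add, map_mul, conj_ofReal, conj_I]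
  push_cast
  simp

/-- Conjugation as a permutation of the lattice. -/
def conjEquiv {L : PeriodPair} {w : ℝ} (hL : Sq L w) : L.lattice ≃ L.lattice where
  toFun l := ⟨(starRingEnd ℂ) l, conj_mem hL l.2⟩
  invFun l := ⟨(starRingEnd ℂ) l, conj_mem hL l.2⟩
  left_inv l := by ext; simp
  right_inv l := by ext; simp

lemma conjEquiv_coe {L : PeriodPair} {w : ℝ} (hL : Sq L w) (l : L.lattice) :
    ((conjEquiv hL l : L.lattice) : ℂ) = (starRingEnd ℂ) (l : ℂ) := rfl

end E1

theorem t_E1 : S_E1 := by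
  intro L w hL
  refine ⟨fun z => ⟨fun h => E1.conj_mem hL h, fun h => by simpa using E1.conj_mem hL h⟩, ?_⟩
  intro z
  simp only [PeriodPair.weierstrassP]
  rw [Complex.conj_tsum, ← (E1.conjEquiv hL).tsum_eq]
  congr 1
  funext l
  rw [E1.conjEquiv_coe]
  simp

end Pool.Agent.MPb60633
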