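import Pool.Agent.Lib.MP_b60633_nt.SpecD

/-!
# MP_b60633_nt, E12: growth of gfun
-/

set_option autoImplicit false

noncomputable section

namespace Pool.Agent.MPb60633

open Complex Pool.Agent.Lib.Ribet4b482e

theorem t_E12 (hE10 : S_E10) (hE11 : S_E11) : S_E12 := by
  intro L w hL P i j k e
  obtain ⟨⟨d1, d2, d3⟩, hoff, -⟩ := hE10 L
  refine ⟨?_, fun hP => ⟨?_, ?_⟩⟩
  · unfold gfun
    exact ((((differentiable_id.pow i).mul (d1.pow j)).mul (d2.pow k)).mul (d3.pow e)).mul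
      ((differentiable_sigmaW L).pow _)
  · intro z hz
    obtain ⟨h1, h2, h3⟩ := hoff z hz
    have hexp : sigmaW L z ^ P = sigmaW L z ^ j * (sigmaW L z ^ 2) ^ k * (sigmaW L z ^ 3) ^ e *
        sigmaW L z ^ (P - j - 2 * k - 3 * e) := by
      rw [← pow_mul, ← pow_mul, ← pow_add, ← pow_add, ← pow_add]
      congr 1
      omega
    rw [gfun, h1, h2, h3, hexp, mul_pow, mul_pow, mul_pow]
    ring
  · intro z
    obtain ⟨h0, h1, h2, h3⟩ := hE11 L w hL z
    set G : ℝ := 600 + Gs w z with hG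
    have e0 : 0 ≤ ‖z‖ := norm_nonneg z
    have hz1 : ‖z‖ ^ i ≤ (1 + ‖z‖) ^ i := pow_le_pow_left₀ e0 (by linarith) i
    have hexp : Real.exp (P * G) = Real.exp G ^ j * Real.exp (2 * G) ^ k * Real.exp (3 * G) ^ e *
        Real.exp G ^ (P - j - 2 * k - 3 * e) := by
      rw [← Real.exp_nat_mul, ← Real.exp_nat_mul, ← Real.exp_nat_mul, ← Real.exp_nat_mul,
        ← Real.exp_add, ← Real.exp_add, ← Real.exp_add]
      congr 1
      have hcast : (P : ℝ) = (j : ℝ) + 2 * k + 3 * e + ((P - j - 2 * k - 3 * e : ℕ) : ℝ) := by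
        have : P = j + 2 * k + 3 * e + (P - j - 2 * k - 3 * e) := by omega
        exact_mod_cast this
      linear_combination G * hcast
    calc ‖gfun L P i j k e z‖ = ‖z‖ ^ i * ‖A1 L z‖ ^ j * ‖A2 L z‖ ^ k * ‖A3 L z‖ ^ e *
          ‖sigmaW L z‖ ^ (P - j - 2 * k - 3 * e) := by
          rw [gfun, norm_mul, norm_mul, norm_mul, norm_mul, norm_pow, norm_pow, norm_pow,
            norm_pow, norm_pow]
      _ ≤ (1 + ‖z‖) ^ i * ((1 + ‖z‖) * Real.exp G) ^ j * (Real.exp (2 * G)) ^ k *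
          (Real.exp (3 * G)) ^ e * (Real.exp G) ^ (P - j - 2 * k - 3 * e) := by
          gcongr
      _ = (1 + ‖z‖) ^ (i + j) * Real.exp (P * G) := by
          rw [hexp, mul_pow, pow_add]
          ring

end Pool.Agent.MPb60633
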