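import Pool.Agent.Lib.MP_b60633_nt.SpecD

/-!
# MP_b60633_nt, S1: identities of the power series
-/

set_option autoImplicit false

namespace Pool.Agent.MPb60633

open Complex PowerSeries Pool.Agent.Lib.Ribet4b482e

namespace S1

theorem Zit_succ (k : ℕ) : Zit (k + 1) = X ^ 2 - 3 * (Zit k) ^ 2 - 2 * (Zit k) ^ 3 := rfl

theorem Zit_dvd (k : ℕ) : (X : PowerSeries ℤ) ∣ Zit k := by
  induction k with
  | zero => exact dvd_zero _
  | succ k ih =>
    obtain ⟨c, hc⟩ := ih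
    rw [Zit_succ, hc]
    exact ⟨X - 3 * X * c ^ 2 - 2 * X ^ 2 * c ^ 3, by ring⟩

theorem step_dvd (a b : PowerSeries ℤ) (m : ℕ) (ha : (X : PowerSeries ℤ) ∣ a)
    (hb : (X : PowerSeries ℤ) ∣ b) (h : (X : PowerSeries ℤ) ^ m ∣ a - b) :
    (X : PowerSeries ℤ) ^ (m + 1) ∣
      (X ^ 2 - 3 * a ^ 2 - 2 * a ^ 3) - (X ^ 2 - 3 * b ^ 2 - 2 * b ^ 3) := by
  have e : (X ^ 2 - 3 * a ^ 2 - 2 * a ^ 3) - (X ^ 2 - 3 * b ^ 2 - 2 * b ^ 3)
      = (a - b) * (-(3 * (a + b) + 2 * (a ^ 2 + a * b + b ^ 2))) := by ring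
  rw [e, pow_succ]
  apply mul_dvd_mul h
  obtain ⟨c, hc⟩ := ha
  obtain ⟨d, hd⟩ := hb
  exact ⟨-(3 * (c + d) + 2 * (X * c ^ 2 + X * c * d + X * d ^ 2)), by rw [hc, hd]; ring⟩

theorem Zit_diff (k : ℕ) : (X : PowerSeries ℤ) ^ (k + 1) ∣ Zit (k + 1) - Zit k := by
  induction k with
  | zero =>
    refine ⟨X, ?_⟩
    simp only [Zit]
    ring
  | succ k ih =>
    rw [Zit_succ (k + 1), Zit_succ k]
    have h := step_dvd (Zit (k + 1)) (Zit k) (k + 1) (Zit_dvd _) (Zit_dvd _) ih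
    rw [Zit_succ k] at h
    exact h

theorem Zit_coeff (n m : ℕ) (h : n ≤ m) : coeff n (Zit m) = coeff n (Zit n) := by
  induction m, h using Nat.le_induction with
  | base => rfl
  | succ m hm ih =>
    rw [← ih]
    have h := (PowerSeries.X_pow_dvd_iff.mp (Zit_diff m)) n (by omega)
    rw [map_sub, sub_eq_zero] at h
    exact h

theorem Zs_coeff (n m : ℕ) (h : n ≤ m) : coeff n Zs = coeff n (Zit m) := by
  rw [Zs, coeff_mk, Zit_coeff n (n + 1) (by omega), Zit_coeff n m h]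

theorem Zs_dvd (k : ℕ) : (X : PowerSeries ℤ) ^ (k + 1) ∣ Zs - Zit k := by
  rw [PowerSeries.X_pow_dvd_iff]
  intro n hn
  rw [map_sub, Zs_coeff n k (by omega), sub_self]

theorem Zs_X : (X : PowerSeries ℤ) ∣ Zs := by
  have h := Zs_dvd 0
  simpa [Zit] using h

theorem Zs_eq : Zs = X ^ 2 - 3 * Zs ^ 2 - 2 * Zs ^ 3 := by
  rw [← sub_eq_zero]
  ext n
  have h1 := Zs_dvd (n + 1)
  have h2 := step_dvd (Zit n) Zs (n + 1) (Zit_dvd _) Zs_X
    (by rw [← neg_sub]; exact (dvd_neg).mpr (Zs_dvd n))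
  have h3 : (X : PowerSeries ℤ) ^ (n + 1 + 1) ∣ Zs - (X ^ 2 - 3 * Zs ^ 2 - 2 * Zs ^ 3) := by
    have e : Zs - (X ^ 2 - 3 * Zs ^ 2 - 2 * Zs ^ 3) = (Zs - Zit (n + 1)) +
      ((X ^ 2 - 3 * (Zit n) ^ 2 - 2 * (Zit n) ^ 3) - (X ^ 2 - 3 * Zs ^ 2 - 2 * Zs ^ 3)) := by
      rw [Zit_succ n]; ring
    rw [e]
    exact dvd_add h1 h2
  have h4 := (PowerSeries.X_pow_dvd_iff.mp h3) n (by omega)
  rw [h4]
  simp

theorem Zs_const : constantCoeff Zs = 0 := PowerSeries.X_dvd_iff.mp Zs_X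

theorem Ps_mul : Ps * (1 + 6 * Zs + 6 * Zs ^ 2) = 1 := by
  rw [Ps, mul_comm]
  apply PowerSeries.mul_invOfUnit
  simp [Zs_const]

theorem ZC_const : constantCoeff ZC = 0 := by
  rw [ZC, ← coeff_zero_eq_constantCoeff_apply, coeff_map, coeff_zero_eq_constantCoeff_apply,
    Zs_const, map_zero]

theorem mp2 : PowerSeries.map (Int.castRingHom ℂ) 2 = 2 := map_ofNat _ 2

theorem mp3 : PowerSeries.map (Int.castRingHom ℂ) 3 = 3 := map_ofNat _ 3

theorem mp6 : PowerSeries.map (Int.castRingHom ℂ) 6 = 6 := map_ofNat _ 6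

theorem ZC_eq : ZC = X ^ 2 - 3 * ZC ^ 2 - 2 * ZC ^ 3 := by
  have h := congrArg (PowerSeries.map (Int.castRingHom ℂ)) Zs_eq
  simpa [ZC, mp3, mp2] using h

theorem PC_mul : PC * (1 + 6 * ZC + 6 * ZC ^ 2) = 1 := by
  have h := congrArg (PowerSeries.map (Int.castRingHom ℂ)) Ps_mul
  simpa [ZC, PC, mp6] using h

theorem d_ZC : d⁄dX ℂ ZC = 2 * X * PC := by
  have h1 : ZC + 3 * ZC ^ 2 + 2 * ZC ^ 3 = X ^ 2 := by
    have h := ZC_eq
    linear_combination h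
  have h2 := congrArg (d⁄dX ℂ) h1
  have h3 : d⁄dX ℂ (3 : PowerSeries ℂ) = 0 := by
    have := (PowerSeries.derivative ℂ).map_natCast 3
    simpa using this
  have h4 : d⁄dX ℂ (2 : PowerSeries ℂ) = 0 := by
    have := (PowerSeries.derivative ℂ).map_natCast 2
    simpa using this
  have h5 : d⁄dX ℂ (X : PowerSeries ℂ) = 1 := PowerSeries.derivative_X
  simp only [map_add, Derivation.leibniz, Derivation.leibniz_pow, smul_eq_mul, h3, h4, h5] at h2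
  simp only [nsmul_eq_mul] at h2
  have h6 : d⁄dX ℂ ZC * (1 + 6 * ZC + 6 * ZC ^ 2) = 2 * X := by
    push_cast at h2
    simp only [Nat.add_one_sub_one, pow_one] at h2
    linear_combination h2
  have h7 := PC_mul
  calc d⁄dX ℂ ZC = d⁄dX ℂ ZC * (PC * (1 + 6 * ZC + 6 * ZC ^ 2)) := by rw [h7, mul_one]
    _ = (d⁄dX ℂ ZC * (1 + 6 * ZC + 6 * ZC ^ 2)) * PC := by ring
    _ = 2 * X * PC := by rw [h6]

theorem d_psi : d⁄dX ℂ psiC = PC := by
  ext n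
  rw [PowerSeries.coeff_derivative, psiC, psiQ, coeff_map, coeff_mk, PC, coeff_map]
  have h : ((n : ℂ) + 1) ≠ 0 := by exact_mod_cast Nat.succ_ne_zero n
  simp only [Nat.add_sub_cancel]
  push_cast
  simp only [eq_ratCast, Rat.cast_div, Rat.cast_add, Rat.cast_natCast, Rat.cast_intCast,
    Rat.cast_one, eq_intCast]
  field_simp

theorem d_zet : d⁄dX ℂ zetC = -((1 + 2 * ZC) * PC) := by
  have e : -((1 + 2 * ZC) * PC) =
      PowerSeries.map (Int.castRingHom ℂ) (-((1 + 2 * Zs) * Ps)) := by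
    simp [ZC, PC, mp2]
  rw [e]
  ext n
  rw [PowerSeries.coeff_derivative, zetC, zetQ, coeff_map, coeff_mk, coeff_map]
  have h : ((n : ℂ) + 1) ≠ 0 := by exact_mod_cast Nat.succ_ne_zero n
  simp only [Nat.add_sub_cancel]
  push_cast
  simp only [eq_ratCast, Rat.cast_div, Rat.cast_neg, Rat.cast_add, Rat.cast_natCast,
    Rat.cast_intCast, Rat.cast_one, eq_intCast, map_neg, Int.cast_neg]
  field_simp

theorem psi_const : constantCoeff psiC = 0 := by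
  rw [psiC, ← coeff_zero_eq_constantCoeff_apply, coeff_map, psiQ, coeff_mk]
  simp

theorem zet_const : constantCoeff zetC = 0 := by
  rw [zetC, ← coeff_zero_eq_constantCoeff_apply, coeff_map, zetQ, coeff_mk]
  simp

end S1

/-- Statement S1. -/
theorem t_S1 : S_S1 :=
  ⟨⟨S1.Zs_const, S1.Zs_eq, S1.Ps_mul⟩, ⟨S1.ZC_const, S1.ZC_eq, S1.PC_mul, S1.d_ZC⟩,
    ⟨S1.d_psi, S1.d_zet, S1.psi_const, S1.zet_const⟩⟩

end Pool.Agent.MPb60633
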