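import Pool.Agent.Lib.MP_b60633_nt.SpecS
import Pool.Agent.Lib.MP_b60633_nt.W.HfLin

/-!
# MP_b60633_nt, Z13: vanishing of the rows means vanishing at `w/2` (helper11)
-/

set_option autoImplicit false

namespace Pool.Agent.MPb60633

namespace Z13

open Complex PowerSeries Pool.Agent.Lib.Ribet4b482e HfLin

/-- `f` has a bound with radius `1/8` and the value `v` at `s`. -/
def Good (f : PowerSeries ℂ) (s v : ℂ) : Prop := (∃ A, Bd f (1 / 8) A) ∧ evs f s = v

section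

variable (h2 : S_S2) (h4 : S_S4) {f g : PowerSeries ℂ} {s u v : ℂ}

include h2 h4

lemma good_C (x s : ℂ) : Good (PowerSeries.C x) s x :=
  ⟨⟨_, (h2 (1 / 8) (by norm_num)).2.2.2.1 x⟩, ((h4 (1 / 8) (by norm_num)).2.2.1 x s).1⟩

lemma good_X (s : ℂ) : Good PowerSeries.X s s :=
  ⟨⟨_, (h2 (1 / 8) (by norm_num)).2.2.2.2.1⟩, ((h4 (1 / 8) (by norm_num)).2.2.1 0 s).2⟩

lemma good_add (hs : ‖s‖ ≤ 1 / 8) (hf : Good f s u) (hg : Good g s v) : Good (f + g) s (u + v) := by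
  obtain ⟨⟨A, hA⟩, rfl⟩ := hf
  obtain ⟨⟨B, hB⟩, rfl⟩ := hg
  exact ⟨⟨_, (h2 (1 / 8) (by norm_num)).1 f g A B hA hB⟩,
    ((h4 (1 / 8) (by norm_num)).2.1 f g A B s hA hB hs).1⟩

lemma good_mul (hs : ‖s‖ ≤ 1 / 8) (hf : Good f s u) (hg : Good g s v) : Good (f * g) s (u * v) := by
  obtain ⟨⟨A, hA⟩, rfl⟩ := hf
  obtain ⟨⟨B, hB⟩, rfl⟩ := hg
  exact ⟨⟨_, (h2 (1 / 8) (by norm_num)).2.1 f g A B hA hB⟩,
    ((h4 (1 / 8) (by norm_num)).2.1 f g A B s hA hB hs).2⟩

lemma good_pow (hs : ‖s‖ ≤ 1 / 8) (hf : Good f s u) (k : ℕ) : Good (f ^ k) s (u ^ k) := by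
  induction k with
  | zero =>
    have := good_C h2 h4 1 s
    rwa [map_one] at this
  | succ k ih =>
    rw [pow_succ, pow_succ]
    exact good_mul h2 h4 hs ih hf

lemma good_sum (hs : ‖s‖ ≤ 1 / 8) {ι : Type} (S : Finset ι) (f : ι → PowerSeries ℂ) (u : ι → ℂ)
    (hf : ∀ i ∈ S, Good (f i) s (u i)) : Good (∑ i ∈ S, f i) s (∑ i ∈ S, u i) := by
  classical
  induction S using Finset.induction_on with
  | empty =>
    have := good_C h2 h4 0 s
    rw [map_zero] at this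
    simpa using this
  | insert a t ha ih =>
    rw [Finset.sum_insert ha, Finset.sum_insert ha]
    exact good_add h2 h4 hs (hf a (Finset.mem_insert_self _ _))
      (ih fun i hi => hf i (Finset.mem_insert_of_mem hi))

end

/-- Division by `X ^ T`. -/
lemma shift (f : PowerSeries ℂ) (T : ℕ) (h : ∀ t < T, coeff t f = 0) {A : ℝ}
    (hA : Bd f (1 / 8) A) :
    ∃ g : PowerSeries ℂ, f = PowerSeries.X ^ T * g ∧ Bd g (1 / 8) (8 ^ T * A) := by
  obtain ⟨g, hg⟩ := PowerSeries.X_pow_dvd_iff.mpr h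
  refine ⟨g, hg, ?_⟩
  intro N
  have h1 : ∀ n, coeff n g = coeff (n + T) f := by
    intro n
    rw [hg, PowerSeries.coeff_X_pow_mul]
  have h2 := hA (T + N)
  rw [Finset.sum_range_add] at h2
  have h3 : 0 ≤ ∑ n ∈ Finset.range T, ‖coeff n f‖ * (1 / 8 : ℝ) ^ n :=
    Finset.sum_nonneg fun _ _ => by positivity
  have h4 : ∑ x ∈ Finset.range N, ‖coeff (T + x) f‖ * (1 / 8 : ℝ) ^ (T + x) =
      (1 / 8 : ℝ) ^ T * ∑ x ∈ Finset.range N, ‖coeff x g‖ * (1 / 8 : ℝ) ^ x := by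
    rw [Finset.mul_sum]
    apply Finset.sum_congr rfl
    intro x _
    rw [h1, add_comm x T, pow_add]
    ring
  rw [h4] at h2
  have h5 : (1 / 8 : ℝ) ^ T * ∑ x ∈ Finset.range N, ‖coeff x g‖ * (1 / 8 : ℝ) ^ x ≤ A := by
    linarith
  have h6 : (8 : ℝ) ^ T * (1 / 8 : ℝ) ^ T = 1 := by
    rw [← mul_pow]
    norm_num
  calc ∑ x ∈ Finset.range N, ‖coeff x g‖ * (1 / 8 : ℝ) ^ x
      = (8 : ℝ) ^ T * (1 / 8 : ℝ) ^ T * ∑ x ∈ Finset.range N, ‖coeff x g‖ * (1 / 8 : ℝ) ^ x := by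
        rw [h6, one_mul]
    _ = (8 : ℝ) ^ T * ((1 / 8 : ℝ) ^ T * ∑ x ∈ Finset.range N, ‖coeff x g‖ * (1 / 8 : ℝ) ^ x) := by
        ring
    _ ≤ 8 ^ T * A := by gcongr

/-- `evs f` is analytic at `0`. -/
lemma analyticAt_evs (h4 : S_S4) {f : PowerSeries ℂ} {A : ℝ} (hA : Bd f (1 / 8) A) :
    AnalyticAt ℂ (evs f) 0 := by
  have h1 : DifferentiableOn ℂ (evs f) (Metric.ball 0 (1 / 8)) := by
    intro s hs
    rw [Metric.mem_ball, dist_zero_right] at hs
    exact ((h4 (1 / 8) (by norm_num)).2.2.2.2 f A s hA hs).differentiableAt.differentiableWithinAt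
  exact h1.analyticAt (Metric.ball_mem_nhds _ (by norm_num))

end Z13

open Complex PowerSeries Pool.Agent.Lib.Ribet4b482e HfLin Z13 in
/-- Vanishing of the rows means vanishing at `w/2`. -/
theorem t_Z13 (h1 : S_S1) (h2 : S_S2) (h3 : S_S3) (h4 : S_S4) : S_Z13 := by
  intro L w hL hpar hg l n T α β a b F hF hrow
  set x0 := kap a b * α with hx0
  set y0 := kap a (-b) * β with hy0
  set P := 2 * n + 1 + l with hP
  set B := Tr (x0 - w / 2) (y0 - (Real.pi / w : ℝ) / 2) F with hB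
  obtain ⟨-, -, -, -, hZ, hpsi, hzet⟩ := h3
  -- the power series
  set ser : (Fin 4 →₀ ℕ) → PowerSeries ℂ := fun c =>
    (PowerSeries.C x0 + psiC) ^ c 0 * (PowerSeries.C y0 + zetC) ^ c 1 *
      (1 + 2 * ZC) ^ c 2 * (4 * PowerSeries.X) ^ c 3 with hser
  set gg : PowerSeries ℂ := ∑ c ∈ F.support, PowerSeries.C (F.coeff c) * ser c with hgg
  have hcoef : ∀ t < T, coeff t gg = 0 := by
    intro t ht
    rw [hgg, map_sum, ← hrow t ht]
    apply Finset.sum_congr rfl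
    intro c _
    rw [PowerSeries.coeff_C_mul]
    rfl
  have hgood : ∀ s : ℂ, ‖s‖ ≤ 1 / 8 → Good gg s (∑ c ∈ F.support, F.coeff c *
      ((x0 + evs psiC s) ^ c 0 * (y0 + evs zetC s) ^ c 1 * (1 + 2 * evs ZC s) ^ c 2 *
        (4 * s) ^ c 3)) := by
    intro s hs
    rw [hgg]
    apply good_sum h2 h4 hs
    intro c _
    apply good_mul h2 h4 hs (good_C h2 h4 _ _)
    rw [hser]
    have g1 : Good (PowerSeries.C x0 + psiC) s (x0 + evs psiC s) :=
      good_add h2 h4 hs (good_C h2 h4 _ _) ⟨⟨_, hpsi⟩, rfl⟩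
    have g2 : Good (PowerSeries.C y0 + zetC) s (y0 + evs zetC s) :=
      good_add h2 h4 hs (good_C h2 h4 _ _) ⟨⟨_, hzet⟩, rfl⟩
    have g3 : Good (1 + 2 * ZC) s (1 + 2 * evs ZC s) := by
      have e1 := good_C h2 h4 1 s
      have e2 := good_C h2 h4 2 s
      rw [map_one] at e1
      rw [map_ofNat] at e2
      exact good_add h2 h4 hs e1 (good_mul h2 h4 hs e2 ⟨⟨_, hZ⟩, rfl⟩)
    have g4 : Good (4 * PowerSeries.X) s (4 * s) := by
      have e2 := good_C h2 h4 4 s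
      rw [map_ofNat] at e2
      exact good_mul h2 h4 hs e2 (good_X h2 h4 s)
    exact good_mul h2 h4 hs (good_mul h2 h4 hs (good_mul h2 h4 hs (good_pow h2 h4 hs g1 _)
      (good_pow h2 h4 hs g2 _)) (good_pow h2 h4 hs g3 _)) (good_pow h2 h4 hs g4 _)
  -- the values of `Hf`
  have hval : ∀ s : ℂ, ‖s‖ ≤ 1 / 8 → Hf L P B ((w : ℂ) / 2 + evs psiC s) =
      sigmaW L ((w : ℂ) / 2 + evs psiC s) ^ P * evs gg s := by
    intro s hs
    obtain ⟨hz, hwp, hwp', hze⟩ := hpar s hs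
    rw [(hgood s hs).2]
    set z := (w : ℂ) / 2 + evs psiC s with hzdef
    have key : ∀ G ∈ Box l n, (HfL L P z ∘ₗ Tr (x0 - w / 2) (y0 - (Real.pi / w : ℝ) / 2)) G =
        ((sigmaW L z ^ P) • (MvPolynomial.aeval (R := ℂ)
          ![x0 + evs psiC s, y0 + evs zetC s, 1 + 2 * evs ZC s, 4 * s]).toLinearMap) G := by
      apply box_ext
      intro s1 t1 k e hs1 ht1 hk he
      rw [LinearMap.comp_apply, Tr_X4, LinearMap.smul_apply, AlgHom.toLinearMap_apply, map_mul,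
        map_mul, map_mul, map_pow, map_pow, map_pow, map_pow, MvPolynomial.aeval_X,
        MvPolynomial.aeval_X, MvPolynomial.aeval_X, MvPolynomial.aeval_X, map_sum]
      have e0 : (![x0 + evs psiC s, y0 + evs zetC s, 1 + 2 * evs ZC s, 4 * s] : Fin 4 → ℂ) 0 =
          z + (x0 - w / 2) := by
        show x0 + evs psiC s = z + (x0 - w / 2)
        rw [hzdef]
        ring
      have e1 : (![x0 + evs psiC s, y0 + evs zetC s, 1 + 2 * evs ZC s, 4 * s] : Fin 4 → ℂ) 1 =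
          zetaW L z + (y0 - (Real.pi / w : ℝ) / 2) := by
        show y0 + evs zetC s = zetaW L z + (y0 - (Real.pi / w : ℝ) / 2)
        rw [hze]
        push_cast
        ring
      have e2 : (![x0 + evs psiC s, y0 + evs zetC s, 1 + 2 * evs ZC s, 4 * s] : Fin 4 → ℂ) 2 =
          L.weierstrassP z := hwp.symm
      have e3 : (![x0 + evs psiC s, y0 + evs zetC s, 1 + 2 * evs ZC s, 4 * s] : Fin 4 → ℂ) 3 =
          L.derivWeierstrassP z := hwp'.symm
      rw [e0, e1, e2, e3, add_pow, add_pow, smul_eq_mul, Finset.sum_mul, Finset.sum_mul,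
        Finset.sum_mul, Finset.mul_sum]
      apply Finset.sum_congr rfl
      intro s' _
      rw [map_sum, Finset.mul_sum, Finset.sum_mul, Finset.sum_mul, Finset.mul_sum]
      apply Finset.sum_congr rfl
      intro t' ht'
      rw [Finset.mem_range] at ht'
      rw [map_smul, HfL_apply, Hf_X4, smul_eq_mul, (hg P s' t' k e).2 (by omega) z hz]
      ring
    have h := key F hF
    rw [LinearMap.comp_apply, HfL_apply, LinearMap.smul_apply, AlgHom.toLinearMap_apply,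
      smul_eq_mul, MvPolynomial.aeval_def, MvPolynomial.eval₂_eq'] at h
    rw [hB, h]
    congr 1
    apply Finset.sum_congr rfl
    intro c _
    rw [Fin.prod_univ_four]
    rfl
  -- division by `X ^ T`
  obtain ⟨A, hA⟩ := (hgood 0 (by simp)).1
  obtain ⟨g', hgg', hBd'⟩ := shift gg T hcoef hA
  have hval2 : ∀ s : ℂ, ‖s‖ ≤ 1 / 8 → evs gg s = s ^ T * evs g' s := by
    intro s hs
    have e1 := good_pow h2 h4 hs (good_X h2 h4 s) T
    have e2 := good_mul h2 h4 hs e1 ⟨⟨_, hBd'⟩, rfl⟩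
    rw [hgg']
    exact e2.2
  -- the parametrisation
  set u : ℂ → ℂ := fun s => (w : ℂ) / 2 + evs psiC s with hu
  have hpsi0 : evs psiC 0 = 0 := by
    rw [(h4 (1 / 8) (by norm_num)).2.2.2.1 psiC]
    exact h1.2.2.2.2.1
  have hu0 : u 0 = (w : ℂ) / 2 := by
    rw [hu]
    simp only [hpsi0, add_zero]
  have huan : AnalyticAt ℂ u 0 := analyticAt_const.add (analyticAt_evs h4 hpsi)
  have hder : HasDerivAt u (evs (d⁄dX ℂ psiC) 0) 0 :=
    ((h4 (1 / 8) (by norm_num)).2.2.2.2 psiC _ 0 hpsi (by norm_num)).const_add _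
  have hder1 : evs (d⁄dX ℂ psiC) 0 = 1 := by
    rw [h1.2.2.1, (h4 (1 / 8) (by norm_num)).2.2.2.1 PC]
    have e1 : PC * (1 + 6 * ZC + 6 * ZC ^ 2) = 1 := h1.2.1.2.2.1
    have e2 := congrArg (constantCoeff (R := ℂ)) e1
    rw [map_mul, map_add, map_add, map_mul, map_mul, map_pow, h1.2.1.1, map_one] at e2
    simpa using e2
  have hder0 : deriv u 0 ≠ 0 := by
    rw [hder.deriv, hder1]
    exact one_ne_zero
  have hHan : ∀ z, AnalyticAt ℂ (Hf L P B) z := by
    intro z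
    have : Differentiable ℂ (Hf L P B) := by
      have e1 : Hf L P B = fun z => ∑ c ∈ B.support, B.coeff c *
        gfun L P (c 0) (c 1) (c 2) (c 3) z := rfl
      rw [e1]
      apply Differentiable.fun_sum
      intro c _
      exact (hg P (c 0) (c 1) (c 2) (c 3)).1.const_mul _
    exact this.analyticAt z
  have hord := analyticOrderAt_comp_of_deriv_ne_zero (f := Hf L P B) huan hder0
  rw [hu0] at hord
  rw [← hord]
  have hcomp : AnalyticAt ℂ (Hf L P B ∘ u) 0 := (hHan _).comp huan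
  rw [natCast_le_analyticOrderAt hcomp]
  have hsig : AnalyticAt ℂ (sigmaW L) (u 0) := (differentiable_sigmaW L).analyticAt _
  refine ⟨fun s => sigmaW L (u s) ^ P * evs g' s, ?_, ?_⟩
  · exact ((hsig.comp huan).pow P).mul (analyticAt_evs h4 hBd')
  · have hmem : Metric.ball (0 : ℂ) (1 / 8) ∈ nhds (0 : ℂ) := Metric.ball_mem_nhds _ (by norm_num)
    filter_upwards [hmem] with s hs
    rw [Metric.mem_ball, dist_zero_right] at hs
    rw [Function.comp_apply, hu]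
    simp only []
    rw [hval s hs.le, hval2 s hs.le, sub_zero, smul_eq_mul]
    ring

end Pool.Agent.MPb60633
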