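import Pool.Agent.Lib.MP_b60633_nt.W.Z1

/-! # Z2: the rank lemma -/

set_option autoImplicit false

namespace Pool.Agent.MPb60633

open Complex Pool.Agent.Lib.Ribet4b482e Module

namespace Z2

/-- a polynomial of degree `< M` with `M` zeros vanishes -/
theorem van {M : ℕ} (e : ℕ → ℂ) (x₀ : ℂ)
    (h : ∀ p < M, ∑ i ∈ Finset.range M, (x₀ + (p : ℕ)) ^ i / (i.factorial : ℂ) * e i = 0) :
    ∀ i < M, e i = 0 := by
  have hinj : Function.Injective (fun p : Fin M => x₀ + ((p : ℕ) : ℂ)) := by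
    intro p q hpq
    have h1 : ((p : ℕ) : ℂ) = ((q : ℕ) : ℂ) := add_left_cancel hpq
    exact Fin.ext (by exact_mod_cast h1)
  have h0 := Matrix.eq_zero_of_forall_index_sum_pow_mul_eq_zero hinj
    (v := fun i : Fin M => e i / (Nat.factorial (i : ℕ) : ℂ)) (by
      intro p
      rw [← h p p.2, Finset.sum_range]
      apply Finset.sum_congr rfl
      intro i _
      ring)
  intro i hi
  have h1 := congrFun h0 ⟨i, hi⟩
  simp only [Pi.zero_apply] at h1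
  rcases div_eq_zero_iff.1 h1 with h2 | h2
  · exact h2
  · exact absurd h2 (by exact_mod_cast Nat.factorial_ne_zero i)

theorem sum_cut {M N : ℕ} (h : M ≤ N) (g : ℕ → ℂ) (hg : ∀ i, M ≤ i → g i = 0) :
    ∑ i ∈ Finset.range N, g i = ∑ i ∈ Finset.range M, g i := by
  symm
  apply Finset.sum_subset (Finset.range_mono h)
  intro i _ hi
  exact hg i (not_lt.1 (fun h => hi (Finset.mem_range.2 h)))

end Z2

theorem t_Z2 (hZ1 : S_Z1) : S_Z2 := by
  intro V _ _ _ D₁ D₂ F₀ N M u₀ v₀ hcomm hN1 hN2 hMN hspan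
  set R₁ := LinearMap.range (D₁ ^ M) with hR₁
  set R₂ := LinearMap.range (D₂ ^ M) with hR₂
  have hcm : Commute D₁ D₂ := hcomm
  -- dimension of `V / R`
  have hst : R₁ ≤ R₁.comap D₂ := by
    rintro _ ⟨x, rfl⟩
    refine ⟨D₂ x, ?_⟩
    have h := (hcm.pow_left M).eq
    exact LinearMap.congr_fun h x
  set D' : (V ⧸ R₁) →ₗ[ℂ] (V ⧸ R₁) := R₁.mapQ R₁ D₂ hst with hD'
  have hD'pow : ∀ k, ∃ h, D' ^ k = R₁.mapQ R₁ (D₂ ^ k) h := fun k =>
    ⟨R₁.le_comap_pow_of_le_comap hst k, (Submodule.mapQ_pow R₁ hst k).symm⟩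
  have hD'N : D' ^ N = 0 := by
    obtain ⟨h, e⟩ := hD'pow N
    rw [e]
    apply Submodule.linearMap_qext
    ext x
    simp [hN2]
  have h1 := hZ1 V D₁ N M hN1 hMN
  have h2 := hZ1 (V ⧸ R₁) D' N M hD'N hMN
  have h3 := LinearMap.finrank_range_add_finrank_ker (D₁ ^ M)
  have h4 := LinearMap.finrank_range_add_finrank_ker (D' ^ M)
  have h5 := R₁.finrank_quotient_add_finrank
  have e6 : LinearMap.range (D' ^ M) = (R₁ ⊔ R₂).map R₁.mkQ := by
    obtain ⟨h, e⟩ := hD'pow M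
    rw [e, Submodule.range_mapQ, Submodule.map_sup, Submodule.mkQ_map_self, bot_sup_eq]
  have h7 := Z1.rn V (V ⧸ R₁) R₁.mkQ (R₁ ⊔ R₂)
  rw [Submodule.ker_mkQ, inf_eq_right.2 (le_sup_left : R₁ ≤ R₁ ⊔ R₂), ← e6] at h7
  -- `S ⊔ R = ⊤`
  set S := Submodule.span ℂ (Set.range fun pq : Fin M × Fin M =>
    GG D₁ D₂ N F₀ (u₀ + (pq.1 : ℕ)) (v₀ + (pq.2 : ℕ))) with hS
  have htop : S ⊔ (R₁ ⊔ R₂) = ⊤ := by
    by_contra hne
    obtain ⟨φ, hφ0, hφ⟩ := Submodule.exists_le_ker_of_lt_top _ (lt_top_iff_ne_top.2 hne)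
    apply hφ0
    set c : ℕ → ℕ → ℂ := fun i j => φ ((D₁ ^ i * D₂ ^ j) F₀) with hc
    have hc1 : ∀ i j, M ≤ i → c i j = 0 := by
      intro i j hi
      have hmem : (D₁ ^ i * D₂ ^ j) F₀ ∈ R₁ := by
        refine ⟨(D₁ ^ (i - M) * D₂ ^ j) F₀, ?_⟩
        rw [← Module.End.mul_apply, ← mul_assoc, ← pow_add, Nat.add_sub_cancel' hi]
      exact hφ ((le_sup_left.trans le_sup_right : R₁ ≤ S ⊔ (R₁ ⊔ R₂)) hmem)
    have hc2 : ∀ i j, M ≤ j → c i j = 0 := by
      intro i j hj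
      have hmem : (D₁ ^ i * D₂ ^ j) F₀ ∈ R₂ := by
        refine ⟨(D₂ ^ (j - M) * D₁ ^ i) F₀, ?_⟩
        rw [← Module.End.mul_apply, ← mul_assoc, ← pow_add, Nat.add_sub_cancel' hj,
          ((hcm.pow_pow i j).symm).eq]
      exact hφ ((le_sup_right.trans le_sup_right : R₂ ≤ S ⊔ (R₁ ⊔ R₂)) hmem)
    have hGG : ∀ p < M, ∀ q < M, ∑ i ∈ Finset.range M, (u₀ + (p : ℕ)) ^ i / (i.factorial : ℂ) *
        ∑ j ∈ Finset.range M, (v₀ + (q : ℕ)) ^ j / (j.factorial : ℂ) * c i j = 0 := by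
      intro p hp q hq
      have hmem : GG D₁ D₂ N F₀ (u₀ + (p : ℕ)) (v₀ + (q : ℕ)) ∈ S :=
        Submodule.subset_span ⟨(⟨p, hp⟩, ⟨q, hq⟩), rfl⟩
      have h0 : φ (GG D₁ D₂ N F₀ (u₀ + (p : ℕ)) (v₀ + (q : ℕ))) = 0 :=
        hφ ((le_sup_left : S ≤ S ⊔ (R₁ ⊔ R₂)) hmem)
      unfold GG at h0
      rw [map_sum] at h0
      rw [← h0]
      have e1 : ∀ i, φ (∑ j ∈ Finset.range N, ((u₀ + (p : ℕ)) ^ i / (i.factorial : ℂ) *
          ((v₀ + (q : ℕ)) ^ j / (j.factorial : ℂ))) • (D₁ ^ i * D₂ ^ j) F₀) =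
          (u₀ + (p : ℕ)) ^ i / (i.factorial : ℂ) *
          ∑ j ∈ Finset.range M, (v₀ + (q : ℕ)) ^ j / (j.factorial : ℂ) * c i j := by
        intro i
        rw [map_sum, Finset.mul_sum]
        rw [← Z2.sum_cut hMN]
        · apply Finset.sum_congr rfl
          intro j _
          rw [map_smul, smul_eq_mul, mul_assoc]
        · intro j hj
          rw [hc2 i j hj, mul_zero, mul_zero]
      rw [Finset.sum_congr rfl (fun i _ => e1 i)]
      symm
      apply Z2.sum_cut hMN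
      intro i hi
      rw [Finset.sum_eq_zero (fun j _ => by rw [hc1 i j hi, mul_zero]), mul_zero]
    have hcz : ∀ i j, c i j = 0 := by
      intro i j
      by_cases hi : M ≤ i
      · exact hc1 i j hi
      by_cases hj : M ≤ j
      · exact hc2 i j hj
      push Not at hi hj
      have hrow : ∀ q < M, ∑ j ∈ Finset.range M, (v₀ + (q : ℕ)) ^ j / (j.factorial : ℂ) * c i j = 0 := by
        intro q hq
        exact Z2.van (fun i => ∑ j ∈ Finset.range M, (v₀ + (q : ℕ)) ^ j / (j.factorial : ℂ) * c i j) u₀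
          (fun p hp => hGG p hp q hq) i hi
      exact Z2.van (c i) v₀ hrow j hj
    have hker : (⊤ : Submodule ℂ V) ≤ LinearMap.ker φ := by
      rw [← hspan, Submodule.span_le]
      rintro _ ⟨ij, rfl⟩
      exact hcz ij.1 ij.2
    exact LinearMap.ker_eq_top.1 (top_le_iff.1 hker)
  have h8 := Submodule.finrank_add_le_finrank_add_finrank S (R₁ ⊔ R₂)
  rw [htop, finrank_top] at h8
  -- conclusion
  set v := finrank ℂ V
  set q := finrank ℂ (V ⧸ R₁)
  set k1 := finrank ℂ (LinearMap.ker (D₁ ^ M))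
  set k2 := finrank ℂ (LinearMap.ker (D' ^ M))
  set s := finrank ℂ S
  have e9 : k1 = q := by
    change finrank ℂ R₁ + k1 = v at h3
    omega
  have e10 : k2 ≤ s := by omega
  rw [e9] at h1
  calc M ^ 2 * v = M * (M * v) := by ring
    _ ≤ M * (N * q) := Nat.mul_le_mul_left _ h1
    _ = N * (M * q) := by ring
    _ ≤ N * (N * k2) := Nat.mul_le_mul_left _ h2
    _ = N ^ 2 * k2 := by ring
    _ ≤ N ^ 2 * s := Nat.mul_le_mul_left _ e10

end Pool.Agent.MPb60633
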